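import Pool.Agent.Mg.F38b55ap.G627514

set_option autoImplicit false

namespace Pool.Agent.MP38b55a

universe u

theorem five_a {R : Type*} [Ring R] (hp : (5 : R) = 0) (u v w b : R) (h4 : v * v * v * v = 0)
    (hw : w = u * (u * v - v * u) - (u * v - v * u) * u)
    (hb : b = v * (v * (v * u - u * v) - (v * u - u * v) * v) -
      (v * (v * u - u * v) - (v * u - u * v) * v) * v)
    (h1 : u * v * v * v + v * u * v * v + v * v * u * v + v * v * v * u = 0)
    (h2 : w * v * v * v + v * w * v * v + v * v * w * v + v * v * v * w = 0) : b * b * b = 0 := by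
  subst hw hb
  linear_combination (norm := noncomm_ring) h1 * (v * v * v * u * v * v * v * u) + 2 * (h1 * (v
    * v * v * u * v * v * u * v)) - 2 * (h1 * (v * v * v * u * v * u * v * v)) - h1 * (v * v * v
    * u * u * v * v * v) + 2 * (v * v * v * u * v * v * u * h4 * (u)) - h1 * (v * v * u * v * v
    * v * u * v) + h1 * (v * v * u * v * v * u * v * v) - 2 * (h1 * (v * v * u * v * u * v * v *
    v)) - 2 * (v * v * v * u * v * u * h4 * (v * u)) + v * v * v * u * v * u * h4 * (u * v) - h1
    * (v * u * v * v * v * u * v * v) - 2 * (h1 * (v * u * v * v * u * v * v * v)) - v * v * v *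
    u * u * h4 * (v * v * u) - 2 * (v * v * v * u * u * h4 * (v * u * v)) + 2 * (v * v * v * u *
    u * h4 * (u * v * v)) + v * v * u * h4 * (u * v * v * v * u) + 2 * (v * v * u * h4 * (u * v
    * v * u * v)) - 2 * (v * v * u * h4 * (u * v * u * v * v)) - v * v * u * h4 * (u * u * v * v
    * v) - v * v * u * v * v * v * u * h4 * (u) - v * v * u * h1 * (v * v * v * u * v) + v * v *
    u * h1 * (v * v * u * v * v) - 2 * (v * v * u * h1 * (v * u * v * v * v)) + v * v * u * v *
    v * u * h4 * (v * u) - 2 * (v * v * u * v * v * u * h4 * (u * v)) - 2 * (v * v * u * v * v *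
    u * h1 * (v * v)) - 2 * (h2 * (v * v * u * v * v * v)) + 2 * (h4 * (u * u * v * v * u * v *
    v * v)) + 2 * (v * v * u * v * v * u * v * u * h4) + 2 * (v * v * u * v * v * u * u * h4 *
    (v)) - 2 * (v * v * u * v * u * h4 * (v * v * u)) + 2 * (v * v * u * v * u * h4 * (v * u *
    v)) - 2 * (v * v * u * v * u * h4 * (u * v * v)) + v * v * u * u * h4 * (v * v * u * v) - v
    * v * u * u * h4 * (v * u * v * v) + v * v * u * u * h4 * (u * v * v * v) + 2 * (v * u * h4
    * (v * u * v * v * v * u)) - v * u * h4 * (v * u * v * v * u * v) + v * u * h4 * (v * u * v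
    * u * v * v) - 2 * (v * u * h4 * (v * u * u * v * v * v)) + v * u * h4 * (u * v * v * v * v
    * u) - 2 * (v * u * h4 * (u * v * v * v * u * v)) + 2 * (v * u * h4 * (u * v * v * u * v *
    v)) + v * u * h4 * (u * v * u * v * v * v) - v * u * v * v * v * u * h4 * (v * u) - 2 * (v *
    u * v * v * v * u * h4 * (u * v)) - 2 * (v * u * h1 * (v * v * v * u * v * v)) - 2 * (v * u
    * h1 * (v * v * u * v * v * v)) + 2 * (v * u * v * v * u * h4 * (v * v * u)) - v * u * v * v
    * u * h4 * (v * u * v) - 2 * (v * u * v * v * u * h4 * (u * v * v)) + 2 * (v * u * v * u *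
    h4 * (v * u * v * v)) - 2 * (v * u * v * u * h4 * (u * v * v * v)) + 2 * (v * u * u * h4 *
    (v * v * u * v * v)) + v * u * u * h4 * (v * u * v * v * v) - 2 * (u * h4 * (v * v * u * v *
    v * v * u)) + u * h4 * (v * v * u * v * v * u * v) - u * h4 * (v * v * u * v * u * v * v) +
    2 * (u * h4 * (v * v * u * u * v * v * v)) - 2 * (u * h4 * (v * u * v * v * v * v * u)) + 2
    * (u * h4 * (v * u * v * v * v * u * v)) - 2 * (u * h4 * (v * u * v * v * u * v * v)) - u *
    h4 * (v * u * v * u * v * v * v) + 2 * (u * h4 * (u * v * v * v * v * v * u)) - u * h4 * (u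
    * v * v * v * v * u * v) + 2 * (u * h4 * (u * v * v * v * u * v * v)) + u * v * v * v * u *
    h4 * (v * v * u) + 2 * (u * v * v * v * u * h4 * (v * u * v)) - 2 * (u * v * v * v * u * h4
    * (u * v * v)) - u * h1 * (v * v * v * u * v * v * v) + u * v * v * u * h4 * (u * v * v * v)
    + 2 * (u * v * u * h4 * (v * u * v * v * v)) - 2 * (u * u * h4 * (v * v * u * v * v * v)) +
    hp * (u * u * v * v * v * v * v * v * u * v * v * v - u * v * u * v * v * v * v * v * u * v
    * v * v + u * v * v * v * u * v * v * v * v * u * v * v - u * v * v * v * u * v * v * v * v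
    * v * u * v + u * v * v * v * v * u * v * v * u * v * v * v - 2 * (u * v * v * v * v * u * v
    * v * v * u * v * v) + 2 * (u * v * v * v * v * u * v * v * v * v * u * v) - u * v * v * v *
    v * u * v * v * v * v * v * u + 2 * (u * v * v * v * v * v * u * v * v * u * v * v) - 2 * (u
    * v * v * v * v * v * u * v * v * v * u * v) + u * v * v * v * v * v * u * v * v * v * v * u
    + v * u * u * v * v * v * v * v * u * v * v * v + v * u * v * v * u * v * v * v * u * v * v
    * v - v * u * v * v * u * v * v * v * v * u * v * v + 2 * (v * u * v * v * u * v * v * v * v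
    * v * u * v) - v * u * v * v * u * v * v * v * v * v * v * u - v * u * v * v * v * u * v * v
    * u * v * v * v + 6 * (v * u * v * v * v * u * v * v * v * u * v * v) - 5 * (v * u * v * v *
    v * u * v * v * v * v * u * v) + 2 * (v * u * v * v * v * u * v * v * v * v * v * u) + 2 *
    (v * u * v * v * v * v * u * v * u * v * v * v) - 6 * (v * u * v * v * v * v * u * v * v * u
    * v * v) + 6 * (v * u * v * v * v * v * u * v * v * v * u * v) - 2 * (v * u * v * v * v * v
    * u * v * v * v * v * u) + 2 * (v * u * v * v * v * v * v * u * v * u * v * v) - 2 * (v * u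
    * v * v * v * v * v * u * v * v * u * v) + v * v * u * u * v * v * v * v * u * v * v * v - v
    * v * u * v * u * v * v * v * u * v * v * v + 2 * (v * v * u * v * u * v * v * v * v * u * v
    * v) - 2 * (v * v * u * v * u * v * v * v * v * v * u * v) + v * v * u * v * u * v * v * v *
    v * v * v * u + 3 * (v * v * u * v * v * u * v * v * u * v * v * v) - 5 * (v * v * u * v * v
    * u * v * v * v * u * v * v) + 6 * (v * v * u * v * v * u * v * v * v * v * u * v) - 2 * (v
    * v * u * v * v * u * v * v * v * v * v * u) - v * v * u * v * v * v * u * v * u * v * v * v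
    + 5 * (v * v * u * v * v * v * u * v * v * u * v * v) - 5 * (v * v * u * v * v * v * u * v *
    v * v * u * v) + 2 * (v * v * u * v * v * v * u * v * v * v * v * u) + v * v * u * v * v * v
    * v * u * u * v * v * v - v * v * u * v * v * v * v * u * v * u * v * v + v * v * u * v * v
    * v * v * u * v * v * u * v - v * v * u * v * v * v * v * u * v * v * v * u + v * v * v * u
    * u * v * v * v * u * v * v * v - v * v * v * u * u * v * v * v * v * u * v * v + v * v * v
    * u * u * v * v * v * v * v * u * v - v * v * v * u * v * u * v * v * u * v * v * v + 2 * (v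
    * v * v * u * v * u * v * v * v * u * v * v) - 2 * (v * v * v * u * v * u * v * v * v * v *
    u * v) + v * v * v * u * v * u * v * v * v * v * v * u + v * v * v * u * v * v * u * v * u *
    v * v * v - 2 * (v * v * v * u * v * v * u * v * v * u * v * v) + 2 * (v * v * v * u * v * v
    * u * v * v * v * u * v) - v * v * v * u * v * v * u * v * v * v * v * u + v * v * v * u * v
    * v * v * u * v * u * v * v - v * v * v * u * v * v * v * u * v * v * u * v)

theorem five_b {R : Type*} [Ring R] (hp : (5 : R) = 0) (b x e : R) (h3 : b * b * b = 0)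
    (he : e = b * (b * x - x * b) - (b * x - x * b) * b) (h0 : b * e - e * b = 0)
    (h1 : x * b * b * b + b * x * b * b + b * b * x * b + b * b * b * x = 0)
    (h2 : b * b * x * x + b * x * b * x + b * x * x * b + x * b * b * x + x * b * x * b +
      x * x * b * b = 0) : e * e = 0 := by
  subst he
  linear_combination (norm := noncomm_ring) 0 * hp - x * x * h3 * (b) - x * b * x * h3 - b * x *
    h1 + b * x * x * h3 - 2 * (h1 * (x * b)) + h2 * (b * b) + 2 * (b * x * h3 * (x)) + b * x *
    h0 + h1 * (b * x) + 2 * (h3 * (x * x * b)) - h3 * (x * b * x) + hp * (0 - b * x * b * b * b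
    * x + 2 * (b * x * b * b * x * b) - b * x * b * x * b * b)

theorem perm4 {R : Type*} [Ring R] (x : Fin 4 → R) :
    ∑ σ : Equiv.Perm (Fin 4), (List.ofFn fun i => x (σ i)).prod =
      ((List.permutations' [0, 1, 2, 3]).map fun l : List (Fin 4) => (l.map x).prod).sum := by
  simp only [Finset.univ_perm_fin_succ, Finset.sum_map, Fintype.sum_prod_type, Fin.sum_univ_succ,
    List.ofFn_succ, List.ofFn_zero, List.prod_cons, List.prod_nil, Equiv.coe_toEmbedding,
    Equiv.Perm.decomposeFin_symm_apply_zero, Equiv.Perm.decomposeFin_symm_apply_succ,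
    Finset.univ_unique, Finset.sum_singleton]
  simp [Equiv.swap_apply_def, List.permutations', List.permutations'Aux]
  abel

theorem ai_four : AI.{u} 4 := by
  intro L _ ht hE a ha
  have hc : ∀ (m : ℕ), Nat.Coprime m 5 → ∀ A : Module.End ℤ L, m • A = 0 → A = 0 :=
    fun m hm A hA => cancel_of_coprime hm (end_tors ht A) hA
  have h5 : (5 : Module.End ℤ L) = 0 := by
    have := end_tors ht 1
    rwa [nsmul_one] at this
  have hS := fun x y z t : L => (perm4 fun i => ad (![x, y, z, t] i)).symm.trans (hE.op ![x, y, z, t])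
  simp only [List.permutations', List.permutations'Aux, List.flatMap_cons, List.flatMap_nil,
    List.map_cons, List.map_nil, List.append_nil, List.cons_append, List.nil_append,
    List.prod_cons, List.prod_nil, List.sum_cons, List.sum_nil, Matrix.cons_val_zero,
    Matrix.cons_val_one, Matrix.cons_val] at hS
  have h4 : ∀ v : L, ad v * ad v * ad v * ad v = 0 := fun v => hc 24 (by norm_num) _ (by
    rw [← hS v v v v]; noncomm_ring)
  have h31 : ∀ u v : L, ad u * ad v * ad v * ad v + ad v * ad u * ad v * ad v +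
      ad v * ad v * ad u * ad v + ad v * ad v * ad v * ad u = 0 := fun u v =>
    hc 6 (by norm_num) _ (by rw [← hS u v v v]; noncomm_ring)
  have h22 : ∀ b x : L, ad b * ad b * ad x * ad x + ad b * ad x * ad b * ad x +
      ad b * ad x * ad x * ad b + ad x * ad b * ad b * ad x + ad x * ad b * ad x * ad b +
      ad x * ad x * ad b * ad b = 0 := fun b x =>
    hc 4 (by norm_num) _ (by rw [← hS b b x x]; noncomm_ring)
  obtain ⟨b, hb, hb3⟩ : ∃ b : L, b ≠ 0 ∧ ad b * ad b * ad b = 0 := by
    by_cases h : ad a * ad a * ad a = 0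
    · exact ⟨a, ha, h⟩
    · obtain ⟨u, hu⟩ : ∃ u, (ad a * ad a * ad a) u ≠ 0 := by
        by_contra hcon
        push Not at hcon
        exact h (LinearMap.ext hcon)
      exact ⟨⁅a, ⁅a, ⁅a, u⁆⁆⁆, hu, five_a h5 (ad u) (ad a) (ad ⁅u, ⁅u, a⁆⁆) _ (h4 a)
        (by simp only [ad_lie]) (by simp only [ad_lie]) (h31 u a) (h31 _ a)⟩
  obtain ⟨c, hc0, hc2⟩ : ∃ c : L, c ≠ 0 ∧ ad c * ad c = 0 := by
    by_cases h : ad b * ad b = 0
    · exact ⟨b, hb, h⟩
    · obtain ⟨x, hx⟩ : ∃ x, (ad b * ad b) x ≠ 0 := by
        by_contra hcon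
        push Not at hcon
        exact h (LinearMap.ext hcon)
      refine ⟨⁅b, ⁅b, x⁆⁆, hx, five_b h5 (ad b) (ad x) _ hb3 (by simp only [ad_lie]) ?_
        (h31 x b) (h22 b x)⟩
      have : ⁅b, ⁅b, ⁅b, x⁆⁆⁆ = 0 := congrArg (fun A : Module.End ℤ L => A x) hb3
      rw [← ad_lie, this, ad_zero]
  have h1 := sand_one (hc 2 (by norm_num)) hc2
  have h2 : ∀ x y : L, ad c * ad x * ad y * ad c = 0 := fun x y => hc 4 (by norm_num) _ (by
    have a1 := hS c c x y
    have a2 := h1 ⁅x, y⁆
    rw [ad_lie] at a2
    have a3 := h1 x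
    have a4 := h1 y
    linear_combination (norm := noncomm_ring) a1 + 2 * a2 - 2 * (hc2 * (ad x * ad y)) -
      2 * (hc2 * (ad y * ad x)) - 2 * (ad x * hc2 * ad y) - 2 * (ad y * hc2 * ad x) -
      2 * (ad x * ad y * hc2) - 2 * (ad y * ad x * hc2) - 2 * (a3 * ad y) - 2 * (ad y * a3) -
      2 * (a4 * ad x) - 2 * (ad x * a4))
  refine ⟨c, hc0, abelian_of_sand (sand_all (n := 4) (by norm_num) ht hE
    (sand_odd (m := 1) (hc 2 (by norm_num)) fun w hw => ?_))⟩
  match w, hw with
  | [], _ => simpa using hc2
  | [x], _ => simpa using h1 x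
  | [x, y], _ => simpa [mul_assoc] using h2 x y

end Pool.Agent.MP38b55a
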