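import Pool.Agent.Mg.F38b55ap.G627514
import Pool.Agent.Mg.F38b55ap.Gfa8ff4

section

set_option autoImplicit false

namespace Pool.Agent.MP38b55a

universe u

section
variable {R : Type*} [Ring R]

/-- The iterated commutator with `V`. -/
def dl_KS1 (V : R) : ℕ → R → R
  | 0, X => X
  | k + 1, X => V * dl_KS1 V k X - dl_KS1 V k X * V

/-- The signed binomial coefficient. -/
def co_KS1 (k j : ℕ) : ℤ := (-1) ^ j * (k.choose j : ℤ)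

theorem dl_pow_KS1 (V X : R) (k : ℕ) : dl_KS1 V k X =
    ((LinearMap.mulLeft ℤ V + -LinearMap.mulRight ℤ V : Module.End ℤ R) ^ k) X := by
  induction k with
  | zero => rfl
  | succ k ih =>
    rw [pow_succ', Module.End.mul_apply, ← ih, dl_KS1]
    simp [sub_eq_add_neg]

theorem dl_sum_KS1 (V X : R) (k : ℕ) : dl_KS1 V k X =
    ∑ j ∈ Finset.range (k + 1), co_KS1 k j • (V ^ (k - j) * X * V ^ j) := by
  have hc : Commute (-LinearMap.mulRight ℤ V : Module.End ℤ R) (LinearMap.mulLeft ℤ V) := by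
    refine Commute.neg_left ?_
    ext x
    simp [mul_assoc]
  rw [dl_pow_KS1, add_comm, hc.add_pow, LinearMap.sum_apply]
  refine Finset.sum_congr rfl fun j _ => ?_
  rw [neg_pow, LinearMap.pow_mulRight, LinearMap.pow_mulLeft]
  rcases Nat.even_or_odd j with h | h
  · simp [co_KS1, h.neg_one_pow, mul_assoc, Nat.cast_comm]
  · simp [co_KS1, h.neg_one_pow, mul_assoc, Nat.cast_comm]

theorem win_KS1 {V P Q : R} {e f : ℕ} (hP : P * V ^ e = 0) (hQ : V ^ f * Q = 0) (X : R)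
    (a b k : ℕ) (S : Finset ℕ) (hS : ∀ j ∈ S, j ≤ k)
    (h : ∀ j, j ≤ k → j ∉ S → e ≤ a + (k - j) ∨ f ≤ j + b) :
    P * V ^ a * dl_KS1 V k X * V ^ b * Q =
      ∑ j ∈ S, co_KS1 k j • (P * V ^ (a + (k - j)) * X * V ^ (j + b) * Q) := by
  rw [dl_sum_KS1, Finset.mul_sum, Finset.sum_mul, Finset.sum_mul]
  symm
  refine (Finset.sum_subset (s₂ := Finset.range (k + 1))
    (fun j hj => Finset.mem_range.2 (Nat.lt_succ_of_le (hS j hj))) fun j hj hj' => ?_).trans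
    (Finset.sum_congr rfl fun j _ => ?_)
  · rcases h j (Nat.le_of_lt_succ (Finset.mem_range.1 hj)) hj' with h | h
    · obtain ⟨c, hc⟩ := Nat.exists_eq_add_of_le h
      rw [hc, pow_add, ← mul_assoc, hP]
      simp
    · obtain ⟨c, hc⟩ := Nat.exists_eq_add_of_le' h
      rw [hc, pow_add V c, mul_assoc, mul_assoc (V ^ c), hQ]
      simp
  · simp only [mul_smul_comm, smul_mul_assoc, pow_add, mul_assoc]

variable {p : ℕ}

theorem canc_KS1 (hp : p.Prime) (ht : ∀ x : R, p • x = 0) {c : ℤ} (hc : ¬ (p : ℤ) ∣ c) {x : R}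
    (h : c • x = 0) : x = 0 := by
  obtain ⟨a, b, hab⟩ := (Nat.prime_iff_prime_int.1 hp).coprime_iff_not_dvd.2 hc
  have h1 : (p : ℤ) • x = 0 := by rw [natCast_zsmul]; exact ht x
  calc x = (a * p + b * c) • x := by rw [hab, one_smul]
    _ = 0 := by rw [add_smul, mul_smul, mul_smul, h1, h]; simp

theorem small_KS1 {c : ℕ} (h0 : 0 < c) (hc : c < p) : ¬ (p : ℤ) ∣ (c : ℤ) := by
  rw [Int.natCast_dvd_natCast]
  exact Nat.not_dvd_of_pos_of_lt h0 hc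

theorem co_nd_KS1 (hp : p.Prime) {k j : ℕ} (hj : j ≤ k) (hk : k < p) :
    ¬ (p : ℤ) ∣ co_KS1 k j := by
  intro h
  have h1 : (p : ℤ) ∣ (k.choose j : ℤ) := by
    rcases Nat.even_or_odd j with e | e
    · simpa [co_KS1, e.neg_one_pow] using h
    · simpa [co_KS1, e.neg_one_pow] using h
  rw [Int.natCast_dvd_natCast] at h1
  have h2 : p ∣ k.factorial := by
    rw [← Nat.choose_mul_factorial_mul_factorial hj, mul_assoc]
    exact h1.mul_right _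
  rw [hp.dvd_factorial] at h2
  omega

theorem kl_KS1 (hp : p.Prime) (ht : ∀ x : R, p • x = 0) {m : ℕ} (hm : m < p) {V X P Q : R}
    (hX : dl_KS1 V m X = 0) {e f : ℕ} (hP : P * V ^ (e + 1) = 0) (hQ : V ^ (f + 1) * Q = 0)
    (he : e ≤ m) (h : m ≤ e + f) : P * V ^ e * X * V ^ f * Q = 0 := by
  have h1 := win_KS1 hP hQ X 0 (f - (m - e)) m {m - e} (by simp) (fun j _ hj => by
    rw [Finset.mem_singleton] at hj
    omega)
  rw [hX, Finset.sum_singleton, show 0 + (m - (m - e)) = e by omega,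
    show m - e + (f - (m - e)) = f by omega] at h1
  exact canc_KS1 hp ht (co_nd_KS1 hp (Nat.sub_le m e) hm) (by rw [← h1]; simp)

theorem two_choose_KS1 (n : ℕ) : 2 * ((n + 1).choose 2 : ℤ) = (n + 1) * n := by
  induction n with
  | zero => simp
  | succ n ih =>
    rw [Nat.choose_succ_succ' (n + 1) 1]
    push_cast
    rw [Nat.choose_one_right]
    push_cast
    linarith

variable {n : ℕ} {V U : R}

theorem alpha_KS1 (hp : p.Prime) (ht : ∀ x : R, p • x = 0) (hm : n + 4 < p) (hV : V ^ (n + 4) = 0)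
    (hU : dl_KS1 V (n + 4) U = 0) {P : R} {e : ℕ} (hP : P * V ^ (e + 1) = 0) (h1 : 1 ≤ e)
    (he : e ≤ n + 3) : P * dl_KS1 V (n + 3) U * V ^ e = 0 := by
  have hQ : V ^ (n + 3 + 1) * 1 = 0 := by rw [mul_one]; exact hV
  have h := win_KS1 hP hQ U 0 e (n + 3) {n + 3 - e} (by simp) (fun j _ hj => by
    rw [Finset.mem_singleton] at hj
    omega)
  rw [Finset.sum_singleton, show 0 + (n + 3 - (n + 3 - e)) = e by omega,
    show n + 3 - e + e = n + 3 by omega, kl_KS1 hp ht hm hU hP hQ (by omega) (by omega)] at h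
  simpa using h

theorem r1_KS1 (hV : V ^ (n + 4) = 0) (hU : dl_KS1 V (n + 4) U = 0) :
    ((n : ℤ) + 4) • (V ^ (n + 3) * U * V ^ (n + 2)) =
      ((n + 4).choose 2 : ℤ) • (V ^ (n + 2) * U * V ^ (n + 3)) := by
  have h := win_KS1 (P := 1) (Q := 1) (e := n + 4) (f := n + 4) (by rw [hV, mul_zero])
    (by rw [hV, zero_mul]) U 0 (n + 1) (n + 4) {1, 2} (by simp) (fun j _ hj => by
      simp only [Finset.mem_insert, Finset.mem_singleton] at hj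
      omega)
  rw [hU, Finset.sum_pair (by norm_num), show 0 + (n + 4 - 1) = n + 3 by omega,
    show 1 + (n + 1) = n + 2 by omega, show 0 + (n + 4 - 2) = n + 2 by omega,
    show 2 + (n + 1) = n + 3 by omega] at h
  simp only [co_KS1, one_mul, mul_one, mul_zero, zero_mul, pow_one, Nat.choose_one_right, neg_mul,
    neg_smul, even_two, Even.neg_one_pow] at h
  push_cast at h
  rw [eq_comm, neg_add_eq_zero] at h
  exact h

theorem r2_KS1 (hV : V ^ (n + 4) = 0) (hU : dl_KS1 V (n + 4) U = 0) :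
    ((n + 4).choose 2 : ℤ) • (V ^ (n + 3) * U * V ^ (n + 2)) =
      ((n : ℤ) + 4) • (V ^ (n + 2) * U * V ^ (n + 3)) := by
  have h := win_KS1 (P := 1) (Q := 1) (e := n + 4) (f := n + 4) (by rw [hV, mul_zero])
    (by rw [hV, zero_mul]) U (n + 1) 0 (n + 4) {n + 2, n + 3} (by simp) (fun j _ hj => by
      simp only [Finset.mem_insert, Finset.mem_singleton] at hj
      omega)
  have c1 : (n + 4).choose (n + 2) = (n + 4).choose 2 := Nat.choose_symm_of_eq_add (by omega)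
  have c2 : (n + 4).choose (n + 3) = n + 4 := Nat.choose_succ_self_right (n + 3)
  rw [hU, Finset.sum_pair (by omega), show n + 1 + (n + 4 - (n + 2)) = n + 3 by omega,
    show n + 1 + (n + 4 - (n + 3)) = n + 2 by omega] at h
  simp only [co_KS1, one_mul, mul_one, mul_zero, zero_mul, add_zero, c1, c2] at h
  push_cast at h
  rcases Nat.even_or_odd n with e | e
  · rw [(e.add even_two).neg_one_pow, (e.add_odd (by decide : Odd 3)).neg_one_pow, one_mul,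
      neg_one_mul, neg_smul, eq_comm, add_neg_eq_zero] at h
    exact h
  · rw [(e.add_even even_two).neg_one_pow, (e.add_odd (by decide : Odd 3)).neg_one_pow, one_mul,
      neg_one_mul, neg_smul, eq_comm, neg_add_eq_zero] at h
    exact h

theorem mid_KS1 (hp : p.Prime) (ht : ∀ x : R, p • x = 0) (hm : n + 4 < p) (hV : V ^ (n + 4) = 0)
    {X : R} (hX : dl_KS1 V (n + 4) X = 0) : V ^ (n + 3) * X * V ^ (n + 3) = 0 := by
  have := kl_KS1 hp ht hm hX (P := 1) (Q := 1) (e := n + 3) (f := n + 3) (by rw [hV, mul_zero])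
    (by rw [hV, zero_mul]) (by omega) (by omega)
  simpa using this

theorem c2_nd_KS1 (hp : p.Prime) (hm : n + 4 < p) : ¬ (p : ℤ) ∣ ((n + 4).choose 2 : ℤ) := by
  have := co_nd_KS1 hp (k := n + 4) (j := 2) (by omega) hm
  simpa [co_KS1] using this

theorem beta_KS1 (hp : p.Prime) (ht : ∀ x : R, p • x = 0) (hm : n + 4 < p) (hV : V ^ (n + 4) = 0)
    (hU : dl_KS1 V (n + 4) U = 0) {P : R} (h2 : P * V ^ 2 = 0)
    (h1 : P * dl_KS1 V (n + 3) U * V ^ 1 = 0) :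
    P * dl_KS1 V (n + 3) U * dl_KS1 V (n + 3) U = 0 := by
  have hQ : V ^ (n + 3 + 1) * 1 = 0 := by rw [mul_one]; exact hV
  have a1 := win_KS1 h1 hQ U 0 0 (n + 3) {n + 3} (by simp) (fun j _ hj => by
    rw [Finset.mem_singleton] at hj
    omega)
  have a2 := win_KS1 h2 hQ U 0 0 (n + 3) {n + 2, n + 3} (by simp) (fun j _ hj => by
    simp only [Finset.mem_insert, Finset.mem_singleton] at hj
    omega)
  rw [Finset.sum_singleton, show 0 + (n + 3 - (n + 3)) = 0 by omega] at a1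
  rw [Finset.sum_pair (by omega), show 0 + (n + 3 - (n + 3)) = 0 by omega,
    show 0 + (n + 3 - (n + 2)) = 1 by omega] at a2
  simp only [pow_zero, mul_one, add_zero, pow_one] at a1 a2
  have k1 : P * V * U * V ^ (n + 3) = 0 := by
    have := kl_KS1 hp ht hm hU (e := 1) (f := n + 3) h2 hQ (by omega) (by omega)
    simpa using this
  have k2 : P * V * U * (V ^ (n + 2) * U * V ^ (n + 3)) = 0 := by
    refine canc_KS1 hp ht (c2_nd_KS1 hp hm) ?_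
    rw [← mul_smul_comm, ← r1_KS1 hV hU, mul_smul_comm, ← mul_assoc, ← mul_assoc, k1]
    simp
  have k3 : P * U * (V ^ (n + 3) * U * V ^ (n + 3)) = 0 := by
    rw [mid_KS1 hp ht hm hV hU, mul_zero]
  rw [a1, a2]
  simp only [add_mul, smul_mul_assoc, mul_assoc] at k2 k3 ⊢
  rw [k2, k3]
  simp

theorem start1_KS1 (hp : p.Prime) (ht : ∀ x : R, p • x = 0) (hm : n + 5 < p)
    (hV : V ^ (n + 4) = 0) (hU : dl_KS1 V (n + 4) U = 0) :
    dl_KS1 V (n + 3) U * V ^ (n + 2) = 0 := by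
  have h1 := r1_KS1 hV hU
  have h2 := r2_KS1 hV hU
  have hC := two_choose_KS1 (n + 3)
  push_cast at hC
  rw [show n + 3 + 1 = n + 4 from rfl] at hC
  generalize ((n + 4).choose 2 : ℤ) = C at h1 h2 hC
  have hpz := Nat.prime_iff_prime_int.1 hp
  have hnd : ¬ (p : ℤ) ∣ 4 * (C * C - (n + 4) * (n + 4)) := by
    have e : 4 * (C * C - ((n : ℤ) + 4) * (n + 4)) =
        ((n + 4 : ℕ) : ℤ) * (((n + 4 : ℕ) : ℤ) * (((n + 1 : ℕ) : ℤ) * ((n + 5 : ℕ) : ℤ))) := by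
      push_cast
      linear_combination (2 * C + (n + 3 + 1) * (n + 3)) * hC
    rw [e, hpz.dvd_mul, hpz.dvd_mul, hpz.dvd_mul]
    have := small_KS1 (p := p) (c := n + 4) (by omega) (by omega)
    have := small_KS1 (p := p) (c := n + 1) (by omega) (by omega)
    have := small_KS1 (p := p) (c := n + 5) (by omega) (by omega)
    tauto
  have hx : V ^ (n + 3) * U * V ^ (n + 2) = 0 := canc_KS1 hp ht hnd (by
    rw [mul_smul, sub_smul, mul_smul, mul_smul, h2, h1, smul_comm C, sub_self, smul_zero])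
  have hx' : V ^ (n + 2) * U * V ^ (n + 3) = 0 := canc_KS1 hp ht hnd (by
    rw [mul_smul, sub_smul, mul_smul, mul_smul, ← h2, ← h1, smul_comm C, sub_self, smul_zero])
  have h := win_KS1 (P := 1) (Q := 1) (e := n + 4) (f := n + 4) (by rw [hV, mul_zero])
    (by rw [hV, zero_mul]) U 0 (n + 2) (n + 3) {0, 1} (by simp) (fun j _ hj => by
      simp only [Finset.mem_insert, Finset.mem_singleton] at hj
      omega)
  rw [Finset.sum_pair (by norm_num), show 0 + (n + 3 - 0) = n + 3 by omega,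
    show 0 + (n + 2) = n + 2 by omega, show 0 + (n + 3 - 1) = n + 2 by omega,
    show 1 + (n + 2) = n + 3 by omega] at h
  simp only [pow_zero, one_mul, mul_one] at h
  rw [h, hx, hx']
  simp

theorem start2_KS1 (hp : p.Prime) (ht : ∀ x : R, p • x = 0) (hm : n + 4 < p) (hn : Even n)
    (hV : V ^ (n + 4) = 0) (hU : dl_KS1 V (n + 4) U = 0)
    (hX : dl_KS1 V (n + 4) (dl_KS1 V (n + 1) U * U - U * dl_KS1 V (n + 1) U) = 0) :
    dl_KS1 V (n + 3) U * dl_KS1 V (n + 3) U * V ^ (n + 1) = 0 := by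
  have hP : (1 : R) * V ^ (n + 4) = 0 := by rw [hV, mul_zero]
  have hQ : V ^ (n + 4) * (1 : R) = 0 := by rw [hV, zero_mul]
  have a1 := win_KS1 hP hQ U n 0 (n + 4) {n + 1, n + 2, n + 3} (by simp) (fun j _ hj => by
    simp only [Finset.mem_insert, Finset.mem_singleton] at hj
    omega)
  have a2 := win_KS1 hP hQ U 0 (n + 1) (n + 3) {0, 1, 2} (by simp) (fun j _ hj => by
    simp only [Finset.mem_insert, Finset.mem_singleton] at hj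
    omega)
  have a3 := win_KS1 hP hQ U (n + 3) 0 (n + 1) {n + 1} (by simp) (fun j _ hj => by
    simp only [Finset.mem_singleton] at hj
    omega)
  have a4 := win_KS1 hP hQ U 0 (n + 3) (n + 1) {0} (by simp) (fun j _ hj => by
    simp only [Finset.mem_singleton] at hj
    omega)
  rw [hU, Finset.sum_insert (by simp), Finset.sum_pair (by omega),
    show n + (n + 4 - (n + 1)) = n + 3 by omega, show n + (n + 4 - (n + 2)) = n + 2 by omega,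
    show n + (n + 4 - (n + 3)) = n + 1 by omega] at a1
  rw [Finset.sum_insert (by simp), Finset.sum_pair (by omega),
    show 0 + (n + 3 - 0) = n + 3 by omega, show 0 + (n + 3 - 1) = n + 2 by omega,
    show 0 + (n + 3 - 2) = n + 1 by omega, show 0 + (n + 1) = n + 1 by omega,
    show 1 + (n + 1) = n + 2 by omega, show 2 + (n + 1) = n + 3 by omega] at a2
  rw [Finset.sum_singleton, show n + 3 + (n + 1 - (n + 1)) = n + 3 by omega] at a3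
  rw [Finset.sum_singleton, show 0 + (n + 1 - 0) = n + 1 by omega,
    show 0 + (n + 3) = n + 3 by omega] at a4
  have e3 : co_KS1 (n + 1) (n + 1) = -1 := by
    simp [co_KS1, hn.add_one.neg_one_pow]
  have e4 : co_KS1 (n + 1) 0 = 1 := by simp [co_KS1]
  simp only [pow_zero, one_mul, mul_one, add_zero, mul_zero, e3, e4, one_smul, neg_smul]
    at a1 a2 a3 a4
  have hc : ¬ (p : ℤ) ∣ co_KS1 (n + 4) (n + 2) := co_nd_KS1 hp (by omega) hm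
  generalize co_KS1 (n + 4) (n + 1) = c1 at a1
  generalize co_KS1 (n + 4) (n + 2) = c2 at a1 hc
  generalize co_KS1 (n + 4) (n + 3) = c3 at a1
  generalize co_KS1 (n + 3) 0 = d0 at a2
  generalize co_KS1 (n + 3) 1 = d1 at a2
  generalize co_KS1 (n + 3) 2 = d2 at a2
  have b0 := mid_KS1 hp ht hm hV hU
  have b1 : V ^ (n + 1) * U * V ^ (n + 3) * U * V ^ (n + 3) = 0 := by
    have : V ^ (n + 1) * U * V ^ (n + 3) * U * V ^ (n + 3) =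
        V ^ (n + 1) * U * (V ^ (n + 3) * U * V ^ (n + 3)) := by simp only [mul_assoc]
    rw [this, b0, mul_zero]
  have b2 : V ^ (n + 3) * U * V ^ (n + 1) * U * V ^ (n + 3) = 0 := by
    have h := mid_KS1 hp ht hm hV hX
    have e : V ^ (n + 3) * (dl_KS1 V (n + 1) U * U - U * dl_KS1 V (n + 1) U) * V ^ (n + 3) =
        V ^ (n + 3) * dl_KS1 V (n + 1) U * U * V ^ (n + 3) -
          V ^ (n + 3) * U * (dl_KS1 V (n + 1) U * V ^ (n + 3)) := by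
      simp only [mul_sub, sub_mul, mul_assoc]
    rw [e, a3, a4] at h
    refine canc_KS1 hp ht (c := ((2 : ℕ) : ℤ)) (small_KS1 (by omega) (by omega)) ?_
    rw [← neg_eq_zero, ← h]
    simp only [Nat.cast_ofNat, two_smul, neg_mul, mul_assoc]
    abel
  have b3 : dl_KS1 V (n + 3) U * V ^ (n + 3) = 0 := by
    have := alpha_KS1 hp ht hm hV hU (P := 1) (e := n + 3) hP (by omega) le_rfl
    simpa using this
  have b4 : c2 • (dl_KS1 V (n + 3) U * V ^ (n + 1)) =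
      (c2 * d0 - d1 * c1) • (V ^ (n + 3) * U * V ^ (n + 1)) +
        (c2 * d2 - d1 * c3) • (V ^ (n + 1) * U * V ^ (n + 3)) := by
    rw [a2, ← sub_eq_zero, ← smul_zero d1, a1]
    module
  generalize dl_KS1 V (n + 3) U = B at b3 b4 ⊢
  generalize c2 * d0 - d1 * c1 = al at b4
  generalize c2 * d2 - d1 * c3 = be at b4
  have b5 : c2 • (B * V ^ (n + 1) * U * V ^ (n + 3)) = 0 := by
    rw [← smul_mul_assoc, ← smul_mul_assoc, b4]
    simp only [add_mul, smul_mul_assoc]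
    rw [b1, b2]
    simp
  have b6 := canc_KS1 hp ht hc b5
  refine canc_KS1 hp ht hc ?_
  rw [mul_assoc, ← mul_smul_comm, b4, mul_add, mul_smul_comm, mul_smul_comm, ← mul_assoc,
    ← mul_assoc, ← mul_assoc, ← mul_assoc, b3, b6]
  simp

theorem ring_KS1 (hp : p.Prime) (ht : ∀ x : R, p • x = 0) (h7 : 7 ≤ p) (hm : n + 4 < p)
    (hV : V ^ (n + 4) = 0) (hU : dl_KS1 V (n + 4) U = 0)
    (hX : dl_KS1 V (n + 4) (dl_KS1 V (n + 1) U * U - U * dl_KS1 V (n + 1) U) = 0) :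
    dl_KS1 V (n + 3) U ^ (n + 3) = 0 := by
  have st : ∃ k, k ≤ n + 1 ∧ dl_KS1 V (n + 3) U ^ k * V ^ (n + 3 - k) = 0 := by
    by_cases h : n + 5 < p
    · exact ⟨1, by omega, by rw [pow_one]; exact start1_KS1 hp ht h hV hU⟩
    · have hn : Even n := by
        have := hp.odd_of_ne_two (by omega)
        rw [Nat.odd_iff] at this
        rw [Nat.even_iff]
        omega
      exact ⟨2, by omega, by rw [pow_two]; exact start2_KS1 hp ht hm hn hV hU hX⟩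
  obtain ⟨k, hk, h0⟩ := st
  have it : ∀ i, k ≤ i → i ≤ n + 2 → dl_KS1 V (n + 3) U ^ i * V ^ (n + 3 - i) = 0 := by
    intro i hi
    induction hi with
    | refl => exact fun _ => h0
    | @step i hi ih =>
      intro h
      have h1 := ih (by omega)
      rw [show n + 3 - i = n + 3 - (i + 1) + 1 by omega] at h1
      rw [pow_succ]
      exact alpha_KS1 hp ht hm hV hU h1 (by omega) (by omega)
  have h2 := it (n + 1) hk (by omega)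
  have h1 := it (n + 2) (by omega) le_rfl
  rw [show n + 3 - (n + 1) = 2 by omega] at h2
  rw [show n + 3 - (n + 2) = 1 by omega, pow_succ] at h1
  rw [pow_succ, pow_succ]
  exact beta_KS1 hp ht hm hV hU h2 h1

end

theorem ad_dl_KS1 {L : Type*} [LieRing L] (v x : L) (k : ℕ) :
    ad ((ad v ^ k) x) = dl_KS1 (ad v) k (ad x) := by
  induction k with
  | zero => rfl
  | succ k ih => rw [pow_succ', Module.End.mul_apply, ad_apply, ad_lie, ih, dl_KS1]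

theorem s1_stmt : S1Stmt.{u} := by
  intro p m hp h7 h4 hm L _ ht v w hv
  obtain ⟨n, rfl⟩ := Nat.exists_eq_add_of_le' h4
  have hz : ∀ x : L, dl_KS1 (ad v) (n + 4) (ad x) = 0 := fun x => by
    rw [← ad_dl_KS1, hv, LinearMap.zero_apply, ad_zero]
  rw [show n + 4 - 1 = n + 3 from rfl, ad_dl_KS1]
  refine ring_KS1 hp (end_tors ht) h7 hm hv (hz w) ?_
  rw [← ad_dl_KS1 v w, ← ad_lie]
  exact hz _

end Pool.Agent.MP38b55a

end

section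

set_option autoImplicit false

namespace Pool.Agent.MP38b55a

variable {L : Type*} [LieRing L]

/-- `K1 v` as a subgroup. -/
def K1G (v : L) : AddSubgroup L where
  carrier := {e | K1 v e}
  zero_mem' := K1.zero v
  add_mem' := K1.add
  neg_mem' := K1.neg

theorem K1.cancel {p m : ℕ} (ht : ∀ x : L, p • x = 0) (hm : Nat.Coprime m p) {v e : L}
    (h : K1 v (m • e)) : K1 v e :=
  ⟨cancel_of_coprime hm (ht _) (by rw [← nsmul_lie, h.1]),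
    fun w => cancel_of_coprime hm (ht _) (by rw [← nsmul_lie, h.2])⟩

theorem cop_of_lt {p m : ℕ} (hp : p.Prime) (h0 : 0 < m) (hm : m < p) : Nat.Coprime m p :=
  ((Nat.Prime.coprime_iff_not_dvd hp).2 (Nat.not_dvd_of_pos_of_lt h0 hm)).symm

/-- Jordan powers. -/
def jx (v u : L) (i : ℕ) : L := (ad ⁅u, v⁆ ^ i) u

/-- Their images. -/
def jb (v u : L) : ℕ → L
  | 0 => -v
  | j + 1 => vv v (jx v u j)

theorem jx_succ (v u : L) (i : ℕ) : jx v u (i + 1) = ⁅⁅u, v⁆, jx v u i⁆ := by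
  rw [jx, pow_succ', Module.End.mul_apply, ad_apply]; rfl

namespace JE
variable {v : L} (h : JE v)
include h

theorem jb_succ (u : L) (j : ℕ) : ⁅⁅u, v⁆, jb v u j⁆ = -jb v u (j + 1) := by
  cases j with
  | zero => rw [jb, lie_neg, lie_lie_eq_vv]; rfl
  | succ j => rw [jb, h.jt, ← jx_succ]; rfl

theorem pow_v (u : L) (k : ℕ) :
    (ad ⁅u, v⁆ ^ k) v = jb v u k ∨ (ad ⁅u, v⁆ ^ k) v = -jb v u k := by
  induction k with
  | zero => right; simp [jb]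
  | succ k ih =>
    rw [pow_succ', Module.End.mul_apply, ad_apply]
    rcases ih with e | e
    · right; rw [e, h.jb_succ]
    · left; rw [e, lie_neg, h.jb_succ, neg_neg]

theorem jE (u : L) (i j : ℕ) : ⁅⁅u, v⁆, ⁅jx v u i, jb v u j⁆⁆ =
    ⁅jx v u (i + 1), jb v u j⁆ - ⁅jx v u i, jb v u (j + 1)⁆ := by
  rw [leibniz_lie, h.jb_succ, lie_neg, ← jx_succ, sub_eq_add_neg]

theorem pow_assoc {p : ℕ} (hp : p.Prime) (ht : ∀ x : L, p • x = 0) (u : L) (n : ℕ) :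
    n + 2 < p → ∀ i j, i + j = n + 1 →
      ⁅jx v u i, jb v u j⁆ - ⁅jx v u (n + 1), jb v u 0⁆ ∈ K1G v := by
  induction n with
  | zero =>
    intro _ i j hij
    obtain ⟨rfl, rfl⟩ | ⟨rfl, rfl⟩ : (i = 0 ∧ j = 1) ∨ (i = 1 ∧ j = 0) := by omega
    · have : ⁅jx v u 0, jb v u 1⁆ = ⁅jx v u (0 + 1), jb v u 0⁆ := by
        rw [← sub_eq_zero, ← neg_eq_zero, neg_sub, ← h.jE]
        show ⁅⁅u, v⁆, ⁅u, -v⁆⁆ = 0
        rw [lie_neg, lie_neg, lie_self, neg_zero]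
      rw [this, sub_self]; exact zero_mem _
    · rw [sub_self]; exact zero_mem _
  | succ n ih =>
    intro hn
    set δ := ⁅⁅u, v⁆, ⁅jx v u (n + 1), jb v u 0⁆⁆
    have s1 : ∀ i j, i + j = n + 1 →
        ⁅jx v u (i + 1), jb v u j⁆ - ⁅jx v u i, jb v u (j + 1)⁆ - δ ∈ K1G v := fun i j hij => by
      have := h.k1_T (ih (by omega) i j hij) u
      rwa [lie_sub, h.jE] at this
    have s2 : ∀ i j, i + j = n + 2 →
        ⁅jx v u i, jb v u j⁆ - ⁅jx v u 0, jb v u (n + 2)⁆ - i • δ ∈ K1G v := by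
      intro i
      induction i with
      | zero => intro j hj; rw [zero_add] at hj; subst hj; simp
      | succ i ihi =>
        intro j hj
        convert add_mem (s1 i j (by omega)) (ihi (j + 1) (by omega)) using 1
        rw [succ_nsmul]; abel
    have c0 : ⁅⁅jx v u 0, jb v u (n + 2)⁆, v⁆ = -jb v u (n + 3) := by
      rw [rl, lie_zero_symm (show ⁅v, jb v u (n + 2)⁆ = 0 from h.v_vv _), lie_zero, add_zero]
      exact h.jb_succ u _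
    have c1 : ⁅⁅jx v u (n + 2), jb v u 0⁆, v⁆ = -jb v u (n + 3) := by
      rw [jb, lie_neg, neg_lie, lie_lie_eq_vv]; rfl
    have c2 : ⁅δ, v⁆ = 0 := by
      have := (s2 (n + 2) 0 rfl).1
      rw [sub_lie, sub_lie, c0, c1, sub_self, zero_sub, neg_eq_zero, nsmul_lie] at this
      exact cancel_of_coprime (cop_of_lt hp (by omega) (by omega)) (ht _) this
    have c3 : vv v (⁅⁅jx v u 1, v⁆, jx v u n⁆ - jx v u (n + 2)) = 0 := by
      have e1 := (s2 1 (n + 1) (by omega)).1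
      rw [sub_lie, sub_lie, c0, one_nsmul, c2, sub_zero, sub_eq_zero, rl,
        lie_zero_symm (show ⁅v, jb v u (n + 1)⁆ = 0 from h.v_vv _), lie_zero, add_zero, jb, h.jt,
        neg_inj] at e1
      rw [vv_sub, e1]; exact sub_self _
    have c4 : K1 v ((n + 3) • δ) := by
      have e1 : _ ∈ K1G v := h.psi u (jx v u n)
      have e2 : _ ∈ K1G v := h.ker_v c3
      rw [← jx_succ, ← jx_succ, show ⁅⁅u, v⁆, u⁆ = jx v u 1 from (jx_succ v u 0).symm] at e1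
      show _ ∈ K1G v
      convert sub_mem (sub_mem (sub_mem e1 e2) (s2 1 (n + 1) (by omega))) (s2 (n + 2) 0 rfl) using 1
      simp only [jb, sub_lie, lie_neg, show jx v u 0 = u from rfl, add_smul, one_smul]
      abel
    have c5 : δ ∈ K1G v := c4.cancel ht (cop_of_lt hp (by omega) (by omega))
    intro i j hij
    convert add_mem (sub_mem (s2 i j hij) (s2 (n + 2) 0 rfl))
      (sub_mem (nsmul_mem c5 i) (nsmul_mem c5 (n + 2))) using 1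
    abel

theorem step_a {p : ℕ} (hp : p.Prime) (ht : ∀ x : L, p • x = 0) {u : L} {n : ℕ} (hn : n + 2 < p)
    (h0 : (ad ⁅u, v⁆ ^ (n + 2)) v = 0) :
    ∃ a, (ad ⁅u, v⁆ ^ (n + 1)) v = vv v a ∧ K1 v ⁅a, vv v a⁆ := by
  have b0 : jb v u (n + 2) = 0 := by
    rcases h.pow_v u (n + 2) with e | e
    · rw [← e, h0]
    · rw [← neg_eq_zero, ← e, h0]
  have k : ∀ i, K1 v ⁅jx v u i, jb v u (n + 1)⁆ := fun i => by
    induction i with
    | zero =>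
      have e1 := h.pow_assoc hp ht u n hn 0 (n + 1) (by omega)
      have e2 : _ ∈ K1G v := h.ker_v (k := jx v u (n + 1)) b0
      show _ ∈ K1G v
      convert sub_mem e1 e2 using 1
      simp only [jb, lie_neg]; abel
    | succ i ih =>
      have := h.k1_T ih u
      rwa [h.jE, b0, lie_zero, sub_zero] at this
  rcases h.pow_v u (n + 1) with e | e
  · exact ⟨jx v u n, e, k n⟩
  · refine ⟨-jx v u n, by rw [e, vv_neg]; rfl, ?_⟩
    rw [vv_neg, neg_lie, lie_neg, neg_neg]; exact k n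

omit h in
theorem two_y (a x : L) : ⁅⁅⁅a, v⁆, x⁆, v⁆ + ⁅⁅⁅a, v⁆, x⁆, v⁆ =
    -⁅x, vv v a⁆ - ⁅a, vv v x⁆ + vv v ⁅a, x⁆ := by
  rw [vv_lie, rl ⁅a, v⁆ x v, lie_lie_eq_vv, ← lie_skew x (vv v a)]; abel

theorem comm_y {a : L} (ha : K1 v ⁅a, vv v a⁆) (x : L) : K1 v ⁅⁅a, v⁆, ⁅⁅⁅a, v⁆, x⁆, v⁆⁆ := by
  have d0 : ⁅⁅a, v⁆, vv v a⁆ = 0 := by
    have := ha.1
    rwa [rl, lie_zero_symm (h.v_vv a), lie_zero, add_zero] at this
  have d1 : vv v ⁅⁅a, v⁆, a⁆ = 0 := by rw [← neg_eq_zero, ← h.jt, d0]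
  have e1 : _ ∈ K1G v := h.psi a x
  have e2 : _ ∈ K1G v := h.ker_vv d1 x
  have e3 : ⁅⁅⁅⁅⁅a, v⁆, a⁆, v⁆, x⁆, v⁆ ∈ K1G v := h.ker_v (by
    rw [← lie_skew, vv_neg, (h.ker_v d1).ker, neg_zero])
  set y := ⁅⁅a, v⁆, x⁆
  have e4 : ⁅⁅⁅a, v⁆, y⁆, v⁆ + ⁅a, vv v y⁆ ∈ K1G v := K1.half h.two (by
    show _ ∈ K1G v
    convert sub_mem (add_mem e2 e3) e1 using 1
    abel)
  have e5 : _ ∈ K1G v := h.k1_vv ⁅a, y⁆
  have e6 := two_y (v := v) a y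
  show _ ∈ K1G v
  convert sub_mem e5 e4 using 1
  rw [leibniz_lie ⁅a, v⁆ y v, lie_lie_eq_vv, eq_sub_of_add_eq' e6.symm]
  abel

theorem closed_P {a s : L} (ha : K1 v ⁅a, vv v a⁆) (x : L) (hs : ∃ w, s = vv v w)
    (hs' : K1 v ⁅a, s⁆) :
    (∃ w, ⁅⁅x, vv v a⁆, s⁆ = vv v w) ∧ K1 v ⁅a, ⁅⁅x, vv v a⁆, s⁆⁆ := by
  obtain ⟨w, rfl⟩ := hs
  have k : ∀ x : L, ⁅⁅x, vv v a⁆, vv v w⁆ = vv v ⁅w, ⁅a, vv v x⁆⁆ := fun x => by
    rw [← h.j3, ← lie_skew x, neg_lie, lie_skew]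
  refine ⟨⟨_, k x⟩, ?_⟩
  rw [leibniz_lie a, leibniz_lie a x, add_lie, k, rl x (vv v a) ⁅a, vv v w⁆,
    lie_zero_symm (hs'.2 a), lie_zero, add_zero]
  exact ((h.k1_vv _).add (h.ker_vv (ha.ker x) w)).add (h.ker_vv (hs'.ker x) a)

theorem pow_P {a : L} (ha : K1 v ⁅a, vv v a⁆) (x : L) (k : ℕ) :
    ((∃ w, (ad ⁅x, vv v a⁆ ^ k) (vv v a) = vv v w) ∧ K1 v ⁅a, (ad ⁅x, vv v a⁆ ^ k) (vv v a)⁆) ∧
      (-2 : ℤ) ^ k • (ad ⁅⁅⁅a, v⁆, x⁆, v⁆ ^ k) (vv v a) = (ad ⁅x, vv v a⁆ ^ k) (vv v a) := by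
  induction k with
  | zero => exact ⟨⟨⟨a, rfl⟩, ha⟩, by simp⟩
  | succ k ih =>
    obtain ⟨⟨⟨w, hw⟩, h2⟩, h3⟩ := ih
    simp only [pow_succ', Module.End.mul_apply, ad_apply]
    refine ⟨h.closed_P ha x ⟨w, hw⟩ h2, ?_⟩
    rw [mul_smul, ← lie_zsmul, h3, neg_smul, two_smul, ← add_lie, two_y, add_lie, sub_lie,
      lie_lie a, lie_zero_symm (h2.2 x), hw, h.vv_vv, h.vv_vv, lie_zero, neg_lie]
    abel

end JE

theorem JE.step_b {v a : L} (K : Type) [Field K] [Infinite K] [LieAlgebra K L] (h : JE v) {p : ℕ}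
    (hp : p.Prime) (ht : ∀ x : L, p • x = 0) {n : ℕ} (hn : n + 1 < p)
    (h0 : ∀ u : L, (ad ⁅u, v⁆ ^ (n + 1)) v = 0) (ha : K1 v ⁅a, vv v a⁆) (x : L) :
    (ad ⁅x, vv v a⁆ ^ n) (vv v a) = 0 := by
  have hc := h.comm_y ha x
  rw [← (h.pow_P ha x n).2]
  set y := ⁅⁅a, v⁆, x⁆
  have r1 : ∀ k, ⁅⁅⁅a, v⁆, ⁅y, v⁆⁆, (ad ⁅y, v⁆ ^ k) v⁆ = 0 := fun k => by
    have : ⁅⁅⁅a, v⁆, ⁅y, v⁆⁆, jb v y k⁆ = 0 := by
      cases k with
      | zero => rw [jb, lie_neg, hc.1, neg_zero]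
      | succ k => exact hc.2 _
    rcases h.pow_v y k with e | e
    · rw [e, this]
    · rw [e, lie_neg, this, neg_zero]
  have r2 : ∀ k, ⁅⁅a, v⁆, (ad ⁅y, v⁆ ^ k) v⁆ = (ad ⁅y, v⁆ ^ k) (vv v a) := fun k => by
    induction k with
    | zero => exact lie_lie_eq_vv v a
    | succ k ih =>
      simp only [pow_succ', Module.End.mul_apply, ad_apply]
      rw [leibniz_lie, r1, ih, zero_add]
  have r3 : ∀ k, ∃ g ∈ PF K L, ∀ τ : K, (ad ⁅y + τ • a, v⁆ ^ (k + 1)) v =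
      (ad ⁅y, v⁆ ^ (k + 1)) v + τ • ((k + 1) • (ad ⁅y, v⁆ ^ k) (vv v a)) + τ ^ 2 • g τ := fun k => by
    induction k with
    | zero =>
      refine ⟨0, zero_mem _, fun τ => ?_⟩
      rw [zero_add, pow_one, pow_one, pow_zero, ad_apply, ad_apply, add_lie, add_lie, smul_lie,
        smul_lie, lie_lie_eq_vv v a, one_nsmul, Module.End.one_apply, Pi.zero_apply, smul_zero,
        add_zero]
    | succ k ih =>
      obtain ⟨g, hg, e⟩ := ih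
      refine ⟨_, PF.add (PF.const ((k + 1) • ⁅⁅a, v⁆, (ad ⁅y, v⁆ ^ k) (vv v a)⁆))
        (PF.lie (PF.add (PF.const ⁅y, v⁆) (PF.var (PF.const ⁅a, v⁆))) hg), fun τ => ?_⟩
      rw [pow_succ' _ (k + 1), Module.End.mul_apply, e, ad_apply, pow_succ' _ (k + 1),
        Module.End.mul_apply, ad_apply]
      simp only [add_lie, lie_add, smul_lie, lie_smul, lie_nsmul, r2]
      simp only [pow_succ' _ k, Module.End.mul_apply, ad_apply]
      module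
  obtain ⟨g, hg, e⟩ := r3 n
  have := tangent_zero hg fun τ => by rw [← e, h0]
  rw [cancel_of_coprime (cop_of_lt hp (by omega) hn) (ht _) this, smul_zero]

end Pool.Agent.MP38b55a

end

section

set_option autoImplicit false

namespace Pool.Agent.MP38b55a

variable {M : Type*} [LieRing M]

/-- A configuration of type `A₃`. -/
structure A3 (q p r : M) : Prop where
  two : No2 M
  sq : Sand q
  sp : Sand p
  sr : Sand r
  pr : ⁅p, r⁆ = 0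

/-- Top elements of the first kind. -/
def tA (q p r x : M) : M := ⁅⁅⁅x, r⁆, q⁆, p⁆
/-- Top elements of the second kind. -/
def tB (q p r y : M) : M := ⁅⁅⁅⁅y, q⁆, p⁆, r⁆, q⁆

namespace A3
variable {q p r : M} (h : A3 q p r)
include h

theorem s : A3 q r p := ⟨h.two, h.sq, h.sr, h.sp, lie_zero_symm h.pr⟩

theorem tB_sym (y : M) : tB q p r y = tB q r p y := by rw [tB, tB, rcomm h.pr]
theorem tB_q (y : M) : ⁅tB q p r y, q⁆ = 0 := h.sq _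
theorem tB_r (y : M) : ⁅tB q p r y, r⁆ = 0 := h.sr.ryr h.two _ _
theorem tB_p (y : M) : ⁅tB q p r y, p⁆ = 0 := by rw [h.tB_sym]; exact h.s.tB_r y
theorem tB_wq (y w : M) : ⁅tB q p r y, ⁅w, q⁆⁆ = 0 := h.sq.rr h.two _ _
theorem tA_q (x : M) : ⁅tA q p r x, q⁆ = 0 := h.sq.ryr h.two _ _
theorem tA_p (x : M) : ⁅tA q p r x, p⁆ = 0 := h.sp _
theorem tA_r (x : M) : ⁅tA q p r x, r⁆ = 0 := h.sr.ryxr h.two (lie_zero_symm h.pr) _ _
theorem tA_wp (x w : M) : ⁅tA q p r x, ⁅w, p⁆⁆ = 0 := h.sp.rr h.two _ _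

theorem h2 (hM : SW M) {u u' : M} (hu : Sand u) (hu' : Sand u') (e : ⁅u, p⁆ = 0)
    (e' : ⁅u', p⁆ = 0) : tB q p r ⁅⁅u, r⁆, u'⁆ = 0 :=
  D4.phase3 ⟨h.two, h.sq, (hu.lie h.two h.sr).lie h.two hu', h.sp, h.sr,
    by rw [rl, e', ← rcomm h.pr, e, zero_lie, zero_lie, lie_zero, add_zero], h.sr.ryr h.two _ _,
    h.pr⟩ hM

theorem aa (x x' : M) : tB q p r ⁅⁅x, r⁆, x'⁆ = ⁅tA q p r x, ⁅⁅x', r⁆, q⁆⁆ := by
  have t := h.two
  have e1 : ⁅⁅x, r⁆, ⁅⁅⁅x', q⁆, p⁆, r⁆⁆ = 0 := h.sr.rr t _ _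
  have e2 : ⁅⁅⁅x, r⁆, p⁆, ⁅⁅x', q⁆, r⁆⁆ = 0 := by rw [← rcomm h.pr, h.sr.rr t]
  have e3 : ⁅⁅⁅⁅x, r⁆, q⁆, ⁅⁅x', p⁆, r⁆⁆, q⁆ = 0 := h.sq.ryr t _ _
  have u1 : ⁅⁅x, r⁆, r⁆ = 0 := h.sr _
  have u2 : ∀ w, ⁅⁅⁅x, r⁆, w⁆, r⁆ = 0 := h.sr.ryr t _
  have u3 := h.tA_r x
  have u4 := h.tA_q x
  rw [tA] at u3 u4
  rw [tB, tA]
  generalize ⁅x, r⁆ = u at *
  rw [rl u x' q, add_lie, rl ⁅u, q⁆ x' p, rl u ⁅x', q⁆ p]
  simp only [add_lie]
  rw [rl ⁅⁅u, q⁆, p⁆ x' r, rl ⁅u, q⁆ ⁅x', p⁆ r, rl ⁅u, p⁆ ⁅x', q⁆ r, rl u ⁅⁅x', q⁆, p⁆ r, u1, u2, u2,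
    u3, e1, e2]
  simp only [zero_lie, zero_add, add_zero]
  rw [e3, rl _ ⁅x', r⁆ q, u4, zero_lie, zero_add, add_zero]

theorem aa_symm (x x' : M) : ⁅tA q p r x, ⁅⁅x', r⁆, q⁆⁆ = ⁅tA q p r x', ⁅⁅x, r⁆, q⁆⁆ := by
  have e : ⁅⁅⁅⁅x, r⁆, q⁆, ⁅⁅x', r⁆, q⁆⁆, p⁆ = 0 := by rw [h.sq.rr h.two, zero_lie]
  rw [rl ⁅⁅x, r⁆, q⁆] at e
  rw [tA, tA, eq_neg_of_add_eq_zero_left e, lie_skew]

theorem ba0 (y x : M) : tA q r p ⁅⁅y, q⁆, ⁅x, r⁆⁆ = ⁅⁅⁅⁅y, q⁆, p⁆, r⁆, ⁅⁅x, r⁆, q⁆⁆ := by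
  have t := h.two
  have e1 : ⁅⁅⁅⁅y, q⁆, r⁆, ⁅⁅x, r⁆, p⁆⁆, q⁆ = 0 := by rw [← rcomm h.pr, h.sr.rr t, zero_lie]
  rw [rl ⁅⁅y, q⁆, r⁆, h.sq.ryr t, zero_lie, zero_add] at e1
  have u1 : ⁅⁅y, q⁆, q⁆ = 0 := h.sq _
  have u2 : ⁅⁅⁅y, q⁆, p⁆, q⁆ = 0 := h.sq.ryr t _ _
  have w1 : ⁅⁅⁅x, r⁆, q⁆, r⁆ = 0 := h.sr.ryr t _ _
  have w2 : ⁅⁅⁅⁅x, r⁆, p⁆, q⁆, r⁆ = 0 := h.sr.rxyr t (lie_zero_symm h.pr) _ _
  rw [tA]
  generalize ⁅y, q⁆ = u at *
  generalize ⁅x, r⁆ = w at *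
  rw [rl u w p, add_lie, rl ⁅u, p⁆ w q, rl u ⁅w, p⁆ q, u1, u2, zero_lie, zero_lie, zero_add,
    zero_add, add_lie, rl ⁅u, p⁆ ⁅w, q⁆ r, rl u ⁅⁅w, p⁆, q⁆ r, w1, w2, e1]
  simp

theorem ba1 (y x : M) : ⁅tB q p r y, ⁅x, r⁆⁆ = -tA q r p ⁅⁅y, q⁆, ⁅x, r⁆⁆ := by
  have e : ⁅⁅⁅⁅⁅y, q⁆, p⁆, r⁆, ⁅x, r⁆⁆, q⁆ = 0 := by rw [h.sr.rr h.two, zero_lie]
  rw [rl ⁅⁅⁅y, q⁆, p⁆, r⁆] at e
  rw [h.ba0, tB, eq_neg_of_add_eq_zero_left e]

theorem ba2 (y x : M) : ⁅tA q p r x, ⁅⁅y, q⁆, r⁆⁆ = tA q r p ⁅⁅y, q⁆, ⁅x, r⁆⁆ := by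
  have t := h.two
  have e0 : ⁅⁅⁅⁅y, q⁆, r⁆, ⁅x, r⁆⁆, q⁆ = 0 := by rw [h.sr.rr t, zero_lie]
  rw [rl ⁅⁅y, q⁆, r⁆, h.sq.ryr t, zero_lie, zero_add] at e0
  have e : ⁅⁅⁅⁅y, q⁆, r⁆, ⁅⁅x, r⁆, q⁆⁆, p⁆ = 0 := by rw [e0, zero_lie]
  rw [rl ⁅⁅y, q⁆, r⁆] at e
  rw [h.ba0, rcomm h.pr, eq_neg_of_add_eq_zero_left e, lie_skew, tA]

theorem low_r (y x : M) : ⁅⁅⁅y, q⁆, ⁅x, r⁆⁆, r⁆ = 0 := by
  rw [rl, h.sr, h.sr.rr h.two, lie_zero, add_zero]

theorem low_sand {y x : M} (hy : Sand y) (hx : Sand x) : Sand ⁅⁅y, q⁆, ⁅x, r⁆⁆ :=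
  (hy.lie h.two h.sq).lie h.two (hx.lie h.two h.sr)

theorem assoc (y x z : M) : ⁅⁅tB q p r y, ⁅z, p⁆⁆, ⁅⁅x, r⁆, q⁆⁆ =
    ⁅⁅tB q p r y, ⁅x, r⁆⁆, ⁅⁅z, p⁆, q⁆⁆ := by
  have k : ∀ w : M, ⁅⁅tB q p r y, w⁆, q⁆ = 0 := h.sq.ryr h.two _
  rw [lie_r (k _), lie_r (k _), rl _ ⁅z, p⁆, add_lie, k, add_zero]

theorem cl (x y y' : M) : ⁅⁅tA q p r x, ⁅⁅y, q⁆, r⁆⁆, ⁅⁅y', q⁆, p⁆⁆ =
    -⁅⁅tA q p r x, ⁅⁅y', q⁆, r⁆⁆, ⁅⁅y, q⁆, p⁆⁆ := by
  have t := h.two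
  have k : ∀ e f : M, ⁅⁅tA q p r x, ⁅⁅e, q⁆, r⁆⁆, ⁅⁅f, q⁆, p⁆⁆ =
      ⁅⁅⁅⁅tA q p r x, ⁅e, q⁆⁆, r⁆, ⁅f, q⁆⁆, p⁆ := fun e f => by
    rw [lie_r (s := p) (by rw [h.ba2]; exact h.s.tA_r _), lie_r (h.tA_r x)]
  have k1 : ⁅⁅tA q p r x, ⁅y', q⁆⁆, ⁅y, q⁆⁆ = 0 := by rw [lie_r (h.tA_q x), h.sq.rr t]
  have k2 : ⁅⁅tA q p r x, ⁅⁅r, ⁅y, q⁆⁆, ⁅y', q⁆⁆⁆, p⁆ = 0 := h.sp.ryr t _ _
  rw [k, k, eq_neg_iff_add_eq_zero, ← add_lie, ← neg_eq_zero, ← k2, ← neg_lie]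
  congr 1
  generalize ⁅y, q⁆ = E at *
  generalize ⁅y', q⁆ = F at *
  simp only [lr, sub_lie, h.tA_r, k1, zero_lie]
  abel

theorem qB (hM : SW M) {y : M} (hy : Sand y) (h1 : ∀ x : M, Sand x → ⁅tB q p r y, ⁅x, r⁆⁆ = 0) :
    tB q p r y = 0 := by
  have t := h.two
  apply hM.tf
  have q1 : tB q p r y = -⁅⁅y, ⁅q, p⁆⁆, ⁅q, r⁆⁆ := by
    simp only [tB, lr, sub_lie, h.sq.ryr t, h.sq _, zero_lie]
    abel
  have d1 : Dg 1 (tB q p r y) y := by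
    rw [q1]; exact (((hy.dg3 t).lie (dg_zero _ _) (c := 2) le_rfl).lie (dg_zero _ _) le_rfl).neg
  have d2 : Dg 2 (tB q p r y) ⁅q, p⁆ := by
    have : ⁅⁅q, p⁆, ⁅q, r⁆⁆ = 0 := by
      rw [← lie_skew q p, ← lie_skew q r, neg_lie, lie_neg, h.sq.rr t, neg_zero, neg_zero]
    rw [q1, rcomm this]; exact ((h.sq.lie t h.sp).dg2 t _).neg
  have d3 : Dg 2 (tB q p r y) r := dg_span hM.span (h.tB_r y) fun x hx => dg_one.2 (by
    rw [← lie_r (h.tB_r y), h1 x hx])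
  have d4 : Dg 2 (tB q p r y) q := h.sq.dg2 t _
  have := ((d1.symm.lie d2.symm (c := 2) le_rfl).lie (d4.symm.lie d3.symm (c := 3) le_rfl) (c := 4)
    le_rfl).neg
  rwa [← q1] at this

theorem qA (hM : SW M) {y z : M} (hy : Sand y) (hz : Sand z)
    (h1 : ∀ x : M, Sand x → ⁅⁅tB q p r y, ⁅z, p⁆⁆, ⁅⁅x, r⁆, q⁆⁆ = 0)
    (h2 : ∀ x : M, Sand x → ⁅⁅tB q p r y, ⁅z, p⁆⁆, ⁅⁅x, q⁆, r⁆⁆ = 0) : ⁅tB q p r y, ⁅z, p⁆⁆ = 0 := by
  have t := h.two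
  apply hM.tf
  have q1 : tB q p r y = -⁅⁅⁅y, q⁆, p⁆, ⁅q, r⁆⁆ := by
    simp only [tB, lr, h.sq.ryr t, zero_lie]
    abel
  have fq : ⁅⁅tB q p r y, ⁅z, p⁆⁆, q⁆ = 0 := h.sq.ryr t _ _
  have fr : ⁅⁅tB q p r y, ⁅z, p⁆⁆, r⁆ = 0 := by
    rw [h.tB_sym, h.s.ba1, neg_lie, h.tA_r, neg_zero]
  have f0 : ⁅⁅tB q p r y, ⁅z, p⁆⁆, ⁅q, r⁆⁆ = 0 := by rw [lr, fq, fr, zero_lie, zero_lie, sub_zero]
  have d1 : Dg 1 ⁅tB q p r y, ⁅z, p⁆⁆ ⁅y, q⁆ := by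
    have : ⁅⁅q, r⁆, ⁅y, q⁆⁆ = 0 := by rw [← lie_skew q r, neg_lie, h.sq.rr t, neg_zero]
    rw [q1]
    exact ((((hy.lie t h.sq).dg3 t).lie (dg_zero _ _) (c := 2) le_rfl).lie (dg_one.2 this) (c := 2)
      le_rfl).neg.lie (dg_zero _ _) le_rfl
  have d2 : Dg 2 ⁅tB q p r y, ⁅z, p⁆⁆ p := by rw [lie_r (h.tB_p y)]; exact h.sp.dg2 t _
  have d3 : Dg 2 ⁅tB q p r y, ⁅z, p⁆⁆ ⁅q, r⁆ := dg_span hM.span f0 fun x hx => dg_one.2 (by
    rw [← lie_r f0, lr x, lie_sub, h1 x hx, h2 x hx, sub_zero])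
  have d4 : Dg 1 ⁅tB q p r y, ⁅z, p⁆⁆ z :=
    (dg_zero _ _).lie ((hz.dg3 t).lie (dg_zero _ _) (c := 2) le_rfl) le_rfl
  have := ((d1.symm.lie d2.symm (c := 2) le_rfl).lie d3.symm (c := 3) le_rfl).neg.lie
    (d4.symm.lie d2.symm (c := 2) le_rfl) (c := 4) le_rfl
  rwa [← q1] at this

theorem stepC (hM : SW M) {x y : M} (hx : Sand x) (hp : ⁅x, p⁆ = 0) (hy : Sand y)
    (h1 : ∀ w : M, Sand w → ⁅⁅tA q p r x, ⁅⁅y, q⁆, r⁆⁆, ⁅⁅w, q⁆, p⁆⁆ = 0) :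
    ⁅tA q p r x, ⁅⁅y, q⁆, r⁆⁆ = 0 := by
  have e : ⁅tA q p r x, ⁅⁅y, q⁆, r⁆⁆ = -⁅tB q r p y, ⁅x, r⁆⁆ := by
    rw [h.ba2, ← h.tB_sym, h.ba1, neg_neg]
  rw [e, neg_eq_zero]
  refine h.s.qA hM hy hx (fun z hz => ?_) (fun w hw => ?_)
  · rw [h.s.assoc, h.s.ba1, neg_lie, ← h.aa, h.h2 hM (h.s.low_sand hy hz) hx (h.s.low_r y z) hp,
      neg_zero]
  · rw [← neg_eq_zero, ← neg_lie, ← e, h1 w hw]

theorem nA (x y y' : M) : ⁅tA q p r x, ⁅⁅⁅y, q⁆, r⁆, ⁅⁅y', q⁆, p⁆⁆⁆ =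
    ⁅⁅tA q p r x, ⁅⁅y, q⁆, r⁆⁆, ⁅⁅y', q⁆, p⁆⁆ := by
  rw [lr, h.tA_wp, zero_lie, sub_zero]

theorem nA' (x y y' : M) : ⁅tA q p r x, ⁅⁅⁅y, q⁆, r⁆, ⁅⁅y', q⁆, p⁆⁆⁆ =
    tA q p r ⁅⁅y', q⁆, ⁅⁅⁅y, q⁆, ⁅x, r⁆⁆, p⁆⁆ := by
  rw [h.nA, h.ba2, h.s.ba2]

theorem nA_comm (x y0 y1 y2 y3 : M) :
    ⁅⁅tA q p r x, ⁅⁅⁅y0, q⁆, r⁆, ⁅⁅y1, q⁆, p⁆⁆⁆, ⁅⁅⁅y2, q⁆, r⁆, ⁅⁅y3, q⁆, p⁆⁆⁆ =
      ⁅⁅tA q p r x, ⁅⁅⁅y2, q⁆, r⁆, ⁅⁅y3, q⁆, p⁆⁆⁆, ⁅⁅⁅y0, q⁆, r⁆, ⁅⁅y1, q⁆, p⁆⁆⁆ := by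
  have A : ∀ y0 y1 y2 y3 : M,
      ⁅⁅tA q p r x, ⁅⁅⁅y0, q⁆, r⁆, ⁅⁅y1, q⁆, p⁆⁆⁆, ⁅⁅⁅y2, q⁆, r⁆, ⁅⁅y3, q⁆, p⁆⁆⁆ =
      ⁅⁅⁅⁅tA q p r x, ⁅⁅y0, q⁆, r⁆⁆, ⁅⁅y1, q⁆, p⁆⁆, ⁅⁅y2, q⁆, r⁆⁆, ⁅⁅y3, q⁆, p⁆⁆ := fun _ _ _ _ => by
    rw [h.nA' x, h.nA, ← h.nA', h.nA]
  have B : ∀ y0 y1 y2 : M, ⁅⁅⁅tA q p r x, ⁅⁅y0, q⁆, r⁆⁆, ⁅⁅y1, q⁆, p⁆⁆, ⁅⁅y2, q⁆, r⁆⁆ =
      -⁅⁅⁅tA q p r x, ⁅⁅y0, q⁆, r⁆⁆, ⁅⁅y2, q⁆, p⁆⁆, ⁅⁅y1, q⁆, r⁆⁆ := fun _ _ _ => by
    rw [h.ba2 _ x, h.s.cl]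
  have C : ∀ y0 y1 y2 y3 : M,
      ⁅⁅⁅⁅tA q p r x, ⁅⁅y0, q⁆, r⁆⁆, ⁅⁅y1, q⁆, p⁆⁆, ⁅⁅y2, q⁆, r⁆⁆, ⁅⁅y3, q⁆, p⁆⁆ =
      -⁅⁅⁅⁅tA q p r x, ⁅⁅y0, q⁆, r⁆⁆, ⁅⁅y1, q⁆, p⁆⁆, ⁅⁅y3, q⁆, r⁆⁆, ⁅⁅y2, q⁆, p⁆⁆ := fun _ _ _ _ => by
    rw [← h.nA x, h.nA' x, h.cl]
  rw [A, A, B y0 y1 y2, h.cl x y0 y2, neg_lie, neg_lie, neg_lie, neg_neg, C y2 y0 y1 y3, B y2 y0 y3,
    neg_lie, neg_neg]

theorem killA (hM : SW M) {n1 n2 n3 : M} (s1 : Sand n1) (s2 : Sand n2) (s3 : Sand n3) {x x' w1 w2 : M}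
    (e : ⁅⁅⁅tA q p r x, n1⁆, n2⁆, n3⁆ = tA q p r x') (e1 : ⁅⁅⁅tA q p r x, n1⁆, n2⁆, n3⁆ = ⁅w1, n1⁆)
    (e2 : ⁅⁅⁅tA q p r x, n1⁆, n2⁆, n3⁆ = ⁅w2, n2⁆) : ⁅⁅⁅tA q p r x, n1⁆, n2⁆, n3⁆ = 0 := by
  have t := h.two
  apply hM.tf
  have dp : Dg 2 p (tA q p r x') := (h.sp.dg2 t _).symm
  have dq : Dg 1 q (tA q p r x') := (dg_one.2 (h.tA_q x')).symm
  have dr : Dg 1 r (tA q p r x') := (dg_one.2 (h.tA_r x')).symm
  have d1 : Dg 2 n1 ⁅w1, n1⁆ := (s1.dg2 t _).symm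
  have d2 : Dg 2 n2 ⁅w2, n2⁆ := (s2.dg2 t _).symm
  have d3 : Dg 2 n3 ⁅⁅⁅tA q p r x, n1⁆, n2⁆, n3⁆ := (s3.dg2 t _).symm
  rw [← e] at dp dq dr
  rw [← e1] at d1
  rw [← e2] at d2
  exact ((((((dg_zero x _).lie dr (c := 0) le_rfl).lie dq (c := 0) le_rfl).lie dp (c := 1)
    le_rfl).lie d1 (c := 2) le_rfl).lie d2 (c := 3) le_rfl).lie d3 le_rfl

theorem cliff (hM : SW M) {x y0 y1 : M} (hx : Sand x) (s0 : Sand y0) (s1 : Sand y1) :
    ⁅⁅tA q p r x, ⁅⁅y0, q⁆, r⁆⁆, ⁅⁅y1, q⁆, p⁆⁆ = 0 := by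
  have t := h.two
  have sn : ∀ {y y' : M}, Sand y → Sand y' → Sand ⁅⁅⁅y, q⁆, r⁆, ⁅⁅y', q⁆, p⁆⁆ := fun hy hy' =>
    ((hy.lie t h.sq).lie t h.sr).lie t ((hy'.lie t h.sq).lie t h.sp)
  have x1 := h.low_sand s0 hx
  have x2 := h.s.low_sand s1 x1
  rw [h.ba2]
  refine h.s.stepC hM x1 (h.low_r _ _) s1 fun y2 s2 => ?_
  have x3 := h.low_sand s2 x2
  rw [h.s.ba2]
  refine h.stepC hM x2 (h.s.low_r _ _) s2 fun y3 s3 => ?_
  have x4 := h.s.low_sand s3 x3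
  rw [h.ba2]
  refine h.s.stepC hM x3 (h.low_r _ _) s3 fun y4 s4 => ?_
  rw [h.s.ba2]
  refine h.stepC hM x4 (h.s.low_r _ _) s4 fun y5 s5 => ?_
  rw [← h.nA, ← h.nA', ← h.nA']
  refine h.killA hM (sn s0 s1) (sn s2 s3) (sn s4 s5) (by rw [h.nA', h.nA', h.nA'])
    (by rw [h.nA_comm, h.nA' x, h.nA_comm]) (by rw [h.nA' x, h.nA_comm])

theorem skewB (hM : SW M) {y x1 x2 z z' : M} (hy : Sand y) (s1 : Sand x1) (s2 : Sand x2)
    (hz : Sand z) (hz' : Sand z') :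
    ⁅⁅⁅⁅tB q p r y, ⁅x1, r⁆⁆, ⁅⁅z, p⁆, q⁆⁆, ⁅x2, r⁆⁆, ⁅⁅z', p⁆, q⁆⁆ =
      -⁅⁅⁅⁅tB q p r y, ⁅x2, r⁆⁆, ⁅⁅z, p⁆, q⁆⁆, ⁅x1, r⁆⁆, ⁅⁅z', p⁆, q⁆⁆ := by
  have t := h.two
  have e1 : ⁅⁅⁅⁅z, p⁆, q⁆, ⁅x1, r⁆⁆, ⁅x2, r⁆⁆ = ⁅-⁅⁅tA q r p z, x1⁆, x2⁆, r⁆ := by
    simp only [tA, lr, sub_lie, neg_lie, h.sr.ryr t, h.sr _, zero_lie]
    abel
  have e2 : tA q p r (-⁅⁅tA q r p z, x1⁆, x2⁆) = tA q p r ⁅⁅⁅⁅x1, r⁆, x2⁆, q⁆, ⁅z, p⁆⁆ := by
    have k : ⁅⁅⁅tA q r p z, x2⁆, x1⁆, r⁆ = ⁅⁅⁅tA q r p z, x1⁆, x2⁆, r⁆ := by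
      rw [rl _ x1 x2, add_lie, tA, h.sr.ryr t, add_zero]
    rw [← h.s.ba2, lie_r (h.s.tA_r z), lie_r (h.s.tA_q z), lr _ _ x2, lr _ x1 r, lr _ x1 r]
    simp only [sub_lie, h.s.tA_p, zero_lie, k]
    simp only [tA, neg_lie, h.sr.ryr t, zero_lie]
    abel
  have e3 : ⁅⁅tB q p r y, ⁅x2, r⁆⁆, ⁅x1, r⁆⁆ = 0 := by rw [lie_r (h.tB_r y), h.sr.rr t]
  have e4 : ⁅⁅tB q p r y, ⁅⁅⁅⁅z, p⁆, q⁆, ⁅x1, r⁆⁆, ⁅x2, r⁆⁆⁆, ⁅⁅z', p⁆, q⁆⁆ = 0 := by
    rw [e1, ← h.assoc, h.tB_sym, h.s.ba1, neg_lie, h.aa_symm, e2, ← h.aa,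
      h.h2 hM (h.s.low_sand ((s1.lie t h.sr).lie t s2) hz) (h.s.low_sand hy hz') (h.s.low_r _ _)
        (h.s.low_r _ _), neg_zero]
  have e5 := h.tB_wq y ⁅z, p⁆
  rw [eq_neg_iff_add_eq_zero, ← add_lie, ← neg_eq_zero, ← e4, ← neg_lie]
  congr 1
  generalize ⁅x1, r⁆ = E at *
  generalize ⁅x2, r⁆ = F at *
  generalize ⁅⁅z, p⁆, q⁆ = G at *
  simp only [lr, sub_lie, e3, e5, zero_lie]
  abel

theorem dB (y x z : M) : ⁅⁅tB q p r y, ⁅x, r⁆⁆, ⁅⁅z, p⁆, q⁆⁆ =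
    tB q p r (-⁅⁅⁅⁅y, q⁆, ⁅x, r⁆⁆, p⁆, z⁆) := by
  rw [h.ba1, neg_lie, ← h.s.aa, h.tB_sym]
  simp only [tB, neg_lie]

theorem stepB (hM : SW M) {y : M} (hy : Sand y)
    (h1 : ∀ x z : M, Sand x → Sand z → ⁅⁅tB q p r y, ⁅x, r⁆⁆, ⁅⁅z, p⁆, q⁆⁆ = 0) :
    tB q p r y = 0 := by
  refine h.qB hM hy fun x hx => ?_
  rw [h.tB_sym]
  refine h.s.qA hM hy hx (fun z hz => ?_) (fun w hw => ?_)
  · rw [← h.tB_sym, h1 x z hx hz]
  · rw [← h.tB_sym, h.ba1, ← h.ba2, neg_lie, h.cliff hM hx hy hw, neg_zero]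

/-- There is no configuration of type `A₃`. -/
theorem phase2 (hM : SW M) {y : M} (hy : Sand y) : tB q p r y = 0 := by
  have t := h.two
  refine h.stepB hM hy fun x1 z1 s1 t1 => ?_
  rw [h.dB]
  refine h.stepB hM (((h.low_sand hy s1).lie t h.sp).lie t t1).neg fun x2 z2 s2 t2 => ?_
  rw [← h.dB]
  have nB : ∀ y x z : M, ⁅tB q p r y, ⁅⁅x, r⁆, ⁅⁅z, p⁆, q⁆⁆⁆ =
      ⁅⁅tB q p r y, ⁅x, r⁆⁆, ⁅⁅z, p⁆, q⁆⁆ := fun y x z => by rw [lr, h.tB_wq, zero_lie, sub_zero]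
  have sn : ∀ {x z : M}, Sand x → Sand z → Sand ⁅⁅x, r⁆, ⁅⁅z, p⁆, q⁆⁆ := fun hx hz =>
    (hx.lie t h.sr).lie t ((hz.lie t h.sp).lie t h.sq)
  have A : ∀ x z x' z' : M, ⁅⁅⁅⁅tB q p r y, ⁅x, r⁆⁆, ⁅⁅z, p⁆, q⁆⁆, ⁅x', r⁆⁆, ⁅⁅z', p⁆, q⁆⁆ =
      ⁅⁅⁅⁅tB q r p y, ⁅z, p⁆⁆, ⁅⁅x, r⁆, q⁆⁆, ⁅z', p⁆⁆, ⁅⁅x', r⁆, q⁆⁆ := fun x z x' z' => by
    rw [h.dB y, ← h.assoc, ← h.dB y, ← h.assoc, h.tB_sym]
  have B : ∀ x z x' z' : M, ⁅⁅⁅⁅tB q p r y, ⁅x, r⁆⁆, ⁅⁅z, p⁆, q⁆⁆, ⁅x', r⁆⁆, ⁅⁅z', p⁆, q⁆⁆ =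
      ⁅⁅tB q p r y, ⁅⁅x, r⁆, ⁅⁅z, p⁆, q⁆⁆⁆, ⁅⁅x', r⁆, ⁅⁅z', p⁆, q⁆⁆⁆ := fun x z x' z' => by
    rw [nB, h.dB y, nB]
  have e1 : ⁅⁅⁅⁅tB q p r y, ⁅x1, r⁆⁆, ⁅⁅z1, p⁆, q⁆⁆, ⁅x2, r⁆⁆, ⁅⁅z2, p⁆, q⁆⁆ =
      ⁅⁅⁅⁅tB q p r y, ⁅x2, r⁆⁆, ⁅⁅z2, p⁆, q⁆⁆, ⁅x1, r⁆⁆, ⁅⁅z1, p⁆, q⁆⁆ := by
    rw [h.skewB hM hy s1 s2 t1 t2, A x2 z1, h.s.skewB hM hy t1 t2 s2 s1, neg_neg, A]
  obtain ⟨y', e⟩ : ∃ y', ⁅⁅⁅⁅tB q p r y, ⁅x1, r⁆⁆, ⁅⁅z1, p⁆, q⁆⁆, ⁅x2, r⁆⁆, ⁅⁅z2, p⁆, q⁆⁆ =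
    tB q p r y' := ⟨_, by rw [h.dB y, h.dB]⟩
  apply hM.tf
  have dq : Dg 2 q (tB q p r y') := (h.sq.dg2 t _).symm
  have dp : Dg 1 p (tB q p r y') := (dg_one.2 (h.tB_p y')).symm
  have dr : Dg 1 r (tB q p r y') := (dg_one.2 (h.tB_r y')).symm
  have d1 := ((sn s1 t1).dg2 t ⁅tB q p r y, ⁅⁅x2, r⁆, ⁅⁅z2, p⁆, q⁆⁆⁆).symm
  have d2 := ((sn s2 t2).dg2 t ⁅tB q p r y, ⁅⁅x1, r⁆, ⁅⁅z1, p⁆, q⁆⁆⁆).symm
  rw [← B, ← e1] at d1
  rw [← B] at d2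
  rw [← e] at dq dp dr
  have := ((((((dg_zero y _).lie dq (c := 1) le_rfl).lie dp (c := 1) le_rfl).lie dr (c := 1)
    le_rfl).lie dq (c := 2) le_rfl).lie d1 (c := 3) le_rfl).lie d2 (c := 4) le_rfl
  rwa [← tB.eq_1, ← B] at this

end A3

/-- A Lie ring spanned by sandwiches and without thick sandwiches is zero. -/
theorem SW.zero (hM : SW M) (a : M) : a = 0 := by
  have t := hM.two
  suffices H : ∀ c : M, Sand c → c = 0 by
    have ha : a ∈ Submodule.span ℤ {s : M | Sand s} := by rw [hM.span]; trivial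
    have : Submodule.span ℤ {s : M | Sand s} ≤ ⊥ := Submodule.span_le.2 fun c hc => H c hc
    exact this ha
  intro c hc
  have h3 := hc.dg3 t
  refine hM.tf c (dg_span hM.span h3.1 fun b1 s1 => dg_span hM.span (h3.2 b1).1 fun b2 s2 =>
    dg_span hM.span ((h3.2 b1).2 b2).1 fun q sq => dg_one.2 ?_)
  have h : A3 q c ⁅⁅c, b1⁆, b2⁆ :=
    ⟨t, sq, hc, (hc.lie t s1).lie t s2, lie_zero_symm ((h3.2 b1).2 b2).1⟩
  generalize ⁅⁅c, b1⁆, b2⁆ = r at h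
  have e0 : ⁅⁅⁅q, c⁆, r⁆, q⁆ = 0 := by
    rw [← lie_skew q c, neg_lie, neg_lie, h.sq.ryr t, neg_zero]
  have e1 : ⁅⁅q, c⁆, r⁆ = 0 := by
    apply hM.tf
    have dq : Dg 2 ⁅⁅q, c⁆, r⁆ q := dg_span hM.span e0 fun y hy => dg_one.2 (by
      have e : ⁅⁅y, ⁅⁅q, c⁆, r⁆⁆, q⁆ = tB q c r y := by
        simp only [tB, lr, sub_lie, h.sq.ryr t, h.sq _]
        abel
      rw [← lie_skew _ y, neg_lie, e, h.phase2 hM hy, neg_zero])
    have dr : Dg 2 ⁅⁅q, c⁆, r⁆ r := h.sr.dg2 t _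
    have dc : Dg 2 ⁅⁅q, c⁆, r⁆ c := by rw [rcomm h.pr]; exact h.sp.dg2 t _
    exact (dq.symm.lie dc.symm (c := 3) le_rfl).lie dr.symm le_rfl
  rw [← lie_skew r q, neg_lie, ← rcomm h.pr, e1, neg_zero]

end Pool.Agent.MP38b55a

end

section

set_option autoImplicit false

namespace Pool.Agent.MP38b55a

universe u

variable {M : Type*} [LieRing M]

theorem no2_of_tors {p : ℕ} (hp : p.Prime) (h3 : 3 ≤ p) (ht : ∀ x : M, p • x = 0) : No2 M :=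
  fun x hx => cancel_of_coprime (m := 2) ((Nat.coprime_primes Nat.prime_two hp).2 (by omega)) (ht x)
    (by rw [two_nsmul, hx])

theorem Sand.aut {s : M} (h2 : No2 M) (hs : Sand s) (x y : M) :
    ⁅x + ⁅x, s⁆, y + ⁅y, s⁆⁆ = ⁅x, y⁆ + ⁅⁅x, y⁆, s⁆ := by
  rw [add_lie, lie_add, lie_add, hs.rr h2, rl x y s]; abel

theorem Sand.dg_aut {s : M} (h2 : No2 M) (hs : Sand s) {k : ℕ} : ∀ {x y : M}, Dg k x y →
    Dg k (x + ⁅x, s⁆) (y + ⁅y, s⁆) := by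
  induction k with
  | zero => intro _ _ _; trivial
  | succ k ih =>
    intro x y h
    refine ⟨by rw [hs.aut h2, h.1, zero_lie, add_zero], fun z => ?_⟩
    have e : z = z - ⁅z, s⁆ + ⁅z - ⁅z, s⁆, s⁆ := by rw [sub_lie, hs]; abel
    rw [e, hs.aut h2]
    exact ih (h.2 _)

theorem abI_of_dg {n : ℕ} (hp : (n + 1).Prime) (ht : ∀ x : M, (n + 1) • x = 0) (hE : EngelLin n M)
    {c : M} (h : Dg (n + 1) c c) : AbI c :=
  abelian_of_sand (sand_all hp ht hE fun w hw => by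
    ext x
    have := lie_zero_symm (dg_iff.1 h (w ++ [x]) (by simpa using hw))
    rwa [lie_lad_concat, neg_eq_zero] at this)

theorem abI_of_comm (h2 : No2 M) (hs : Submodule.span ℤ {s : M | Sand s} = ⊤) {k : ℕ}
    (h : ∀ e e' : M, Dg k e e → Dg k e' e' → ⁅e, e'⁆ = 0) {c : M} (hc : Dg k c c) : AbI c := by
  set W := Submodule.span ℤ {e : M | Dg k e e}
  have h1 : ∀ x : M, ∀ w ∈ W, ⁅x, w⁆ ∈ W := fun x w hw => by
    have hx : x ∈ Submodule.span ℤ {s : M | Sand s} := by rw [hs]; trivial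
    induction hx using Submodule.span_induction with
    | mem s hs =>
      induction hw using Submodule.span_induction with
      | mem e he =>
        have : ⁅s, e⁆ = e - (e + ⁅e, s⁆) := by rw [← lie_skew s e]; abel
        rw [this]
        exact sub_mem (Submodule.subset_span he) (Submodule.subset_span (Sand.dg_aut h2 hs he))
      | zero => rw [lie_zero]; exact zero_mem _
      | add a b _ _ ha hb => rw [lie_add]; exact add_mem ha hb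
      | smul r a _ ha => rw [lie_zsmul]; exact Submodule.smul_mem _ r ha
    | zero => rw [zero_lie]; exact zero_mem _
    | add a b _ _ ha hb => rw [add_lie]; exact add_mem ha hb
    | smul r a _ ha => rw [zsmul_lie]; exact Submodule.smul_mem _ r ha
  have h3 : ∀ l : List M, lad l c ∈ W := fun l => by
    induction l with
    | nil => exact Submodule.subset_span hc
    | cons x l ih => exact h1 x _ ih
  have h4 : ∀ a ∈ W, ∀ b ∈ W, ⁅a, b⁆ = 0 := fun a ha b hb => by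
    induction ha using Submodule.span_induction with
    | mem e he =>
      induction hb using Submodule.span_induction with
      | mem e' he' => exact h e e' he he'
      | zero => exact lie_zero _
      | add a b _ _ ha hb => rw [lie_add, ha, hb, add_zero]
      | smul r a _ ha => rw [lie_zsmul, ha, smul_zero]
    | zero => exact zero_lie _
    | add a b _ _ ha hb => rw [add_lie, ha, hb, add_zero]
    | smul r a _ ha => rw [zsmul_lie, ha, smul_zero]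
  exact fun l l' => h4 _ (h3 l) _ (h3 l')

theorem sand_stmt (n : ℕ) (hp : (n + 1).Prime) (hn : 2 ≤ n) : SandStmt.{u} n := by
  intro M _ ht hE hs a ha
  have h2 : No2 M := no2_of_tors hp (by omega) ht
  by_contra hcon
  have key : ∀ k, ∃ c : M, c ≠ 0 ∧ Dg (k + 4) c c := by
    intro k
    induction k with
    | zero =>
      by_contra h
      exact ha (SW.zero ⟨h2, hs, fun m hm => by_contra fun h0 => h ⟨m, h0, hm⟩⟩ a)
    | succ k ih =>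
      obtain ⟨c, hc, hd⟩ := ih
      by_contra h
      refine hcon ⟨c, hc, abI_of_comm h2 hs (fun e e' he he' => by_contra fun h0 => h ⟨_, h0, ?_⟩) hd⟩
      exact (he.lie (dg_zero e' e) (c := k + 3) le_rfl).symm.lie
        ((dg_zero e e').lie he' (c := k + 3) (by omega)).symm (by omega)
  obtain ⟨c, hc, hd⟩ := key n
  exact hcon ⟨c, hc, abI_of_dg hp ht hE (hd.mono (by omega))⟩

end Pool.Agent.MP38b55a

end

section

set_option autoImplicit false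

namespace Pool.Agent.MP38b55a

universe u

/-- Functions with values in a Lie ring. -/
def Fn_KRel (X L : Type u) : Type u := X → L

instance addCommGroup_KRel (X L : Type u) [LieRing L] : AddCommGroup (Fn_KRel X L) :=
  inferInstanceAs (AddCommGroup (X → L))

instance lieRing_KRel (X L : Type u) [LieRing L] : LieRing (Fn_KRel X L) where
  bracket F G := fun a => ⁅F a, G a⁆
  add_lie F G H := funext fun a => add_lie (F a) (G a) (H a)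
  lie_add F G H := funext fun a => lie_add (F a) (G a) (H a)
  lie_self F := funext fun a => lie_self (F a)
  leibniz_lie F G H := funext fun a => leibniz_lie (F a) (G a) (H a)

section
variable (K : Type) [Field K] {L : Type u} [LieRing L] [LieAlgebra K L] (A : Set L)

/-- Functions of finitely many points that respect curves and take values in the span. -/
structure Nice_KRel (F : Fn_KRel (ℕ → A) L) : Prop where
  fin : ∃ N, ∀ a a' : ℕ → A, (∀ k < N, a k = a' k) → F a = F a'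
  crv : ∀ (a : ℕ → A) (x : L) (γ : ℕ → K → A), (∀ k, Crv (a k : L) x fun τ => (γ k τ : L)) →
    Crv (F a) x fun τ => F fun k => γ k τ
  mem : ∀ a, F a ∈ Submodule.span K A

/-- Nice functions whose values are sandwiches. -/
def B0_KRel : Set (Fn_KRel (ℕ → A) L) := {F | Nice_KRel K A F ∧ ∀ a, Sand (F a)}

variable {K A}

theorem Nice_KRel.bin {F G H : Fn_KRel (ℕ → A) L} (hF : Nice_KRel K A F) (hG : Nice_KRel K A G)
    (φ : L → L → L) (e : ∀ a, H a = φ (F a) (G a)) :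
    ∃ N, ∀ a a' : ℕ → A, (∀ k < N, a k = a' k) → H a = H a' := by
  obtain ⟨N, hN⟩ := hF.fin
  obtain ⟨N', hN'⟩ := hG.fin
  exact ⟨max N N', fun a a' h => by
    rw [e, e, hN a a' fun k hk => h k (lt_max_of_lt_left hk),
      hN' a a' fun k hk => h k (lt_max_of_lt_right hk)]⟩

theorem Nice_KRel.lie (hI : ∀ x : L, ∀ s ∈ Submodule.span K A, ⁅x, s⁆ ∈ Submodule.span K A)
    {F G : Fn_KRel (ℕ → A) L} (hF : Nice_KRel K A F) (hG : Nice_KRel K A G) :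
    Nice_KRel K A ⁅F, G⁆ :=
  ⟨hF.bin hG (fun x y => ⁅x, y⁆) fun _ => rfl,
    fun a x γ h => (hF.crv a x γ h).lie (hG.crv a x γ h), fun a => hI _ _ (hG.mem a)⟩

theorem nice_closure_KRel {F : Fn_KRel (ℕ → A) L} (h : F ∈ AddSubgroup.closure (B0_KRel K A)) :
    Nice_KRel K A F := by
  induction h using AddSubgroup.closure_induction with
  | mem F hF => exact hF.1
  | zero => exact ⟨⟨0, fun _ _ _ => rfl⟩, fun _ x _ _ => Crv.zero x, fun _ => zero_mem _⟩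
  | add F G _ _ hF hG =>
    exact ⟨hF.bin hG (fun x y => x + y) fun _ => rfl,
      fun a x γ h => (hF.crv a x γ h).add (hG.crv a x γ h), fun a => add_mem (hF.mem a) (hG.mem a)⟩
  | neg F _ hF =>
    exact ⟨hF.bin hF (fun x _ => -x) fun _ => rfl, fun a x γ h => (hF.crv a x γ h).neg,
      fun a => neg_mem (hF.mem a)⟩

/-- The Lie ring spanned by the nice sandwich functions. -/
def M_KRel (h2 : No2 L)
    (hI : ∀ x : L, ∀ s ∈ Submodule.span K A, ⁅x, s⁆ ∈ Submodule.span K A) :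
    LieSubalgebra ℤ (Fn_KRel (ℕ → A) L) where
  carrier := AddSubgroup.closure (B0_KRel K A)
  add_mem' := fun h h' => add_mem h h'
  zero_mem' := zero_mem _
  smul_mem' := fun c _ h => zsmul_mem h c
  lie_mem' := fun {F G} hF hG => by
    induction hF, hG using AddSubgroup.closure_induction₂ with
    | mem F G hF hG =>
      exact AddSubgroup.subset_closure ⟨hF.1.lie hI hG.1, fun a => (hF.2 a).lie h2 (hG.2 a)⟩
    | zero_left G _ => rw [zero_lie]; exact zero_mem _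
    | zero_right F _ => rw [lie_zero]; exact zero_mem _
    | add_left F F' G _ _ _ h h' => rw [add_lie]; exact add_mem h h'
    | add_right G G' F _ _ _ h h' => rw [lie_add]; exact add_mem h h'
    | neg_left F G _ _ h => rw [neg_lie]; exact neg_mem h
    | neg_right F G _ _ h => rw [lie_neg]; exact neg_mem h

theorem lad_map_KRel {M : Type u} [LieRing M] (φ : M → L) (hφ : ∀ x y, φ ⁅x, y⁆ = ⁅φ x, φ y⁆)
    (l : List M) (c : M) : φ (lad l c) = lad (l.map φ) (φ c) := by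
  induction l with
  | nil => rfl
  | cons x l ih =>
    change φ ⁅x, lad l c⁆ = ⁅φ x, lad (l.map φ) (φ c)⁆
    rw [hφ, ih]

theorem lad_smul_KRel (l : List L) (r : K) (c : L) : lad l (r • c) = r • lad l c := by
  induction l with
  | nil => rfl
  | cons x l ih =>
    change ⁅x, lad l (r • c)⁆ = r • ⁅x, lad l c⁆
    rw [ih, lie_smul]

/-- The ideals generated with the help of `A` commute. -/
def Q_KRel (A : Set L) (x x' : L) : Prop :=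
  ∀ l l' : List L, (∀ y ∈ l, y ∈ A) → (∀ y ∈ l', y ∈ A) → ⁅lad l x, lad l' x'⁆ = 0

theorem Q_KRel.symm {x x' : L} (h : Q_KRel A x x') : Q_KRel A x' x :=
  fun l l' hl hl' => lie_zero_symm (h l' l hl' hl)

theorem Q_KRel.step {x x' : L} (h : Q_KRel A x x') {s : L} (hs : s ∈ Submodule.span K A) :
    Q_KRel A ⁅s, x⁆ x' := by
  intro l l' hl hl'
  induction hs using Submodule.span_induction with
  | mem s hs =>
    have := h (l ++ [s]) l' (fun y hy => by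
      rcases List.mem_append.1 hy with hy | hy
      · exact hl y hy
      · rwa [List.mem_singleton.1 hy]) hl'
    rwa [lad_append] at this
  | zero => rw [zero_lie, lad_eq' l, map_zero, zero_lie]
  | add s t _ _ hs ht =>
    rw [lad_eq' l] at hs ht
    rw [add_lie, lad_eq' l, map_add, add_lie, hs, ht, add_zero]
  | smul r s _ hs => rw [smul_lie, lad_smul_KRel, smul_lie, hs, smul_zero]

theorem Q_KRel.steps {x x' : L} (h : Q_KRel A x x') (l : List L)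
    (hl : ∀ y ∈ l, y ∈ Submodule.span K A) : Q_KRel A (lad l x) x' := by
  induction l with
  | nil => exact h
  | cons s l ih =>
    exact (ih fun y hy => hl y (List.mem_cons_of_mem _ hy)).step (hl s List.mem_cons_self)

end

theorem rel_stmt : RelStmt.{u} := by
  intro n hp hn hS K _ L _ _ ht hE A hA hsand ⟨a₀, ha₀, hne⟩ hI
  have h2 : No2 L := fun x hx =>
    cancel_of_coprime (m := 2) (p := n + 1)
      ((Nat.coprime_primes Nat.prime_two hp).2 (by omega)) (ht x) (by rw [two_nsmul, hx])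
  let M := M_KRel h2 hI
  let ev : (ℕ → A) → M →+ L := fun a => ⟨⟨fun m => m.1 a, rfl⟩, fun _ _ => rfl⟩
  have hev : ∀ a (x y : M), ev a ⁅x, y⁆ = ⁅ev a x, ev a y⁆ := fun _ _ _ => rfl
  have hext : ∀ m : M, (∀ a, ev a m = 0) → m = 0 := fun m h => Subtype.ext (funext h)
  have hnice : ∀ m : M, Nice_KRel K A m.1 := fun m => nice_closure_KRel m.2
  let e : ℕ → M := fun k => ⟨fun a => (a k : L), AddSubgroup.subset_closure
    ⟨⟨⟨k + 1, fun a a' h => congrArg Subtype.val (h k (Nat.lt_succ_self k))⟩,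
      fun _ _ _ h => h k, fun a => Submodule.subset_span (a k).2⟩, fun a => hsand _ (a k).2⟩⟩
  have hspan : Submodule.span ℤ {s : M | Sand s} = ⊤ := by
    rw [eq_top_iff]
    rintro ⟨F, hF⟩ -
    induction hF using AddSubgroup.closure_induction with
    | mem F hF => exact Submodule.subset_span fun y => hext _ fun a => hF.2 a (y.1 a)
    | zero => exact zero_mem _
    | add F G _ _ hF hG => exact add_mem hF hG
    | neg F _ hF => exact neg_mem hF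
  obtain ⟨c, hc0, hc⟩ := hS M (fun x => hext _ fun a => by rw [map_nsmul, ht])
    (fun x y => hext _ fun a => by
      rw [map_sum]
      simp only [lad_map_KRel (ev a) (hev a), List.map_ofFn]
      exact hE (fun i => ev a (x i)) (ev a y)) hspan (e 0)
    (fun h => hne (congrArg (ev fun _ => ⟨a₀, ha₀⟩) h))
  refine ⟨Set.range fun a => ev a c, ?_, ?_, ?_, ?_⟩
  · rintro _ ⟨a, rfl⟩ x
    choose γ h1 h3 using fun k => hA (a k) (a k).2 x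
    exact ⟨_, (hnice c).crv a x (fun k τ => ⟨γ k τ, h3 k τ⟩) h1, fun τ => ⟨_, rfl⟩⟩
  · by_contra h
    exact hc0 (hext c fun a => by_contra fun h' => h ⟨_, ⟨a, rfl⟩, h'⟩)
  · rintro _ ⟨a, rfl⟩
    exact (hnice c).mem a
  · rintro _ ⟨a, rfl⟩ l l' hl hl'
    let P : L → L → Prop := fun x x' =>
      ∃ (w w' : List M) (b : ℕ → A), ev b (lad w c) = x ∧ ev b (lad w' c) = x'
    have Psymm : ∀ x x', P x x' → P x' x := fun x x' ⟨w, w', b, h, h'⟩ => ⟨w', w, b, h', h⟩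
    have Pstep : ∀ x x' s, s ∈ A → P x x' → P ⁅s, x⁆ x' := by
      rintro _ _ s hs ⟨w, w', b, rfl, rfl⟩
      obtain ⟨N, hN⟩ := (hnice (lad w c)).fin
      obtain ⟨N', hN'⟩ := (hnice (lad w' c)).fin
      have hu : ∀ k < max N N', Function.update b (max N N') ⟨s, hs⟩ k = b k := fun k hk =>
        Function.update_of_ne hk.ne _ _
      refine ⟨e (max N N') :: w, w', Function.update b (max N N') ⟨s, hs⟩, ?_,
        hN' _ _ fun k hk => hu k (lt_max_of_lt_right hk)⟩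
      have e1 := hN _ _ fun k hk => hu k (lt_max_of_lt_left hk)
      change ⁅((Function.update b (max N N') ⟨s, hs⟩ (max N N') : A) : L),
        (lad w c).1 (Function.update b (max N N') ⟨s, hs⟩)⁆ = ⁅s, (lad w c).1 b⁆
      rw [e1, Function.update_self]
    have Psteps : ∀ (l : List L) x x', (∀ y ∈ l, y ∈ A) → P x x' → P (lad l x) x' := by
      intro l x x' hl h
      induction l with
      | nil => exact h
      | cons s l ih =>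
        exact Pstep _ _ s (hl s List.mem_cons_self) (ih fun y hy => hl y (List.mem_cons_of_mem _ hy))
    have hQ : Q_KRel A (ev a c) (ev a c) := fun u u' hu hu' => by
      obtain ⟨w, w', b, h, h'⟩ := Psteps u _ _ hu (Psymm _ _ (Psteps u' _ _ hu'
        (⟨[], [], a, rfl, rfl⟩ : P (ev a c) (ev a c))))
      rw [← h, ← h', ← hev, hc, map_zero]
    exact ((hQ.steps l' hl').symm.steps l hl) [] [] (fun _ h => nomatch h) fun _ h => nomatch h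

end Pool.Agent.MP38b55a

end

section

set_option autoImplicit false

namespace Pool.Agent.MP38b55a

universe u

section
variable {K : Type} [Field K] {L : Type u} [LieRing L] [LieAlgebra K L]

theorem engel_pow {n : ℕ} (hp : (n + 1).Prime) (ht : ∀ x : L, (n + 1) • x = 0) (hE : EngelLin n L)
    (v : L) : ad v ^ n = 0 := by
  refine cancel_of_coprime (m := n.factorial) (p := n + 1)
    ((Nat.Prime.coprime_iff_not_dvd hp).2 (by rw [hp.dvd_factorial]; omega)).symm (end_tors ht _) ?_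
  have := hE.op fun _ => v
  simpa [Fintype.card_perm] using this

theorem ex_cube (K : Type) [Field K] [LieAlgebra K L] {n : ℕ} (hp : (n + 1).Prime) (hn : 6 ≤ n)
    (ht : ∀ x : L, (n + 1) • x = 0) (hE : EngelLin n L) {a : L} (ha : a ≠ 0) (k : ℕ) :
    k + 3 ≤ n → ∃ A : Set L, TC K A ∧ (∃ a ∈ A, a ≠ 0) ∧ ∀ v ∈ A, ad v ^ (n - k) = 0 := by
  induction k with
  | zero => exact fun _ => ⟨Set.univ, TC.univ, ⟨a, trivial, ha⟩, fun v _ => engel_pow hp ht hE v⟩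
  | succ k ih =>
    intro hk
    obtain ⟨A, h1, h2, h3⟩ := ih (by omega)
    by_cases h : ∀ v ∈ A, ad v ^ (n - (k + 1)) = 0
    · exact ⟨A, h1, h2, h⟩
    refine ⟨{c | ∃ v ∈ A, ∃ w, c = (ad v ^ (n - k - 1)) w}, ?_, ?_, ?_⟩
    · rintro _ ⟨v, hv, w, rfl⟩ x
      obtain ⟨γ, g1, g2⟩ := h1 v hv x
      exact ⟨_, g1.pow (Crv.base w x) _, fun τ => ⟨_, g2 τ, _, rfl⟩⟩
    · by_contra h'
      refine h fun v hv => LinearMap.ext fun w => by_contra fun h0 => h' ⟨_, ⟨v, hv, w, rfl⟩, h0⟩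
    · rintro _ ⟨v, hv, w, rfl⟩
      exact s1_stmt (n + 1) (n - k) hp (by omega) (by omega) (by omega) L ht v w (h3 v hv)

theorem ex_sand (K : Type) [Field K] [Infinite K] [LieAlgebra K L] {n : ℕ} (hp : (n + 1).Prime)
    (hn : 6 ≤ n) (ht : ∀ x : L, (n + 1) • x = 0) (hE : EngelLin n L) {a : L} (ha : a ≠ 0) (k : ℕ) :
    ∀ N, N + k + 1 = n → ∃ A : Set L, TC K A ∧ (∃ a ∈ A, a ≠ 0) ∧
      ∀ v ∈ A, JE v ∧ ∀ w : L, (ad ⁅w, v⁆ ^ (N + 1)) v = 0 := by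
  induction k with
  | zero =>
    intro N hN
    obtain ⟨A, h1, h2, h3⟩ := ex_cube K hp hn ht hE ha (n - 3) (by omega)
    refine ⟨A, h1, h2, fun v hv => ⟨⟨no2_of_tors hp (by omega) ht, fun x hx =>
      cancel_of_coprime (m := 3) (cop_of_lt hp (by omega) (by omega)) (ht x)
        (by rw [succ_nsmul, two_nsmul, hx]), fun y => ?_⟩, fun w => ?_⟩⟩
    · have := h3 v hv
      rw [show n - (n - 3) = 3 by omega] at this
      exact congrArg (fun A : Module.End ℤ L => A y) this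
    · rw [show N + 1 = n by omega, engel_pow hp ht hE]; rfl
  | succ k ih =>
    intro N hN
    obtain ⟨A, h1, h2, h3⟩ := ih (N + 1) (by omega)
    by_cases h : ∀ v ∈ A, ∀ w : L, (ad ⁅w, v⁆ ^ (N + 1)) v = 0
    · exact ⟨A, h1, h2, fun v hv => ⟨(h3 v hv).1, h v hv⟩⟩
    refine ⟨{c | ∃ v ∈ A, ∃ w : L, c = (ad ⁅w, v⁆ ^ (N + 1)) v}, ?_, ?_, ?_⟩
    · rintro _ ⟨v, hv, w, rfl⟩ x
      obtain ⟨γ, g1, g2⟩ := h1 v hv x
      exact ⟨_, ((Crv.base w x).lie g1).pow g1 _, fun τ => ⟨_, g2 τ, _, rfl⟩⟩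
    · by_contra h'
      exact h fun v hv w => by_contra fun h0 => h' ⟨_, ⟨v, hv, w, rfl⟩, h0⟩
    · rintro _ ⟨v, hv, w, rfl⟩
      obtain ⟨j, h4⟩ := h3 v hv
      obtain ⟨b, e, hb⟩ := j.step_a hp ht (by omega) (h4 w)
      rw [e]
      exact ⟨⟨j.two, j.three, j.cube_vv b⟩, j.step_b K hp ht (by omega) h4 hb⟩

end

theorem aik (n : ℕ) (hp : (n + 1).Prime) (hn : 6 ≤ n) : AIK.{u} n := by
  intro K _ _ L _ _ ht hE a ha
  obtain ⟨A, h1, h2, h3⟩ := ex_sand K hp hn ht hE ha (n - 1) 0 (by omega)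
  have h4 : ∀ x : L, ∀ s ∈ Submodule.span K A, ⁅x, s⁆ ∈ Submodule.span K A :=
    fun x s hs => h1.ideal x hs
  obtain ⟨B, g1, g2, g3, g4⟩ := rel_stmt n hp (by omega) (sand_stmt n hp (by omega)) K L ht hE A h1
    (fun v hv w => (h3 v hv).2 w) h2 h4
  exact her_stmt n hp K L ht hE _ h4 B g1 g2 g3 g4

/-- Kostrikin's theorem on abelian ideals. -/
theorem ai_all (n : ℕ) (hp : (n + 1).Prime) : AI.{u} n := by
  by_cases hn : 6 ≤ n
  · exact desc_stmt n hp (aik n hp hn)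
  · have h2 := hp.two_le
    obtain rfl | rfl | rfl | rfl | rfl : n = 1 ∨ n = 2 ∨ n = 3 ∨ n = 4 ∨ n = 5 := by omega
    · exact ai_one
    · exact ai_two
    · norm_num at hp
    · exact ai_four
    · norm_num at hp

end Pool.Agent.MP38b55a

end
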