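import Mathlib

section

set_option autoImplicit false

open scoped commutatorElement

namespace Pool.Agent.MP38b55a

universe u
variable {P : Type u} [Group P]

/-- A descending commutator filtration of a group (index `n` stands for weight `n + 1`). -/
structure Filt (P : Type u) [Group P] where
  F : ℕ → Subgroup P
  anti : ∀ n, F (n + 1) ≤ F n
  comm : ∀ i j x y, x ∈ F i → y ∈ F j → ⁅x, y⁆ ∈ F (i + j + 1)

theorem comm_swap {Y : Subgroup P} {x y : P} (h : ⁅x, y⁆ ∈ Y) : ⁅y, x⁆ ∈ Y := by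
  rw [← commutatorElement_inv]; exact Y.inv_mem h

namespace Filt
variable (Φ : Filt P)

theorem mono {i j : ℕ} (h : i ≤ j) : Φ.F j ≤ Φ.F i := by
  induction h with
  | refl => exact le_rfl
  | step _ ih => exact (Φ.anti _).trans ih

theorem comm' {i j m : ℕ} {x y : P} (hx : x ∈ Φ.F i) (hy : y ∈ Φ.F j) (h : m ≤ i + j + 1) :
    ⁅x, y⁆ ∈ Φ.F m := Φ.mono h (Φ.comm i j x y hx hy)

theorem conj_mid {i k : ℕ} {Y : Subgroup P} (h1 : Φ.F (k + 1) ≤ Y) (h2 : Y ≤ Φ.F k)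
    {g y : P} (hg : g ∈ Φ.F i) (hy : y ∈ Y) : g * y * g⁻¹ ∈ Y := by
  have : g * y * g⁻¹ = ⁅g, y⁆ * y := by simp only [commutatorElement_def]; group
  rw [this]
  exact Y.mul_mem (h1 (Φ.comm' hg (h2 hy) (by omega))) hy

theorem conj {i k : ℕ} {g y : P} (hg : g ∈ Φ.F i) (hy : y ∈ Φ.F k) : g * y * g⁻¹ ∈ Φ.F k :=
  Φ.conj_mid (Φ.anti k) le_rfl hg hy

/-- The elements `v` of `F k` with `⁅t, v⁆ ∈ Y`. -/
def pre {i m : ℕ} {t : P} (ht : t ∈ Φ.F i) (k : ℕ) (Y : Subgroup P) (hm : m ≤ i + k + 2)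
    (hY : Φ.F m ≤ Y) : Subgroup P where
  carrier := {v | v ∈ Φ.F k ∧ ⁅t, v⁆ ∈ Y}
  one_mem' := ⟨(Φ.F k).one_mem, by simp⟩
  mul_mem' := by
    rintro v w ⟨hv, hv'⟩ ⟨hw, hw'⟩
    refine ⟨(Φ.F k).mul_mem hv hw, ?_⟩
    have : ⁅t, v * w⁆ = ⁅t, v⁆ * ⁅v, ⁅t, w⁆⁆ * ⁅t, w⁆ := by
      simp only [commutatorElement_def]; group
    rw [this]
    exact Y.mul_mem (Y.mul_mem hv' (hY (Φ.comm' hv (Φ.comm _ _ _ _ ht hw) (by omega)))) hw'
  inv_mem' := by
    rintro v ⟨hv, hv'⟩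
    refine ⟨(Φ.F k).inv_mem hv, ?_⟩
    have : ⁅t, v⁻¹⁆ = ⁅v⁻¹, ⁅t, v⁆⁻¹⁆ * ⁅t, v⁆⁻¹ := by
      simp only [commutatorElement_def]; group
    rw [this]
    exact Y.mul_mem (hY (Φ.comm' ((Φ.F k).inv_mem hv)
      ((Φ.F _).inv_mem (Φ.comm _ _ _ _ ht hv)) (by omega))) (Y.inv_mem hv')

theorem mem_pre {i m : ℕ} {t : P} (ht : t ∈ Φ.F i) (k : ℕ) (Y : Subgroup P) (hm : m ≤ i + k + 2)
    (hY : Φ.F m ≤ Y) {v : P} : v ∈ Φ.pre ht k Y hm hY ↔ v ∈ Φ.F k ∧ ⁅t, v⁆ ∈ Y := Iff.rfl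

theorem comm_mul_left {i k m : ℕ} {Y : Subgroup P} (hm : m ≤ i + k + 2) (hY : Φ.F m ≤ Y)
    {a b v : P} (ha : a ∈ Φ.F i) (hb : b ∈ Φ.F i) (hv : v ∈ Φ.F k)
    (h1 : ⁅a, v⁆ ∈ Y) (h2 : ⁅b, v⁆ ∈ Y) : ⁅a * b, v⁆ ∈ Y :=
  comm_swap ((Φ.pre hv i Y (m := m) (by omega) hY).mul_mem
    (show a ∈ Φ.pre hv i Y (m := m) (by omega) hY from ⟨ha, comm_swap h1⟩)
    (show b ∈ Φ.pre hv i Y (m := m) (by omega) hY from ⟨hb, comm_swap h2⟩)).2

theorem jac {i j l : ℕ} {x y z : P} (hx : x ∈ Φ.F i) (hy : y ∈ Φ.F j) (hz : z ∈ Φ.F l) :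
    ∃ n ∈ Φ.F (i + j + l + 3), ∃ n' ∈ Φ.F (i + j + l + 3),
      ⁅x, ⁅y, z⁆⁆ = n * ⁅y, ⁅x, z⁆⁆ * n' * ⁅⁅x, y⁆, z⁆ := by
  have hc := Φ.comm _ _ _ _ hx hy
  have hd := Φ.comm _ _ _ _ hx hz
  have he := Φ.comm _ _ _ _ hy hz
  have hu := Φ.comm _ _ _ _ hy hd
  have hv := Φ.comm _ _ _ _ hc hz
  refine ⟨⁅⁅x, y⁆, ⁅y, ⁅x, z⁆⁆⁆, Φ.comm' hc hu (by omega),
    (⁅x, y⁆ * ⁅⁅x, z⁆, ⁅y, z⁆⁆ * ⁅x, y⁆⁻¹) * ⁅⁅x, y⁆, ⁅y, z⁆⁆ *
      (⁅y, z⁆ * ⁅⁅x, y⁆, ⁅x, z⁆⁆ * ⁅y, z⁆⁻¹) *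
      (⁅y, z⁆ * ⁅⁅x, z⁆, ⁅⁅x, y⁆, z⁆⁆ * ⁅y, z⁆⁻¹) * ⁅⁅y, z⁆, ⁅⁅x, y⁆, z⁆⁆, ?_, ?_⟩
  · refine mul_mem (mul_mem (mul_mem (mul_mem ?_ ?_) ?_) ?_) ?_
    · exact Φ.conj hc (Φ.comm' hd he (by omega))
    · exact Φ.comm' hc he (by omega)
    · exact Φ.conj he (Φ.comm' hc hd (by omega))
    · exact Φ.conj he (Φ.comm' hd hv (by omega))
    · exact Φ.comm' he hv (by omega)
  · simp only [commutatorElement_def]; group

theorem jac1 {i j l m : ℕ} {x y z : P} (hx : x ∈ Φ.F i) (hy : y ∈ Φ.F j) (hz : z ∈ Φ.F l)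
    {Y : Subgroup P} (hm : m ≤ i + j + l + 3) (hY : Φ.F m ≤ Y)
    (h1 : ⁅y, ⁅x, z⁆⁆ ∈ Y) (h2 : ⁅⁅x, y⁆, z⁆ ∈ Y) : ⁅x, ⁅y, z⁆⁆ ∈ Y := by
  obtain ⟨n, hn, n', hn', h⟩ := Φ.jac hx hy hz
  rw [h]
  exact mul_mem (mul_mem (mul_mem (hY (Φ.mono hm hn)) h1) (hY (Φ.mono hm hn'))) h2

theorem jac2 {i j l m : ℕ} {x y z : P} (hx : x ∈ Φ.F i) (hy : y ∈ Φ.F j) (hz : z ∈ Φ.F l)
    {Y : Subgroup P} (hm : m ≤ i + j + l + 3) (hY : Φ.F m ≤ Y)
    (h1 : ⁅x, ⁅y, z⁆⁆ ∈ Y) (h2 : ⁅⁅x, y⁆, z⁆ ∈ Y) : ⁅y, ⁅x, z⁆⁆ ∈ Y := by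
  obtain ⟨n, hn, n', hn', h⟩ := Φ.jac hx hy hz
  have : ⁅y, ⁅x, z⁆⁆ = n⁻¹ * ⁅x, ⁅y, z⁆⁆ * ⁅⁅x, y⁆, z⁆⁻¹ * n'⁻¹ := by rw [h]; group
  rw [this]
  exact mul_mem (mul_mem (mul_mem (inv_mem (hY (Φ.mono hm hn))) h1) (inv_mem h2))
    (inv_mem (hY (Φ.mono hm hn')))

theorem exists_quot (k : ℕ) : ∃ (M : Type u) (_ : CommGroup M) (π : Φ.F k →* M),
    ∀ x : Φ.F k, π x = 1 ↔ (x : P) ∈ Φ.F (2 * k + 1) := by
  let N : Subgroup (Φ.F k) := (Φ.F (2 * k + 1)).subgroupOf (Φ.F k)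
  have : N.Normal := ⟨fun n hn g => by
    rw [Subgroup.mem_subgroupOf] at hn ⊢
    exact Φ.conj g.2 hn⟩
  refine ⟨Φ.F k ⧸ N, { (inferInstance : Group (Φ.F k ⧸ N)) with mul_comm := ?_ },
    QuotientGroup.mk' N, fun x => ?_⟩
  · intro a b
    obtain ⟨a, rfl⟩ := QuotientGroup.mk_surjective a
    obtain ⟨b, rfl⟩ := QuotientGroup.mk_surjective b
    rw [← QuotientGroup.mk_mul, ← QuotientGroup.mk_mul, QuotientGroup.eq, Subgroup.mem_subgroupOf]
    have : (((a * b)⁻¹ * (b * a) : Φ.F k) : P) = ⁅(b : P)⁻¹, (a : P)⁻¹⁆ := by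
      simp only [commutatorElement_def, Subgroup.coe_mul, Subgroup.coe_inv]; group
    rw [this]
    exact Φ.comm' (inv_mem b.2) (inv_mem a.2) (by omega)
  · exact (QuotientGroup.eq_one_iff x).trans Subgroup.mem_subgroupOf

end Filt

theorem pascal_zero {M : Type*} [AddCommGroup M] {p : ℕ} (hp : p.Prime) (hM : ∀ x : M, p • x = 0)
    (f : ℕ → ℕ → M) (hf : ∀ n j, f (n + 1) j = f n (j + 1) + f n j) (h0 : f p 0 = f 0 0) :
    f 0 p = 0 := by
  have key : ∀ n j, f n j = ∑ i ∈ Finset.range (n + 1), n.choose i • f 0 (j + i) := by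
    intro n
    induction n with
    | zero => intro j; simp
    | succ n ih =>
      intro j
      rw [hf, ih, ih, Finset.sum_range_succ' _ (n + 1)]
      simp only [Nat.choose_succ_succ', add_smul, Finset.sum_add_distrib, Nat.choose_zero_right,
        one_smul, add_zero]
      rw [add_assoc]
      congr 1
      · exact Finset.sum_congr rfl fun i _ => by rw [show j + 1 + i = j + (i + 1) by omega]
      · rw [Finset.sum_range_succ' _ n, Finset.sum_range_succ _ n]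
        simp
  have h := key p 0
  obtain ⟨q, rfl⟩ : ∃ q, p = q + 1 := ⟨p - 1, by have := hp.pos; omega⟩
  rw [Finset.sum_range_succ, Finset.sum_range_succ', h0] at h
  have hz : ∑ i ∈ Finset.range q, (q + 1).choose (i + 1) • f 0 (0 + (i + 1)) = 0 := by
    refine Finset.sum_eq_zero fun i hi => ?_
    obtain ⟨r, hr⟩ := hp.dvd_choose_self (k := i + 1) (by omega)
      (by have := Finset.mem_range.1 hi; omega)
    rw [hr, mul_comm, mul_smul, hM, smul_zero]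
  rw [hz] at h
  simpa using h

end Pool.Agent.MP38b55a

end

section

set_option autoImplicit false

open scoped commutatorElement

namespace Pool.Agent.MP38b55a

universe u
variable {P : Type u} [Group P]

namespace Filt
variable (Φ : Filt P)

theorem pow_mem_of_factor {p : ℕ} {k : ℕ} {a b : P} (ha : a ∈ Φ.F k) (hb : b ∈ Φ.F k)
    (hap : a ^ p = 1) (hbp : b ^ p = 1) : (a * b) ^ p ∈ Φ.F (2 * k + 1) := by
  obtain ⟨M, _, π, hπ⟩ := Φ.exists_quot k
  have h := (hπ ((⟨a, ha⟩ * ⟨b, hb⟩) ^ p)).1 (by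
    have e1 : (⟨a, ha⟩ : Φ.F k) ^ p = 1 := Subtype.ext (by simpa using hap)
    have e2 : (⟨b, hb⟩ : Φ.F k) ^ p = 1 := Subtype.ext (by simpa using hbp)
    rw [map_pow, map_mul, mul_pow, ← map_pow, ← map_pow, e1, e2, map_one, one_mul])
  simpa using h

theorem iter_mem {d k : ℕ} {z v : P} (hz : z ∈ Φ.F d) (hv : v ∈ Φ.F k) (j : ℕ) :
    (fun w => ⁅z, w⁆)^[j] v ∈ Φ.F k := by
  induction j with
  | zero => exact hv
  | succ j ih => rw [Function.iterate_succ_apply']; exact Φ.comm' hz ih (by omega)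

theorem ad_nil {p : ℕ} (hp : p.Prime) (hpow : ∀ k x, x ∈ Φ.F k → x ^ p ∈ Φ.F (2 * k + 1))
    {d k : ℕ} {z v : P} (hz : z ∈ Φ.F d) (hzp : z ^ p = 1) (hv : v ∈ Φ.F k) :
    (fun w => ⁅z, w⁆)^[p] v ∈ Φ.F (2 * k + 1) := by
  obtain ⟨M, _, π, hπ⟩ := Φ.exists_quot k
  let g : ℕ → ℕ → Φ.F k := fun n j => ⟨z ^ n * (fun w => ⁅z, w⁆)^[j] v * (z ^ n)⁻¹,
    Φ.conj ((Φ.F d).pow_mem hz n) (Φ.iter_mem hz hv j)⟩
  let R : AddSubgroup (Additive M) := π.range.toAddSubgroup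
  let f : ℕ → ℕ → R := fun n j => ⟨Additive.ofMul (π (g n j)), ⟨g n j, rfl⟩⟩
  have h := pascal_zero (M := R) hp ?_ f ?_ ?_
  · have h1 : π (g 0 p) = 1 := by
      have := congrArg Subtype.val h
      exact this
    have := (hπ _).1 h1
    simpa [g] using this
  · rintro ⟨x, y, hy⟩
    apply Subtype.ext
    have h1 : π (y ^ p) = 1 := (hπ _).2 (by simpa using hpow k y y.2)
    rw [map_pow, hy] at h1
    exact h1
  · intro n j
    apply Subtype.ext
    have : g (n + 1) j = g n (j + 1) * g n j := by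
      apply Subtype.ext
      simp only [g, Subgroup.coe_mul, Function.iterate_succ_apply', commutatorElement_def, pow_succ]
      group
    show Additive.ofMul (π (g (n + 1) j)) = Additive.ofMul (π (g n (j + 1))) + Additive.ofMul (π (g n j))
    rw [this, map_mul, ofMul_mul]
  · apply Subtype.ext
    have : g p 0 = g 0 0 := by
      apply Subtype.ext
      simp only [g, hzp, pow_zero]
    show Additive.ofMul (π (g p 0)) = Additive.ofMul (π (g 0 0))
    rw [this]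

/-- A family of subgroups squeezed between consecutive terms: a graded subgroup. -/
def Btw (X : ℕ → Subgroup P) : Prop := ∀ k, Φ.F (k + 1) ≤ X k ∧ X k ≤ Φ.F k

/-- Invariance of a graded subgroup under the homogeneous elements coming from `T`. -/
def Invt (T : Subgroup P) (X : ℕ → Subgroup P) : Prop :=
  ∀ i k m t v, i + k + 1 = m → t ∈ T → t ∈ Φ.F i → v ∈ X k → ⁅t, v⁆ ∈ X m

/-- The graded module `S / U` is infinite and each nonzero graded submodule is cofinite. -/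
structure JI (T : Subgroup P) (U S : ℕ → Subgroup P) : Prop where
  bU : Φ.Btw U
  bS : Φ.Btw S
  le : ∀ k, U k ≤ S k
  iU : Φ.Invt T U
  iS : Φ.Invt T S
  ji : ∀ X : ℕ → Subgroup P, (∀ k, U k ≤ X k) → (∀ k, X k ≤ S k) → Φ.Invt T X →
    (∀ k, X k ≤ U k) ∨ ∃ r, ∀ k, r ≤ k → S k ≤ X k
  inf : ∀ r, ∃ k, r ≤ k ∧ ¬ S k ≤ U k

variable {Φ}

theorem JI.not_trivial {T : Subgroup P} {U S : ℕ → Subgroup P} (h : Φ.JI T U S)
    (h0 : ∀ i k t s, t ∈ T → t ∈ Φ.F i → s ∈ S k → ⁅t, s⁆ ∈ U (i + k + 1)) : False := by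
  obtain ⟨k0, -, hk0⟩ := h.inf 0
  let X : ℕ → Subgroup P := fun k => if k = k0 then S k else U k
  have hUX : ∀ k, U k ≤ X k := fun k => by
    simp only [X]; split_ifs
    · exact h.le k
    · exact le_rfl
  have hXS : ∀ k, X k ≤ S k := fun k => by
    simp only [X]; split_ifs
    · exact le_rfl
    · exact h.le k
  rcases h.ji X hUX hXS (fun i k m t v hm ht ht' hv => hm ▸ hUX _ (h0 i k t v ht ht' (hXS k hv)))
    with h1 | ⟨r, hr⟩
  · have := h1 k0
    simp only [X, if_true] at this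
    exact hk0 this
  · obtain ⟨k, hk, hk'⟩ := h.inf (r + k0 + 1)
    have := hr k (by omega)
    simp only [X, if_neg (show k ≠ k0 by omega)] at this
    exact hk' this

theorem JI.central {T : Subgroup P} {U S : ℕ → Subgroup P} (h : Φ.JI T U S) {p : ℕ}
    (hp : p.Prime) (hpow : ∀ k x, x ∈ Φ.F k → x ^ p ∈ Φ.F (2 * k + 1))
    {d : ℕ} {z : P} (hzT : z ∈ T) (hz : z ∈ Φ.F d) (hzp : z ^ p = 1)
    (hc : ∀ i k t s, t ∈ T → t ∈ Φ.F i → s ∈ S k → ⁅⁅t, z⁆, s⁆ ∈ U (i + d + 1 + k + 1)) :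
    ∀ k s, s ∈ S k → ⁅z, s⁆ ∈ U (d + k + 1) := by
  let X1 : ℕ → Subgroup P := fun k =>
    S k ⊓ Φ.pre hz k (U (d + k + 1)) (m := d + k + 1 + 1) (by omega) (h.bU _).1
  have hX1 : ∀ k v, v ∈ X1 k ↔ v ∈ S k ∧ ⁅z, v⁆ ∈ U (d + k + 1) := fun k v =>
    ⟨fun hv => ⟨hv.1, hv.2.2⟩, fun hv => ⟨hv.1, (h.bS k).2 hv.1, hv.2⟩⟩
  rcases h.ji X1 (fun k v hv => (hX1 k v).2 ⟨h.le k hv, h.iU d k _ z v rfl hzT hz hv⟩)
    (fun k v hv => hv.1) (fun i k m t v hm ht ht' hv => by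
      obtain ⟨hv1, hv2⟩ := (hX1 k v).1 hv
      refine (hX1 m _).2 ⟨h.iS i k m t v hm ht ht' hv1, ?_⟩
      refine Φ.jac2 ht' hz ((h.bS k).2 hv1) (m := d + m + 1 + 1) (by omega) (h.bU _).1 ?_ ?_
      · exact h.iU i _ _ t _ (by omega) ht ht' hv2
      · have := hc i k t v ht ht' hv1
        rwa [show i + d + 1 + k + 1 = d + m + 1 by omega] at this) with h1 | ⟨r, hr⟩
  · exfalso
    have inj : ∀ q k s, s ∈ S k → (fun w => ⁅z, w⁆)^[q] s ∈ U (k + q * (d + 1)) → s ∈ U k := by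
      intro q
      induction q with
      | zero => intro k s _ hs; simpa using hs
      | succ q ih =>
        intro k s hs hs'
        rw [Function.iterate_succ_apply] at hs'
        refine h1 k ((hX1 k s).2 ⟨hs, ih (d + k + 1) _ (h.iS d k _ z s rfl hzT hz hs) ?_⟩)
        rwa [show d + k + 1 + q * (d + 1) = k + (q + 1) * (d + 1) by ring]
    obtain ⟨k, hk, hk'⟩ := h.inf (p * (d + 1))
    refine hk' fun s hs => inj p k s hs ((h.bU _).1 (Φ.mono (by omega)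
      (Φ.ad_nil hp hpow hz hzp ((h.bS k).2 hs))))
  · let X2 : ℕ → Subgroup P := fun k =>
      U k ⊔ Subgroup.closure {v | ∃ l s, s ∈ S l ∧ d + l + 1 = k ∧ v = ⁅z, s⁆}
    have hgen : ∀ l k s, s ∈ S l → d + l + 1 = k → ⁅z, s⁆ ∈ X2 k := fun l k s hs hk =>
      Subgroup.mem_sup_right (Subgroup.subset_closure ⟨l, s, hs, hk, rfl⟩)
    have hXS : ∀ k, X2 k ≤ S k := fun k => sup_le (h.le k) ((Subgroup.closure_le _).2 (by
      rintro _ ⟨l, s, hs, hk, rfl⟩
      exact h.iS d l k z s hk hzT hz hs))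
    rcases h.ji X2 (fun k => le_sup_left) hXS (fun i k m t v hm ht ht' hv => by
      have hle : X2 k ≤ Φ.pre ht' k (X2 m) (m := m + 1) (by omega) ((h.bU m).1.trans le_sup_left) := by
        refine sup_le (fun w hw => ⟨(h.bU k).2 hw,
          Subgroup.mem_sup_left (h.iU i k m t w hm ht ht' hw)⟩) ((Subgroup.closure_le _).2 ?_)
        rintro _ ⟨l, s, hs, hk, rfl⟩
        refine ⟨Φ.comm' hz ((h.bS l).2 hs) (by omega), ?_⟩
        refine Φ.jac1 ht' hz ((h.bS l).2 hs) (m := m + 1) (by omega)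
          ((h.bU m).1.trans le_sup_left) ?_ ?_
        · exact hgen (i + l + 1) m _ (h.iS i l _ t s rfl ht ht' hs) (by omega)
        · have := hc i l t s ht ht' hs
          rw [show i + d + 1 + l + 1 = m by omega] at this
          exact Subgroup.mem_sup_left this
      exact (hle hv).2) with h2 | ⟨r', hr'⟩
    · intro k s hs
      exact h2 _ (hgen k _ s hs rfl)
    · exfalso
      obtain ⟨k, hk, hk'⟩ := h.inf (r' + d + r + 1)
      refine hk' ((hr' k (by omega)).trans (sup_le le_rfl ((Subgroup.closure_le _).2 ?_)))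
      rintro _ ⟨l, s, hs, hl, rfl⟩
      exact hl ▸ ((hX1 l s).1 (hr l (by omega) hs)).2

end Filt
end Pool.Agent.MP38b55a

end

section

set_option autoImplicit false

open scoped commutatorElement

namespace Pool.Agent.MP38b55a

universe u
variable {P : Type u} [Group P]

/-- `Y` contains the `A`-component of each of its elements of the form `a * b`. -/
def SF (A B Y : Subgroup P) : Prop := ∀ a b, a ∈ A → b ∈ B → a * b ∈ Y → a ∈ Y

/-- The data of a filtered factorized group generated by one element `g`. -/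
structure Pair (Φ : Filt P) (A B : Subgroup P) (g : P) : Prop where
  fac : ∀ x : P, ∃ a ∈ A, ∃ b ∈ B, x = a * b
  sf : ∀ k, SF A B (Φ.F k)
  gmem : g ∈ Φ.F 0
  gen : ∀ k (Y : Subgroup P), Φ.F (k + 1) ≤ Y → SF A B Y → (k = 0 → g ∈ Y) →
    (∀ i j x y, i + j + 1 = k → x ∈ Φ.F i → y ∈ Φ.F j → ⁅x, y⁆ ∈ Y) → Φ.F k ≤ Y

namespace Pair
variable {Φ : Filt P} {A B : Subgroup P} {g : P}

theorem fac' (h : Pair Φ A B g) {k : ℕ} {x : P} (hx : x ∈ Φ.F k) :
    ∃ a ∈ A, ∃ b ∈ B, a ∈ Φ.F k ∧ b ∈ Φ.F k ∧ x = a * b := by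
  obtain ⟨a, ha, b, hb, rfl⟩ := h.fac x
  have h1 := h.sf k a b ha hb hx
  exact ⟨a, ha, b, hb, h1, (mul_mem_cancel_left h1).1 hx, rfl⟩

/-- The factorized part of a subgroup `Y` modulo `F (k+1)`. -/
def part (Φ : Filt P) (A B : Subgroup P) (k : ℕ) (Y : Subgroup P) : Subgroup P where
  carrier := {x | ∃ a b, a ∈ A ∧ b ∈ B ∧ a ∈ Y ∧ b ∈ Y ∧ a ∈ Φ.F k ∧ b ∈ Φ.F k ∧
    x * (a * b)⁻¹ ∈ Φ.F (k + 1)}
  one_mem' := ⟨1, 1, one_mem _, one_mem _, one_mem _, one_mem _, one_mem _, one_mem _, by simp⟩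
  mul_mem' := by
    rintro x y ⟨a, b, h1, h2, h3, h4, h5, h6, h7⟩ ⟨a', b', h1', h2', h3', h4', h5', h6', h7'⟩
    refine ⟨a * a', b * b', mul_mem h1 h1', mul_mem h2 h2', mul_mem h3 h3', mul_mem h4 h4',
      mul_mem h5 h5', mul_mem h6 h6', ?_⟩
    have : x * y * (a * a' * (b * b'))⁻¹ = x * (a * b)⁻¹ *
        ((a * b) * (y * (a' * b')⁻¹) * (a * b)⁻¹) * (a * ⁅b, a'⁆ * a⁻¹) := by
      simp only [commutatorElement_def]; group
    rw [this]
    exact mul_mem (mul_mem h7 (Φ.conj (mul_mem h5 h6) h7'))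
      (Φ.conj h5 (Φ.comm' h6 h5' (by omega)))
  inv_mem' := by
    rintro x ⟨a, b, h1, h2, h3, h4, h5, h6, h7⟩
    refine ⟨a⁻¹, b⁻¹, inv_mem h1, inv_mem h2, inv_mem h3, inv_mem h4, inv_mem h5, inv_mem h6, ?_⟩
    have : x⁻¹ * (a⁻¹ * b⁻¹)⁻¹ = ((a * b)⁻¹ * (x * (a * b)⁻¹)⁻¹ * (a * b)⁻¹⁻¹) * ⁅b⁻¹, a⁻¹⁆ := by
      simp only [commutatorElement_def]; group
    rw [this]
    exact mul_mem (Φ.conj (inv_mem (mul_mem h5 h6)) (inv_mem h7))
      (Φ.comm' (inv_mem h6) (inv_mem h5) (by omega))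

theorem fin_gen (h : Pair Φ A B g) (n : ℕ) : ∃ T : Set P, T.Finite ∧ ∀ k, k < n →
    ∀ Y : Subgroup P, Φ.F (k + 1) ≤ Y → (∀ t ∈ T, t ∈ Φ.F k → t ∈ Y) → Φ.F k ≤ Y := by
  induction n with
  | zero => exact ⟨∅, Set.finite_empty, fun k hk => absurd hk (by omega)⟩
  | succ n ih =>
    obtain ⟨T, hT, hT'⟩ := ih
    choose α hα β hβ hαβ using h.fac
    let E : Set P := insert g (Set.image2 (fun s t => ⁅s, t⁆) T T)
    have hE : E.Finite := (hT.image2 _ hT).insert g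
    refine ⟨T ∪ (α '' E ∪ β '' E), hT.union ((hE.image _).union (hE.image _)), fun k hk Y hY hY' => ?_⟩
    rcases Nat.lt_succ_iff_lt_or_eq.1 hk with hk | rfl
    · exact hT' k hk Y hY fun t ht => hY' t (Or.inl ht)
    · have hle : part Φ A B k Y ≤ Y := by
        rintro x ⟨a, b, -, -, h3, h4, -, -, h7⟩
        have := mul_mem (hY h7) (mul_mem h3 h4)
        rwa [inv_mul_cancel_right] at this
      have hF : Φ.F (k + 1) ≤ part Φ A B k Y := fun x hx =>
        ⟨1, 1, one_mem _, one_mem _, one_mem _, one_mem _, one_mem _, one_mem _, by simpa using hx⟩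
      have hEm : ∀ e ∈ E, e ∈ Φ.F k → e ∈ part Φ A B k Y := fun e he he' => by
        have h1 : α e ∈ Φ.F k := h.sf k _ _ (hα e) (hβ e) (hαβ e ▸ he')
        have h2 : β e ∈ Φ.F k := (mul_mem_cancel_left h1).1 (hαβ e ▸ he')
        refine ⟨α e, β e, hα e, hβ e, hY' _ (Or.inr (Or.inl ⟨e, he, rfl⟩)) h1,
          hY' _ (Or.inr (Or.inr ⟨e, he, rfl⟩)) h2, h1, h2, ?_⟩
        rw [← hαβ e]; simp
      refine (h.gen k _ hF ?_ ?_ ?_).trans hle
      · rintro a1 b1 ha1 hb1 ⟨a, b, h1, h2, h3, h4, h5, h6, h7⟩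
        have h8 : a⁻¹ * a1 * (b1 * b⁻¹) ∈ Φ.F (k + 1) := by
          have := Φ.conj (inv_mem h5) h7
          rwa [show a⁻¹ * (a1 * b1 * (a * b)⁻¹) * a⁻¹⁻¹ = a⁻¹ * a1 * (b1 * b⁻¹) by group] at this
        have h9 := h.sf (k + 1) _ _ (mul_mem (inv_mem h1) ha1) (mul_mem hb1 (inv_mem h2)) h8
        refine ⟨a, 1, h1, one_mem _, h3, one_mem _, h5, one_mem _, ?_⟩
        have := Φ.conj h5 h9
        rwa [show a * (a⁻¹ * a1) * a⁻¹ = a1 * (a * 1)⁻¹ by group] at this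
      · rintro rfl
        exact hEm g (Set.mem_insert _ _) h.gmem
      · intro i j x y hij hx hy
        have := hT' j (by omega) (Φ.pre hx j (part Φ A B k Y) (m := k + 1) (by omega) hF)
          (fun w hw => ⟨Φ.anti _ hw, hF (Φ.comm' hx hw (by omega))⟩) (fun t ht ht' => ⟨ht', ?_⟩) hy
        · exact this.2
        · have := hT' i (by omega) (Φ.pre ht' i (part Φ A B k Y) (m := k + 1) (by omega) hF)
            (fun w hw => ⟨Φ.anti _ hw, hF (Φ.comm' ht' hw (by omega))⟩)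
            (fun s hs hs' => ⟨hs', hEm _ (Set.mem_insert_of_mem _ ⟨t, ht, s, hs, rfl⟩)
              (Φ.comm' ht' hs' (by omega))⟩) hx
          exact comm_swap this.2

/-- Graded factorized ideals. -/
def Good (Φ : Filt P) (A B : Subgroup P) (I : ℕ → Subgroup P) : Prop :=
  Φ.Btw I ∧ Φ.Invt ⊤ I ∧ ∀ k, SF A B (I k)

/-- Ideals of infinite codimension. -/
def Small (Φ : Filt P) (I : ℕ → Subgroup P) : Prop := ∀ r, ∃ k, r ≤ k ∧ ¬ Φ.F k ≤ I k

theorem big_of (h : Pair Φ A B g) {I : ℕ → Subgroup P} (hI : Good Φ A B I) {r : ℕ}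
    (hr : ∀ k, r ≤ k → k < 2 * r + 1 → Φ.F k ≤ I k) : ∀ k, r ≤ k → Φ.F k ≤ I k := by
  intro k
  induction k using Nat.strong_induction_on with
  | _ k ih =>
    intro hk
    by_cases hk' : k < 2 * r + 1
    · exact hr k hk hk'
    · refine h.gen k _ (hI.1 k).1 (hI.2.2 k) (fun h0 => absurd h0 (by omega)) ?_
      intro i j x y hij hx hy
      by_cases hj : r ≤ j
      · exact hI.2.1 i j k x y hij trivial hx (ih j (by omega) hj hy)
      · exact comm_swap (hI.2.1 j i k y x (by omega) trivial hy (ih i (by omega) (by omega) hx))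

theorem exists_max (h : Pair Φ A B g) (h0 : Small Φ fun k => Φ.F (k + 1)) :
    ∃ I, Good Φ A B I ∧ Small Φ I ∧ ∀ J, Good Φ A B J → (∀ k, I k ≤ J k) →
      (∀ k, J k ≤ I k) ∨ ∃ r, ∀ k, r ≤ k → Φ.F k ≤ J k := by
  have hz := zorn_le_nonempty₀ {I : ℕ → Subgroup P | Good Φ A B I ∧ Small Φ I} ?_
    (fun k => Φ.F (k + 1)) ⟨⟨fun k => ⟨le_rfl, Φ.anti k⟩, fun i k m t v hm _ ht hv =>
      Φ.comm' ht hv (by omega), fun k => h.sf _⟩, h0⟩
  · obtain ⟨I, -, hI⟩ := hz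
    refine ⟨I, hI.prop.1, hI.prop.2, fun J hJ hIJ => ?_⟩
    by_cases hs : Small Φ J
    · exact Or.inl (hI.le_of_ge ⟨hJ, hs⟩ hIJ)
    · simp only [Small, not_forall, not_exists, not_and, not_not] at hs
      exact Or.inr hs
  · intro c hc hch I0 hI0
    have hne : Nonempty c := ⟨⟨I0, hI0⟩⟩
    have hdir : Directed (· ≤ ·) (fun I : c => (I : ℕ → Subgroup P)) :=
      directedOn_iff_directed.1 hch.directedOn
    have hmem : ∀ k x, x ∈ ⨆ I : c, (I : ℕ → Subgroup P) k ↔ ∃ I : c, x ∈ (I : ℕ → Subgroup P) k :=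
      fun k x => Subgroup.mem_iSup_of_directed fun I J => by
        obtain ⟨K, h1, h2⟩ := hdir I J
        exact ⟨K, h1 k, h2 k⟩
    refine ⟨fun k => ⨆ I : c, (I : ℕ → Subgroup P) k, ⟨⟨fun k => ⟨?_, ?_⟩, ?_, ?_⟩, ?_⟩, ?_⟩
    · exact fun x hx => (hmem k x).2 ⟨⟨I0, hI0⟩, ((hc hI0).1.1 k).1 hx⟩
    · exact iSup_le fun I => ((hc I.2).1.1 k).2
    · intro i k m t v hm ht ht' hv
      obtain ⟨I, hI⟩ := (hmem k v).1 hv
      exact (hmem m _).2 ⟨I, (hc I.2).1.2.1 i k m t v hm ht ht' hI⟩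
    · intro k a b ha hb hab
      obtain ⟨I, hI⟩ := (hmem k _).1 hab
      exact (hmem k _).2 ⟨I, (hc I.2).1.2.2 k a b ha hb hI⟩
    · intro r
      by_contra hcon
      simp only [not_exists, not_and, not_not] at hcon
      obtain ⟨T, hT, hT'⟩ := h.fin_gen (2 * r + 1)
      have hex : ∀ q : ℕ × P, ∃ I : c, r ≤ q.1 → q.2 ∈ Φ.F q.1 → q.2 ∈ (I : ℕ → Subgroup P) q.1 := by
        intro q
        by_cases hq : r ≤ q.1 ∧ q.2 ∈ Φ.F q.1
        · obtain ⟨I, hI⟩ := (hmem _ _).1 (hcon q.1 hq.1 hq.2)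
          exact ⟨I, fun _ _ => hI⟩
        · exact ⟨⟨I0, hI0⟩, fun h1 h2 => absurd ⟨h1, h2⟩ hq⟩
      choose f hf using hex
      obtain ⟨J, hJ⟩ := hdir.finite_set_le
        (((Set.finite_Iio (2 * r + 1)).prod hT).image f)
      obtain ⟨k, hk, hk'⟩ := (hc J.2).2 r
      refine hk' (h.big_of (hc J.2).1 (fun l hl hl' => ?_) k hk)
      refine hT' l hl' _ ((hc J.2).1.1 l).1 fun t ht ht' => ?_
      exact hJ (f (l, t)) ⟨(l, t), ⟨hl', ht⟩, rfl⟩ l (hf (l, t) hl ht')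
    · intro I hI k
      exact le_iSup (fun I : c => (I : ℕ → Subgroup P) k) ⟨I, hI⟩

end Pair
end Pool.Agent.MP38b55a

end

section

set_option autoImplicit false

open scoped commutatorElement

namespace Pool.Agent.MP38b55a

universe u
variable {P : Type u} [Group P]

namespace Pair
variable {Φ : Filt P} {A B : Subgroup P} {g : P}

/-- The graded subgroup generated by the ideal `I` and the homogeneous part of `B`. -/
def addB (B : Subgroup P) {I : ℕ → Subgroup P} (hI : Φ.Btw I) (k : ℕ) : Subgroup P where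
  carrier := {x | ∃ b, b ∈ B ∧ b ∈ Φ.F k ∧ x * b⁻¹ ∈ I k}
  one_mem' := ⟨1, one_mem _, one_mem _, by simp⟩
  mul_mem' := by
    rintro x y ⟨b, h1, h2, h3⟩ ⟨b', h1', h2', h3'⟩
    refine ⟨b * b', mul_mem h1 h1', mul_mem h2 h2', ?_⟩
    rw [show x * y * (b * b')⁻¹ = x * b⁻¹ * (b * (y * b'⁻¹) * b⁻¹) by group]
    exact mul_mem h3 (Φ.conj_mid (hI k).1 (hI k).2 h2 h3')
  inv_mem' := by
    rintro x ⟨b, h1, h2, h3⟩
    refine ⟨b⁻¹, inv_mem h1, inv_mem h2, ?_⟩
    rw [show x⁻¹ * b⁻¹⁻¹ = b⁻¹ * (x * b⁻¹)⁻¹ * b⁻¹⁻¹ by group]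
    exact Φ.conj_mid (hI k).1 (hI k).2 (inv_mem h2) (inv_mem h3)

theorem le_addB {I : ℕ → Subgroup P} (hI : Φ.Btw I) (k : ℕ) : I k ≤ addB B hI k :=
  fun x hx => ⟨1, one_mem _, one_mem _, by simpa using hx⟩

theorem mem_addB {I : ℕ → Subgroup P} (hI : Φ.Btw I) {k : ℕ} {b : P} (hb : b ∈ B)
    (hb' : b ∈ Φ.F k) : b ∈ addB B hI k := ⟨b, hb, hb', by simp⟩

theorem btw_addB {I : ℕ → Subgroup P} (hI : Φ.Btw I) : Φ.Btw (addB B hI) := fun k =>
  ⟨(hI k).1.trans (le_addB hI k), by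
    rintro x ⟨b, -, h2, h3⟩
    have := mul_mem ((hI k).2 h3) h2
    rwa [inv_mul_cancel_right] at this⟩

theorem addB_le {I : ℕ → Subgroup P} (hI : Φ.Btw I) {k : ℕ} {Y : Subgroup P} (h1 : I k ≤ Y)
    (h2 : ∀ b, b ∈ B → b ∈ Φ.F k → b ∈ Y) : addB B hI k ≤ Y := by
  rintro x ⟨b, hb, hb', h3⟩
  have := mul_mem (h1 h3) (h2 b hb hb')
  rwa [inv_mul_cancel_right] at this

theorem invt_addB {I : ℕ → Subgroup P} (hI : Good Φ A B I) : Φ.Invt B (addB B hI.1) := by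
  intro i k m t v hm ht ht' hv
  refine (addB_le hI.1 (Y := Φ.pre ht' k (addB B hI.1 m) (m := m + 1) (by omega)
    (btw_addB hI.1 m).1) (fun w hw => ⟨(hI.1 k).2 hw, le_addB hI.1 m
      (hI.2.1 i k m t w hm trivial ht' hw)⟩) (fun b hb hb' => ⟨hb', mem_addB hI.1 ?_
        (Φ.comm' ht' hb' (by omega))⟩) hv).2
  rw [commutatorElement_def]
  exact mul_mem (mul_mem (mul_mem ht hb) (inv_mem ht)) (inv_mem hb)

theorem core_good (h : Pair Φ A B g) (hA : ∀ a a', a ∈ A → a' ∈ A → ⁅a, a'⁆ = 1)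
    {I : ℕ → Subgroup P} (hI : Good Φ A B I) {X : ℕ → Subgroup P}
    (hUX : ∀ k, addB B hI.1 k ≤ X k) (hXF : ∀ k, X k ≤ Φ.F k) (hX : Φ.Invt B X) :
    ∃ C, Good Φ A B C ∧ (∀ k, I k ≤ C k) ∧ (∀ k, C k ≤ X k) ∧ ∀ k a, a ∈ A → a ∈ X k → a ∈ C k := by
  let fam : Set (ℕ → Subgroup P) := {Y | (∀ k, Φ.F (k + 1) ≤ Y k) ∧ (∀ k, Y k ≤ X k) ∧ Φ.Invt A Y}
  let C : ℕ → Subgroup P := fun k => ⨆ Y : fam, (Y : ℕ → Subgroup P) k
  have hle : ∀ Y ∈ fam, ∀ k, Y k ≤ C k := fun Y hY k =>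
    le_iSup (fun Y : fam => (Y : ℕ → Subgroup P) k) ⟨Y, hY⟩
  have hCX : ∀ k, C k ≤ X k := fun k => iSup_le fun Y => Y.2.2.1 k
  have hW : (fun k => I k ⊔ (A ⊓ X k)) ∈ fam := by
    refine ⟨fun k => (hI.1 k).1.trans le_sup_left,
      fun k => sup_le ((le_addB hI.1 k).trans (hUX k)) inf_le_right, ?_⟩
    intro i k m t v hm ht ht' hv
    have : I k ⊔ (A ⊓ X k) ≤ Φ.pre ht' k (I m) (m := m + 1) (by omega) (hI.1 m).1 :=
      sup_le (fun w hw => ⟨(hI.1 k).2 hw, hI.2.1 i k m t w hm trivial ht' hw⟩)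
        (fun w hw => ⟨hXF k hw.2, by rw [hA t w ht hw.1]; exact one_mem _⟩)
    exact Subgroup.mem_sup_left (this hv).2
  have hIC : ∀ k, I k ≤ C k := fun k => le_sup_left.trans (hle _ hW k)
  have hFC : ∀ k, Φ.F (k + 1) ≤ C k := fun k => (hI.1 k).1.trans (hIC k)
  have hAC : ∀ k a, a ∈ A → a ∈ X k → a ∈ C k := fun k a ha ha' =>
    hle _ hW k (Subgroup.mem_sup_right ⟨ha, ha'⟩)
  have hinvA : Φ.Invt A C := by
    intro i k m t v hm ht ht' hv
    have : C k ≤ Φ.pre ht' k (C m) (m := m + 1) (by omega) (hFC m) :=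
      iSup_le fun Y w hw => ⟨hXF k (Y.2.2.1 k hw), hle _ Y.2 m (Y.2.2.2 i k m t w hm ht ht' hw)⟩
    exact (this hv).2
  let C' : ℕ → Subgroup P := fun k => C k ⊔
    Subgroup.closure {v | ∃ i l y x, y ∈ Φ.F i ∧ x ∈ C l ∧ i + l + 1 = k ∧ v = ⁅y, x⁆}
  have hgen : ∀ i l k y x, y ∈ Φ.F i → x ∈ C l → i + l + 1 = k → ⁅y, x⁆ ∈ C' k :=
    fun i l k y x hy hx hk =>
      Subgroup.mem_sup_right (Subgroup.subset_closure ⟨i, l, y, x, hy, hx, hk, rfl⟩)
  have hC' : C' ∈ fam := by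
    refine ⟨fun k => (hFC k).trans le_sup_left, fun k => sup_le (hCX k)
      ((Subgroup.closure_le _).2 ?_), ?_⟩
    · rintro _ ⟨i, l, y, x, hy, hx, hk, rfl⟩
      obtain ⟨a, ha, b, hb, ha', hb', rfl⟩ := h.fac' hy
      exact Φ.comm_mul_left (m := k + 1) (by omega) ((hFC k).trans (hCX k)) ha' hb'
        (hXF l (hCX l hx)) (hCX k (hinvA i l k a x hk ha ha' hx))
        (hX i l k b x hk hb hb' (hCX l hx))
    · intro i k m t v hm ht ht' hv
      have : C' k ≤ Φ.pre ht' k (C' m) (m := m + 1) (by omega) ((hFC m).trans le_sup_left) := by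
        refine sup_le (fun w hw => ⟨hXF k (hCX k hw), hgen i k m t w ht' hw hm⟩)
          ((Subgroup.closure_le _).2 ?_)
        rintro _ ⟨j, l, y, x, hy, hx, hk, rfl⟩
        have hx' := hXF l (hCX l hx)
        refine ⟨Φ.comm' hy hx' (by omega), Φ.jac1 ht' hy hx' (m := m + 1) (by omega)
          ((hFC m).trans le_sup_left) ?_ ?_⟩
        · exact hgen j (i + l + 1) m y _ hy (hinvA i l _ t x rfl ht ht' hx) (by omega)
        · exact hgen (i + j + 1) l m _ x (Φ.comm _ _ _ _ ht' hy) hx (by omega)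
      exact (this hv).2
  refine ⟨C, ⟨fun k => ⟨hFC k, (hCX k).trans (hXF k)⟩, ?_, ?_⟩, hIC, hCX, hAC⟩
  · intro i k m t v hm _ ht' hv
    exact hle _ hC' m (hgen i k m t v ht' hv hm)
  · intro k a b ha hb hab
    have h1 := hCX k hab
    have h2 := h.sf k a b ha hb (hXF k h1)
    have h3 : b ∈ Φ.F k := (mul_mem_cancel_left h2).1 (hXF k h1)
    exact hAC k a ha ((mul_mem_cancel_right (hUX k (mem_addB hI.1 hb h3))).1 h1)

theorem down {Q : ℕ → Prop} (hs : ∀ j, Q (j + 1) → Q j) : ∀ c, Q c → Q 0 := by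
  intro c
  induction c with
  | zero => exact id
  | succ c ih => exact fun h => ih (hs c h)

theorem pow_mem (h : Pair Φ A B g) {p : ℕ} (hAp : ∀ a ∈ A, a ^ p = 1) (hBp : ∀ b ∈ B, b ^ p = 1)
    (k : ℕ) (x : P) (hx : x ∈ Φ.F k) : x ^ p ∈ Φ.F (2 * k + 1) := by
  obtain ⟨a, ha, b, hb, ha', hb', rfl⟩ := h.fac' hx
  exact Φ.pow_mem_of_factor ha' hb' (hAp a ha) (hBp b hb)

theorem stab (h : Pair Φ A B g) {p : ℕ} (hp : p.Prime)
    (hA : ∀ a a', a ∈ A → a' ∈ A → ⁅a, a'⁆ = 1)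
    (hAp : ∀ a ∈ A, a ^ p = 1) (hBp : ∀ b ∈ B, b ^ p = 1) (D : ℕ → Set P) (c : ℕ)
    (hD0 : ∀ b ∈ B, b ∈ D 0) (hDs : ∀ j b x, b ∈ B → x ∈ D j → ⁅b, x⁆ ∈ D (j + 1))
    (hDc : ∀ x ∈ D c, x = 1) : ∃ r, ∀ k, r ≤ k → Φ.F k ≤ Φ.F (k + 1) := by
  by_contra hcon
  have h0 : Small Φ fun k => Φ.F (k + 1) := by
    intro r
    by_contra h1
    simp only [not_exists, not_and, not_not] at h1
    exact hcon ⟨r, h1⟩
  obtain ⟨I, hI, hIs, hmax⟩ := h.exists_max h0
  have hpow := h.pow_mem hAp hBp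
  have hBc : ∀ b b', b ∈ B → b' ∈ B → ⁅b, b'⁆ ∈ B := fun b b' hb hb' => by
    rw [commutatorElement_def]
    exact mul_mem (mul_mem (mul_mem hb hb') (inv_mem hb)) (inv_mem hb')
  by_cases hcase : ∀ r, ∃ k, r ≤ k ∧ ¬ Φ.F k ≤ addB B hI.1 k
  · have hJ : Φ.JI B (addB B hI.1) Φ.F := by
      refine ⟨btw_addB hI.1, fun k => ⟨Φ.anti k, le_rfl⟩, fun k => (btw_addB hI.1 k).2,
        invt_addB hI, fun i k m t v hm _ ht hv => Φ.comm' ht hv (by omega), ?_, hcase⟩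
      intro X hUX hXF hX
      obtain ⟨C, hC, hIC, hCX, hAC⟩ := h.core_good hA hI hUX hXF hX
      rcases hmax C hC hIC with h1 | ⟨r, hr⟩
      · refine Or.inl fun k x hx => ?_
        obtain ⟨a, ha, b, hb, ha', hb', rfl⟩ := h.fac' (hXF k hx)
        have hbU := mem_addB hI.1 hb hb'
        exact mul_mem (le_addB hI.1 k (h1 k (hAC k a ha
          ((mul_mem_cancel_right (hUX k hbU)).1 hx)))) hbU
      · exact Or.inr ⟨r, fun k hk => (hr k hk).trans (hCX k)⟩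
    have key := down (Q := fun j => ∀ d z, z ∈ B → z ∈ Φ.F d → z ∈ D j → ∀ k s, s ∈ Φ.F k →
      ⁅z, s⁆ ∈ addB B hI.1 (d + k + 1)) (fun j ih d z hz hz' hzD =>
        hJ.central hp hpow hz hz' (hBp z hz) fun i k t s ht ht' hs =>
          ih (i + d + 1) _ (hBc t z ht hz) (Φ.comm _ _ _ _ ht' hz') (hDs j t z ht hzD) k s hs) c
      (fun d z _ _ hzD k s _ => by rw [hDc z hzD]; simp)
    exact hJ.not_trivial fun i k t s ht ht' hs => key i t ht ht' (hD0 t ht) k s hs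
  · simp only [not_forall, not_exists, not_and, not_not] at hcase
    obtain ⟨n0, hn0⟩ := hcase
    let K : ℕ → Subgroup P := fun k => if n0 ≤ k then Φ.F k else I k
    have hK : ∀ k v, v ∈ K k ↔ v ∈ Φ.F k ∧ (n0 ≤ k ∨ v ∈ I k) := fun k v => by
      simp only [K]
      split_ifs with hk
      · simp [hk]
      · exact ⟨fun hv => ⟨(hI.1 k).2 hv, Or.inr hv⟩, fun hv => hv.2.resolve_left hk⟩
    let Z : ℕ → Subgroup P := fun k => K k ⊓ ⨅ l, ⨅ (_ : n0 ≤ l), ⨅ y, ⨅ (hy : y ∈ Φ.F l),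
      Φ.pre hy k (I (l + k + 1)) (m := l + k + 1 + 1) (by omega) (hI.1 _).1
    have hZ : ∀ k v, v ∈ Z k ↔ (v ∈ Φ.F k ∧ (n0 ≤ k ∨ v ∈ I k)) ∧
        ∀ l, n0 ≤ l → ∀ y, y ∈ Φ.F l → ⁅y, v⁆ ∈ I (l + k + 1) := fun k v => by
      simp only [Z, Subgroup.mem_inf, Subgroup.mem_iInf, hK, Filt.mem_pre]
      exact ⟨fun hv => ⟨hv.1, fun l hl y hy => (hv.2 l hl y hy).2⟩,
        fun hv => ⟨hv.1, fun l hl y hy => ⟨hv.1.1, hv.2 l hl y hy⟩⟩⟩
    have hIZ : ∀ k, I k ≤ Z k := fun k v hv => (hZ k v).2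
      ⟨⟨(hI.1 k).2 hv, Or.inr hv⟩, fun l _ y hy => hI.2.1 l k _ y v rfl trivial hy hv⟩
    have hZF : ∀ k, Z k ≤ Φ.F k := fun k v hv => ((hZ k v).1 hv).1.1
    have hZU : ∀ k, Z k ≤ addB B hI.1 k := fun k v hv => by
      rcases ((hZ k v).1 hv).1.2 with h1 | h1
      · exact hn0 k h1 (hZF k hv)
      · exact le_addB hI.1 k h1
    have hZi : Φ.Invt ⊤ Z := by
      intro i k m t v hm _ ht hv
      obtain ⟨⟨hv1, hv2⟩, hv3⟩ := (hZ k v).1 hv
      refine (hZ m _).2 ⟨⟨Φ.comm' ht hv1 (by omega), ?_⟩, fun l hl y hy => ?_⟩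
      · rcases hv2 with h1 | h1
        · exact Or.inl (by omega)
        · exact Or.inr (hI.2.1 i k m t v hm trivial ht h1)
      · refine Φ.jac2 ht hy hv1 (m := l + m + 1 + 1) (by omega) (hI.1 _).1 ?_ ?_
        · exact hI.2.1 i _ _ t _ (by omega) trivial ht (hv3 l hl y hy)
        · have := hv3 (i + l + 1) (by omega) _ (Φ.comm _ _ _ _ ht hy)
          rwa [show i + l + 1 + k + 1 = l + m + 1 by omega] at this
    have hgood : ∀ X : ℕ → Subgroup P, (∀ k, I k ≤ X k) → (∀ k, X k ≤ Z k) → Φ.Invt ⊤ X →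
        Good Φ A B X := fun X h1 h2 h3 => by
      refine ⟨fun k => ⟨(hI.1 k).1.trans (h1 k), (h2 k).trans (hZF k)⟩, h3, ?_⟩
      intro k a b ha hb hab
      obtain ⟨b', hb', -, h4⟩ := hZU k (h2 k hab)
      rw [mul_assoc] at h4
      exact h1 k (hI.2.2 k a _ ha (mul_mem hb (inv_mem hb')) h4)
    rcases hmax Z (hgood Z hIZ (fun k => le_rfl) hZi) hIZ with h1 | ⟨r, hr⟩
    · have key := down (Q := fun j => ∀ k v, n0 ≤ k → v ∈ B → v ∈ Φ.F k → v ∈ D j → v ∈ I k)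
        (fun j ih k v hk hv hv' hvD => h1 k ((hZ k v).2 ⟨⟨hv', Or.inl hk⟩, fun l hl y hy => by
          have := addB_le hI.1 (B := B) (k := l) (Y := Φ.pre hv' l (I (l + k + 1))
            (m := l + k + 1 + 1) (by omega) (hI.1 _).1)
            (fun w hw => ⟨(hI.1 l).2 hw, hI.2.1 k l _ v w (by omega) trivial hv' hw⟩)
            (fun b hb hb' => ⟨hb', comm_swap (ih _ _ (by omega) (hBc b v hb hv)
              (Φ.comm _ _ _ _ hb' hv') (hDs j b v hb hvD))⟩) (hn0 l hl hy)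
          exact comm_swap this.2⟩)) c
        (fun k v _ _ _ hvD => by rw [hDc v hvD]; exact one_mem _)
      obtain ⟨k, hk, hk'⟩ := hIs n0
      exact hk' ((hn0 k hk).trans (addB_le hI.1 le_rfl fun b hb hb' =>
        key k b hk hb hb' (hD0 b hb)))
    · have hJ : Φ.JI ⊤ I Z := by
        refine ⟨hI.1, (hgood Z hIZ (fun k => le_rfl) hZi).1, hIZ, hI.2.1, hZi, ?_, ?_⟩
        · intro X h1 h2 h3
          rcases hmax X (hgood X h1 h2 h3) h1 with h4 | ⟨r', hr'⟩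
          · exact Or.inl h4
          · exact Or.inr ⟨r', fun k hk => (hZF k).trans (hr' k hk)⟩
        · intro r'
          obtain ⟨k, hk, hk'⟩ := hIs (r + r')
          exact ⟨k, by omega, fun h4 => hk' ((hr k (by omega)).trans h4)⟩
      have key := down (Q := fun j => ∀ d z, j ≤ d → z ∈ Φ.F d → ∀ k s, s ∈ Z k →
        ⁅z, s⁆ ∈ I (d + k + 1)) (fun j ih d z hd hz k s hs => by
          obtain ⟨a, ha, b, hb, ha', hb', rfl⟩ := h.fac' hz
          refine Φ.comm_mul_left (m := d + k + 1 + 1) (by omega) (hI.1 _).1 ha' hb' (hZF k hs) ?_ ?_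
          · exact hJ.central hp hpow trivial ha' (hAp a ha) (fun i k t s _ ht hs =>
              ih (i + d + 1) _ (by omega) (Φ.comm _ _ _ _ ht ha') k s hs) k s hs
          · exact hJ.central hp hpow trivial hb' (hBp b hb) (fun i k t s _ ht hs =>
              ih (i + d + 1) _ (by omega) (Φ.comm _ _ _ _ ht hb') k s hs) k s hs) n0
        (fun d z hd hz k s hs => ((hZ k s).1 hs).2 d hd z hz)
      exact hJ.not_trivial fun i k t s _ ht hs => key i t (by omega) ht k s hs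

end Pair
end Pool.Agent.MP38b55a

end

section

set_option autoImplicit false

open scoped commutatorElement Pointwise

namespace Pool.Agent.MP38b55a

universe u
variable {P : Type u} [Group P]

/-- The least factorized commutator filtration whose first term contains `g`. -/
inductive Fil (A B : Subgroup P) (g : P) : ℕ → P → Prop
  | base : Fil A B g 0 g
  | one (n : ℕ) : Fil A B g n 1
  | mul {n : ℕ} {x y : P} : Fil A B g n x → Fil A B g n y → Fil A B g n (x * y)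
  | inv {n : ℕ} {x : P} : Fil A B g n x → Fil A B g n x⁻¹
  | comm {i j : ℕ} {x y : P} : Fil A B g i x → Fil A B g j y → Fil A B g (i + j + 1) ⁅x, y⁆
  | mono {n : ℕ} {x : P} : Fil A B g (n + 1) x → Fil A B g n x
  | comp {n : ℕ} {a b : P} : a ∈ A → b ∈ B → Fil A B g n (a * b) → Fil A B g n a

/-- The filtration given by `Fil`. -/
def filt (A B : Subgroup P) (g : P) : Filt P where
  F n := { carrier := {x | Fil A B g n x}
           one_mem' := Fil.one n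
           mul_mem' := Fil.mul
           inv_mem' := Fil.inv }
  anti _ _ hx := Fil.mono hx
  comm _ _ _ _ hx hy := Fil.comm hx hy

theorem pair_filt (A B : Subgroup P) (g : P) (fac : ∀ x : P, ∃ a ∈ A, ∃ b ∈ B, x = a * b) :
    Pair (filt A B g) A B g := by
  refine ⟨fac, fun k a b ha hb hab => Fil.comp ha hb hab, Fil.base, ?_⟩
  intro k Y h1 h2 h3 h4 x hx
  have key : ∀ n x, Fil A B g n x → n = k → x ∈ Y := by
    intro n x hx
    induction hx with
    | base => exact fun h => h3 h.symm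
    | one n => exact fun _ => one_mem _
    | mul _ _ ih1 ih2 => exact fun h => mul_mem (ih1 h) (ih2 h)
    | inv _ ih => exact fun h => inv_mem (ih h)
    | comm hx hy _ _ => exact fun h => h4 _ _ _ _ h hx hy
    | mono hx _ => exact fun h => h1 (h ▸ hx)
    | comp ha hb _ ih => exact fun h => h2 _ _ ha hb (ih h)
  exact key k x hx rfl

section finite
variable {G : Type u} [Group G]

theorem meet [Group.IsNilpotent G] (K C : Subgroup G) [C.Normal] (h : ¬ C ≤ K) :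
    ∃ x ∈ C, x ∉ K ∧ ∀ y, ⁅x, y⁆ ∈ K := by
  by_contra hcon
  simp only [not_exists, not_and, not_forall] at hcon
  obtain ⟨n, hn⟩ := Group.IsNilpotent.nilpotent G
  have key : ∀ n x, x ∈ C → x ∈ Subgroup.upperCentralSeries G n → x ∈ K := by
    intro n
    induction n with
    | zero => intro x _ hx; simp at hx; rw [hx]; exact one_mem _
    | succ n ih =>
      intro x hx hx'
      by_contra hK
      obtain ⟨y, hy⟩ := hcon x hx hK
      refine hy (ih _ ?_ (Subgroup.mem_upperCentralSeries_succ_iff.1 hx' y))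
      rw [commutatorElement_def, mul_assoc, mul_assoc, ← mul_assoc y]
      exact mul_mem hx (Subgroup.Normal.conj_mem inferInstance _ (inv_mem hx) y)
  exact h fun x hx => key n x hx (hn ▸ Subgroup.mem_top x)

theorem step [Group.IsNilpotent G] {A B : Subgroup G} (fac : ∀ x : G, ∃ a ∈ A, ∃ b ∈ B, x = a * b)
    (hA : ∀ a a', a ∈ A → a' ∈ A → ⁅a, a'⁆ = 1) (K : Subgroup G) [hK : K.Normal] (hs : SF A B K)
    (hne : K ≠ ⊤) : ∃ K' : Subgroup G, K'.Normal ∧ SF A B K' ∧ K < K' ∧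
      ∀ x y, x ∈ K' → ⁅x, y⁆ ∈ K := by
  let Z : Subgroup G := (Subgroup.center (G ⧸ K)).comap (QuotientGroup.mk' K)
  have hZ : ∀ x, x ∈ Z ↔ ∀ y, ⁅x, y⁆ ∈ K := fun x => by
    simp only [Z, Subgroup.mem_comap, Subgroup.mem_center_iff]
    constructor
    · intro h y
      rw [← QuotientGroup.eq_one_iff, ← QuotientGroup.mk'_apply, map_commutatorElement,
        commutatorElement_eq_one_iff_mul_comm]
      exact (h _).symm
    · intro h y
      obtain ⟨y, rfl⟩ := QuotientGroup.mk'_surjective K y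
      have := h y
      rw [← QuotientGroup.eq_one_iff, ← QuotientGroup.mk'_apply, map_commutatorElement,
        commutatorElement_eq_one_iff_mul_comm] at this
      exact this.symm
  have hKZ : K ≤ Z := fun x hx => (hZ x).2 fun y => by
    rw [commutatorElement_def, mul_assoc, mul_assoc, ← mul_assoc y]
    exact mul_mem hx (hK.conj_mem _ (inv_mem hx) y)
  have hKC : K ≤ (B ⊔ K).normalCore := Subgroup.normal_le_normalCore.2 le_sup_right
  by_cases hC : (B ⊔ K).normalCore ≤ K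
  · obtain ⟨x, -, hx, hx'⟩ := meet K ⊤ (fun h => hne (top_le_iff.1 h))
    refine ⟨Z, inferInstance, ?_, lt_of_le_of_ne hKZ fun h => hx (h ▸ (hZ x).2 hx'),
      fun x y hx => (hZ x).1 hx y⟩
    intro a b ha hb hab
    refine (mul_mem_cancel_right (hKZ (hC fun y => ?_))).1 hab
    obtain ⟨a', ha', b', hb', hy⟩ := fac y⁻¹
    have hy' : y = (a' * b')⁻¹ := by rw [← hy, inv_inv]
    have : y * b * y⁻¹ = b'⁻¹ * ((a'⁻¹ * a⁻¹ * ⁅a * b, a'⁆ * (a'⁻¹ * a⁻¹)⁻¹) * ⁅a'⁻¹, a⁻¹⁆ * b) * b' := by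
      rw [hy']; simp only [commutatorElement_def]; group
    rw [this, hA _ _ (inv_mem ha') (inv_mem ha), mul_one]
    exact mul_mem (mul_mem (Subgroup.mem_sup_left (inv_mem hb')) (mul_mem
      (Subgroup.mem_sup_right (hK.conj_mem _ ((hZ _).1 hab a') _)) (Subgroup.mem_sup_left hb)))
      (Subgroup.mem_sup_left hb')
  · obtain ⟨x, hxC, hx, hx'⟩ := meet K _ hC
    refine ⟨Z ⊓ (B ⊔ K).normalCore, inferInstance, ?_,
      lt_of_le_of_ne (le_inf hKZ hKC) fun h => hx (h ▸ ⟨(hZ x).2 hx', hxC⟩),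
      fun x y hx => (hZ x).1 hx.1 y⟩
    intro a b ha hb hab
    have h1 : a ∈ B ⊔ K := (mul_mem_cancel_right (Subgroup.mem_sup_left hb)).1
      (Subgroup.normalCore_le _ hab.2)
    have h2 : a ∈ ((B : Set G) * (K : Set G)) := by rw [← Subgroup.mul_normal]; exact h1
    obtain ⟨b', hb', k, hk, rfl⟩ := h2
    refine le_inf hKZ hKC (hs _ b'⁻¹ ha (inv_mem hb') ?_)
    exact hK.conj_mem _ hk _

theorem reach [Finite G] [Group.IsNilpotent G] {A B : Subgroup G}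
    (fac : ∀ x : G, ∃ a ∈ A, ∃ b ∈ B, x = a * b) (hA : ∀ a a', a ∈ A → a' ∈ A → ⁅a, a'⁆ = 1)
    {A' B' : Subgroup P} (g : P) (φ : P →* G) (hφA : ∀ a ∈ A', φ a ∈ A) (hφB : ∀ b ∈ B', φ b ∈ B)
    (K : Subgroup G) : K.Normal → SF A B K → ∃ n, ∀ x ∈ (filt A' B' g).F n, φ x ∈ K := by
  induction K using WellFoundedGT.induction with
  | ind K ih =>
    intro hK hs
    by_cases hne : K = ⊤
    · exact ⟨0, fun x _ => hne ▸ Subgroup.mem_top _⟩
    obtain ⟨K', hK', hs', hlt, hc⟩ := step fac hA K hs hne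
    obtain ⟨n0, hn0⟩ := ih K' hlt hK' hs'
    have key : ∀ n x, Fil A' B' g n x → 2 * n0 + 1 ≤ n → φ x ∈ K := by
      intro n x hx
      induction hx with
      | base => exact fun h => absurd h (by omega)
      | one n => exact fun _ => by rw [map_one]; exact one_mem _
      | mul _ _ ih1 ih2 => exact fun h => by rw [map_mul]; exact mul_mem (ih1 h) (ih2 h)
      | inv _ ih => exact fun h => by rw [map_inv]; exact inv_mem (ih h)
      | @comm i j x y hx hy _ _ =>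
        intro h
        rw [map_commutatorElement]
        by_cases hi : n0 ≤ i
        · exact hc _ _ (hn0 x ((filt A' B' g).mono hi hx))
        · exact comm_swap (hc _ _ (hn0 y ((filt A' B' g).mono (show n0 ≤ j by omega) hy)))
      | mono _ ih => exact fun h => ih (by omega)
      | comp ha hb _ ih =>
        exact fun h => hs _ _ (hφA _ ha) (hφB _ hb) (by rw [← map_mul]; exact ih h)
    exact ⟨2 * n0 + 1, fun x hx => key _ x hx le_rfl⟩

theorem sf_core {A B : Subgroup G} (fac : ∀ x : G, ∃ a ∈ A, ∃ b ∈ B, x = a * b)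
    (hA : ∀ a a', a ∈ A → a' ∈ A → ⁅a, a'⁆ = 1) : SF A B B.normalCore := by
  intro a b ha hb hab y
  have h1 : a ∈ B := (mul_mem_cancel_right hb).1 (Subgroup.normalCore_le _ hab)
  obtain ⟨a', ha', b', hb', hy⟩ := fac y⁻¹
  have hy' : y = (a' * b')⁻¹ := by rw [← hy, inv_inv]
  have : y * a * y⁻¹ = b'⁻¹ * (⁅a'⁻¹, a⁆ * a) * b' := by
    rw [hy']; simp only [commutatorElement_def]; group
  rw [this, hA _ _ (inv_mem ha') ha, one_mul]
  exact mul_mem (mul_mem (inv_mem hb') h1) hb'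

end finite

theorem bound (p : ℕ) (hp : p.Prime) (c : ℕ) : ∃ N : ℕ, ∀ (G : Type u) [Group G] [Finite G],
    IsPGroup p G → ∀ A B : Subgroup G, (∀ a ∈ A, a ^ p = 1) → (∀ b ∈ B, b ^ p = 1) →
      (∀ g : G, ∃ a ∈ A, ∃ b ∈ B, g = a * b) → (∀ a ∈ A, ∀ a' ∈ A, a * a' = a' * a) →
      B.lowerCentralSeries c = ⊥ → ∀ g : G, g ^ p ^ N = 1 := by
  by_contra hcon
  simp only [not_exists, not_forall] at hcon
  choose G instG instF hG A B hAp hBp fac hA hB g hg using hcon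
  have := Fact.mk hp
  let A' : Subgroup (∀ n, G n) := Subgroup.pi Set.univ A
  let B' : Subgroup (∀ n, G n) := Subgroup.pi Set.univ B
  have hA0 : ∀ n a a', a ∈ A n → a' ∈ A n → ⁅a, a'⁆ = 1 := fun n a a' ha ha' =>
    commutatorElement_eq_one_iff_mul_comm.2 (hA n a ha a' ha')
  have fac' : ∀ x : ∀ n, G n, ∃ a ∈ A', ∃ b ∈ B', x = a * b := fun x => by
    choose a ha b hb hab using fun n => fac n (x n)
    exact ⟨a, fun n _ => ha n, b, fun n _ => hb n, funext hab⟩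
  have hP := pair_filt A' B' g fac'
  have hAp' : ∀ a ∈ A', a ^ p = 1 := fun a ha => funext fun n => hAp n _ (ha n trivial)
  have hBp' : ∀ b ∈ B', b ^ p = 1 := fun b hb => funext fun n => hBp n _ (hb n trivial)
  obtain ⟨r, hr⟩ := hP.stab hp (fun a a' ha ha' => funext fun n => hA0 n _ _ (ha n trivial) (ha' n trivial))
    hAp' hBp' (fun j => {x | ∀ n, x n ∈ (B n).lowerCentralSeries j}) c
    (fun b hb n => hb n trivial)
    (fun j b x hb hx n => comm_swap (Subgroup.commutator_mem_commutator (hx n) (hb n trivial)))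
    (fun x hx => funext fun n => by have := hx n; rwa [hB n, Subgroup.mem_bot] at this)
  have hpow : ∀ n, g ^ p ^ n ∈ (filt A' B' g).F n := by
    intro n
    induction n with
    | zero => simpa using hP.gmem
    | succ n ih =>
      rw [pow_succ, pow_mul]
      exact (filt A' B' g).mono (by omega) (hP.pow_mem hAp' hBp' n _ ih)
  have hst : ∀ m, (filt A' B' g).F r ≤ (filt A' B' g).F (r + m) := by
    intro m
    induction m with
    | zero => exact le_rfl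
    | succ m ih => exact ih.trans (hr _ (by omega))
  have := (hG (r + 1)).isNilpotent
  obtain ⟨n, hn⟩ := reach (fac (r + 1)) (hA0 (r + 1)) (A' := A') (B' := B') g
    (Pi.evalMonoidHom G (r + 1)) (fun a ha => ha _ trivial) (fun b hb => hb _ trivial)
    (B (r + 1)).normalCore inferInstance (sf_core (fac (r + 1)) (hA0 (r + 1)))
  have h1 := Subgroup.normalCore_le _ (hn _ ((filt A' B' g).mono (by omega) (hst n (hpow r))))
  apply hg (r + 1)
  rw [pow_succ, pow_mul]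
  exact hBp _ _ h1

end Pool.Agent.MP38b55a

end

section

set_option autoImplicit false

open scoped commutatorElement

namespace Pool.Agent.MP38b55a

universe u
variable {G : Type u} [Group G]

/-- `q` presents the abelian section `N / N2` as the additive group `Q`. -/
structure Pres (N N2 : Subgroup G) {Q : Type u} [AddCommGroup Q] (q : G → Q) : Prop where
  add : ∀ a b, a ∈ N → b ∈ N → q (a * b) = q a + q b
  zero : ∀ a, a ∈ N → (q a = 0 ↔ a ∈ N2)
  surj : ∀ v, ∃ a ∈ N, q a = v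

theorem exists_pres (N N2 : Subgroup G) (hc : ∀ a b, a ∈ N → b ∈ N → ⁅a, b⁆ ∈ N2) :
    ∃ (Q : Type u) (_ : AddCommGroup Q) (q : G → Q), Pres N N2 q := by
  classical
  let K : Subgroup N := N2.subgroupOf N
  have : K.Normal := ⟨fun n hn g => by
    rw [Subgroup.mem_subgroupOf] at hn ⊢
    have : ((g * n * g⁻¹ : N) : G) = ⁅(g : G), (n : G)⁆ * n := by
      simp only [commutatorElement_def, Subgroup.coe_mul, Subgroup.coe_inv]; group
    rw [this]
    exact mul_mem (hc _ _ g.2 n.2) hn⟩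
  let _ : CommGroup (N ⧸ K) := { (inferInstance : Group (N ⧸ K)) with
    mul_comm := by
      intro a b
      obtain ⟨a, rfl⟩ := QuotientGroup.mk_surjective a
      obtain ⟨b, rfl⟩ := QuotientGroup.mk_surjective b
      rw [← QuotientGroup.mk_mul, ← QuotientGroup.mk_mul, QuotientGroup.eq, Subgroup.mem_subgroupOf]
      have : (((a * b)⁻¹ * (b * a) : N) : G) = ⁅(b : G)⁻¹, (a : G)⁻¹⁆ := by
        simp only [commutatorElement_def, Subgroup.coe_mul, Subgroup.coe_inv]; group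
      rw [this]
      exact hc _ _ (inv_mem b.2) (inv_mem a.2) }
  refine ⟨Additive (N ⧸ K), inferInstance,
    fun a => if h : a ∈ N then Additive.ofMul (QuotientGroup.mk (⟨a, h⟩ : N)) else 0, ?_, ?_, ?_⟩
  · intro a b ha hb
    simp only [dif_pos ha, dif_pos hb, dif_pos (mul_mem ha hb)]
    rw [← ofMul_mul, ← QuotientGroup.mk_mul]
    rfl
  · intro a ha
    simp only [dif_pos ha]
    exact (QuotientGroup.eq_one_iff (⟨a, ha⟩ : N)).trans Subgroup.mem_subgroupOf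
  · intro v
    obtain ⟨a, ha⟩ := QuotientGroup.mk_surjective (Additive.toMul v)
    refine ⟨a, a.2, ?_⟩
    simp only [dif_pos a.2]
    rw [show (⟨(a : G), a.2⟩ : N) = a from rfl, ha]
    rfl

namespace Pres
variable {N N2 : Subgroup G} {Q : Type u} [AddCommGroup Q] {q : G → Q}

theorem one (h : Pres N N2 q) : q 1 = 0 := (h.zero 1 (one_mem _)).2 (one_mem _)

theorem inv (h : Pres N N2 q) {a : G} (ha : a ∈ N) : q a⁻¹ = -q a := by
  have := h.add a⁻¹ a (inv_mem ha) ha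
  rw [inv_mul_cancel, h.one] at this
  exact eq_neg_of_add_eq_zero_left this.symm

theorem pow (h : Pres N N2 q) {a : G} (ha : a ∈ N) (n : ℕ) : q (a ^ n) = n • q a := by
  induction n with
  | zero => simp [h.one]
  | succ n ih => rw [pow_succ, h.add _ _ (pow_mem ha n) ha, ih, succ_nsmul]

theorem exists_map (h : Pres N N2 q) {W : Type*} [AddCommGroup W] (ψ : G → W)
    (hadd : ∀ a b, a ∈ N → b ∈ N → ψ (a * b) = ψ a + ψ b) (h0 : ∀ a, a ∈ N → a ∈ N2 → ψ a = 0) :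
    ∃ T : Q →+ W, ∀ a, a ∈ N → T (q a) = ψ a := by
  choose s hs hs' using h.surj
  have key : ∀ a b, a ∈ N → b ∈ N → q a = q b → ψ a = ψ b := by
    intro a b ha hb hab
    have h1 : q (a * b⁻¹) = 0 := by rw [h.add _ _ ha (inv_mem hb), h.inv hb, hab, add_neg_cancel]
    have h2 := h0 _ (mul_mem ha (inv_mem hb)) ((h.zero _ (mul_mem ha (inv_mem hb))).1 h1)
    have h3 := hadd (a * b⁻¹) b (mul_mem ha (inv_mem hb)) hb
    rwa [inv_mul_cancel_right, h2, zero_add] at h3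
  refine ⟨AddMonoidHom.mk' (fun v => ψ (s v)) fun v w => ?_, fun a ha => key _ _ (hs _) ha (hs' _)⟩
  rw [← hadd _ _ (hs v) (hs w)]
  exact key _ _ (hs _) (mul_mem (hs v) (hs w)) (by rw [h.add _ _ (hs v) (hs w), hs', hs', hs'])

theorem exists_op (h : Pres N N2 q) (ψ : G → G)
    (hadd : ∀ a b, a ∈ N → b ∈ N → q (ψ (a * b)) = q (ψ a) + q (ψ b))
    (h0 : ∀ a, a ∈ N → a ∈ N2 → q (ψ a) = 0) :
    ∃ T : Module.End ℤ Q, ∀ a, a ∈ N → T (q a) = q (ψ a) := by
  obtain ⟨T, hT⟩ := h.exists_map (fun a => q (ψ a)) hadd h0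
  exact ⟨T.toIntLinearMap, hT⟩

theorem ext (h : Pres N N2 q) {T T' : Module.End ℤ Q} (hT : ∀ a, a ∈ N → T (q a) = T' (q a)) :
    T = T' := LinearMap.ext fun v => by
  obtain ⟨a, ha, rfl⟩ := h.surj v
  exact hT a ha

end Pres

section words
variable {R : Type*} [Ring R] {J : Type*}

/-- The span of the words of length at least `k` in the letters `X j`. -/
def Wd (X : J → R) (k : ℕ) : Submodule ℤ R :=
  Submodule.span ℤ {w | ∃ l : List J, k ≤ l.length ∧ w = (l.map X).prod}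

theorem Wd_mul (X : J → R) {i j : ℕ} {a b : R} (ha : a ∈ Wd X i) (hb : b ∈ Wd X j) :
    a * b ∈ Wd X (i + j) := by
  have := Submodule.mul_mem_mul ha hb
  rw [Wd, Wd, Submodule.span_mul_span] at this
  refine Submodule.span_mono ?_ this
  rintro _ ⟨_, ⟨l, hl, rfl⟩, _, ⟨l', hl', rfl⟩, rfl⟩
  exact ⟨l ++ l', by simp; omega, by simp⟩

theorem Wd_mono (X : J → R) {i j : ℕ} (h : i ≤ j) : Wd X j ≤ Wd X i :=
  Submodule.span_mono (by rintro _ ⟨l, hl, rfl⟩; exact ⟨l, h.trans hl, rfl⟩)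

theorem Wd_gen (X : J → R) (j : J) : X j ∈ Wd X 1 := Submodule.subset_span ⟨[j], by simp, by simp⟩

theorem Wd_pow (X : J → R) {Y L : R} (hL : L ∈ Wd X 1) (h : Y - L ∈ Wd X 2) (k : ℕ) :
    L ^ k ∈ Wd X k ∧ Y ^ k - L ^ k ∈ Wd X (k + 1) := by
  induction k with
  | zero => exact ⟨Submodule.subset_span ⟨[], by simp, by simp⟩, by simp⟩
  | succ k ih =>
    refine ⟨by rw [pow_succ]; exact Wd_mul X ih.1 hL, ?_⟩
    have : Y ^ (k + 1) - L ^ (k + 1) = (Y ^ k - L ^ k) * (Y - L) + (Y ^ k - L ^ k) * L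
        + L ^ k * (Y - L) := by rw [pow_succ, pow_succ]; noncomm_ring
    rw [this]
    exact add_mem (add_mem (Wd_mono X (by omega) (Wd_mul X ih.2 h)) (Wd_mul X ih.2 hL))
      (Wd_mono X (by omega) (Wd_mul X ih.1 h))

theorem sum_pow_words [Fintype J] (X : J → R) (k : ℕ) :
    (∑ j, X j) ^ k = ∑ f : Fin k → J, ((List.ofFn f).map X).prod := by
  induction k with
  | zero => simp
  | succ k ih =>
    rw [pow_succ', ih, Finset.sum_mul_sum, ← Fintype.sum_prod_type']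
    refine Fintype.sum_equiv (Fin.consEquiv fun _ => J) _ _ fun x => ?_
    simp [Fin.consEquiv, List.ofFn_succ]

end words

end Pool.Agent.MP38b55a

end

section

set_option autoImplicit false

open scoped commutatorElement

namespace Pool.Agent.MP38b55a

universe u

/-- Iterated commutator of the letters of `l` with `a`. -/
def adw {G : Type*} [Group G] {J : Type*} (y : J → G) (l : List J) (a : G) : G :=
  l.foldr (fun j w => ⁅y j, w⁆) a

theorem adw_map {G H : Type*} [Group G] [Group H] {J : Type*} (φ : G →* H) (y : J → G)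
    (l : List J) (a : G) : φ (adw y l a) = adw (fun j => φ (y j)) l (φ a) := by
  induction l with
  | nil => rfl
  | cons j l ih => simp only [adw, List.foldr_cons, map_commutatorElement] at ih ⊢; rw [ih]

variable {J : Type} [DecidableEq J]

/-- The multigraded commutator filtration of a free group, modulo `p`-th powers. -/
inductive Cw (p : ℕ) : (J → ℕ) → FreeGroup J → Prop
  | gen (j : J) : Cw p (Pi.single j 1) (FreeGroup.of j)
  | pow (μ : J → ℕ) (g : FreeGroup J) : Cw p μ (g ^ p)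
  | one (μ : J → ℕ) : Cw p μ 1
  | mul {μ : J → ℕ} {a b : FreeGroup J} : Cw p μ a → Cw p μ b → Cw p μ (a * b)
  | inv {μ : J → ℕ} {a : FreeGroup J} : Cw p μ a → Cw p μ a⁻¹
  | comm {μ ν : J → ℕ} {a b : FreeGroup J} : Cw p μ a → Cw p ν b → Cw p (μ + ν) ⁅a, b⁆
  | mono {μ ν : J → ℕ} {a : FreeGroup J} : μ ≤ ν → Cw p ν a → Cw p μ a

/-- The subgroups given by `Cw`. -/
def Cs (p : ℕ) (μ : J → ℕ) : Subgroup (FreeGroup J) where
  carrier := {a | Cw p μ a}
  one_mem' := Cw.one μ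
  mul_mem' := Cw.mul
  inv_mem' := Cw.inv

theorem Cw_zero (p : ℕ) (g : FreeGroup J) : Cw p 0 g := by
  induction g using FreeGroup.induction_on with
  | C1 => exact Cw.one _
  | of j => exact Cw.mono (fun _ => Nat.zero_le _) (Cw.gen j)
  | inv_of j h => exact Cw.inv h
  | mul a b ha hb => exact Cw.mul ha hb

theorem Cw_comm' {p : ℕ} {μ ν κ : J → ℕ} {a b : FreeGroup J} (ha : Cw p μ a) (hb : Cw p ν b)
    (h : ∀ j, κ j ≤ μ j + ν j) : Cw p κ ⁅a, b⁆ := Cw.mono h (Cw.comm ha hb)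

theorem Cw_conj {p : ℕ} {μ : J → ℕ} {a : FreeGroup J} (g : FreeGroup J) (ha : Cw p μ a) :
    Cw p μ (g * a * g⁻¹) := by
  have : g * a * g⁻¹ = ⁅g, a⁆ * a := by simp only [commutatorElement_def]; group
  rw [this]
  exact Cw.mul (Cw_comm' (Cw_zero p g) ha fun j => by simp) ha

/-- The retraction killing the generator `i`. -/
def rt (i : J) : FreeGroup J →* FreeGroup J :=
  FreeGroup.lift fun j => if j = i then 1 else FreeGroup.of j

theorem rt_of (i j : J) : rt i (FreeGroup.of j) = if j = i then 1 else FreeGroup.of j := by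
  simp [rt]

theorem Cw_rt {p : ℕ} (i : J) {μ : J → ℕ} {a : FreeGroup J} (h : Cw p μ a) : Cw p μ (rt i a) := by
  induction h with
  | gen j => rw [rt_of]; split_ifs; exacts [Cw.one _, Cw.gen j]
  | pow μ g => rw [map_pow]; exact Cw.pow _ _
  | one μ => rw [map_one]; exact Cw.one _
  | mul _ _ h1 h2 => rw [map_mul]; exact Cw.mul h1 h2
  | inv _ h1 => rw [map_inv]; exact Cw.inv h1
  | comm _ _ h1 h2 => rw [map_commutatorElement]; exact Cw.comm h1 h2
  | mono h _ h1 => exact Cw.mono h h1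

theorem Cw_rt_sup {p : ℕ} (i : J) {μ : J → ℕ} {a : FreeGroup J} (h : Cw p μ a) :
    Cw p (μ ⊔ Pi.single i 1) (a * (rt i a)⁻¹) := by
  induction h with
  | gen j =>
    rw [rt_of]; split_ifs with hj
    · subst hj; simpa using Cw.gen j
    · simpa using Cw.one _
  | pow μ g => rw [map_pow]; exact Cw.mul (Cw.pow _ _) (Cw.inv (Cw.pow _ _))
  | one μ => simpa using Cw.one _
  | @mul μ a b _ _ h1 h2 =>
    have : a * b * (rt i (a * b))⁻¹ = (a * (rt i a)⁻¹) * (rt i a * (b * (rt i b)⁻¹) * (rt i a)⁻¹) := by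
      rw [map_mul]; group
    rw [this]
    exact Cw.mul h1 (Cw_conj _ h2)
  | @inv μ a _ h1 =>
    have : a⁻¹ * (rt i a⁻¹)⁻¹ = a⁻¹ * (a * (rt i a)⁻¹)⁻¹ * a⁻¹⁻¹ := by rw [map_inv]; group
    rw [this]
    exact Cw_conj _ (Cw.inv h1)
  | @comm μ ν a b ha hb h1 h2 =>
    have ha' := Cw_rt i ha
    have hb' := Cw_rt i hb
    have : ⁅a, b⁆ * (rt i ⁅a, b⁆)⁻¹ = (a * (rt i a)⁻¹ * (⁅rt i a, b * (rt i b)⁻¹⁆ *
        (b * (rt i b)⁻¹ * ⁅rt i a, rt i b⁆ * (b * (rt i b)⁻¹)⁻¹ * ⁅rt i a, rt i b⁆⁻¹)) *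
          (a * (rt i a)⁻¹)⁻¹) * ⁅a * (rt i a)⁻¹, ⁅rt i a, rt i b⁆⁆ *
          (⁅rt i a, rt i b⁆ * ⁅a * (rt i a)⁻¹, b⁆ * ⁅rt i a, rt i b⁆⁻¹) := by
      rw [map_commutatorElement]; simp only [commutatorElement_def]; group
    rw [this]
    have le : ∀ j, (Pi.single i 1 : J → ℕ) j ≤ 1 := fun j => by
      rw [Pi.single_apply]; split_ifs <;> omega
    refine Cw.mul (Cw.mul (Cw_conj _ (Cw.mul ?_ ?_)) ?_) (Cw_conj _ ?_)
    · exact Cw_comm' ha' h2 fun j => by simp only [Pi.sup_apply, Pi.add_apply]; omega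
    · rw [← commutatorElement_def]
      exact Cw_comm' h2 (Cw.comm ha' hb') fun j => by simp only [Pi.sup_apply, Pi.add_apply]; omega
    · exact Cw_comm' h1 (Cw.comm ha' hb') fun j => by simp only [Pi.sup_apply, Pi.add_apply]; omega
    · exact Cw_comm' h1 hb fun j => by simp only [Pi.sup_apply, Pi.add_apply]; omega
  | mono h _ h1 => exact Cw.mono (sup_le_sup_right h _) h1

theorem Cw_weight {P : Type u} [Group P] [Fintype J] (Φ : Filt P) {p : ℕ} (φ : FreeGroup J →* P)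
    (hp : ∀ g, φ g ^ p = 1) (d : J → ℕ) (hd : ∀ j, φ (FreeGroup.of j) ∈ Φ.F (d j))
    {μ : J → ℕ} {a : FreeGroup J} (h : Cw p μ a) : φ a ∈ Φ.F ((∑ j, μ j * (d j + 1)) - 1) := by
  induction h with
  | gen j =>
    have : ∑ k, (Pi.single j 1 : J → ℕ) k * (d k + 1) = d j + 1 := by
      rw [Finset.sum_eq_single j] <;> simp +contextual
    rw [this]; exact hd j
  | pow μ g => rw [map_pow, hp]; exact one_mem _
  | one μ => rw [map_one]; exact one_mem _
  | mul _ _ h1 h2 => rw [map_mul]; exact mul_mem h1 h2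
  | inv _ h1 => rw [map_inv]; exact inv_mem h1
  | comm _ _ h1 h2 =>
    rw [map_commutatorElement]
    refine Φ.comm' h1 h2 ?_
    simp only [Pi.add_apply, add_mul, Finset.sum_add_distrib]
    omega
  | mono h _ h1 =>
    refine Φ.mono ?_ h1
    exact Nat.sub_le_sub_right (Finset.sum_le_sum fun j _ => Nat.mul_le_mul_right _ (h j)) 1

theorem Cw_adw {p : ℕ} {I : Type} (e : I → J) {μ : J → ℕ} {a : FreeGroup J} (ha : Cw p μ a)
    (l : List I) : Cw p (μ + fun j => (l.map e).count j) (adw (fun i => FreeGroup.of (e i)) l a) := by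
  induction l with
  | nil => exact Cw.mono (fun j => by simp) ha
  | cons i l ih =>
    refine Cw_comm' (Cw.gen (e i)) ih fun j => ?_
    simp only [Pi.add_apply, List.map_cons, List.count_cons, Pi.single_apply, beq_iff_eq]
    by_cases h : e i = j
    · simp [h]; omega
    · simp [h, Ne.symm h]

theorem rt_adw {I : Type} [DecidableEq I] (i : I) (l : List I) :
    rt (some i) (adw (fun j => FreeGroup.of (some j)) l (FreeGroup.of none)) =
      if i ∈ l then 1 else adw (fun j => FreeGroup.of (some j)) l (FreeGroup.of none) := by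
  induction l with
  | nil => simp [adw, rt_of]
  | cons j l ih =>
    have e : ∀ a : FreeGroup (Option I), adw (fun j => FreeGroup.of (some j)) (j :: l) a =
      ⁅FreeGroup.of (some j), adw (fun j => FreeGroup.of (some j)) l a⁆ := fun a => rfl
    rw [e, map_commutatorElement, ih, rt_of]
    by_cases h1 : j = i
    · simp [h1]
    · by_cases h2 : i ∈ l
      · simp [h2]
      · simp [h1, h2, Ne.symm h1]

end Pool.Agent.MP38b55a

end

section

set_option autoImplicit false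

open scoped commutatorElement

namespace Pool.Agent.MP38b55a

universe u

theorem pascal_shift {M : Type*} [AddCommGroup M] {n : ℕ} (hp : (n + 1).Prime)
    (hM : ∀ x : M, (n + 1) • x = 0) (f : ℕ → ℕ → M)
    (hf : ∀ k j, f (k + 1) j = f k (j + 1) + f k j)
    (h0 : ∑ k ∈ Finset.range (n + 1), f k 0 = 0) : f 0 n = 0 := by
  have := pascal_zero hp hM (fun k j => Nat.casesOn j (∑ l ∈ Finset.range k, f l 0) (f k))
    (fun k j => by
      cases j with
      | zero => simp [Finset.sum_range_succ, add_comm]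
      | succ j => exact hf k j) (by simpa using h0)
  exact this

theorem free_engel {n : ℕ} (hp : (n + 1).Prime) (Γ : Subgroup (FreeGroup (Option (Fin n))))
    (hΓ : ∀ μ a, Cw (n + 1) μ a → (∀ j, 1 ≤ μ j) → (∃ j, 2 ≤ μ j) → a ∈ Γ) :
    ((Finset.univ : Finset (Equiv.Perm (Fin n))).toList.map fun σ : Equiv.Perm (Fin n) =>
      adw (fun j => FreeGroup.of (some j)) (List.ofFn σ) (FreeGroup.of none)).prod ∈ Γ := by
  classical
  set y : Fin n → FreeGroup (Option (Fin n)) := fun j => FreeGroup.of (some j) with hy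
  set x0 : FreeGroup (Option (Fin n)) := FreeGroup.of none with hx0
  let N := Cs (J := Option (Fin n)) (n + 1) (Pi.single none 1)
  let N2 := Cs (J := Option (Fin n)) (n + 1) (Pi.single none 2)
  have hNN : ∀ a b, a ∈ N → b ∈ N → ⁅a, b⁆ ∈ N2 := fun a b ha hb =>
    Cw_comm' ha hb fun j => by simp only [Pi.single_apply]; split_ifs <;> omega
  have hN2 : ∀ a, a ∈ N2 → a ∈ N := fun a ha =>
    Cw.mono (fun j => by simp only [Pi.single_apply]; split_ifs <;> omega) ha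
  have hcN : ∀ g a, a ∈ N → ⁅g, a⁆ ∈ N := fun g a ha => Cw_comm' (Cw_zero _ g) ha fun j => by simp
  have hcN2 : ∀ g a, a ∈ N2 → ⁅g, a⁆ ∈ N2 := fun g a ha => Cw_comm' (Cw_zero _ g) ha fun j => by simp
  obtain ⟨Q, _, q, hq⟩ := exists_pres N N2 hNN
  have hX : ∀ g, ∃ T : Module.End ℤ Q, ∀ a, a ∈ N → T (q a) = q ⁅g, a⁆ := fun g =>
    hq.exists_op (fun a => ⁅g, a⁆) (fun a b ha hb => by
      have : ⁅g, a * b⁆ = ⁅g, a⁆ * ⁅a, ⁅g, b⁆⁆ * ⁅g, b⁆ := by
        simp only [commutatorElement_def]; group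
      rw [this, hq.add _ _ (mul_mem (hcN _ _ ha) (hcN _ _ (hcN _ _ hb))) (hcN _ _ hb),
        hq.add _ _ (hcN _ _ ha) (hcN _ _ (hcN _ _ hb)),
        (hq.zero _ (hcN _ _ (hcN _ _ hb))).2 (hNN _ _ ha (hcN _ _ hb)), add_zero])
      (fun a ha ha' => (hq.zero _ (hcN _ _ ha)).2 (hcN2 _ _ ha'))
  choose X hX using hX
  have hR : ∀ i : Fin n, ∃ T : Module.End ℤ Q, ∀ a, a ∈ N → T (q a) = q (rt (some i) a) := fun i =>
    hq.exists_op (rt (some i)) (fun a b ha hb => by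
      rw [map_mul, hq.add _ _ (Cw_rt _ ha) (Cw_rt _ hb)])
      (fun a ha ha' => (hq.zero _ (Cw_rt _ ha)).2 (Cw_rt _ ha'))
  choose R hR using hR
  have hXmul : ∀ g h, X (g * h) = X g * X h + X h + X g := fun g h => hq.ext fun a ha => by
    have : ⁅g * h, a⁆ = ⁅g, ⁅h, a⁆⁆ * ⁅h, a⁆ * ⁅g, a⁆ := by
      simp only [commutatorElement_def]; group
    simp only [LinearMap.add_apply, Module.End.mul_apply]
    rw [hX _ _ ha, hX _ _ ha, hX _ _ ha, hX _ _ (hcN _ _ ha), this,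
      hq.add _ _ (mul_mem (hcN _ _ (hcN _ _ ha)) (hcN _ _ ha)) (hcN _ _ ha),
      hq.add _ _ (hcN _ _ (hcN _ _ ha)) (hcN _ _ ha)]
  have hX1 : X 1 = 0 := hq.ext fun a ha => by rw [hX _ _ ha]; simp [hq.one]
  have hQp : ∀ v : Q, (n + 1) • v = 0 := fun v => by
    obtain ⟨a, ha, rfl⟩ := hq.surj v
    rw [← hq.pow ha]
    exact (hq.zero _ (pow_mem ha _)).2 (Cw.pow _ _)
  have hx0N : x0 ∈ N := Cw.gen none
  have hnil : ∀ g, (X g ^ n) (q x0) = 0 := by
    intro g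
    have hit : ∀ j, (fun w => ⁅g, w⁆)^[j] x0 ∈ N := fun j => by
      induction j with
      | zero => exact hx0N
      | succ j ih => rw [Function.iterate_succ_apply']; exact hcN _ _ ih
    have hXp : ∀ j, (X g ^ j) (q x0) = q ((fun w => ⁅g, w⁆)^[j] x0) := fun j => by
      induction j with
      | zero => rfl
      | succ j ih => rw [pow_succ', Module.End.mul_apply, ih, hX _ _ (hit j),
          Function.iterate_succ_apply']
    have h := pascal_shift hp hQp (fun k j => q (g ^ k * (fun w => ⁅g, w⁆)^[j] x0 * (g ^ k)⁻¹))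
      (fun k j => by
        rw [← hq.add _ _ (Cw_conj _ (hit _)) (Cw_conj _ (hit _))]
        congr 1
        simp only [Function.iterate_succ_apply', commutatorElement_def, pow_succ]
        group) (by
      have : ∀ k, (x0 * g) ^ k * (g ^ k)⁻¹ ∈ N ∧ ∑ l ∈ Finset.range k,
          q (g ^ l * x0 * (g ^ l)⁻¹) = q ((x0 * g) ^ k * (g ^ k)⁻¹) := by
        intro k
        induction k with
        | zero => simp [hq.one]
        | succ k ih =>
          have e : (x0 * g) ^ (k + 1) * (g ^ (k + 1))⁻¹ =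
              (x0 * g) ^ k * (g ^ k)⁻¹ * (g ^ k * x0 * (g ^ k)⁻¹) := by
            simp only [pow_succ]; group
          rw [e, Finset.sum_range_succ, ih.2]
          exact ⟨mul_mem ih.1 (Cw_conj _ hx0N), (hq.add _ _ ih.1 (Cw_conj _ hx0N)).symm⟩
      simp only [Function.iterate_zero, id]
      rw [(this _).2]
      exact (hq.zero _ (this _).1).2 (Cw.mul (Cw.pow _ _) (Cw.inv (Cw.pow _ _))))
    rw [hXp]
    simpa using h
  let Xs : Fin n → Module.End ℤ Q := fun j => X (y j)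
  have hadwN : ∀ l : List (Fin n), adw y l x0 ∈ N := fun l => by
    induction l with
    | nil => exact hx0N
    | cons j l ih => exact hcN _ _ ih
  have hword : ∀ l : List (Fin n), (l.map Xs).prod (q x0) = q (adw y l x0) := fun l => by
    induction l with
    | nil => rfl
    | cons j l ih => rw [List.map_cons, List.prod_cons, Module.End.mul_apply, ih, hX _ _ (hadwN l)]; rfl
  have hlin : ∀ l : List (Fin n), (l.map Xs).sum ∈ Wd Xs 1 ∧
      X (l.map y).prod - (l.map Xs).sum ∈ Wd Xs 2 := fun l => by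
    induction l with
    | nil => simp [hX1]
    | cons j l ih =>
      simp only [List.map_cons, List.prod_cons, List.sum_cons]
      refine ⟨add_mem (Wd_gen Xs j) ih.1, ?_⟩
      have : X (y j * (l.map y).prod) - (Xs j + (l.map Xs).sum) =
          Xs j * (X (l.map y).prod - (l.map Xs).sum) + Xs j * (l.map Xs).sum +
            (X (l.map y).prod - (l.map Xs).sum) := by rw [hXmul]; simp only [Xs]; noncomm_ring
      rw [this]
      have b1 := Wd_mono Xs (show 2 ≤ 1 + 2 by omega) (Wd_mul Xs (Wd_gen Xs j) ih.2)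
      have b2 := Wd_mono Xs (show 2 ≤ 1 + 1 by omega) (Wd_mul Xs (Wd_gen Xs j) ih.1)
      exact add_mem (add_mem b1 b2) ih.2
  let Pr : List (Fin n) → Module.End ℤ Q := fun L => (L.map fun i => 1 - R i).prod
  have hPr : ∀ L l : List (Fin n), Pr L (q (adw y l x0)) =
      if ∀ i ∈ L, i ∈ l then q (adw y l x0) else 0 := fun L l => by
    induction L with
    | nil => simp [Pr]
    | cons i L ih =>
      simp only [Pr, List.map_cons, List.prod_cons, Module.End.mul_apply] at ih ⊢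
      rw [ih]
      by_cases h1 : ∀ i ∈ L, i ∈ l
      · rw [if_pos h1, LinearMap.sub_apply, Module.End.one_apply, hR _ _ (hadwN l), rt_adw]
        by_cases h2 : i ∈ l
        · rw [if_pos h2, if_pos (by simpa [h2] using h1), hq.one, sub_zero]
        · rw [if_neg h2, if_neg (by simp [h2]), sub_self]
      · rw [if_neg h1, map_zero, if_neg fun h => h1 fun j hj => h j (List.mem_cons_of_mem _ hj)]
  let Γ' : Subgroup (FreeGroup (Option (Fin n))) :=
    N ⊓ Γ ⊓ ⨅ i : Fin n, (rt (some i)).ker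
  have hall : ∀ l : List (Fin n), (∀ i, i ∈ l) → ∀ i, rt (some i) (adw y l x0) = 1 :=
    fun l hl i => by rw [rt_adw, if_pos (hl i)]
  have hH : ∀ h ∈ Wd Xs (n + 1), ∃ γ ∈ Γ', Pr (List.finRange n) (h (q x0)) = q γ := by
    intro h hh
    induction hh using Submodule.span_induction with
    | mem w hw =>
      obtain ⟨l, hl, rfl⟩ := hw
      rw [hword, hPr]
      split_ifs with h1
      · have h2 : ∀ i, i ∈ l := fun i => h1 i (List.mem_finRange i)
        refine ⟨_, ⟨⟨hadwN l, hΓ _ _ (Cw_adw some (Cw.gen none) l) ?_ ?_⟩,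
          Subgroup.mem_iInf.2 fun i => hall l h2 i⟩, rfl⟩
        · rintro (_ | j)
          · simp
          · simpa [List.one_le_count_iff] using h2 j
        · have : ¬ l.Nodup := fun hn => by have := hn.length_le_card; simp at this; omega
          rw [List.nodup_iff_count_le_one] at this
          push Not at this
          obtain ⟨j, hj⟩ := this
          refine ⟨some j, ?_⟩
          simp only [Pi.add_apply, List.count_map_of_injective _ _ (Option.some_injective _)]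
          omega
      · exact ⟨1, one_mem _, hq.one.symm⟩
    | zero => exact ⟨1, one_mem _, by simp [hq.one]⟩
    | add a b _ _ ha hb =>
      obtain ⟨γ, hγ, e⟩ := ha
      obtain ⟨γ', hγ', e'⟩ := hb
      exact ⟨γ * γ', mul_mem hγ hγ', by
        rw [LinearMap.add_apply, map_add, e, e', hq.add _ _ hγ.1.1 hγ'.1.1]⟩
    | smul z a _ ha =>
      obtain ⟨γ, hγ, e⟩ := ha
      refine ⟨γ ^ z, zpow_mem hγ z, ?_⟩
      rw [LinearMap.smul_apply, map_smul, e]
      cases z with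
      | ofNat k => simp [hq.pow hγ.1.1]
      | negSucc k => simp [hq.inv (pow_mem hγ.1.1 _), hq.pow hγ.1.1]
  obtain ⟨h1, h2⟩ := hlin (List.finRange n)
  obtain ⟨γ, hγ, e⟩ := hH _ (Wd_pow Xs h1 h2 n).2
  rw [LinearMap.sub_apply, hnil, zero_sub, map_neg, ← List.ofFn_eq_map, List.sum_ofFn,
    sum_pow_words, LinearMap.sum_apply, map_sum] at e
  simp only [hword, hPr] at e
  have e2 : ∑ f : Fin n → Fin n, (if ∀ i ∈ List.finRange n, i ∈ List.ofFn f then
      q (adw y (List.ofFn f) x0) else 0) = ∑ σ : Equiv.Perm (Fin n), q (adw y (List.ofFn σ) x0) := by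
    rw [← Finset.sum_filter]
    symm
    refine Finset.sum_bij (fun σ _ => (σ : Fin n → Fin n)) (fun σ _ => ?_) (fun σ _ τ _ h => ?_)
      (fun f hf => ?_) fun _ _ => rfl
    · simpa [List.mem_ofFn] using fun i => σ.surjective i
    · exact Equiv.ext (congrFun h)
    · have : Function.Surjective f := fun i => by
        simpa [List.mem_ofFn] using (Finset.mem_filter.1 hf).2 i (List.mem_finRange i)
      exact ⟨Equiv.ofBijective f (Finite.surjective_iff_bijective.1 this), Finset.mem_univ _, rfl⟩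
  rw [e2] at e
  have hlist : ∀ L : List (Equiv.Perm (Fin n)),
      (L.map fun σ : Equiv.Perm (Fin n) => adw y (List.ofFn σ) x0).prod ∈ N ⊓ ⨅ i : Fin n, (rt (some i)).ker ∧
      q (L.map fun σ : Equiv.Perm (Fin n) => adw y (List.ofFn σ) x0).prod =
        (L.map fun σ : Equiv.Perm (Fin n) => q (adw y (List.ofFn σ) x0)).sum := fun L => by
    induction L with
    | nil => exact ⟨one_mem _, hq.one⟩
    | cons σ L ih =>
      simp only [List.map_cons, List.prod_cons, List.sum_cons]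
      refine ⟨mul_mem ⟨hadwN _, Subgroup.mem_iInf.2 fun i => hall _ (fun j => ?_) i⟩ ih.1,
        by rw [hq.add _ _ (hadwN _) ih.1.1, ih.2]⟩
      simpa [List.mem_ofFn] using σ.surjective j
  obtain ⟨hw, hw'⟩ := hlist Finset.univ.toList
  rw [Finset.sum_map_toList] at hw'
  set w := (Finset.univ.toList.map fun σ : Equiv.Perm (Fin n) => adw y (List.ofFn σ) x0).prod
  have h3 : w * γ ∈ N2 := (hq.zero _ (mul_mem hw.1 hγ.1.1)).1 (by
    rw [hq.add _ _ hw.1 hγ.1.1, hw', ← e, add_neg_cancel])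
  have h4 : ∀ L : List (Fin n), ∃ μ, Cw (n + 1) μ (w * γ) ∧ 2 ≤ μ none ∧ ∀ i ∈ L, 1 ≤ μ (some i) := by
    intro L
    induction L with
    | nil => exact ⟨_, h3, by simp, by simp⟩
    | cons i L ih =>
      obtain ⟨μ, a1, a2, a3⟩ := ih
      have := Cw_rt_sup (some i) a1
      rw [show rt (some i) (w * γ) = 1 from mul_mem (Subgroup.mem_iInf.1 hw.2 i)
        (Subgroup.mem_iInf.1 hγ.2 i), inv_one, mul_one] at this
      refine ⟨_, this, by simp [a2], fun j hj => ?_⟩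
      rcases List.mem_cons.1 hj with rfl | hj
      · simp
      · simp [a3 j hj]
  obtain ⟨μ, a1, a2, a3⟩ := h4 (List.finRange n)
  refine (Γ.mul_mem_cancel_right hγ.1.2).1 (hΓ μ _ a1 ?_ ⟨none, a2⟩)
  rintro (_ | j)
  · omega
  · exact a3 j (List.mem_finRange j)

theorem filt_engel {P : Type u} [Group P] (Φ : Filt P) {n : ℕ} (hp : (n + 1).Prime)
    (B : Subgroup P) (hB : ∀ b ∈ B, b ^ (n + 1) = 1) {x : Fin n → P} {x0 : P} {d : Fin n → ℕ}
    {d0 : ℕ} (hx : ∀ i, x i ∈ B) (hx0 : x0 ∈ B) (hd : ∀ i, x i ∈ Φ.F (d i)) (hd0 : x0 ∈ Φ.F d0)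
    {W : Type*} [AddCommGroup W] (ι : P → W)
    (hadd : ∀ a b, a ∈ B → b ∈ B → a ∈ Φ.F (d0 + ∑ i, (d i + 1)) → b ∈ Φ.F (d0 + ∑ i, (d i + 1)) →
      ι (a * b) = ι a + ι b)
    (h0 : ∀ a, a ∈ B → a ∈ Φ.F (d0 + ∑ i, (d i + 1) + 1) → ι a = 0) :
    (∀ σ : Equiv.Perm (Fin n), adw x (List.ofFn σ) x0 ∈ Φ.F (d0 + ∑ i, (d i + 1))) ∧
      ∑ σ : Equiv.Perm (Fin n), ι (adw x (List.ofFn σ) x0) = 0 := by
  classical
  let φ : FreeGroup (Option (Fin n)) →* P := FreeGroup.lift fun j => j.elim x0 x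
  have hφB : ∀ g, φ g ∈ B := fun g => by
    induction g using FreeGroup.induction_on with
    | C1 => rw [map_one]; exact one_mem _
    | of j => cases j <;> simp [φ, hx, hx0]
    | inv_of j h => rw [map_inv]; exact inv_mem h
    | mul a b ha hb => rw [map_mul]; exact mul_mem ha hb
  have hw := fun μ a => Cw_weight (J := Option (Fin n)) Φ φ (fun g => hB _ (hφB g))
    (fun j => j.elim d0 d) (fun j => by cases j <;> simp [φ, hd, hd0]) (μ := μ) (a := a)
  have hφ : ∀ l : List (Fin n), φ (adw (fun j => FreeGroup.of (some j)) l (FreeGroup.of none)) =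
      adw x l x0 := fun l => by rw [adw_map]; simp [φ]
  have hD : ∀ σ : Equiv.Perm (Fin n), adw x (List.ofFn σ) x0 ∈ Φ.F (d0 + ∑ i, (d i + 1)) := by
    intro σ
    rw [← hφ]
    refine Φ.mono ?_ (hw _ _ (Cw_adw some (Cw.gen none) (List.ofFn σ)))
    refine Nat.le_sub_one_of_lt (lt_of_lt_of_le (show _ < ∑ k : Option (Fin n), (k.elim d0 d + 1) by
      rw [Fintype.sum_option]; simp only [Option.elim]; omega)
      (Finset.sum_le_sum fun k _ => Nat.le_mul_of_pos_left _ ?_))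
    cases k with
    | none => simp
    | some i =>
      have : i ∈ List.ofFn σ := by simpa [List.mem_ofFn] using σ.surjective i
      simp only [Pi.add_apply, List.count_map_of_injective _ _ (Option.some_injective _)]
      have := List.one_le_count_iff.2 this
      omega
  have key := free_engel hp ((Φ.F (d0 + ∑ i, (d i + 1) + 1)).comap φ) (fun μ a ha h1 h2 => by
    refine Φ.mono ?_ (hw _ _ ha)
    obtain ⟨j, hj⟩ := h2
    have : ∑ k : Option (Fin n), (k.elim d0 d + 1) <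
        ∑ k : Option (Fin n), μ k * (k.elim d0 d + 1) :=
      Finset.sum_lt_sum (fun k _ => Nat.le_mul_of_pos_left _ (h1 k))
        ⟨j, Finset.mem_univ _, by nlinarith⟩
    rw [Fintype.sum_option] at this
    simp only [Option.elim] at this ⊢
    omega)
  rw [Subgroup.mem_comap, map_list_prod, List.map_map] at key
  have hl : ∀ L : List (Equiv.Perm (Fin n)),
      (L.map fun σ : Equiv.Perm (Fin n) => adw x (List.ofFn σ) x0).prod ∈
        B ⊓ Φ.F (d0 + ∑ i, (d i + 1)) ∧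
      ι (L.map fun σ : Equiv.Perm (Fin n) => adw x (List.ofFn σ) x0).prod =
        (L.map fun σ : Equiv.Perm (Fin n) => ι (adw x (List.ofFn σ) x0)).sum := fun L => by
    induction L with
    | nil => exact ⟨one_mem _, h0 1 (one_mem _) (one_mem _)⟩
    | cons σ L ih =>
      simp only [List.map_cons, List.prod_cons, List.sum_cons]
      have hb : adw x (List.ofFn σ) x0 ∈ B := hφ _ ▸ hφB _
      exact ⟨mul_mem ⟨hb, hD σ⟩ ih.1, by rw [hadd _ _ hb ih.1.1 (hD σ) ih.1.2, ih.2]⟩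
  refine ⟨hD, ?_⟩
  obtain ⟨a1, a2⟩ := hl Finset.univ.toList
  rw [← Finset.sum_map_toList, ← a2]
  refine h0 _ a1.1 ?_
  simp only [Function.comp_def, hφ] at key
  exact key

end Pool.Agent.MP38b55a

end

section

set_option autoImplicit false

open scoped commutatorElement

namespace Pool.Agent.MP38b55a

universe u
variable {P : Type u} [Group P]

/-- The graded module `S / U` as one abelian group `V`, with the operators of `T`. -/
structure Rep (Φ : Filt P) (T : Subgroup P) (U S : ℕ → Subgroup P) {V : Type u} [AddCommGroup V]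
    (ι : ℕ → P → V) (ρ : ℕ → P → Module.End ℤ V) : Prop where
  bU : Φ.Btw U
  bS : Φ.Btw S
  le : ∀ k, U k ≤ S k
  iU : Φ.Invt T U
  iS : Φ.Invt T S
  add : ∀ k a b, a ∈ S k → b ∈ S k → ι k (a * b) = ι k a + ι k b
  zero : ∀ k a, a ∈ S k → (ι k a = 0 ↔ a ∈ U k)
  gen : ∀ W : AddSubgroup V, (∀ k a, a ∈ S k → ι k a ∈ W) → ∀ v, v ∈ W
  act : ∀ d z k s, z ∈ T → z ∈ Φ.F d → s ∈ S k → ρ d z (ι k s) = ι (d + k + 1) ⁅z, s⁆

theorem exists_rep (Φ : Filt P) (T : Subgroup P) (U S : ℕ → Subgroup P) (bU : Φ.Btw U)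
    (bS : Φ.Btw S) (le : ∀ k, U k ≤ S k) (iU : Φ.Invt T U) (iS : Φ.Invt T S) :
    ∃ (V : Type u) (_ : AddCommGroup V) (ι : ℕ → P → V) (ρ : ℕ → P → Module.End ℤ V),
      Rep Φ T U S ι ρ := by
  classical
  have h := fun k => exists_pres (S k) (U k) fun a b ha hb =>
    (bU k).1 (Φ.comm' ((bS k).2 ha) ((bS k).2 hb) (by omega))
  choose Q inst q hq using h
  let ι : ℕ → P → DirectSum ℕ Q := fun k a => DirectSum.of Q k (q k a)
  have hadd : ∀ k a b, a ∈ S k → b ∈ S k → ι k (a * b) = ι k a + ι k b := fun k a b ha hb => by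
    simp only [ι]; rw [(hq k).add a b ha hb, map_add]
  have hzero : ∀ k a, a ∈ S k → (ι k a = 0 ↔ a ∈ U k) := fun k a ha => by
    simp only [ι]
    rw [← (hq k).zero a ha, map_eq_zero_iff _ (DirectSum.of_injective k)]
  have hop : ∀ d z, ∃ A : Module.End ℤ (DirectSum ℕ Q), ∀ k s, z ∈ T → z ∈ Φ.F d → s ∈ S k →
      A (ι k s) = ι (d + k + 1) ⁅z, s⁆ := by
    intro d z
    by_cases hz : z ∈ T ∧ z ∈ Φ.F d
    · have h1 := fun k => (hq k).exists_map (fun s => ι (d + k + 1) ⁅z, s⁆) (fun a b ha hb => by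
        have : ⁅z, a * b⁆ = ⁅z, a⁆ * ⁅a, ⁅z, b⁆⁆ * ⁅z, b⁆ := by
          simp only [commutatorElement_def]; group
        have h2 : ⁅a, ⁅z, b⁆⁆ ∈ U (d + k + 1) := (bU _).1 (Φ.comm' ((bS k).2 ha)
          (Φ.comm _ _ _ _ hz.2 ((bS k).2 hb)) (by omega))
        have h3 := iS d k _ z a rfl hz.1 hz.2 ha
        have h4 := iS d k _ z b rfl hz.1 hz.2 hb
        rw [this, hadd _ _ _ (mul_mem h3 (le _ h2)) h4, hadd _ _ _ h3 (le _ h2),
          (hzero _ _ (le _ h2)).2 h2, add_zero])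
        (fun a ha ha' => (hzero _ _ (iS d k _ z a rfl hz.1 hz.2 ha)).2
          (iU d k _ z a rfl hz.1 hz.2 ha'))
      choose A hA using h1
      refine ⟨(DirectSum.toAddMonoid A).toIntLinearMap, fun k s _ _ hs => ?_⟩
      show DirectSum.toAddMonoid A (DirectSum.of Q k (q k s)) = _
      rw [DirectSum.toAddMonoid_of, hA k s hs]
    · exact ⟨0, fun k s h1 h2 => absurd ⟨h1, h2⟩ hz⟩
  choose ρ hρ using hop
  refine ⟨DirectSum ℕ Q, inferInstance, ι, ρ, bU, bS, le, iU, iS, hadd, hzero, ?_, hρ⟩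
  intro W hW v
  induction v using DirectSum.induction_on with
  | zero => exact zero_mem _
  | of k x =>
    obtain ⟨a, ha, rfl⟩ := (hq k).surj x
    exact hW k a ha
  | add x y hx hy => exact add_mem hx hy

namespace Rep
variable {Φ : Filt P} {T : Subgroup P} {U S : ℕ → Subgroup P} {V : Type u} [AddCommGroup V]
  {ι : ℕ → P → V} {ρ : ℕ → P → Module.End ℤ V}

theorem ext (h : Rep Φ T U S ι ρ) {A A' : Module.End ℤ V}
    (hA : ∀ k s, s ∈ S k → A (ι k s) = A' (ι k s)) : A = A' :=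
  LinearMap.ext fun v => h.gen (A.eqLocus A').toAddSubgroup hA v

theorem zero' (h : Rep Φ T U S ι ρ) {k : ℕ} {a : P} (ha : a ∈ U k) : ι k a = 0 :=
  (h.zero k a (h.le k ha)).2 ha

theorem rho_zero_iff (h : Rep Φ T U S ι ρ) {d : ℕ} {z : P} (hz : z ∈ T) (hz' : z ∈ Φ.F d) :
    ρ d z = 0 ↔ ∀ k s, s ∈ S k → ⁅z, s⁆ ∈ U (d + k + 1) := by
  constructor
  · intro h0 k s hs
    rw [← h.zero _ _ (h.iS d k _ z s rfl hz hz' hs), ← h.act d z k s hz hz' hs, h0]; rfl
  · intro h0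
    exact h.ext fun k s hs => by rw [h.act d z k s hz hz' hs, h.zero' (h0 k s hs)]; rfl

theorem rho_high (h : Rep Φ T U S ι ρ) {d : ℕ} {z : P} (hz : z ∈ T) (hz' : z ∈ Φ.F (d + 1)) :
    ρ d z = 0 := (h.rho_zero_iff hz (Φ.anti d hz')).2 fun k s hs =>
  (h.bU _).1 (Φ.comm' hz' ((h.bS k).2 hs) (by omega))

theorem rho_mul (h : Rep Φ T U S ι ρ) {d : ℕ} {x y : P} (hx : x ∈ T) (hy : y ∈ T)
    (hx' : x ∈ Φ.F d) (hy' : y ∈ Φ.F d) : ρ d (x * y) = ρ d x + ρ d y := h.ext fun k s hs => by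
  have : ⁅x * y, s⁆ = ⁅x, ⁅y, s⁆⁆ * ⁅y, s⁆ * ⁅x, s⁆ := by
    simp only [commutatorElement_def]; group
  have h2 : ⁅x, ⁅y, s⁆⁆ ∈ U (d + k + 1) := (h.bU _).1 (Φ.comm' hx'
    (Φ.comm _ _ _ _ hy' ((h.bS k).2 hs)) (by omega))
  have h3 := h.iS d k _ x s rfl hx hx' hs
  have h4 := h.iS d k _ y s rfl hy hy' hs
  rw [LinearMap.add_apply, h.act _ _ _ _ (mul_mem hx hy) (mul_mem hx' hy') hs,
    h.act _ _ _ _ hx hx' hs, h.act _ _ _ _ hy hy' hs, this, h.add _ _ _ (mul_mem (h.le _ h2) h4) h3,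
    h.add _ _ _ (h.le _ h2) h4, h.zero' h2, zero_add, add_comm]

theorem rho_one (h : Rep Φ T U S ι ρ) (d : ℕ) : ρ d 1 = 0 := h.rho_high (one_mem _) (one_mem _)

theorem rho_inv (h : Rep Φ T U S ι ρ) {d : ℕ} {x : P} (hx : x ∈ T) (hx' : x ∈ Φ.F d) :
    ρ d x⁻¹ = -ρ d x := by
  have := h.rho_mul (inv_mem hx) hx (inv_mem hx') hx'
  rw [inv_mul_cancel, h.rho_one] at this
  exact eq_neg_of_add_eq_zero_left this.symm

theorem rho_pow (h : Rep Φ T U S ι ρ) {d : ℕ} {x : P} (hx : x ∈ T) (hx' : x ∈ Φ.F d) (n : ℕ) :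
    ρ d (x ^ n) = n • ρ d x := by
  induction n with
  | zero => simp [h.rho_one]
  | succ n ih => rw [pow_succ, h.rho_mul (pow_mem hx n) hx (pow_mem hx' n) hx', ih, succ_nsmul]

theorem rho_comm (h : Rep Φ T U S ι ρ) {i j : ℕ} {x y : P} (hx : x ∈ T) (hy : y ∈ T)
    (hx' : x ∈ Φ.F i) (hy' : y ∈ Φ.F j) :
    ρ (i + j + 1) ⁅x, y⁆ = ρ i x * ρ j y - ρ j y * ρ i x := h.ext fun k s hs => by
  have hxy : ⁅x, y⁆ ∈ T := by
    rw [commutatorElement_def]
    exact mul_mem (mul_mem (mul_mem hx hy) (inv_mem hx)) (inv_mem hy)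
  have h3 := h.iS i k _ x s rfl hx hx' hs
  have h4 := h.iS j k _ y s rfl hy hy' hs
  obtain ⟨n, hn, n', hn', e⟩ := Φ.jac hx' hy' ((h.bS k).2 hs)
  have hn1 : n ∈ U (i + j + 1 + k + 1) := (h.bU _).1 (Φ.mono (by omega) hn)
  have hn2 : n' ∈ U (i + j + 1 + k + 1) := (h.bU _).1 (Φ.mono (by omega) hn')
  have h5 := h.iS j _ (i + j + 1 + k + 1) y _ (by omega) hy hy' h3
  have h6 := h.iS _ k _ _ s rfl hxy (Φ.comm _ _ _ _ hx' hy') hs
  rw [LinearMap.sub_apply, Module.End.mul_apply, Module.End.mul_apply,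
    h.act _ _ _ _ hxy (Φ.comm _ _ _ _ hx' hy') hs, h.act _ _ _ _ hx hx' hs, h.act _ _ _ _ hy hy' hs,
    h.act _ _ _ _ hx hx' h4, h.act _ _ _ _ hy hy' h3, e,
    show i + (j + k + 1) + 1 = i + j + 1 + k + 1 by omega,
    show j + (i + k + 1) + 1 = i + j + 1 + k + 1 by omega,
    h.add _ _ _ (mul_mem (mul_mem (h.le _ hn1) h5) (h.le _ hn2)) h6,
    h.add _ _ _ (mul_mem (h.le _ hn1) h5) (h.le _ hn2), h.add _ _ _ (h.le _ hn1) h5,
    h.zero' hn1, h.zero' hn2]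
  abel

end Rep
end Pool.Agent.MP38b55a

end

section

set_option autoImplicit false

open scoped commutatorElement
open Polynomial

namespace Pool.Agent.MP38b55a

universe u

attribute [local instance 100] LieRing.ofAssociativeRing LieAlgebra.ofAssociativeAlgebra

/-- Iterated Lie bracket of the members of `l` with `c`. -/
def lad {L : Type*} [LieRing L] (l : List L) (c : L) : L := l.foldr (fun x w => ⁅x, w⁆) c

/-- The linearised Engel identity of length `n`. -/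
def EngelLin (n : ℕ) (L : Type*) [LieRing L] : Prop :=
  ∀ (x : Fin n → L) (y : L), ∑ σ : Equiv.Perm (Fin n), lad (List.ofFn fun i => x (σ i)) y = 0

/-- Every nonzero Lie ring of characteristic `n + 1` with the linearised Engel identity of length
`n` has a nonzero abelian ideal. -/
def AI (n : ℕ) : Prop := ∀ (L : Type u) [LieRing L], (∀ x : L, (n + 1) • x = 0) → EngelLin n L →
  ∀ a : L, a ≠ 0 → ∃ c : L, c ≠ 0 ∧ ∀ l l' : List L, ⁅lad l c, lad l' c⁆ = 0

theorem lad_eq {L : Type*} [LieRing L] (l : List L) (c : L) :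
    lad l c = (l.map (LieAlgebra.ad ℤ L)).prod c := by
  induction l with
  | nil => rfl
  | cons x l ih =>
    rw [List.map_cons, List.prod_cons, Module.End.mul_apply, ← ih, LieAlgebra.ad_apply]; rfl

theorem engel_of_gen {L : Type*} [LieRing L] {n : ℕ} (G : Set L)
    (hG : Submodule.span ℤ G = ⊤) (h : ∀ x : Fin n → L, (∀ i, x i ∈ G) → ∀ y ∈ G,
      ∑ σ : Equiv.Perm (Fin n), lad (List.ofFn fun i => x (σ i)) y = 0) : EngelLin n L := by
  let E : MultilinearMap ℤ (fun _ : Fin n => L) (Module.End ℤ L) :=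
    ∑ σ : Equiv.Perm (Fin n), ((MultilinearMap.mkPiAlgebraFin ℤ n (Module.End ℤ L)).compLinearMap
      fun _ => (LieAlgebra.ad ℤ L).toLinearMap).domDomCongr σ
  have hE : ∀ x y, E x y = ∑ σ : Equiv.Perm (Fin n), lad (List.ofFn fun i => x (σ i)) y := by
    intro x y
    simp only [E, sum_apply, MultilinearMap.domDomCongr_apply,
      MultilinearMap.compLinearMap_apply, MultilinearMap.mkPiAlgebraFin_apply, LinearMap.sum_apply,
      lad_eq, List.map_ofFn]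
    rfl
  have h0 : E = 0 := MultilinearMap.ext_of_span_eq_top (γ := fun _ => G) (g := fun _ a => a.1)
    (fun _ => by rw [Subtype.range_coe, hG]) fun j => by
      rw [zero_apply]
      refine LinearMap.ext_on hG fun y hy => ?_
      rw [hE]; exact h _ (fun i => (j i).2) y hy
  intro x y
  rw [← hE, h0]; rfl

variable {P : Type u} [Group P]

/-- A homogeneous ideal of `B` acting on `S / U` commutatively and non-trivially. -/
structure Idl (Φ : Filt P) (B : Subgroup P) (U S : ℕ → Subgroup P) (N : ℕ → Set P) : Prop where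
  mem : ∀ d z, z ∈ N d → z ∈ B ∧ z ∈ Φ.F d
  idl : ∀ i d t z, t ∈ B → t ∈ Φ.F i → z ∈ N d → ⁅t, z⁆ ∈ N (i + d + 1)
  ab : ∀ d e z w k s, z ∈ N d → w ∈ N e → s ∈ S k → ⁅⁅z, w⁆, s⁆ ∈ U (d + e + 1 + k + 1)
  nz : ∃ d z k s, z ∈ N d ∧ s ∈ S k ∧ ⁅z, s⁆ ∉ U (d + k + 1)

theorem comm_mem {B : Subgroup P} {x y : P} (hx : x ∈ B) (hy : y ∈ B) : ⁅x, y⁆ ∈ B := by
  rw [commutatorElement_def]
  exact mul_mem (mul_mem (mul_mem hx hy) (inv_mem hx)) (inv_mem hy)

/-- The degree of an iterated commutator. -/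
def dg {J : Type*} (d : J → ℕ) (l : List J) (d0 : ℕ) : ℕ := l.foldr (fun j e => d j + e + 1) d0

theorem dg_eq {J : Type*} (d : J → ℕ) (l : List J) (d0 : ℕ) :
    dg d l d0 = d0 + (l.map fun j => d j + 1).sum := by
  induction l with
  | nil => rfl
  | cons j l ih => simp only [dg, List.foldr_cons, List.map_cons, List.sum_cons] at ih ⊢; omega

theorem adw_mem {Φ : Filt P} {B : Subgroup P} {J : Type*} {x : J → P} {d : J → ℕ} {x0 : P} {d0 : ℕ}
    (l : List J) (hl : ∀ j ∈ l, x j ∈ B ∧ x j ∈ Φ.F (d j)) (h0 : x0 ∈ B ∧ x0 ∈ Φ.F d0) :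
    adw x l x0 ∈ B ∧ adw x l x0 ∈ Φ.F (dg d l d0) := by
  induction l with
  | nil => exact h0
  | cons j l ih =>
    have h1 := ih fun i hi => hl i (List.mem_cons_of_mem _ hi)
    have h2 := hl j List.mem_cons_self
    exact ⟨comm_mem h2.1 h1.1, Φ.comm _ _ _ _ h2.2 h1.2⟩

namespace Rep
variable {Φ : Filt P} {B : Subgroup P} {U S : ℕ → Subgroup P} {V : Type u} [AddCommGroup V]
  {ι : ℕ → P → V} {ρ : ℕ → P → Module.End ℤ V}

/-- The homogeneous operators of weight `m`. -/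
def Hs (h : Rep Φ B U S ι ρ) : ℕ → AddSubgroup (Module.End ℤ V)
  | 0 => ⊥
  | d + 1 =>
    { carrier := {A | ∃ z, z ∈ B ∧ z ∈ Φ.F d ∧ A = ρ d z}
      zero_mem' := ⟨1, one_mem _, one_mem _, (h.rho_one d).symm⟩
      add_mem' := by
        rintro _ _ ⟨x, h1, h2, rfl⟩ ⟨y, h3, h4, rfl⟩
        exact ⟨x * y, mul_mem h1 h3, mul_mem h2 h4, (h.rho_mul h1 h3 h2 h4).symm⟩
      neg_mem' := by
        rintro _ ⟨x, h1, h2, rfl⟩
        exact ⟨x⁻¹, inv_mem h1, inv_mem h2, (h.rho_inv h1 h2).symm⟩ }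

theorem Hs_comm (h : Rep Φ B U S ι ρ) {i j : ℕ} {A A' : Module.End ℤ V} (hA : A ∈ h.Hs i)
    (hA' : A' ∈ h.Hs j) : A * A' - A' * A ∈ h.Hs (i + j) := by
  cases i with
  | zero => rw [show A = 0 from hA]; simp
  | succ i =>
    cases j with
    | zero => rw [show A' = 0 from hA']; simp
    | succ j =>
      obtain ⟨x, h1, h2, rfl⟩ := hA
      obtain ⟨y, h3, h4, rfl⟩ := hA'
      rw [show i + 1 + (j + 1) = i + j + 1 + 1 by omega]
      exact ⟨_, comm_mem h1 h3, Φ.comm _ _ _ _ h2 h4, (h.rho_comm h1 h3 h2 h4).symm⟩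

/-- The Lie ring of polynomials whose coefficients are homogeneous operators. -/
def Mx (h : Rep Φ B U S ι ρ) : LieSubalgebra ℤ (Module.End ℤ V)[X] where
  carrier := {f | ∀ m, f.coeff m ∈ h.Hs m}
  add_mem' := fun ha hb m => by rw [coeff_add]; exact add_mem (ha m) (hb m)
  zero_mem' := fun m => by rw [coeff_zero]; exact zero_mem _
  smul_mem' := fun c f hf m => by rw [coeff_smul]; exact zsmul_mem (hf m) c
  lie_mem' := fun {f g} hf hg m => by
    rw [Ring.lie_def, coeff_sub, coeff_mul, coeff_mul, ← Finset.Nat.sum_antidiagonal_swap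
      (f := fun x => g.coeff x.1 * f.coeff x.2), ← Finset.sum_sub_distrib]
    refine sum_mem fun x hx => ?_
    rw [← Finset.HasAntidiagonal.mem_antidiagonal.1 hx]
    exact h.Hs_comm (hf _) (hg _)

theorem mono_mem (h : Rep Φ B U S ι ρ) {m : ℕ} {A : Module.End ℤ V} (hA : A ∈ h.Hs m) :
    monomial m A ∈ h.Mx := fun k => by
  rw [coeff_monomial]; split_ifs with hk
  · exact hk ▸ hA
  · exact zero_mem _

theorem exists_idl (h : Rep Φ B U S ι ρ) {n : ℕ} (hp : (n + 1).Prime) (hai : AI.{u} n)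
    (hB : ∀ b ∈ B, b ^ (n + 1) = 1)
    (hnz : ∃ d z k s, z ∈ B ∧ z ∈ Φ.F d ∧ s ∈ S k ∧ ⁅z, s⁆ ∉ U (d + k + 1)) :
    ∃ N, Idl Φ B U S N := by
  classical
  let μ : ℕ → P → h.Mx := fun d z => if hz : z ∈ B ∧ z ∈ Φ.F d then
    ⟨monomial (d + 1) (ρ d z), h.mono_mem (m := d + 1) ⟨z, hz.1, hz.2, rfl⟩⟩ else 0
  have hμ : ∀ d z, z ∈ B ∧ z ∈ Φ.F d → (μ d z : (Module.End ℤ V)[X]) = monomial (d + 1) (ρ d z) :=
    fun d z hz => by simp only [μ, dif_pos hz]
  have hμc : ∀ i j x y, x ∈ B ∧ x ∈ Φ.F i → y ∈ B ∧ y ∈ Φ.F j →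
      ⁅μ i x, μ j y⁆ = μ (i + j + 1) ⁅x, y⁆ := fun i j x y hx hy => Subtype.ext (by
    rw [LieSubalgebra.coe_bracket, hμ _ _ hx, hμ _ _ hy,
      hμ _ _ ⟨comm_mem hx.1 hy.1, Φ.comm _ _ _ _ hx.2 hy.2⟩, Ring.lie_def, monomial_mul_monomial,
      monomial_mul_monomial, h.rho_comm hx.1 hy.1 hx.2 hy.2, map_sub,
      show i + 1 + (j + 1) = i + j + 1 + 1 by omega, show j + 1 + (i + 1) = i + j + 1 + 1 by omega])
  have hμw : ∀ {J : Type} (x : J → P) (d : J → ℕ) (x0 : P) (d0 : ℕ) (l : List J),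
      (∀ j ∈ l, x j ∈ B ∧ x j ∈ Φ.F (d j)) → x0 ∈ B ∧ x0 ∈ Φ.F d0 →
      lad (l.map fun j => μ (d j) (x j)) (μ d0 x0) = μ (dg d l d0) (adw x l x0) := by
    intro J x d x0 d0 l hl h0
    induction l with
    | nil => rfl
    | cons j l ih =>
      have hl' := fun i hi => hl i (List.mem_cons_of_mem _ hi)
      have := ih hl'
      simp only [lad, List.map_cons, List.foldr_cons] at this ⊢
      rw [this, hμc _ _ _ _ (hl j List.mem_cons_self) (adw_mem l hl' h0)]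
      rfl
  have htor : ∀ x : h.Mx, (n + 1) • x = 0 := fun x => Subtype.ext (by
    have : ((((n + 1) • x : h.Mx)) : (Module.End ℤ V)[X]) = (n + 1) • (x : (Module.End ℤ V)[X]) := rfl
    rw [this]
    ext1 m
    rw [coeff_smul]
    have hm := x.2 m
    cases m with
    | zero => rw [show (x : (Module.End ℤ V)[X]).coeff 0 = 0 from hm]; simp
    | succ d =>
      obtain ⟨z, h1, h2, h3⟩ := hm
      rw [h3, ← h.rho_pow h1 h2, hB z h1, h.rho_one]; simp)
  have hspan : Submodule.span ℤ {f : h.Mx | ∃ d z, (z ∈ B ∧ z ∈ Φ.F d) ∧ f = μ d z} = ⊤ := by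
    rw [eq_top_iff]
    intro f _
    have : f = ∑ m ∈ (f : (Module.End ℤ V)[X]).support,
        (⟨monomial m ((f : (Module.End ℤ V)[X]).coeff m), h.mono_mem (f.2 m)⟩ : h.Mx) := by
      apply Subtype.ext
      rw [AddSubmonoidClass.coe_finsetSum]
      exact as_sum_support _
    rw [this]
    refine sum_mem fun m hm => Submodule.subset_span ?_
    have hm' := f.2 m
    cases m with
    | zero => exact absurd hm' (mem_support_iff.1 hm)
    | succ d =>
      obtain ⟨z, h1, h2, h3⟩ := hm'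
      exact ⟨d, z, ⟨h1, h2⟩, Subtype.ext (by rw [hμ _ _ ⟨h1, h2⟩, ← h3])⟩
  have heng : EngelLin n h.Mx := engel_of_gen _ hspan fun x hx y hy => by
    choose d z hz hxz using hx
    obtain ⟨d0, z0, hz0, rfl⟩ := hy
    have := (filt_engel Φ hp B hB (fun i => (hz i).1) hz0.1 (fun i => (hz i).2) hz0.2
      (μ (d0 + ∑ i, (d i + 1))) (fun a b h1 h2 h3 h4 => Subtype.ext (by
        rw [AddMemClass.coe_add, hμ _ _ ⟨h1, h3⟩, hμ _ _ ⟨h2, h4⟩,
          hμ _ _ ⟨mul_mem h1 h2, mul_mem h3 h4⟩, h.rho_mul h1 h2 h3 h4, map_add]))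
      (fun a h1 h2 => Subtype.ext (by
        rw [hμ _ _ ⟨h1, Φ.anti _ h2⟩, h.rho_high h1 h2, map_zero]; rfl))).2
    rw [← this]
    refine Finset.sum_congr rfl fun σ _ => ?_
    have e := hμw z d z0 d0 (List.ofFn σ) (fun j _ => hz j) hz0
    rw [dg_eq, List.map_ofFn, List.map_ofFn, List.sum_ofFn] at e
    simp only [Function.comp_def] at e
    rw [Equiv.sum_comp σ fun i => d i + 1] at e
    simpa only [hxz] using e
  obtain ⟨d1, z1, k1, s1, a1, a2, a3, a4⟩ := hnz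
  obtain ⟨c, hc, hcc⟩ := hai h.Mx htor heng (μ d1 z1) fun h0 => by
    have := congrArg Subtype.val h0
    rw [hμ _ _ ⟨a1, a2⟩] at this
    exact a4 ((h.rho_zero_iff a1 a2).1 ((monomial_eq_zero_iff _ _).1 this) k1 s1 a3)
  have hc' : (c : (Module.End ℤ V)[X]) ≠ 0 := fun h0 => hc (Subtype.ext h0)
  have hl := leadingCoeff_ne_zero.2 hc'
  have hm := c.2 (c : (Module.End ℤ V)[X]).natDegree
  rw [leadingCoeff] at hl
  obtain ⟨d0, hd0⟩ : ∃ d0, (c : (Module.End ℤ V)[X]).natDegree = d0 + 1 := by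
    cases hn : (c : (Module.End ℤ V)[X]).natDegree with
    | zero => rw [hn] at hm hl; exact absurd hm hl
    | succ d => exact ⟨d, rfl⟩
  rw [hd0] at hm hl
  obtain ⟨z0, b1, b2, b3⟩ := hm
  have htop : ∀ l : List (ℕ × P), (∀ j ∈ l, j.2 ∈ B ∧ j.2 ∈ Φ.F j.1) →
      ((lad (l.map fun j => μ j.1 j.2) c : h.Mx) : (Module.End ℤ V)[X]).natDegree ≤
        dg Prod.fst l d0 + 1 ∧
      ((lad (l.map fun j => μ j.1 j.2) c : h.Mx) : (Module.End ℤ V)[X]).coeff
        (dg Prod.fst l d0 + 1) = ρ (dg Prod.fst l d0) (adw Prod.snd l z0) := by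
    intro l hl
    induction l with
    | nil => exact ⟨hd0.le, b3⟩
    | cons j l ih =>
      have hl' := fun i hi => hl i (List.mem_cons_of_mem _ hi)
      have hj := hl j List.mem_cons_self
      obtain ⟨c1, c2⟩ := ih hl'
      have c3 := adw_mem (d := Prod.fst) l hl' ⟨b1, b2⟩
      have e : lad ((j :: l).map fun j => μ j.1 j.2) c =
        ⁅μ j.1 j.2, lad (l.map fun j => μ j.1 j.2) c⁆ := rfl
      have e2 : dg Prod.fst (j :: l) d0 = j.1 + dg Prod.fst l d0 + 1 := rfl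
      have e3 : adw Prod.snd (j :: l) z0 = ⁅j.2, adw Prod.snd l z0⁆ := rfl
      rw [e, e2, e3, LieSubalgebra.coe_bracket, hμ _ _ hj, Ring.lie_def]
      constructor
      · have := natDegree_monomial_le (ρ j.1 j.2) (m := j.1 + 1)
        refine (natDegree_sub_le _ _).trans (max_le (natDegree_mul_le.trans ?_)
          (natDegree_mul_le.trans ?_)) <;> omega
      · rw [show j.1 + dg Prod.fst l d0 + 1 + 1 = dg Prod.fst l d0 + 1 + (j.1 + 1) by omega,
          coeff_sub, coeff_monomial_mul, coeff_mul_monomial, c2,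
          h.rho_comm hj.1 c3.1 hj.2 c3.2]
  refine ⟨fun e => {w | ∃ l : List (ℕ × P), (∀ j ∈ l, j.2 ∈ B ∧ j.2 ∈ Φ.F j.1) ∧
    e = dg Prod.fst l d0 ∧ w = adw Prod.snd l z0}, ?_, ?_, ?_, ?_⟩
  · rintro _ _ ⟨l, hl, rfl, rfl⟩
    exact adw_mem l hl ⟨b1, b2⟩
  · rintro i _ t _ ht ht' ⟨l, hl, rfl, rfl⟩
    refine ⟨(i, t) :: l, fun j hj => ?_, rfl, rfl⟩
    rcases List.mem_cons.1 hj with rfl | hj
    exacts [⟨ht, ht'⟩, hl j hj]
  · rintro _ _ _ _ k s ⟨l, hl, rfl, rfl⟩ ⟨l', hl', rfl, rfl⟩ hs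
    have c3 := adw_mem (d := Prod.fst) l hl ⟨b1, b2⟩
    have c4 := adw_mem (d := Prod.fst) l' hl' ⟨b1, b2⟩
    refine (h.rho_zero_iff (comm_mem c3.1 c4.1) (Φ.comm _ _ _ _ c3.2 c4.2)).1 ?_ k s hs
    have := congrArg (fun f : h.Mx => (f : (Module.End ℤ V)[X]).coeff
      (dg Prod.fst l d0 + 1 + (dg Prod.fst l' d0 + 1)))
      (hcc (l.map fun j => μ j.1 j.2) (l'.map fun j => μ j.1 j.2))
    simp only [LieSubalgebra.coe_bracket, Ring.lie_def, coeff_sub] at this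
    rw [coeff_mul_add_eq_of_natDegree_le (htop l hl).1 (htop l' hl').1,
      add_comm (dg Prod.fst l d0 + 1),
      coeff_mul_add_eq_of_natDegree_le (htop l' hl').1 (htop l hl).1, (htop l hl).2,
      (htop l' hl').2] at this
    rw [h.rho_comm c3.1 c4.1 c3.2 c4.2, this]; rfl
  · by_contra hcon
    simp only [not_exists, not_and, not_not] at hcon
    exact hl (b3.trans ((h.rho_zero_iff b1 b2).2 fun k s hs =>
      hcon d0 z0 k s ⟨[], by simp, rfl, rfl⟩ hs))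

end Rep
end Pool.Agent.MP38b55a

end

section

set_option autoImplicit false

open scoped commutatorElement

namespace Pool.Agent.MP38b55a

universe u
variable {P : Type u} [Group P] {Φ : Filt P}

/-- The graded subgroup generated by `U` and the commutators of `N` with `S`. -/
def Gen (U : ℕ → Subgroup P) (N : ℕ → Set P) (S : ℕ → Subgroup P) (k : ℕ) : Subgroup P :=
  U k ⊔ Subgroup.closure {v | ∃ d l z s, z ∈ N d ∧ s ∈ S l ∧ d + l + 1 = k ∧ v = ⁅z, s⁆}

theorem Gen_le {U : ℕ → Subgroup P} {N : ℕ → Set P} {S : ℕ → Subgroup P} {k : ℕ} {Y : Subgroup P}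
    (h1 : U k ≤ Y) (h2 : ∀ d l z s, z ∈ N d → s ∈ S l → d + l + 1 = k → ⁅z, s⁆ ∈ Y) :
    Gen U N S k ≤ Y := sup_le h1 ((Subgroup.closure_le _).2 (by
  rintro _ ⟨d, l, z, s, a1, a2, a3, rfl⟩
  exact h2 d l z s a1 a2 a3))

theorem le_Gen (U : ℕ → Subgroup P) (N : ℕ → Set P) (S : ℕ → Subgroup P) (k : ℕ) :
    U k ≤ Gen U N S k := le_sup_left

theorem mem_Gen {U : ℕ → Subgroup P} {N : ℕ → Set P} {S : ℕ → Subgroup P} {d l k : ℕ} {z s : P}
    (hz : z ∈ N d) (hs : s ∈ S l) (hk : d + l + 1 = k) : ⁅z, s⁆ ∈ Gen U N S k :=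
  Subgroup.mem_sup_right (Subgroup.subset_closure ⟨d, l, z, s, hz, hs, hk, rfl⟩)

/-- Invariance under one homogeneous element. -/
def Inv1 (d : ℕ) (z : P) (X : ℕ → Subgroup P) : Prop :=
  ∀ k m v, d + k + 1 = m → v ∈ X k → ⁅z, v⁆ ∈ X m

theorem Gen_inv1 {U S : ℕ → Subgroup P} {N : ℕ → Set P} (bU : Φ.Btw U) (hS : ∀ k, S k ≤ Φ.F k)
    (hN : ∀ d z, z ∈ N d → z ∈ Φ.F d) {i : ℕ} {t : P} (ht : t ∈ Φ.F i) (iU : Inv1 i t U)
    (iS : Inv1 i t S) (hc : ∀ d l z s, z ∈ N d → s ∈ S l →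
      ⁅⁅t, z⁆, s⁆ ∈ Gen U N S (i + d + 1 + l + 1)) : Inv1 i t (Gen U N S) := by
  intro k m v hm hv
  refine (Gen_le (Y := Φ.pre ht k (Gen U N S m) (m := m + 1) (by omega)
    ((bU m).1.trans (le_Gen _ _ _ _))) (fun w hw => ⟨(bU k).2 hw, le_Gen _ _ _ _ (iU k m w hm hw)⟩)
    (fun d l z s hz hs hk => ⟨Φ.comm' (hN d z hz) (hS l hs) (by omega), ?_⟩) hv).2
  refine Φ.jac1 ht (hN d z hz) (hS l hs) (m := m + 1) (by omega)
    ((bU m).1.trans (le_Gen _ _ _ _)) (mem_Gen hz (iS l _ s rfl hs) (by omega)) ?_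
  have := hc d l z s hz hs
  rwa [show i + d + 1 + l + 1 = m by omega] at this

theorem nak_one {p : ℕ} (hp : p.Prime) (hpow : ∀ k x, x ∈ Φ.F k → x ^ p ∈ Φ.F (2 * k + 1))
    {U S : ℕ → Subgroup P} (bU : Φ.Btw U) (hS : ∀ k, S k ≤ Φ.F k) {d : ℕ} {z : P} (hz : z ∈ Φ.F d)
    (hzp : z ^ p = 1) (iU : Inv1 d z U) {r : ℕ}
    (h : ∀ k, r ≤ k → S k ≤ Gen U (fun e => {w | e = d ∧ w = z}) S k) :
    ∃ r', ∀ k, r' ≤ k → S k ≤ U k := by
  have key : ∀ q k (Y : Subgroup P), r + q * (d + 1) ≤ k → U k ≤ Y →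
      (∀ l s, s ∈ S l → l + q * (d + 1) = k → (fun w => ⁅z, w⁆)^[q] s ∈ Y) → S k ≤ Y := by
    intro q
    induction q with
    | zero => intro k Y _ _ h2 s hs; exact h2 k s hs (by omega)
    | succ q ih =>
      intro k Y h0 h1 h2
      rw [Nat.succ_mul] at h0 h2
      refine (h k (by omega)).trans (Gen_le h1 ?_)
      rintro d' l z' s ⟨e1, e2⟩ hs hk
      subst d' z'
      refine (ih l (Φ.pre hz l Y (m := k + 1) (by omega) ((bU k).1.trans h1)) (by omega)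
        (fun w hw => ⟨(bU l).2 hw, h1 (iU l k w hk hw)⟩) (fun l' s' hs' hl' => ⟨?_, ?_⟩) hs).2
      · have : ∀ j, (fun w => ⁅z, w⁆)^[j] s' ∈ Φ.F (l' + j * (d + 1)) := fun j => by
          induction j with
          | zero => simpa using hS _ hs'
          | succ j ihj =>
            rw [Function.iterate_succ_apply', Nat.succ_mul]
            exact Φ.comm' hz ihj (by omega)
        exact hl' ▸ this q
      · have := h2 l' s' hs' (by omega)
        rwa [Function.iterate_succ_apply'] at this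
  refine ⟨r + 2 * (p * (d + 1)), fun k hk => key p k _ (by omega) le_rfl fun l s hs hl => ?_⟩
  exact (bU k).1 (Φ.mono (by omega) (Φ.ad_nil hp hpow hz hzp (hS l hs)))

theorem nak_fin {p : ℕ} (hp : p.Prime) (hpow : ∀ k x, x ∈ Φ.F k → x ^ p ∈ Φ.F (2 * k + 1))
    {S : ℕ → Subgroup P} (hS : ∀ k, S k ≤ Φ.F k) {E : Set (ℕ × P)} (hE : E.Finite) :
    ∀ U : ℕ → Subgroup P, Φ.Btw U →
      (∀ e ∈ E, e.2 ∈ Φ.F e.1 ∧ e.2 ^ p = 1 ∧ Inv1 e.1 e.2 U ∧ Inv1 e.1 e.2 S) →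
      (∀ e ∈ E, ∀ e' ∈ E, ∀ k s, s ∈ S k → ⁅⁅e.2, e'.2⁆, s⁆ ∈ U (e.1 + e'.1 + 1 + k + 1)) →
      ∀ r, (∀ k, r ≤ k → S k ≤ Gen U (fun d => {z | (d, z) ∈ E}) S k) →
        ∃ r', ∀ k, r' ≤ k → S k ≤ U k := by
  induction E, hE using Set.Finite.induction_on with
  | empty =>
    intro U _ _ _ r h
    exact ⟨r, fun k hk => (h k hk).trans (Gen_le le_rfl fun _ _ _ _ hz => absurd hz (by simp))⟩
  | @insert e E _ _ ih =>
    intro U bU h1 h2 r h
    obtain ⟨a1, a2, a3, a4⟩ := h1 e (Set.mem_insert _ _)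
    have hN : ∀ d z, z ∈ (fun d => {w | d = e.1 ∧ w = e.2} : ℕ → Set P) d → z ∈ Φ.F d := by
      rintro _ _ ⟨rfl, rfl⟩; exact a1
    obtain ⟨r', hr'⟩ := ih (Gen U (fun d => {w | d = e.1 ∧ w = e.2}) S)
      (fun k => ⟨(bU k).1.trans (le_Gen _ _ _ _), Gen_le (bU k).2 fun d l z s hz hs hk =>
        Φ.comm' (hN d z hz) (hS l hs) (by omega)⟩)
      (fun e' he' => by
        obtain ⟨b1, b2, b3, b4⟩ := h1 e' (Set.mem_insert_of_mem _ he')
        refine ⟨b1, b2, Gen_inv1 bU hS hN b1 b3 b4 ?_, b4⟩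
        rintro _ l _ s ⟨rfl, rfl⟩ hs
        exact le_Gen _ _ _ _ (h2 e' (Set.mem_insert_of_mem _ he') e (Set.mem_insert _ _) l s hs))
      (fun e1 h3 e2 h4 k s hs => le_Gen _ _ _ _
        (h2 e1 (Set.mem_insert_of_mem _ h3) e2 (Set.mem_insert_of_mem _ h4) k s hs)) r
      (fun k hk => (h k hk).trans (Gen_le ((le_Gen _ _ _ _).trans (le_Gen _ _ _ _))
        fun d l z s hz hs hk => by
          rcases Set.mem_insert_iff.1 hz with h5 | h5
          · exact le_Gen _ _ _ _ (mem_Gen (by rw [← h5]; exact ⟨rfl, rfl⟩) hs hk)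
          · exact mem_Gen h5 hs hk))
    exact nak_one hp hpow bU hS a1 a2 a3 hr'

theorem Pair.fin_classes {A B : Subgroup P} {g : P} (h : Pair Φ A B g) {p : ℕ} (hp : p.Prime)
    (hpow : ∀ k x, x ∈ Φ.F k → x ^ p ∈ Φ.F (2 * k + 1)) (N : ℕ → Set P)
    (hN : ∀ d z, z ∈ N d → z ∈ Φ.F d) (r : ℕ) : ∃ E : Set (ℕ × P), E.Finite ∧
      (∀ e ∈ E, e.2 ∈ N e.1) ∧ ∀ d z, d < r → z ∈ N d → ∃ z', (d, z') ∈ E ∧ z * z'⁻¹ ∈ Φ.F (d + 1) := by
  have key : ∀ d, ∃ E : Set P, E.Finite ∧ (∀ e ∈ E, e ∈ N d) ∧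
      ∀ z, z ∈ N d → ∃ z' ∈ E, z * z'⁻¹ ∈ Φ.F (d + 1) := by
    intro d
    obtain ⟨Q, _, q, hq⟩ := exists_pres (Φ.F d) (Φ.F (d + 1)) fun a b ha hb =>
      Φ.comm' ha hb (by omega)
    obtain ⟨T, hT, hT'⟩ := h.fin_gen (d + 1)
    have hfg : AddGroup.FG Q := by
      refine AddGroup.fg_iff.2 ⟨q '' (T ∩ Φ.F d), ?_, (hT.inter_of_left _).image q⟩
      let Y : Subgroup P :=
        { carrier := {a | a ∈ Φ.F d ∧ q a ∈ AddSubgroup.closure (q '' (T ∩ Φ.F d))}
          one_mem' := ⟨one_mem _, by rw [hq.one]; exact zero_mem _⟩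
          mul_mem' := fun ha hb => ⟨mul_mem ha.1 hb.1, by
            rw [hq.add _ _ ha.1 hb.1]; exact add_mem ha.2 hb.2⟩
          inv_mem' := fun ha => ⟨inv_mem ha.1, by rw [hq.inv ha.1]; exact neg_mem ha.2⟩ }
      have := hT' d (by omega) Y (fun a ha => ⟨Φ.anti d ha, by
        rw [(hq.zero a (Φ.anti d ha)).2 ha]; exact zero_mem _⟩)
        (fun t ht ht' => ⟨ht', AddSubgroup.subset_closure ⟨t, ⟨ht, ht'⟩, rfl⟩⟩)
      rw [eq_top_iff]
      intro v _
      obtain ⟨a, ha, rfl⟩ := hq.surj v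
      exact (this ha).2
    have hfin : Finite Q := AddCommGroup.finite_of_fg_isAddTorsion Q fun v => by
      obtain ⟨a, ha, rfl⟩ := hq.surj v
      refine isOfFinAddOrder_iff_nsmul_eq_zero.2 ⟨p, hp.pos, ?_⟩
      rw [← hq.pow ha]
      exact (hq.zero _ ((Φ.F d).pow_mem ha _)).2 (Φ.mono (by omega) (hpow d a ha))
    have hex : ∀ v : q '' N d, ∃ z ∈ N d, q z = v := fun v => v.2
    choose s hs hs' using hex
    refine ⟨Set.range s, Set.finite_range s, by rintro _ ⟨v, rfl⟩; exact hs v, fun z hz => ?_⟩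
    refine ⟨s ⟨q z, z, hz, rfl⟩, ⟨_, rfl⟩, ?_⟩
    have h1 := hN d _ (hs ⟨q z, z, hz, rfl⟩)
    refine (hq.zero _ (mul_mem (hN d z hz) (inv_mem h1))).1 ?_
    rw [hq.add _ _ (hN d z hz) (inv_mem h1), hq.inv h1, hs', add_neg_cancel]
  choose E h1 h2 h3 using key
  refine ⟨⋃ d ∈ Set.Iio r, (fun z => (d, z)) '' E d,
    (Set.finite_Iio r).biUnion fun d _ => (h1 d).image _, ?_, fun d z hd hz => ?_⟩
  · intro e he
    simp only [Set.mem_iUnion] at he
    obtain ⟨d, -, z, hz, rfl⟩ := he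
    exact h2 d z hz
  · obtain ⟨z', a1, a2⟩ := h3 d z hz
    exact ⟨z', Set.mem_biUnion hd ⟨z', a1, rfl⟩, a2⟩

theorem Pair.nak {A B : Subgroup P} {g : P} (h : Pair Φ A B g) {p : ℕ} (hp : p.Prime)
    (hpow : ∀ k x, x ∈ Φ.F k → x ^ p ∈ Φ.F (2 * k + 1)) {U S : ℕ → Subgroup P} (bU : Φ.Btw U)
    (hS : ∀ k, S k ≤ Φ.F k) {N : ℕ → Set P}
    (hN : ∀ d z, z ∈ N d → z ∈ Φ.F d ∧ z ^ p = 1 ∧ Inv1 d z U ∧ Inv1 d z S)
    (hc : ∀ d e z w k s, z ∈ N d → w ∈ N e → s ∈ S k → ⁅⁅z, w⁆, s⁆ ∈ U (d + e + 1 + k + 1))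
    {r r' : ℕ} (hr : ∀ k, r' ≤ k → S k ≤ Gen U (fun d => {z | z ∈ N d ∧ d < r}) S k) :
    ∃ r'', ∀ k, r'' ≤ k → S k ≤ U k := by
  obtain ⟨E, hE, h1, h2⟩ := h.fin_classes hp hpow N (fun d z hz => (hN d z hz).1) r
  refine nak_fin hp hpow hS hE U bU (fun e he => hN _ _ (h1 e he))
    (fun e he e' he' k s hs => hc _ _ _ _ k s (h1 e he) (h1 e' he') hs) r' fun k hk =>
      (hr k hk).trans (Gen_le (le_Gen _ _ _ _) fun d l z s hz hs hk => ?_)
  obtain ⟨z', a1, a2⟩ := h2 d z hz.2 hz.1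
  rw [← inv_mul_cancel_right z z']
  exact Φ.comm_mul_left (m := k + 1) (by omega) ((bU k).1.trans (le_Gen _ _ _ _)) (Φ.anti _ a2)
    (hN _ _ (h1 _ a1)).1 (hS l hs) (le_Gen _ _ _ _ ((bU k).1 (Φ.comm' a2 (hS l hs) (by omega))))
    (mem_Gen a1 hs hk)

end Pool.Agent.MP38b55a

end
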