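import Pool.Agent.Mg.F38b55ap.G50ac77

section

set_option autoImplicit false

open scoped commutatorElement

namespace Pool.Agent.MP38b55a

universe u
variable {P : Type u} [Group P] {Φ : Filt P} {A B : Subgroup P} {g : P}

theorem Filt.JI.sub {T : Subgroup P} {U S X : ℕ → Subgroup P} (h : Φ.JI T U S)
    (h1 : ∀ k, U k ≤ X k) (h2 : ∀ k, X k ≤ S k) (h3 : Φ.Invt T X) (h4 : ¬ ∀ k, X k ≤ U k) :
    Φ.JI T U X ∧ ∃ r, ∀ k, r ≤ k → S k ≤ X k := by
  obtain ⟨r, hr⟩ := (h.ji X h1 h2 h3).resolve_left h4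
  refine ⟨⟨h.bU, fun k => ⟨(h.bU k).1.trans (h1 k), (h2 k).trans (h.bS k).2⟩, h1, h.iU, h3,
    fun Y a1 a2 a3 => ?_, fun r' => ?_⟩, r, hr⟩
  · exact (h.ji Y a1 (fun k => (a2 k).trans (h2 k)) a3).imp id
      fun ⟨r', hr'⟩ => ⟨r', fun k hk => (h2 k).trans (hr' k hk)⟩
  · obtain ⟨k, hk, hk'⟩ := h.inf (r + r')
    exact ⟨k, by omega, fun h5 => hk' ((hr k (by omega)).trans h5)⟩

theorem Gen_invt {U S : ℕ → Subgroup P} {N : ℕ → Set P} (bU : Φ.Btw U) (hS : ∀ k, S k ≤ Φ.F k)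
    (hN : ∀ d z, z ∈ N d → z ∈ Φ.F d) (iU : Φ.Invt B U) (iS : Φ.Invt B S)
    (idl : ∀ i d t z, t ∈ B → t ∈ Φ.F i → z ∈ N d → ⁅t, z⁆ ∈ N (i + d + 1)) :
    Φ.Invt B (Gen U N S) := fun i k m t v hm ht ht' hv =>
  Gen_inv1 bU hS hN ht' (fun k m v hm hv => iU i k m t v hm ht ht' hv)
    (fun k m v hm hv => iS i k m t v hm ht ht' hv)
    (fun d _ z _ hz hs => mem_Gen (idl i d t z ht ht' hz) hs rfl) k m v hm hv

theorem sq_zero (hP : Pair Φ A B g) {p : ℕ} (hp : p.Prime)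
    (hpow : ∀ k x, x ∈ Φ.F k → x ^ p ∈ Φ.F (2 * k + 1)) (hB : ∀ b ∈ B, b ^ p = 1)
    {U S : ℕ → Subgroup P} (h : Φ.JI B U S) {N : ℕ → Set P} (hN : Idl Φ B U S N) (k : ℕ) :
    Gen U N (Gen U N S) k ≤ U k := by
  have hS := fun k => (h.bS k).2
  have hNF := fun d z hz => (hN.mem d z hz).2
  have h1S : ∀ k, Gen U N S k ≤ S k := fun k => Gen_le (h.le k) fun d l z s hz hs hk =>
    h.iS d l k z s hk (hN.mem d z hz).1 (hNF d z hz) hs
  have i1 := Gen_invt h.bU hS hNF h.iU h.iS hN.idl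
  have h21 : ∀ k, Gen U N (Gen U N S) k ≤ Gen U N S k := fun k =>
    Gen_le (le_Gen _ _ _ _) fun d l z s hz hs hk => mem_Gen hz (h1S l hs) hk
  have i2 := Gen_invt h.bU (fun k => (h1S k).trans (hS k)) hNF h.iU i1 hN.idl
  rcases h.ji _ (le_Gen _ _ _) (fun k => (h21 k).trans (h1S k)) i2 with h3 | ⟨r, hr⟩
  · exact h3 k
  exfalso
  have hi : ∀ d z, z ∈ N d → Inv1 d z U ∧ Inv1 d z S := fun d z hz =>
    ⟨fun k m v hm hv => h.iU d k m z v hm (hN.mem d z hz).1 (hNF d z hz) hv,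
      fun k m v hm hv => h.iS d k m z v hm (hN.mem d z hz).1 (hNF d z hz) hv⟩
  have key : ∀ k, Gen U N S k ≤ Gen U (fun d => {z | z ∈ N d ∧ d < r}) S k := by
    intro k
    induction k using Nat.strong_induction_on with
    | _ k ih =>
      by_cases hk : r ≤ k
      · refine (h1S k).trans ((hr k hk).trans (Gen_le (le_Gen _ _ _ _) fun d l z s hz hs hk => ?_))
        exact Gen_inv1 h.bU hS (fun d z hz => hNF d z hz.1) (hNF d z hz) (hi d z hz).1 (hi d z hz).2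
          (fun e l w s hw hs => le_Gen _ _ _ _ (hN.ab d e z w l s hz hw.1 hs)) l k s hk
          (ih l (by omega) hs)
      · exact Gen_le (le_Gen _ _ _ _) fun d l z s hz hs hk => mem_Gen ⟨hz, by omega⟩ hs hk
  obtain ⟨r', hr'⟩ := hP.nak hp hpow h.bU hS (N := N)
    (fun d z hz => ⟨hNF d z hz, hB z (hN.mem d z hz).1, hi d z hz⟩) hN.ab
    (fun k hk => (hr k hk).trans ((h21 k).trans (key k)))
  obtain ⟨k, hk, hk'⟩ := h.inf r'
  exact hk' (hr' k hk)

/-- One step of the descending chain of just-infinite submodules. -/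
structure Stp (Φ : Filt P) (B : Subgroup P) (U S0 S : ℕ → Subgroup P) (N : ℕ → Set P)
    (K S' : ℕ → Subgroup P) : Prop where
  mem : ∀ d z, z ∈ N d → z ∈ B ∧ z ∈ Φ.F d
  idl : ∀ i d t z, t ∈ B → t ∈ Φ.F i → z ∈ N d → ⁅t, z⁆ ∈ N (i + d + 1)
  KS : ∀ k, K k ≤ S k
  kill : ∀ d k z v, z ∈ N d → v ∈ K k → ⁅z, v⁆ ∈ U (d + k + 1)
  into : ∀ d k z s, z ∈ N d → s ∈ S0 k → ⁅z, s⁆ ∈ K (d + k + 1)
  gen : ∀ k, S' k ≤ Gen U N S k
  SK : ∀ k, S' k ≤ K k
  ji : Φ.JI B U S'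
  cof : ∃ r, ∀ k, r ≤ k → S0 k ≤ S' k

theorem exists_stp (hP : Pair Φ A B g) {n : ℕ} (hp : (n + 1).Prime) (hai : AI.{u} n)
    (hpow : ∀ k x, x ∈ Φ.F k → x ^ (n + 1) ∈ Φ.F (2 * k + 1)) (hB : ∀ b ∈ B, b ^ (n + 1) = 1)
    {U S0 S : ℕ → Subgroup P} (i0 : Φ.Invt B S0) (h : Φ.JI B U S)
    (cof : ∃ r, ∀ k, r ≤ k → S0 k ≤ S k) : ∃ N K S', Stp Φ B U S0 S N K S' := by
  obtain ⟨V, _, ι, ρ, hR⟩ := exists_rep Φ B U S h.bU h.bS h.le h.iU h.iS
  obtain ⟨N, hN⟩ := hR.exists_idl hp hai hB (by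
    by_contra hcon
    simp only [not_exists, not_and, not_not] at hcon
    exact h.not_trivial fun i k t s ht ht' hs => hcon i t k s ht ht' hs)
  have hS := fun k => (h.bS k).2
  have hNF := fun d z hz => (hN.mem d z hz).2
  have h1S : ∀ k, Gen U N S k ≤ S k := fun k => Gen_le (h.le k) fun d l z s hz hs hk =>
    h.iS d l k z s hk (hN.mem d z hz).1 (hNF d z hz) hs
  have hkill : ∀ d k z v, z ∈ N d → v ∈ Gen U N S k → ⁅z, v⁆ ∈ U (d + k + 1) :=
    fun d k z v hz hv => sq_zero hP hp hpow hB h hN _ (mem_Gen hz hv rfl)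
  obtain ⟨-, r1, hr1⟩ := h.sub (le_Gen U N S) h1S (Gen_invt h.bU hS hNF h.iU h.iS hN.idl) (by
    obtain ⟨d, z, k, s, a1, a2, a3⟩ := hN.nz
    exact fun h5 => a3 (h5 _ (mem_Gen a1 a2 rfl)))
  obtain ⟨r0, hr0⟩ := cof
  let N' : ℕ → Set P := fun d => {z | z ∈ N d ∧ r0 + r1 ≤ d}
  have idl' : ∀ i d t z, t ∈ B → t ∈ Φ.F i → z ∈ N' d → ⁅t, z⁆ ∈ N' (i + d + 1) :=
    fun i d t z ht ht' hz => ⟨hN.idl i d t z ht ht' hz.1, by have := hz.2; omega⟩
  have h'1 : ∀ k, Gen U N' S k ≤ Gen U N S k := fun k =>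
    Gen_le (le_Gen _ _ _ _) fun d l z s hz hs hk => mem_Gen hz.1 hs hk
  obtain ⟨a1, r2, hr2⟩ := h.sub (le_Gen U N' S) (fun k => (h'1 k).trans (h1S k))
    (Gen_invt h.bU hS (fun d z hz => hNF d z hz.1) h.iU h.iS idl') (fun h5 => by
      obtain ⟨k, hk, hk'⟩ := h.inf (2 * (r0 + r1) + 1)
      refine hk' ((hr1 k (by omega)).trans (Gen_le le_rfl fun d l z s hz hs hl => ?_))
      by_cases hd : r0 + r1 ≤ d
      · exact h5 k (mem_Gen ⟨hz, hd⟩ hs hl)
      · exact hl ▸ hkill d l z s hz (hr1 l (by omega) hs))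
  refine ⟨N', Gen U N S, Gen U N' S, fun d z hz => hN.mem d z hz.1, idl', h1S,
    fun d k z v hz hv => hkill d k z v hz.1 hv, fun d k z s hz hs => ?_, fun k => le_rfl, h'1, a1,
    r0 + r2, fun k hk => (hr0 k (by omega)).trans (hr2 k (by omega))⟩
  have := hz.2
  exact hr1 _ (by omega) (hr0 _ (by omega)
    (i0 d k _ z s rfl (hN.mem d z hz.1).1 (hNF d z hz.1) hs))

/-- Lists whose members come from the successive ideals, the last one from the first ideal. -/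
inductive Wrd (N : ℕ → ℕ → Set P) : List (ℕ × P) → Prop
  | nil : Wrd N []
  | cons {L : List (ℕ × P)} {e : ℕ × P} : Wrd N L → e.2 ∈ N L.length e.1 → Wrd N (e :: L)

omit [Group P] in
theorem Wrd.get {N : ℕ → ℕ → Set P} {L : List (ℕ × P)} (h : Wrd N L) :
    ∀ i (hi : i < L.length), L[i].2 ∈ N (L.length - 1 - i) L[i].1 := by
  induction h with
  | nil => intro i hi; simp at hi
  | @cons L e _ he ih =>
    intro i hi
    cases i with
    | zero => simpa using he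
    | succ i =>
      have := ih i (by simpa using hi)
      simp only [List.length_cons, List.getElem_cons_succ]
      rwa [show L.length + 1 - 1 - (i + 1) = L.length - 1 - i by omega]

theorem prod_zero_of_not_chain {R : Type*} [Ring R] {n : ℕ} (X : Fin n → R)
    (hX : ∀ a b, b ≤ a → X a * X b = 0) (l : List (Fin n)) (hl : ¬ l.IsChain (· < ·)) :
    (l.map X).prod = 0 := by
  induction l with
  | nil => simp at hl
  | cons a l ih =>
    cases l with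
    | nil => simp at hl
    | cons b l =>
      rw [List.isChain_cons_cons, not_and_or] at hl
      rcases hl with h1 | h1
      · rw [List.map_cons, List.map_cons, List.prod_cons, List.prod_cons, ← mul_assoc,
          hX a b (not_lt.1 h1), zero_mul]
      · rw [List.map_cons, List.prod_cons, ih h1, mul_zero]

theorem perm_eq_one_of_chain {n : ℕ} (σ : Equiv.Perm (Fin n))
    (h : (List.ofFn σ).IsChain (· < ·)) : σ = 1 := by
  have h1 : StrictMono σ := by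
    have := List.isChain_iff_pairwise.1 h
    rw [List.pairwise_ofFn] at this
    exact fun a b hab => this hab
  have h2 := (h1.range_inj strictMono_id).1 (by simp [σ.surjective.range_eq])
  exact Equiv.ext (congrFun h2)

theorem no_ji (hP : Pair Φ A B g) {n : ℕ} (hp : (n + 1).Prime) (hai : AI.{u} n)
    (hpow : ∀ k x, x ∈ Φ.F k → x ^ (n + 1) ∈ Φ.F (2 * k + 1)) (hB : ∀ b ∈ B, b ^ (n + 1) = 1)
    {U S0 : ℕ → Subgroup P} (h0 : Φ.JI B U S0) : False := by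
  have hs := fun (S : {S : ℕ → Subgroup P // Φ.JI B U S ∧ ∃ r, ∀ k, r ≤ k → S0 k ≤ S k}) =>
    exists_stp hP hp hai hpow hB h0.iS S.2.1 S.2.2
  choose Nf Kf Sf hf using hs
  let St : ℕ → {S : ℕ → Subgroup P // Φ.JI B U S ∧ ∃ r, ∀ k, r ≤ k → S0 k ≤ S k} :=
    fun j => Nat.rec ⟨S0, h0, 0, fun _ _ => le_rfl⟩ (fun _ S => ⟨Sf S, (hf S).ji, (hf S).cof⟩) j
  let N : ℕ → ℕ → Set P := fun j => Nf (St j)
  let K : ℕ → ℕ → Subgroup P := fun j => Kf (St j)
  have hSt : ∀ j, Stp Φ B U S0 (St j).1 (N j) (K j) (St (j + 1)).1 := fun j => hf (St j)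
  have hK : ∀ i j k, i ≤ j → K j k ≤ K i k := fun i j k hij => by
    induction hij with
    | refl => exact le_rfl
    | @step m _ ih => exact ((hSt (m + 1)).KS k).trans (((hSt m).SK k).trans ih)
  have hK0 : ∀ j k, K j k ≤ S0 k := fun j k => (hK 0 j k (by omega)).trans ((hSt 0).KS k)
  have hmem : ∀ (L : List (ℕ × P)) k v, (∀ e ∈ L, e.2 ∈ B ∧ e.2 ∈ Φ.F e.1) → v ∈ S0 k →
      adw Prod.snd L v ∈ S0 (dg Prod.fst L k) := by
    intro L k v hL hv
    induction L with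
    | nil => exact hv
    | cons e L ih =>
      exact h0.iS _ _ _ _ _ rfl (hL e List.mem_cons_self).1 (hL e List.mem_cons_self).2
        (ih fun e' he' => hL e' (List.mem_cons_of_mem _ he'))
  have hWB : ∀ L, Wrd N L → ∀ e ∈ L, e.2 ∈ B ∧ e.2 ∈ Φ.F e.1 := fun L hL e he => by
    obtain ⟨i, hi, rfl⟩ := List.getElem_of_mem he
    exact (hSt _).mem _ _ (hL.get i hi)
  have hgen : ∀ j (Y : ℕ → Subgroup P), (∀ k, U k ≤ Y k) →
      (∀ L k v, L.length = j → Wrd N L → v ∈ S0 k → adw Prod.snd L v ∈ Y (dg Prod.fst L k)) →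
      ∀ k, (St j).1 k ≤ Y k := by
    intro j
    induction j with
    | zero =>
      intro Y _ h2 k v hv
      exact h2 [] k v rfl Wrd.nil hv
    | succ j ih =>
      intro Y h1 h2 m
      refine ((hSt j).gen m).trans (Gen_le (h1 m) fun d l z s hz hs hk => ?_)
      have hz' := (hSt j).mem d z hz
      exact hk ▸ (ih (fun l => Φ.pre hz'.2 l (Y (d + l + 1)) (m := d + l + 1 + 1) (by omega)
        ((h0.bU _).1.trans (h1 _))) (fun l w hw => ⟨(h0.bU l).2 hw,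
          h1 _ (h0.iU d l _ z w rfl hz'.1 hz'.2 hw)⟩) (fun L k v hL hW hv =>
            ⟨(h0.bS _).2 (hmem L k v (hWB L hW) hv),
            h2 ((d, z) :: L) k v (by simp [hL]) (Wrd.cons hW (hL ▸ hz)) hv⟩) l hs).2
  obtain ⟨k1, -, hk1⟩ := (St (n + 1)).2.1.inf 0
  refine hk1 (hgen (n + 1) U (fun _ => le_rfl) (fun L k v hL hW hv => ?_) k1)
  obtain ⟨V, _, ι, ρ, hR⟩ := exists_rep Φ B U S0 h0.bU h0.bS h0.le h0.iU h0.iS
  have hact : ∀ L : List (ℕ × P), (∀ e ∈ L, e.2 ∈ B ∧ e.2 ∈ Φ.F e.1) →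
      (L.map fun e => ρ e.1 e.2).prod (ι k v) = ι (dg Prod.fst L k) (adw Prod.snd L v) := by
    intro L hL
    induction L with
    | nil => rfl
    | cons e L ih =>
      have hL' := fun e' he' => hL e' (List.mem_cons_of_mem _ he')
      rw [List.map_cons, List.prod_cons, Module.End.mul_apply, ih hL',
        hR.act _ _ _ _ (hL e List.mem_cons_self).1 (hL e List.mem_cons_self).2 (hmem L k v hL' hv)]
      rfl
  have hzero : ∀ i j d e z w, i ≤ j → z ∈ N i d → w ∈ N j e → ρ d z * ρ e w = 0 :=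
    fun i j d e z w hij hz hw => hR.ext fun l s hs => by
      have a1 := (hSt i).mem d z hz
      have a2 := (hSt j).mem e w hw
      have a3 := (hSt j).into e l w s hw hs
      rw [Module.End.mul_apply, hR.act _ _ _ _ a2.1 a2.2 hs, hR.act _ _ _ _ a1.1 a1.2 (hK0 j _ a3),
        hR.zero' ((hSt i).kill d _ z _ hz (hK i j _ hij a3))]
      rfl
  rw [← hR.zero _ _ (hmem L k v (hWB L hW) hv), ← hact L (hWB L hW)]
  obtain ⟨f, rfl⟩ : ∃ f : Fin (n + 1) → ℕ × P, L = List.ofFn f :=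
    ⟨fun i => L[i], List.ext_getElem (by simp [hL]) fun i _ _ => by rw [List.getElem_ofFn]; rfl⟩
  have hfN : ∀ i : Fin (n + 1), (f i).2 ∈ N (n - i) (f i).1 := fun i => by
    have := hW.get i (by rw [List.length_ofFn]; exact i.2)
    simpa only [List.getElem_ofFn, List.length_ofFn, Fin.eta, Nat.add_sub_cancel] using this
  have hf0 : (f (Fin.last n)).2 ∈ N 0 (f (Fin.last n)).1 := by simpa using hfN (Fin.last n)
  have hfB := fun i => (hSt _).mem _ _ (hfN i)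
  have had : ∀ l : List (Fin n),
      adw (fun i => (f i.castSucc).2) l (f (Fin.last n)).2 ∈
        N 0 (dg (fun i => (f i.castSucc).1) l (f (Fin.last n)).1) ∧
      ρ (dg (fun i => (f i.castSucc).1) l (f (Fin.last n)).1)
        (adw (fun i => (f i.castSucc).2) l (f (Fin.last n)).2) =
      (l.map fun i => ρ (f i.castSucc).1 (f i.castSucc).2).prod *
        ρ (f (Fin.last n)).1 (f (Fin.last n)).2 := by
    intro l
    induction l with
    | nil => exact ⟨hf0, (one_mul _).symm⟩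
    | cons i l ih =>
      have a1 := (hSt 0).mem _ _ ih.1
      refine ⟨(hSt 0).idl _ _ _ _ (hfB _).1 (hfB _).2 ih.1, ?_⟩
      have := hR.rho_comm (hfB i.castSucc).1 a1.1 (hfB i.castSucc).2 a1.2
      rw [hzero 0 _ _ _ _ _ (Nat.zero_le _) ih.1 (hfN _), sub_zero, ih.2, ← mul_assoc] at this
      exact this
  have heng := (filt_engel Φ hp B hB (x := fun i => (f i.castSucc).2) (d := fun i => (f i.castSucc).1)
    (fun i => (hfB _).1) (hfB (Fin.last n)).1 (fun i => (hfB _).2) (hfB (Fin.last n)).2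
    (ρ _) (fun a b h1 h2 h3 h4 => hR.rho_mul h1 h2 h3 h4) (fun a h1 h2 => hR.rho_high h1 h2)).2
  rw [Finset.sum_eq_single 1] at heng
  · have e := (had (List.ofFn (1 : Equiv.Perm (Fin n)))).2
    rw [dg_eq, List.map_ofFn, List.sum_ofFn] at e
    simp only [Function.comp_def, Equiv.Perm.coe_one, id] at e heng
    rw [heng] at e
    rw [List.ofFn_succ_last, List.map_append, List.prod_append, List.map_ofFn]
    simp only [List.map_ofFn, Function.comp_def, id] at e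
    simp only [List.map_cons, List.map_nil, List.prod_cons, List.prod_nil, mul_one,
      Function.comp_def]
    rw [← e]; rfl
  · intro σ _ hσ
    have e := (had (List.ofFn σ)).2
    rw [dg_eq, List.map_ofFn, List.sum_ofFn] at e
    simp only [Function.comp_def] at e
    rw [Equiv.sum_comp σ fun i => (f i.castSucc).1 + 1] at e
    rw [e, prod_zero_of_not_chain _ (fun a b hab => hzero _ _ _ _ _ _ ?_ (hfN _) (hfN _)) _
      (fun h => hσ (perm_eq_one_of_chain σ h)), zero_mul]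
    simp only [Fin.val_castSucc]
    omega
  · simp

end Pool.Agent.MP38b55a

end

section

set_option autoImplicit false

open scoped commutatorElement

namespace Pool.Agent.MP38b55a

universe u
variable {P : Type u} [Group P] {Φ : Filt P} {A B : Subgroup P} {g : P}

namespace Pair

theorem core_max (h : Pair Φ A B g) {I : ℕ → Subgroup P} (hI : Good Φ A B I) {X : ℕ → Subgroup P}
    (hIX : ∀ k, I k ≤ X k) (hXF : ∀ k, X k ≤ Φ.F k) (hX : Φ.Invt B X) :
    ∃ C, Φ.Invt ⊤ C ∧ (∀ k, I k ≤ C k) ∧ (∀ k, C k ≤ X k) ∧ ∀ Y : ℕ → Subgroup P,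
      (∀ k, Φ.F (k + 1) ≤ Y k) → (∀ k, Y k ≤ X k) → Φ.Invt A Y → ∀ k, Y k ≤ C k := by
  let fam : Set (ℕ → Subgroup P) := {Y | (∀ k, Φ.F (k + 1) ≤ Y k) ∧ (∀ k, Y k ≤ X k) ∧ Φ.Invt A Y}
  let C : ℕ → Subgroup P := fun k => ⨆ Y : fam, (Y : ℕ → Subgroup P) k
  have hle : ∀ Y ∈ fam, ∀ k, Y k ≤ C k := fun Y hY k =>
    le_iSup (fun Y : fam => (Y : ℕ → Subgroup P) k) ⟨Y, hY⟩
  have hCX : ∀ k, C k ≤ X k := fun k => iSup_le fun Y => Y.2.2.1 k
  have hIC : ∀ k, I k ≤ C k := hle I ⟨fun k => (hI.1 k).1, hIX,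
    fun i k m t v hm _ ht' hv => hI.2.1 i k m t v hm trivial ht' hv⟩
  have hFC : ∀ k, Φ.F (k + 1) ≤ C k := fun k => (hI.1 k).1.trans (hIC k)
  have hinvA : Φ.Invt A C := by
    intro i k m t v hm ht ht' hv
    have : C k ≤ Φ.pre ht' k (C m) (m := m + 1) (by omega) (hFC m) :=
      iSup_le fun Y w hw => ⟨hXF k (Y.2.2.1 k hw), hle _ Y.2 m (Y.2.2.2 i k m t w hm ht ht' hw)⟩
    exact (this hv).2
  have hCF : ∀ k, C k ≤ Φ.F k := fun k => (hCX k).trans (hXF k)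
  have hC' : Gen C (fun d => Φ.F d) C ∈ fam := by
    refine ⟨fun k => (hFC k).trans (le_Gen _ _ _ _), fun k => Gen_le (hCX k) ?_, ?_⟩
    · intro i l y x hy hx hk
      obtain ⟨a, ha, b, hb, ha', hb', rfl⟩ := h.fac' hy
      exact Φ.comm_mul_left (m := k + 1) (by omega) ((hFC k).trans (hCX k)) ha' hb'
        (hCF l hx) (hCX k (hinvA i l k a x hk ha ha' hx)) (hX i l k b x hk hb hb' (hCX l hx))
    · intro i k m t v hm ht ht' hv
      exact Gen_inv1 (fun k => ⟨hFC k, hCF k⟩) hCF (fun _ _ hz => hz) ht'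
        (fun k m v hm hv => hinvA i k m t v hm ht ht' hv)
        (fun k m v hm hv => hinvA i k m t v hm ht ht' hv)
        (fun d l z s hz hs => mem_Gen (Φ.comm _ _ _ _ ht' hz) hs rfl) k m v hm hv
  exact ⟨C, fun i k m t v hm _ ht' hv => hle _ hC' m (mem_Gen ht' hv hm), hIC, hCX,
    fun Y a1 a2 a3 => hle Y ⟨a1, a2, a3⟩⟩

theorem exists_orbit (h : Pair Φ A B g) {p : ℕ} (hp : p.Prime)
    (hpow : ∀ k x, x ∈ Φ.F k → x ^ p ∈ Φ.F (2 * k + 1))
    (hA : ∀ a a', a ∈ A → a' ∈ A → ⁅a, a'⁆ = 1) (hAp : ∀ a ∈ A, a ^ p = 1)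
    {I : ℕ → Subgroup P} (hI : Good Φ A B I) {n0 : ℕ}
    (hn0 : ∀ d a, n0 ≤ d → a ∈ A → a ∈ Φ.F d → a ∈ I d) (r : ℕ) :
    ∃ O : ℕ → Subgroup P, (∀ m, I m ≤ O m) ∧ (∀ m, O m ≤ Φ.F m) ∧ Φ.Invt A O ∧
      (∀ m, r ≤ m → m < 2 * r + 1 → Φ.F m ≤ O m) ∧ (∀ m, m < r → O m ≤ I m) ∧
      ∃ r', ∀ m, r' ≤ m → O m ≤ I m := by
  let fam : Set (ℕ → Subgroup P) := {Y | (∀ m, I m ≤ Y m) ∧ Φ.Invt A Y ∧
    ∀ m, r ≤ m → m < 2 * r + 1 → Φ.F m ≤ Y m}
  let O : ℕ → Subgroup P := fun m => ⨅ Y : fam, (Y : ℕ → Subgroup P) m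
  have hle : ∀ Y ∈ fam, ∀ m, O m ≤ Y m := fun Y hY m =>
    iInf_le (fun Y : fam => (Y : ℕ → Subgroup P) m) ⟨Y, hY⟩
  have h1 : ∀ m, I m ≤ O m := fun m => le_iInf fun Y => Y.2.1 m
  have h2 : ∀ m, O m ≤ Φ.F m := hle Φ.F ⟨fun m => (hI.1 m).2,
    fun i k m t v hm _ ht hv => Φ.comm' ht hv (by omega), fun _ _ _ => le_rfl⟩
  have h3 : Φ.Invt A O := fun i k m t v hm ht ht' hv => Subgroup.mem_iInf.2 fun Y =>
    Y.2.2.1 i k m t v hm ht ht' (hle _ Y.2 k hv)
  have h4 : ∀ m, r ≤ m → m < 2 * r + 1 → Φ.F m ≤ O m := fun m a1 a2 =>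
    le_iInf fun Y => Y.2.2.2 m a1 a2
  refine ⟨O, h1, h2, h3, h4, fun m hm => ?_, ?_⟩
  · have := hle (fun m => if m < r then I m else O m) ⟨fun m => by
      dsimp only; split_ifs; exacts [le_rfl, h1 m], fun i k m t v hm ht ht' hv => by
        dsimp only at hv ⊢
        by_cases hk : k < r
        · rw [if_pos hk] at hv
          have := hI.2.1 i k m t v hm trivial ht' hv
          split_ifs; exacts [this, h1 m this]
        · rw [if_neg hk] at hv
          rw [if_neg (by omega)]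
          exact h3 i k m t v hm ht ht' hv, fun m a1 a2 => by
      dsimp only; rw [if_neg (by omega)]; exact h4 m a1 a2⟩ m
    rwa [if_pos hm] at this
  · let NA : ℕ → Set P := fun d => {a | a ∈ A ∧ a ∈ Φ.F d}
    have hG : ∀ m, Gen I NA O m ≤ O m := fun m => Gen_le (h1 m) fun d l z s hz hs hk =>
      h3 d l m z s hk hz.1 hz.2 hs
    refine h.nak hp hpow hI.1 h2 (N := NA) (fun d z hz => ⟨hz.2, hAp z hz.1,
      fun k m v hm hv => hI.2.1 d k m z v hm trivial hz.2 hv,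
      fun k m v hm hv => h3 d k m z v hm hz.1 hz.2 hv⟩)
      (fun d e z w k s hz hw _ => by rw [hA z w hz.1 hw.1]; simp) (r := n0) (r' := 2 * r + 1)
      fun m hm => ?_
    have := hle (fun m => if m < 2 * r + 1 then O m else Gen I NA O m) ⟨fun m => by
      dsimp only; split_ifs; exacts [h1 m, le_Gen _ _ _ _], fun i k m t v hm ht ht' hv => by
        dsimp only at hv ⊢
        have hv' : v ∈ O k := by
          split_ifs at hv; exacts [hv, hG k hv]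
        split_ifs
        exacts [h3 i k m t v hm ht ht' hv', mem_Gen ⟨ht, ht'⟩ hv' hm], fun m a1 a2 => by
      dsimp only; rw [if_pos a2]; exact h4 m a1 a2⟩ m
    rw [if_neg (by omega)] at this
    refine this.trans (Gen_le (le_Gen _ _ _ _) fun d l z s hz hs hk => ?_)
    by_cases hd : d < n0
    · exact mem_Gen ⟨hz, hd⟩ hs hk
    · exact le_Gen _ _ _ _ (comm_swap (hI.2.1 l d m s z (by omega) trivial (h2 l hs)
        (hn0 d z (by omega) hz.1 hz.2)))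

theorem stab2 (h : Pair Φ A B g) {n : ℕ} (hp : (n + 1).Prime) (hai : AI.{u} n)
    (hA : ∀ a a', a ∈ A → a' ∈ A → ⁅a, a'⁆ = 1)
    (hAp : ∀ a ∈ A, a ^ (n + 1) = 1) (hBp : ∀ b ∈ B, b ^ (n + 1) = 1) :
    ∃ r, ∀ k, r ≤ k → Φ.F k ≤ Φ.F (k + 1) := by
  by_contra hcon
  have h0 : Small Φ fun k => Φ.F (k + 1) := by
    intro r
    by_contra h1
    simp only [not_exists, not_and, not_not] at h1
    exact hcon ⟨r, h1⟩
  obtain ⟨I, hI, hIs, hmax⟩ := h.exists_max h0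
  have hpow := h.pow_mem hAp hBp
  by_cases hcase : ∀ r, ∃ k, r ≤ k ∧ ¬ Φ.F k ≤ addB B hI.1 k
  · refine no_ji h hp hai hpow hBp (U := addB B hI.1) (S0 := Φ.F) ?_
    refine ⟨btw_addB hI.1, fun k => ⟨Φ.anti k, le_rfl⟩, fun k => (btw_addB hI.1 k).2,
      invt_addB hI, fun i k m t v hm _ ht hv => Φ.comm' ht hv (by omega), ?_, hcase⟩
    intro X hUX hXF hX
    obtain ⟨C, hC, hIC, hCX, hAC⟩ := h.core_good hA hI hUX hXF hX
    rcases hmax C hC hIC with h1 | ⟨r, hr⟩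
    · refine Or.inl fun k x hx => ?_
      obtain ⟨a, ha, b, hb, ha', hb', rfl⟩ := h.fac' (hXF k hx)
      have hbU := mem_addB hI.1 hb hb'
      exact mul_mem (le_addB hI.1 k (h1 k (hAC k a ha
        ((mul_mem_cancel_right (hUX k hbU)).1 hx)))) hbU
    · exact Or.inr ⟨r, fun k hk => (hr k hk).trans (hCX k)⟩
  · simp only [not_forall, not_exists, not_and, not_not] at hcase
    obtain ⟨n0, hn0⟩ := hcase
    let K : ℕ → Subgroup P := fun k => if n0 ≤ k then Φ.F k else I k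
    have hK : ∀ k v, v ∈ K k ↔ v ∈ Φ.F k ∧ (n0 ≤ k ∨ v ∈ I k) := fun k v => by
      simp only [K]
      split_ifs with hk
      · simp [hk]
      · exact ⟨fun hv => ⟨(hI.1 k).2 hv, Or.inr hv⟩, fun hv => hv.2.resolve_left hk⟩
    have hIK : ∀ k, I k ≤ K k := fun k v hv => (hK k v).2 ⟨(hI.1 k).2 hv, Or.inr hv⟩
    have hKF : ∀ k, K k ≤ Φ.F k := fun k v hv => ((hK k v).1 hv).1
    have hsf : ∀ k a b, a ∈ A → b ∈ B → a * b ∈ K k → a ∈ I k := fun k a b ha hb hab => by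
      rcases ((hK k _).1 hab).2 with h1 | h1
      · obtain ⟨b', hb', -, h4⟩ := hn0 k h1 (hKF k hab)
        rw [mul_assoc] at h4
        exact hI.2.2 k a _ ha (mul_mem hb (inv_mem hb')) h4
      · exact hI.2.2 k a b ha hb h1
    have hz := zorn_le_nonempty₀ {X : ℕ → Subgroup P | (∀ k, I k ≤ X k) ∧ (∀ k, X k ≤ K k) ∧
      Φ.Invt B X ∧ Small Φ X} ?_ I ⟨fun _ => le_rfl, hIK,
        fun i k m t v hm _ ht hv => hI.2.1 i k m t v hm trivial ht hv, hIs⟩
    · obtain ⟨U, -, hU⟩ := hz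
      obtain ⟨a1, a2, a3, a4⟩ := hU.prop
      refine no_ji h hp hai hpow hBp (U := U) (S0 := K) ⟨fun k => ⟨(hI.1 k).1.trans (a1 k),
        (a2 k).trans (hKF k)⟩, fun k => ⟨(hI.1 k).1.trans (hIK k), hKF k⟩, a2, a3, ?_, ?_, ?_⟩
      · intro i k m t v hm _ ht hv
        obtain ⟨b1, b2⟩ := (hK k v).1 hv
        exact (hK m _).2 ⟨Φ.comm' ht b1 (by omega), b2.imp (fun _ => by omega)
          fun b3 => hI.2.1 i k m t v hm trivial ht b3⟩
      · intro X b1 b2 b3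
        by_cases hs : Small Φ X
        · exact Or.inl (hU.le_of_ge ⟨fun k => (a1 k).trans (b1 k), b2, b3, hs⟩ b1)
        · simp only [Small, not_forall, not_exists, not_and, not_not] at hs
          obtain ⟨r, hr⟩ := hs
          exact Or.inr ⟨r, fun k hk => (hKF k).trans (hr k hk)⟩
      · intro r
        obtain ⟨k, hk, hk'⟩ := a4 (r + n0)
        exact ⟨k, by omega, fun h5 => hk' fun v hv => h5 ((hK k v).2 ⟨hv, Or.inl (by omega)⟩)⟩
    · intro c hc hch I0 hI0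
      have hne : Nonempty c := ⟨⟨I0, hI0⟩⟩
      have hdir : Directed (· ≤ ·) (fun I : c => (I : ℕ → Subgroup P)) :=
        directedOn_iff_directed.1 hch.directedOn
      have hmem : ∀ k x, x ∈ ⨆ I : c, (I : ℕ → Subgroup P) k ↔
          ∃ I : c, x ∈ (I : ℕ → Subgroup P) k :=
        fun k x => Subgroup.mem_iSup_of_directed fun I J => by
          obtain ⟨K, h1, h2⟩ := hdir I J
          exact ⟨K, h1 k, h2 k⟩
      refine ⟨fun k => ⨆ I : c, (I : ℕ → Subgroup P) k, ⟨fun k => ?_, fun k => ?_, ?_, ?_⟩, ?_⟩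
      · exact fun x hx => (hmem k x).2 ⟨⟨I0, hI0⟩, (hc hI0).1 k hx⟩
      · exact iSup_le fun X => (hc X.2).2.1 k
      · intro i k m t v hm ht ht' hv
        obtain ⟨X, hX⟩ := (hmem k v).1 hv
        exact (hmem m _).2 ⟨X, (hc X.2).2.2.1 i k m t v hm ht ht' hX⟩
      · intro r
        by_contra hcon
        simp only [not_exists, not_and, not_not] at hcon
        obtain ⟨O, o1, o2, o3, o4, o5, r', o6⟩ := h.exists_orbit hp hpow hA hAp hI (n0 := n0)
          (fun d a hd ha ha' => hsf d a 1 ha (one_mem _)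
            ((hK d _).2 ⟨by simpa using ha', Or.inl hd⟩)) r
        obtain ⟨E, hE, e1, e2⟩ := h.fin_classes hp hpow (fun d => O d) (fun d z hz => o2 d hz) r'
        have hex : ∀ q : ℕ × P, ∃ X : c, q ∈ E → r ≤ q.1 → q.2 ∈ (X : ℕ → Subgroup P) q.1 := by
          intro q
          by_cases hq : q ∈ E ∧ r ≤ q.1
          · obtain ⟨X, hX⟩ := (hmem _ _).1 (hcon q.1 hq.2 (o2 _ (e1 q hq.1)))
            exact ⟨X, fun _ _ => hX⟩
          · exact ⟨⟨I0, hI0⟩, fun h1 h2 => absurd ⟨h1, h2⟩ hq⟩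
        choose f hf using hex
        obtain ⟨X, hX⟩ := hdir.finite_set_le (hE.image f)
        obtain ⟨b1, b2, b3, b4⟩ := hc X.2
        have hOX : ∀ m, O m ≤ (X : ℕ → Subgroup P) m := fun m z hz => by
          by_cases c1 : m < r
          · exact b1 m (o5 m c1 hz)
          by_cases c2 : m < r'
          · obtain ⟨z', d1, d2⟩ := e2 m z c2 hz
            rw [← inv_mul_cancel_right z z']
            exact mul_mem (b1 m ((hI.1 m).1 d2))
              (hX (f (m, z')) ⟨_, d1, rfl⟩ m (hf (m, z') d1 (by simpa using c1)))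
          · exact b1 m (o6 m (by omega) hz)
        obtain ⟨C, c1, c2, c3, c4⟩ := h.core_max hI b1 (fun k => (b2 k).trans (hKF k)) b3
        have hOC := c4 O (fun k => (hI.1 k).1.trans (o1 k)) hOX o3
        have hC : Good Φ A B C := ⟨fun k => ⟨(hI.1 k).1.trans (c2 k),
          (c3 k).trans ((b2 k).trans (hKF k))⟩, c1, fun k a b ha hb hab =>
            c2 k (hsf k a b ha hb (b2 k (c3 k hab)))⟩
        obtain ⟨k, hk, hk'⟩ := b4 r
        exact hk' ((h.big_of hC (fun l d1 d2 => (o4 l d1 d2).trans (hOC l)) k hk).trans (c3 k))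
      · intro X hX k
        exact le_iSup (fun I : c => (I : ℕ → Subgroup P) k) ⟨X, hX⟩

end Pair

theorem bound2 (n : ℕ) (hp : (n + 1).Prime) (hai : AI.{u} n) : ∃ N : ℕ,
    ∀ (G : Type u) [Group G] [Finite G], IsPGroup (n + 1) G → ∀ A B : Subgroup G,
      (∀ a ∈ A, a ^ (n + 1) = 1) → (∀ b ∈ B, b ^ (n + 1) = 1) →
      (∀ g : G, ∃ a ∈ A, ∃ b ∈ B, g = a * b) → (∀ a ∈ A, ∀ a' ∈ A, a * a' = a' * a) →
      ∀ g : G, g ^ (n + 1) ^ N = 1 := by
  by_contra hcon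
  simp only [not_exists, not_forall] at hcon
  choose G instG instF hG A B hAp hBp fac hA g hg using hcon
  have := Fact.mk hp
  let A' : Subgroup (∀ n, G n) := Subgroup.pi Set.univ A
  let B' : Subgroup (∀ n, G n) := Subgroup.pi Set.univ B
  have hA0 : ∀ n a a', a ∈ A n → a' ∈ A n → ⁅a, a'⁆ = 1 := fun n a a' ha ha' =>
    commutatorElement_eq_one_iff_mul_comm.2 (hA n a ha a' ha')
  have fac' : ∀ x : ∀ n, G n, ∃ a ∈ A', ∃ b ∈ B', x = a * b := fun x => by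
    choose a ha b hb hab using fun n => fac n (x n)
    exact ⟨a, fun n _ => ha n, b, fun n _ => hb n, funext hab⟩
  have hP := pair_filt A' B' g fac'
  have hAp' : ∀ a ∈ A', a ^ (n + 1) = 1 := fun a ha => funext fun m => hAp m _ (ha m trivial)
  have hBp' : ∀ b ∈ B', b ^ (n + 1) = 1 := fun b hb => funext fun m => hBp m _ (hb m trivial)
  obtain ⟨r, hr⟩ := hP.stab2 hp hai
    (fun a a' ha ha' => funext fun n => hA0 n _ _ (ha n trivial) (ha' n trivial)) hAp' hBp'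
  have hpow : ∀ m, g ^ (n + 1) ^ m ∈ (filt A' B' g).F m := by
    intro m
    induction m with
    | zero => simpa using hP.gmem
    | succ m ih =>
      rw [pow_succ, pow_mul]
      exact (filt A' B' g).mono (by omega) (hP.pow_mem hAp' hBp' m _ ih)
  have hst : ∀ m, (filt A' B' g).F r ≤ (filt A' B' g).F (r + m) := by
    intro m
    induction m with
    | zero => exact le_rfl
    | succ m ih => exact ih.trans (hr _ (by omega))
  have := (hG (r + 1)).isNilpotent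
  obtain ⟨m, hm⟩ := reach (fac (r + 1)) (hA0 (r + 1)) (A' := A') (B' := B') g
    (Pi.evalMonoidHom G (r + 1)) (fun a ha => ha _ trivial) (fun b hb => hb _ trivial)
    (B (r + 1)).normalCore inferInstance (sf_core (fac (r + 1)) (hA0 (r + 1)))
  have h1 := Subgroup.normalCore_le _ (hm _ ((filt A' B' g).mono (by omega) (hst m (hpow r))))
  apply hg (r + 1)
  rw [pow_succ, pow_mul]
  exact hBp _ _ h1

end Pool.Agent.MP38b55a

end

section

set_option autoImplicit false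

namespace Pool.Agent.MP38b55a

universe u

attribute [local instance 100] LieRing.ofAssociativeRing LieAlgebra.ofAssociativeAlgebra

variable {L : Type*} [LieRing L]

/-- The adjoint operator. -/
def ad (x : L) : Module.End ℤ L := LieAlgebra.ad ℤ L x

theorem ad_apply (x y : L) : ad x y = ⁅x, y⁆ := LieAlgebra.ad_apply ℤ L x y

theorem ad_lie (x y : L) : ad ⁅x, y⁆ = ad x * ad y - ad y * ad x :=
  (LieAlgebra.ad ℤ L).map_lie x y

theorem ad_add (x y : L) : ad (x + y) = ad x + ad y := map_add (LieAlgebra.ad ℤ L) x y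
theorem ad_sub (x y : L) : ad (x - y) = ad x - ad y := map_sub (LieAlgebra.ad ℤ L) x y
theorem ad_neg (x : L) : ad (-x) = -ad x := map_neg (LieAlgebra.ad ℤ L) x
theorem ad_zero : ad (0 : L) = 0 := map_zero (LieAlgebra.ad ℤ L)

theorem lad_eq' (l : List L) (c : L) : lad l c = (l.map ad).prod c := lad_eq l c

theorem EngelLin.op {n : ℕ} (h : EngelLin n L) (x : Fin n → L) :
    ∑ σ : Equiv.Perm (Fin n), (List.ofFn fun i => ad (x (σ i))).prod = 0 := by
  ext y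
  have := h x y
  simp only [lad_eq', List.map_ofFn] at this
  rw [LinearMap.sum_apply]
  exact this

theorem end_tors {p : ℕ} (h : ∀ x : L, p • x = 0) (A : Module.End ℤ L) : p • A = 0 := by
  ext y; exact h _

theorem cancel_of_coprime {M : Type*} [AddCommGroup M] {p m : ℕ} (hpm : Nat.Coprime m p) {x : M}
    (h1 : p • x = 0) (h2 : m • x = 0) : x = 0 := by
  have := Nat.dvd_gcd (addOrderOf_dvd_of_nsmul_eq_zero h2) (addOrderOf_dvd_of_nsmul_eq_zero h1)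
  rw [hpm, Nat.dvd_one] at this
  exact AddMonoid.addOrderOf_eq_one_iff.1 this

theorem sand_perm {a b : Module.End ℤ L} {k : ℕ}
    (h : ∀ w : List L, w.length < k → a * (w.map ad).prod * b = 0) {w w' : List L}
    (hw : w.Perm w') : ∀ u : List L, (u ++ w).length ≤ k →
      a * ((u ++ w).map ad).prod * b = a * ((u ++ w').map ad).prod * b := by
  induction hw with
  | nil => intro u _; rfl
  | cons x _ ih =>
    intro u hu
    have := ih (u ++ [x]) (by simpa using hu)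
    simpa using this
  | swap x y l =>
    intro u hu
    have := h (u ++ ⁅y, x⁆ :: l) (by simp at hu ⊢; omega)
    simp only [List.map_append, List.map_cons, List.prod_append, List.prod_cons, ad_lie] at this ⊢
    rw [← sub_eq_zero, ← this]; noncomm_ring
  | trans h1 _ ih1 ih2 =>
    intro u hu
    rw [ih1 u hu, ih2 u (by rw [List.length_append, ← h1.length_eq, ← List.length_append]; exact hu)]

theorem sand_all {n : ℕ} (hp : (n + 1).Prime) (ht : ∀ x : L, (n + 1) • x = 0) (hE : EngelLin n L)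
    {a b : Module.End ℤ L} (h : ∀ w : List L, w.length < n → a * (w.map ad).prod * b = 0) :
    ∀ w : List L, a * (w.map ad).prod * b = 0 := by
  have key : ∀ k, n ≤ k → ∀ w : List L, w.length < k → a * (w.map ad).prod * b = 0 := by
    intro k hk
    induction hk with
    | refl => exact h
    | @step k hk ih =>
      intro w hw
      by_cases hw' : w.length < k
      · exact ih w hw'
      have hk' : n ≤ k := hk
      obtain ⟨x, hx⟩ : ∃ x : Fin n → L, List.ofFn x = w.take n :=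
        ⟨fun i => w[i]'(by have := i.2; omega), List.ext_getElem (by simp; omega) fun i _ _ => by simp⟩
      have e : ∀ σ : Equiv.Perm (Fin n), a * (w.map ad).prod * b =
          a * (List.ofFn fun i => ad (x (σ i))).prod * ((w.drop n).map ad).prod * b := fun σ => by
        have h1 : w.Perm (List.ofFn (x ∘ σ) ++ w.drop n) := by
          conv_lhs => rw [← List.take_append_drop n w, ← hx]
          exact (σ.ofFn_comp_perm x).symm.append_right _
        have := sand_perm ih h1 [] (by simp; omega)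
        simp only [List.nil_append, List.map_append, List.prod_append, List.map_ofFn] at this
        rw [this, ← mul_assoc]; rfl
      refine cancel_of_coprime (m := n.factorial) (p := n + 1)
        ((Nat.Prime.coprime_iff_not_dvd hp).2 (by rw [hp.dvd_factorial]; omega)).symm
        (end_tors ht _) ?_
      have : n.factorial • (a * (w.map ad).prod * b) = ∑ σ : Equiv.Perm (Fin n),
          a * (List.ofFn fun i => ad (x (σ i))).prod * ((w.drop n).map ad).prod * b := by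
        rw [← Finset.sum_congr rfl fun σ _ => e σ, Finset.sum_const, Finset.card_univ,
          Fintype.card_perm, Fintype.card_fin]
      rw [this, ← Finset.sum_mul, ← Finset.sum_mul, ← Finset.mul_sum, hE.op]; simp
  exact fun w => key (n + w.length + 1) (by omega) w (by omega)

theorem abelian_of_sand {c : L} (h : ∀ w : List L, ad c * (w.map ad).prod * ad c = 0)
    (l l' : List L) : ⁅lad l c, lad l' c⁆ = 0 := by
  induction l generalizing l' with
  | nil =>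
    show ⁅c, lad l' c⁆ = 0
    rcases List.eq_nil_or_concat l' with rfl | ⟨w, x, rfl⟩
    · exact lie_self c
    · have := congrArg (fun A : Module.End ℤ L => A x) (h w)
      simp only [Module.End.mul_apply, ad_apply, LinearMap.zero_apply] at this
      rw [lad_eq', List.concat_eq_append, List.map_append, List.prod_append, Module.End.mul_apply]
      simp only [List.map_cons, List.map_nil, List.prod_cons, List.prod_nil, mul_one, ad_apply]
      rw [← lie_skew x c, map_neg, lie_neg, this, neg_zero]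
  | cons x l ih =>
    show ⁅⁅x, lad l c⁆, lad l' c⁆ = 0
    rw [lie_lie, ih, lie_zero, zero_sub, neg_eq_zero]
    exact ih (x :: l')

theorem sand_one {c : L} (h2 : ∀ A : Module.End ℤ L, 2 • A = 0 → A = 0) (h : ad c * ad c = 0)
    (x : L) : ad c * ad x * ad c = 0 := by
  have h1 : ⁅c, ⁅c, x⁆⁆ = 0 := by
    have := congrArg (fun A : Module.End ℤ L => A x) h
    simpa only [Module.End.mul_apply, ad_apply, LinearMap.zero_apply] using this
  have h3 := congrArg ad h1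
  rw [ad_lie, ad_lie, ad_zero] at h3
  apply h2
  have : 2 • (ad c * ad x * ad c) = (ad c * ad c) * ad x + ad x * (ad c * ad c) -
    (ad c * (ad c * ad x - ad x * ad c) - (ad c * ad x - ad x * ad c) * ad c) := by noncomm_ring
  rw [this, h, h3]; simp

theorem lad_left {a : Module.End ℤ L} {c : L} (w : List L) : ∀ u : List L,
    (∀ u' : List L, u'.length < u.length + w.length → a * (u'.map ad).prod * ad c = 0) →
    a * (u.map ad).prod * ad (lad w c) = a * ((u ++ w).map ad).prod * ad c := by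
  induction w with
  | nil => intro u _; simp [lad]
  | cons x w ih =>
    intro u h
    have h1 := ih (u ++ [x]) fun u' hu' => h u' (by simp at hu' ⊢; omega)
    have h2 := ih u fun u' hu' => h u' (by simp; omega)
    rw [h (u ++ w) (by simp)] at h2
    have e : lad (x :: w) c = ⁅x, lad w c⁆ := rfl
    rw [e, ad_lie, mul_sub, ← mul_assoc, ← mul_assoc, h2, zero_mul, sub_zero]
    simpa [mul_assoc] using h1

theorem lad_right {b : Module.End ℤ L} {c : L} (w : List L) : ∀ u : List L,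
    (∀ u' : List L, u'.length < u.length + w.length → ad c * (u'.map ad).prod * b = 0) →
    ad (lad w c) * (u.map ad).prod * b =
      (-1) ^ w.length * (ad c * ((w.reverse ++ u).map ad).prod * b) := by
  induction w with
  | nil => intro u _; simp [lad]
  | cons x w ih =>
    intro u h
    have h1 := ih (x :: u) fun u' hu' => h u' (by simp at hu' ⊢; omega)
    have h2 := ih u fun u' hu' => h u' (by simp; omega)
    rw [h (w.reverse ++ u) (by simp; omega), mul_zero] at h2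
    have e : lad (x :: w) c = ⁅x, lad w c⁆ := rfl
    rw [e, ad_lie, sub_mul, sub_mul, mul_assoc (ad x), mul_assoc (ad x), h2, mul_zero, zero_sub]
    simp only [List.map_cons, List.prod_cons, List.length_cons, List.reverse_cons,
      List.append_assoc, List.singleton_append, pow_succ] at h1 ⊢
    rw [mul_assoc (ad (lad w c)), h1]; simp

theorem lie_lad_concat (c x : L) (w : List L) :
    ⁅c, lad (w ++ [x]) c⁆ = -(ad c * (w.map ad).prod * ad c) x := by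
  rw [lad_eq', List.map_append, List.prod_append, Module.End.mul_apply]
  simp only [List.map_cons, List.map_nil, List.prod_cons, List.prod_nil, mul_one, ad_apply,
    Module.End.mul_apply]
  rw [← lie_skew x c, map_neg, lie_neg]

theorem sand_odd {c : L} (h2 : ∀ A : Module.End ℤ L, 2 • A = 0 → A = 0) {m : ℕ}
    (h : ∀ w : List L, w.length < 2 * m + 1 → ad c * (w.map ad).prod * ad c = 0) :
    ∀ w : List L, w.length < 2 * m + 2 → ad c * (w.map ad).prod * ad c = 0 := by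
  intro w hw
  by_cases hw' : w.length < 2 * m + 1
  · exact h w hw'
  have hl : w.length = 2 * m + 1 := by omega
  have h0 : ⁅c, lad w c⁆ = 0 := by
    rcases List.eq_nil_or_concat w with rfl | ⟨w', x, rfl⟩
    · exact lie_self c
    · rw [List.concat_eq_append, lie_lad_concat, h w' (by simp at hl; omega)]; simp
  have h1 := lad_left (a := ad c) (c := c) w [] fun u hu => h u (by simp at hu; omega)
  have h3 := lad_right (b := ad c) (c := c) w [] fun u hu => h u (by simp at hu; omega)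
  have h4 := sand_perm h (List.reverse_perm w) [] (by simp; omega)
  have h5 := congrArg ad h0
  simp only [List.map_nil, List.prod_nil, mul_one, List.nil_append, List.append_nil] at h1 h3 h4
  rw [ad_lie, ad_zero, h1, h3, h4, hl, pow_succ, pow_mul] at h5
  apply h2
  rw [← h5]; simp [two_smul]

theorem ai_one : AI.{u} 1 := fun L _ ht hE a ha => ⟨a, ha, abelian_of_sand fun w => by
  have := hE.op fun _ => a
  simp only [Finset.univ_unique, Finset.sum_singleton, List.ofFn_succ, List.ofFn_zero,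
    List.prod_cons, List.prod_nil, mul_one] at this
  rw [this]; simp⟩

theorem ai_two : AI.{u} 2 := fun L _ ht hE a ha => ⟨a, ha, abelian_of_sand
  (sand_all (n := 2) (by norm_num) ht hE (by
    have h2 : ∀ A : Module.End ℤ L, 2 • A = 0 → A = 0 := fun A hA =>
      cancel_of_coprime (m := 2) (p := 3) (by norm_num) (end_tors ht A) hA
    have h0 : ad a * ad a = 0 := h2 _ (by
      have := hE.op fun _ => a
      simpa [Fintype.card_perm] using this)
    intro w hw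
    match w, hw with
    | [], _ => simpa using h0
    | [x], _ => simpa using sand_one h2 h0 x))⟩

end Pool.Agent.MP38b55a

end

section

set_option autoImplicit false

namespace Pool.Agent.MP38b55a

variable {L : Type*} [LieRing L]

/-- Right Leibniz rule. -/
theorem rl (u w t : L) : ⁅⁅u, w⁆, t⁆ = ⁅⁅u, t⁆, w⁆ + ⁅u, ⁅w, t⁆⁆ := by
  rw [lie_lie, ← lie_skew ⁅u, t⁆ w]; abel

/-- The right action of a bracket. -/
theorem lr (x u w : L) : ⁅x, ⁅u, w⁆⁆ = ⁅⁅x, u⁆, w⁆ - ⁅⁅x, w⁆, u⁆ := by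
  rw [rl x u w]; abel

theorem rcomm {u w : L} (h : ⁅u, w⁆ = 0) (x : L) : ⁅⁅x, u⁆, w⁆ = ⁅⁅x, w⁆, u⁆ := by
  rw [rl, h, lie_zero, add_zero]

theorem lie_zero_symm {u w : L} (h : ⁅u, w⁆ = 0) : ⁅w, u⁆ = 0 := by
  rw [← lie_skew, h, neg_zero]

/-- A sandwich. -/
def Sand (s : L) : Prop := ∀ y : L, ⁅⁅y, s⁆, s⁆ = 0

/-- `Dg k s t` says that `⁅⁅s, y₁, …, y_j⁆, t⁆ = 0` for all `j < k`. -/
def Dg : ℕ → L → L → Prop
  | 0, _, _ => True
  | k + 1, s, t => ⁅s, t⁆ = 0 ∧ ∀ y, Dg k ⁅s, y⁆ t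

theorem dg_zero (s t : L) : Dg 0 s t := trivial

theorem dg_succ {k : ℕ} {s t : L} : Dg (k + 1) s t ↔ ⁅s, t⁆ = 0 ∧ ∀ y, Dg k ⁅s, y⁆ t := Iff.rfl

theorem dg_one {s t : L} : Dg 1 s t ↔ ⁅s, t⁆ = 0 := ⟨fun h => h.1, fun h => ⟨h, fun _ => trivial⟩⟩

theorem Dg.pred {k : ℕ} : ∀ {s t : L}, Dg (k + 1) s t → Dg k s t := by
  induction k with
  | zero => intro _ _ _; trivial
  | succ k ih => intro s t h; exact ⟨h.1, fun y => ih (h.2 y)⟩

theorem Dg.mono {j k : ℕ} {s t : L} (h : Dg k s t) (hjk : j ≤ k) : Dg j s t := by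
  induction hjk with
  | refl => exact h
  | step _ ih => exact ih h.pred

theorem Dg.zero_left (k : ℕ) (t : L) : Dg k 0 t := by
  induction k with
  | zero => trivial
  | succ k ih => exact ⟨zero_lie _, fun y => by rw [zero_lie]; exact ih⟩

theorem Dg.add {k : ℕ} : ∀ {s s' t : L}, Dg k s t → Dg k s' t → Dg k (s + s') t := by
  induction k with
  | zero => intro _ _ _ _ _; trivial
  | succ k ih =>
    intro s s' t h h'
    exact ⟨by rw [add_lie, h.1, h'.1, add_zero], fun y => by rw [add_lie]; exact ih (h.2 y) (h'.2 y)⟩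

theorem Dg.neg {k : ℕ} : ∀ {s t : L}, Dg k s t → Dg k (-s) t := by
  induction k with
  | zero => intro _ _ _; trivial
  | succ k ih =>
    intro s t h
    exact ⟨by rw [neg_lie, h.1, neg_zero], fun y => by rw [neg_lie]; exact ih (h.2 y)⟩

theorem Dg.sub {k : ℕ} {s s' t : L} (h : Dg k s t) (h' : Dg k s' t) : Dg k (s - s') t := by
  rw [sub_eq_add_neg]; exact h.add h'.neg

theorem Dg.right {k : ℕ} : ∀ {s t : L}, Dg (k + 1) s t → ∀ y, Dg k s ⁅t, y⁆ := by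
  induction k with
  | zero => intro _ _ _ _; trivial
  | succ k ih =>
    intro s t h y
    exact ⟨by rw [lr, h.1, (h.2 y).1, zero_lie, sub_zero], fun z => ih (h.2 z) y⟩

theorem Dg.symm {k : ℕ} : ∀ {s t : L}, Dg k s t → Dg k t s := by
  induction k with
  | zero => intro _ _ _; trivial
  | succ k ih => intro s t h; exact ⟨lie_zero_symm h.1, fun y => ih (h.right y)⟩

/-- Superadditivity. -/
theorem Dg.lie {c : ℕ} : ∀ {a b : ℕ} {s t e : L}, Dg a s e → Dg b t e → c + 1 ≤ a + b →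
    Dg c ⁅s, t⁆ e := by
  induction c with
  | zero => intro _ _ _ _ _ _ _ _; trivial
  | succ c ih =>
    intro a b s t e hs ht hc
    have hp : ∀ {k : ℕ} {x : L}, Dg k x e → ∀ y, Dg (k - 1) ⁅x, y⁆ e := fun {k x} h y => by
      cases k with
      | zero => trivial
      | succ k => exact h.2 y
    refine ⟨?_, fun y => ?_⟩
    · by_cases ha : a = 0
      · rw [← lie_skew s t, neg_lie, ((ht.mono (j := 2) (by omega)).2 s).1, neg_zero]
      by_cases hb : b = 0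
      · exact ((hs.mono (j := 2) (by omega)).2 t).1
      rw [rl, (hs.mono (j := 1) (by omega)).1, (ht.mono (j := 1) (by omega)).1, zero_lie, lie_zero,
        add_zero]
    · rw [rl]
      exact (ih (hp hs y) ht (by omega)).add (ih hs (hp ht y) (by omega))

/-- It is enough to test on a spanning set. -/
theorem dg_span {E : Set L} (hE : Submodule.span ℤ E = ⊤) {k : ℕ} {s t : L} (h0 : ⁅s, t⁆ = 0)
    (h : ∀ y ∈ E, Dg k ⁅s, y⁆ t) : Dg (k + 1) s t := by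
  refine ⟨h0, fun y => ?_⟩
  have hy : y ∈ (Submodule.span ℤ E).toAddSubgroup := by rw [hE]; trivial
  rw [Submodule.span_int_eq_addSubgroupClosure] at hy
  induction hy using AddSubgroup.closure_induction with
  | mem x hx => exact h x hx
  | zero => rw [lie_zero]; exact Dg.zero_left _ _
  | add x y _ _ hx hy => rw [lie_add]; exact hx.add hy
  | neg x _ hx => rw [lie_neg]; exact hx.neg

theorem lad_append (l l' : List L) (c : L) : lad (l ++ l') c = lad l (lad l' c) :=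
  List.foldr_append

theorem lad_neg (l : List L) (c : L) : lad l (-c) = -lad l c := by
  rw [lad_eq', lad_eq', map_neg]

theorem dg_iff {k : ℕ} : ∀ {s t : L}, Dg k s t ↔ ∀ l : List L, l.length < k → ⁅lad l s, t⁆ = 0 := by
  induction k with
  | zero => intro s t; exact ⟨fun _ _ h => absurd h (by omega), fun _ => trivial⟩
  | succ k ih =>
    intro s t
    have e : ∀ (l : List L) (y : L), lad (l ++ [y]) s = -lad l ⁅s, y⁆ := fun l y => by
      rw [lad_append, ← lad_neg, lie_skew]; rfl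
    constructor
    · intro h l hl
      rcases List.eq_nil_or_concat l with rfl | ⟨w, y, rfl⟩
      · exact h.1
      · rw [List.concat_eq_append, e, neg_lie, ih.1 (h.2 y) w (by simpa using hl), neg_zero]
    · intro h
      refine ⟨h [] (by simp), fun y => ih.2 fun l hl => ?_⟩
      have := h (l ++ [y]) (by simpa using hl)
      rwa [e, neg_lie, neg_eq_zero] at this

/-- No 2-torsion. -/
def No2 (L : Type*) [AddCommGroup L] : Prop := ∀ x : L, x + x = 0 → x = 0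

namespace Sand
variable {s t : L}

theorem rr (h2 : No2 L) (hs : Sand s) (x y : L) : ⁅⁅x, s⁆, ⁅y, s⁆⁆ = 0 := by
  apply h2
  have := hs ⁅x, y⁆
  rw [rl x y s, add_lie, rl ⁅x, s⁆ y s, rl x ⁅y, s⁆ s, hs, hs, zero_lie, lie_zero, zero_add,
    add_zero] at this
  exact this

theorem ryr (h2 : No2 L) (hs : Sand s) (x y : L) : ⁅⁅⁅x, s⁆, y⁆, s⁆ = 0 := by
  rw [rl, hs, hs.rr h2, zero_lie, add_zero]

theorem dg3 (h2 : No2 L) (hs : Sand s) : Dg 3 s s := by
  refine ⟨lie_self s, fun y => ⟨?_, fun z => ⟨?_, fun _ => trivial⟩⟩⟩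
  · rw [← lie_skew s y, neg_lie, hs, neg_zero]
  · rw [← lie_skew s y, neg_lie, neg_lie, hs.ryr h2, neg_zero]

/-- An element of `⁅L, s⁆` has degree at least one against `s`. -/
theorem dg2 (h2 : No2 L) (hs : Sand s) (x : L) : Dg 2 ⁅x, s⁆ s :=
  (dg_zero x s).lie (hs.dg3 h2) le_rfl

theorem lie (h2 : No2 L) (hs : Sand s) (ht : Sand t) : Sand ⁅s, t⁆ := fun y => by
  simp only [lr _ s t, sub_lie, hs.ryr h2, ht.ryr h2, hs _, ht _, zero_lie, sub_zero]

theorem neg (hs : Sand s) : Sand (-s) := fun y => by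
  rw [lie_neg, lie_neg, neg_lie, hs, neg_zero, neg_zero]

end Sand

end Pool.Agent.MP38b55a

end

section

set_option autoImplicit false

open Polynomial

namespace Pool.Agent.MP38b55a

variable {K : Type} [Field K]

section
variable {V : Type*} [AddCommGroup V] [Module K V]

/-- Polynomial maps `K → V`. -/
def PF (K : Type) [Field K] (V : Type*) [AddCommGroup V] [Module K V] : Submodule K (K → V) :=
  Submodule.span K {f | ∃ (i : ℕ) (v : V), f = fun τ => τ ^ i • v}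

theorem PF.mon (i : ℕ) (v : V) : (fun τ : K => τ ^ i • v) ∈ PF K V :=
  Submodule.subset_span ⟨i, v, rfl⟩

theorem PF.const (v : V) : (fun _ : K => v) ∈ PF K V := by simpa using PF.mon (K := K) 0 v

theorem PF.add {f g : K → V} (hf : f ∈ PF K V) (hg : g ∈ PF K V) :
    (fun τ => f τ + g τ) ∈ PF K V := add_mem hf hg

theorem PF.neg {f : K → V} (hf : f ∈ PF K V) : (fun τ => -f τ) ∈ PF K V := neg_mem hf

theorem PF.var {f : K → V} (hf : f ∈ PF K V) : (fun τ => τ • f τ) ∈ PF K V := by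
  induction hf using Submodule.span_induction with
  | mem x hx =>
    obtain ⟨i, v, rfl⟩ := hx
    have := PF.mon (K := K) (i + 1) v
    simpa only [pow_succ', mul_smul] using this
  | zero => simpa using PF.const (K := K) (0 : V)
  | add x y _ _ hx hy => simpa only [Pi.add_apply, smul_add] using PF.add hx hy
  | smul a x _ hx =>
    have : (fun τ => τ • (a • x) τ) = a • fun τ => τ • x τ := by
      ext τ; simp only [Pi.smul_apply]; rw [smul_comm]
    rw [this]; exact Submodule.smul_mem _ a hx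

theorem PF.map {W : Type*} [AddCommGroup W] [Module K W] (φ : V →ₗ[K] W) {f : K → V}
    (hf : f ∈ PF K V) : (fun τ => φ (f τ)) ∈ PF K W := by
  induction hf using Submodule.span_induction with
  | mem x hx => obtain ⟨i, v, rfl⟩ := hx; simpa only [map_smul] using PF.mon (K := K) i (φ v)
  | zero => simpa using PF.const (K := K) (0 : W)
  | add x y _ _ hx hy => simpa only [Pi.add_apply, map_add] using PF.add hx hy
  | smul a x _ hx =>
    have : (fun τ => φ ((a • x) τ)) = a • fun τ => φ (x τ) := by ext τ; simp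
    rw [this]; exact Submodule.smul_mem _ a hx

theorem PF.poly {f : K → K} (hf : f ∈ PF K K) : ∃ G : K[X], ∀ τ, f τ = G.eval τ := by
  induction hf using Submodule.span_induction with
  | mem x hx =>
    obtain ⟨i, v, rfl⟩ := hx
    exact ⟨X ^ i * C v, fun τ => by simp only [eval_mul, eval_pow, eval_X, eval_C, smul_eq_mul]⟩
  | zero => exact ⟨0, fun τ => by simp⟩
  | add x y _ _ hx hy =>
    obtain ⟨G, hG⟩ := hx
    obtain ⟨H, hH⟩ := hy
    exact ⟨G + H, fun τ => by simp [hG, hH]⟩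
  | smul a x _ hx => obtain ⟨G, hG⟩ := hx; exact ⟨C a * G, fun τ => by simp [hG]⟩

/-- The tangent lemma. -/
theorem tangent [Infinite K] (W : Submodule K V) {c0 c1 : V} {g : K → V} (hg : g ∈ PF K V)
    (h : ∀ τ : K, c0 + τ • c1 + τ ^ 2 • g τ ∈ W) : c1 ∈ W := by
  rw [← Subspace.forall_mem_dualAnnihilator_apply_eq_zero_iff]
  intro φ hφ
  obtain ⟨G, hG⟩ := PF.poly (PF.map φ hg)
  have h0 : C (φ c0) + X * C (φ c1) + X ^ 2 * G = 0 := Polynomial.funext fun τ => by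
    have := (Submodule.mem_dualAnnihilator φ).1 hφ _ (h τ)
    simpa only [map_add, map_smul, smul_eq_mul, hG, eval_add, eval_mul, eval_pow, eval_X, eval_C,
      eval_zero] using this
  have := congrArg (fun P : K[X] => P.coeff 1) h0
  simpa [coeff_X_pow_mul', coeff_C] using this

theorem tangent_zero [Infinite K] {c0 c1 : V} {g : K → V} (hg : g ∈ PF K V)
    (h : ∀ τ : K, c0 + τ • c1 + τ ^ 2 • g τ = 0) : c1 = 0 :=
  tangent (⊥ : Submodule K V) hg h

end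

variable {L : Type*} [LieRing L] [LieAlgebra K L]

theorem PF.lie {f g : K → L} (hf : f ∈ PF K L) (hg : g ∈ PF K L) :
    (fun τ => ⁅f τ, g τ⁆) ∈ PF K L := by
  induction hf using Submodule.span_induction with
  | mem x hx =>
    obtain ⟨i, v, rfl⟩ := hx
    have h1 := PF.map (LieAlgebra.ad K L v) hg
    simp only [LieAlgebra.ad_apply] at h1
    induction i with
    | zero => simpa using h1
    | succ i ih => simpa only [pow_succ', mul_smul, smul_lie] using PF.var ih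
  | zero => simpa using PF.const (K := K) (0 : L)
  | add x y _ _ hx hy => simpa only [Pi.add_apply, add_lie] using PF.add hx hy
  | smul a x _ hx =>
    have : (fun τ => ⁅(a • x) τ, g τ⁆) = a • fun τ => ⁅x τ, g τ⁆ := by ext τ; simp
    rw [this]; exact Submodule.smul_mem _ a hx

/-- A polynomial curve through `a` with tangent `⁅x, a⁆`. -/
def Crv (a x : L) (γ : K → L) : Prop :=
  ∃ g ∈ PF K L, ∀ τ : K, γ τ = a + τ • ⁅x, a⁆ + τ ^ 2 • g τ

theorem Crv.base (a x : L) : Crv a x fun τ : K => a + τ • ⁅x, a⁆ :=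
  ⟨0, zero_mem _, fun τ => by simp⟩

theorem Crv.zero (x : L) : Crv 0 x fun _ : K => (0 : L) := ⟨0, zero_mem _, fun τ => by simp⟩

theorem Crv.add {a b x : L} {γ δ : K → L} (h : Crv a x γ) (h' : Crv b x δ) :
    Crv (a + b) x fun τ => γ τ + δ τ := by
  obtain ⟨g, hg, e⟩ := h
  obtain ⟨g', hg', e'⟩ := h'
  exact ⟨_, PF.add hg hg', fun τ => by beta_reduce; rw [e, e', lie_add]; module⟩

theorem Crv.neg {a x : L} {γ : K → L} (h : Crv a x γ) : Crv (-a) x fun τ => -γ τ := by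
  obtain ⟨g, hg, e⟩ := h
  exact ⟨_, PF.neg hg, fun τ => by beta_reduce; rw [e, lie_neg]; module⟩

theorem Crv.lie {a b x : L} {γ δ : K → L} (h : Crv a x γ) (h' : Crv b x δ) :
    Crv ⁅a, b⁆ x fun τ => ⁅γ τ, δ τ⁆ := by
  obtain ⟨g, hg, e⟩ := h
  obtain ⟨g', hg', e'⟩ := h'
  have hδ : δ ∈ PF K L := by
    rw [show δ = fun τ => b + τ • (⁅x, b⁆ + τ • g' τ) from funext fun τ => by rw [e']; module]
    exact PF.add (PF.const b) (PF.var (PF.add (PF.const _) (PF.var hg')))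
  refine ⟨_, PF.add (PF.add (PF.lie hg hδ) (PF.const ⁅⁅x, a⁆, ⁅x, b⁆⁆))
    (PF.lie (PF.add (PF.const a) (PF.var (PF.const ⁅x, a⁆))) hg'), fun τ => ?_⟩
  beta_reduce
  rw [e, add_lie, smul_lie, leibniz_lie x a b]
  conv_lhs => enter [1]; rw [e']
  simp only [add_lie, lie_add, smul_lie, lie_smul]
  module

theorem Crv.pow {a b x : L} {γ δ : K → L} (h : Crv a x γ) (h' : Crv b x δ) (k : ℕ) :
    Crv ((ad a ^ k) b) x fun τ => (ad (γ τ) ^ k) (δ τ) := by
  induction k with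
  | zero => exact h'
  | succ k ih => simpa only [pow_succ', Module.End.mul_apply, ad_apply] using h.lie ih

/-- A tangent-closed set. -/
def TC (K : Type) [Field K] {L : Type*} [LieRing L] [LieAlgebra K L] (A : Set L) : Prop :=
  ∀ a ∈ A, ∀ x : L, ∃ γ : K → L, Crv a x γ ∧ ∀ τ, γ τ ∈ A

theorem TC.univ : TC K (Set.univ : Set L) := fun a _ x => ⟨_, Crv.base a x, fun _ => trivial⟩

theorem TC.lie {A B : Set L} (hA : TC K A) (hB : TC K B) :
    TC K {c | ∃ a ∈ A, ∃ b ∈ B, c = ⁅a, b⁆} := by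
  rintro _ ⟨a, ha, b, hb, rfl⟩ x
  obtain ⟨γ, h1, h2⟩ := hA a ha x
  obtain ⟨δ, h3, h4⟩ := hB b hb x
  exact ⟨_, h1.lie h3, fun τ => ⟨_, h2 τ, _, h4 τ, rfl⟩⟩

/-- The span of a tangent-closed set is an ideal. -/
theorem TC.ideal [Infinite K] {A : Set L} (hA : TC K A) (x : L) {s : L}
    (hs : s ∈ Submodule.span K A) : ⁅x, s⁆ ∈ Submodule.span K A := by
  induction hs using Submodule.span_induction with
  | mem a ha =>
    obtain ⟨γ, ⟨g, hg, e⟩, h2⟩ := hA a ha x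
    exact tangent _ hg fun τ => e τ ▸ Submodule.subset_span (h2 τ)
  | zero => rw [lie_zero]; exact zero_mem _
  | add a b _ _ ha hb => rw [lie_add]; exact add_mem ha hb
  | smul r a _ ha => rw [lie_smul]; exact Submodule.smul_mem _ r ha

end Pool.Agent.MP38b55a

end

section

set_option autoImplicit false

namespace Pool.Agent.MP38b55a

variable {L : Type*} [LieRing L]

/-- The square of the adjoint operator of `v`. -/
def vv (v y : L) : L := ⁅v, ⁅v, y⁆⁆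

/-- Elements commuting with `v` and with the range of `vv v`. -/
def K1 (v e : L) : Prop := ⁅e, v⁆ = 0 ∧ ∀ w, ⁅e, vv v w⁆ = 0

/-- A Jordan element in a Lie ring without 2- and 3-torsion. -/
structure JE (v : L) : Prop where
  two : No2 L
  three : ∀ x : L, x + x + x = 0 → x = 0
  cube : ∀ y : L, ⁅v, ⁅v, ⁅v, y⁆⁆⁆ = (0 : L)

theorem vv_add (v x y : L) : vv v (x + y) = vv v x + vv v y := by simp only [vv, lie_add]
theorem vv_sub (v x y : L) : vv v (x - y) = vv v x - vv v y := by simp only [vv, lie_sub]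
theorem vv_neg (v x : L) : vv v (-x) = -vv v x := by simp only [vv, lie_neg]
theorem vv_zero (v : L) : vv v 0 = 0 := by simp only [vv, lie_zero]
theorem lie_lie_eq_vv (v x : L) : ⁅⁅x, v⁆, v⁆ = vv v x := by
  rw [← lie_skew ⁅x, v⁆, ← lie_skew x, lie_neg, neg_neg]; rfl
theorem vv_lie (v x y : L) :
    vv v ⁅x, y⁆ = ⁅vv v x, y⁆ + (⁅⁅x, v⁆, ⁅y, v⁆⁆ + ⁅⁅x, v⁆, ⁅y, v⁆⁆) + ⁅x, vv v y⁆ := by
  rw [← lie_skew x v, ← lie_skew y v, neg_lie, lie_neg, neg_neg, vv, leibniz_lie v x y, lie_add,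
    leibniz_lie v ⁅v, x⁆ y, leibniz_lie v x ⁅v, y⁆]
  simp only [vv]; abel

namespace K1
variable {v e e' : L}

theorem zero (v : L) : K1 v 0 := ⟨zero_lie _, fun _ => zero_lie _⟩
theorem add (h : K1 v e) (h' : K1 v e') : K1 v (e + e') :=
  ⟨by rw [add_lie, h.1, h'.1, add_zero], fun w => by rw [add_lie, h.2, h'.2, add_zero]⟩
theorem neg (h : K1 v e) : K1 v (-e) :=
  ⟨by rw [neg_lie, h.1, neg_zero], fun w => by rw [neg_lie, h.2, neg_zero]⟩
theorem sub (h : K1 v e) (h' : K1 v e') : K1 v (e - e') := by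
  rw [sub_eq_add_neg]; exact h.add h'.neg
theorem half (h2 : No2 L) (h : K1 v (e + e)) : K1 v e :=
  ⟨h2 _ (by rw [← add_lie, h.1]), fun w => h2 _ (by rw [← add_lie, h.2])⟩
theorem ker (h : K1 v e) (x : L) : vv v ⁅x, e⁆ = 0 := by
  have : vv v e = 0 := by rw [← lie_lie_eq_vv, h.1, zero_lie]
  rw [vv_lie, this, h.1, lie_zero_symm (h.2 x)]; simp

end K1

namespace JE
variable {v : L} (h : JE v)
include h

theorem j1 (u y : L) : ⁅v, ⁅v, ⁅u, ⁅v, y⁆⁆⁆⁆ = ⁅v, ⁅u, ⁅v, ⁅v, y⁆⁆⁆⁆ := by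
  have : ⁅⁅v, ⁅v, ⁅v, u⁆⁆⁆, y⁆ = 0 := by rw [h.cube, zero_lie]
  rw [lie_lie, lie_lie v ⁅v, u⁆, lie_lie v ⁅v, u⁆] at this
  simp only [lie_lie, lie_sub, h.cube, lie_zero] at this
  rw [← sub_eq_zero]
  apply h.three
  rw [← neg_eq_zero, ← this]; abel

theorem j2 (u y : L) : ⁅v, ⁅v, ⁅u, ⁅v, ⁅v, y⁆⁆⁆⁆⁆ = 0 := by
  rw [h.j1, h.cube, lie_zero, lie_zero]

theorem v_vv (w : L) : ⁅v, vv v w⁆ = 0 := h.cube w

theorem j3 (a w y : L) : ⁅vv v a, ⁅vv v w, y⁆⁆ = vv v ⁅a, ⁅w, vv v y⁆⁆ := by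
  simp only [vv, lie_lie, lie_sub, h.cube, h.j2, h.j1, lie_zero]
  abel

theorem vv_vv (a w : L) : ⁅vv v a, vv v w⁆ = 0 := by
  simp only [vv, lie_lie, h.cube, h.j2, lie_zero, sub_zero]

theorem jt (u w : L) : ⁅⁅u, v⁆, vv v w⁆ = -vv v ⁅⁅u, v⁆, w⁆ := by
  simp only [vv, lie_lie, lie_sub, h.cube, h.j1, lie_zero]
  abel

theorem jsym (u w : L) : vv v ⁅⁅u, v⁆, w⁆ = vv v ⁅⁅w, v⁆, u⁆ := by
  have : ⁅⁅u, v⁆, w⁆ = ⁅⁅w, v⁆, u⁆ - ⁅v, ⁅u, w⁆⁆ := by
    rw [leibniz_lie v u w, ← lie_skew v u, ← lie_skew ⁅w, v⁆ u, ← lie_skew v w]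
    simp only [neg_lie, lie_neg]; abel
  rw [this, vv_sub]
  simp only [vv, h.cube, sub_zero]

theorem cube_vv (a y : L) : ⁅vv v a, ⁅vv v a, ⁅vv v a, y⁆⁆⁆ = 0 := by
  rw [h.j3 a a y, h.vv_vv]

theorem k1_vv (w : L) : K1 v (vv v w) := ⟨lie_zero_symm (h.v_vv w), h.vv_vv w⟩

theorem ker_v {k : L} (hk : vv v k = 0) : K1 v ⁅k, v⁆ :=
  ⟨by rw [lie_lie_eq_vv, hk], fun w => by rw [h.jt, h.jsym, ← h.jt, hk, lie_zero]⟩

theorem ker_vv {k : L} (hk : vv v k = 0) (w : L) : K1 v ⁅k, vv v w⁆ :=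
  ⟨by rw [rl, (h.ker_v hk).2, lie_zero_symm (h.v_vv w), lie_zero, add_zero], fun w' => by
    rw [← lie_skew, ← lie_skew k, lie_neg, h.j3, hk, lie_zero, lie_zero, vv_zero, neg_zero,
      neg_zero]⟩

theorem k1_T {e : L} (he : K1 v e) (u : L) : K1 v ⁅⁅u, v⁆, e⁆ :=
  ⟨by rw [rl, he.1, lie_lie_eq_vv, lie_zero_symm (he.2 u), lie_zero, add_zero], fun w => by
    rw [lie_lie, he.2, h.jt, lie_neg, he.2, lie_zero, neg_zero, sub_zero]⟩

/-- The Jordan identity at the level of inner structure operators. -/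
theorem psi (u x : L) : K1 v (⁅⁅⁅u, v⁆, u⁆, vv v x⁆ + ⁅⁅⁅⁅⁅u, v⁆, u⁆, v⁆, x⁆, v⁆ -
    (⁅⁅⁅u, v⁆, ⁅⁅u, v⁆, x⁆⁆, v⁆ + ⁅⁅⁅u, v⁆, ⁅⁅u, v⁆, x⁆⁆, v⁆) -
    (⁅u, vv v ⁅⁅u, v⁆, x⁆⁆ + ⁅u, vv v ⁅⁅u, v⁆, x⁆⁆)) := by
  have := h.k1_vv (⁅u, ⁅u, ⁅v, x⁆⁆⁆ + ⁅⁅⁅u, v⁆, u⁆, x⁆ - (⁅u, ⁅⁅u, v⁆, x⁆⁆ + ⁅u, ⁅⁅u, v⁆, x⁆⁆) -
    (⁅u, ⁅v, ⁅u, x⁆⁆⁆ + ⁅u, ⁅v, ⁅u, x⁆⁆⁆))
  convert this using 1
  rw [← lie_skew ⁅_, x⁆ v, ← lie_skew ⁅_, ⁅_, x⁆⁆ v]
  simp only [vv, lie_lie, lie_sub, lie_add, sub_lie, h.cube, h.j1, lie_zero]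
  abel

end JE

end Pool.Agent.MP38b55a

end

section

set_option autoImplicit false

namespace Pool.Agent.MP38b55a

universe u

/-- The ideal generated by `c` is abelian. -/
def AbI {L : Type*} [LieRing L] (c : L) : Prop := ∀ l l' : List L, ⁅lad l c, lad l' c⁆ = 0

/-- The abelian ideal statement for Lie algebras over infinite fields. -/
def AIK (n : ℕ) : Prop :=
  ∀ (K : Type) [Field K] [Infinite K] (L : Type u) [LieRing L] [LieAlgebra K L],
    (∀ x : L, (n + 1) • x = 0) → EngelLin n L → ∀ a : L, a ≠ 0 → ∃ c : L, c ≠ 0 ∧ AbI c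

/-- Descent from an infinite field to the prime field. -/
def DescStmt : Prop := ∀ n : ℕ, (n + 1).Prime → AIK.{u} n → AI.{u} n

/-- Lowering the nilpotency index down to three. -/
def S1Stmt : Prop := ∀ p m : ℕ, p.Prime → 7 ≤ p → 4 ≤ m → m < p → ∀ (L : Type u) [LieRing L],
  (∀ x : L, p • x = 0) → ∀ v w : L, ad v ^ m = 0 → ad ((ad v ^ (m - 1)) w) ^ (m - 1) = 0

/-- The abelian ideal statement for Lie rings spanned by sandwiches. -/
def SandStmt (n : ℕ) : Prop := ∀ (M : Type u) [LieRing M], (∀ x : M, (n + 1) • x = 0) →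
  EngelLin n M → Submodule.span ℤ {s : M | Sand s} = ⊤ → ∀ a : M, a ≠ 0 → ∃ c : M, c ≠ 0 ∧ AbI c

/-- From a tangent-closed set of sandwiches to elements generating abelian ideals of its span. -/
def RelStmt : Prop := ∀ n : ℕ, (n + 1).Prime → 2 ≤ n → SandStmt.{u} n →
  ∀ (K : Type) [Field K] (L : Type u) [LieRing L] [LieAlgebra K L],
    (∀ x : L, (n + 1) • x = 0) → EngelLin n L → ∀ A : Set L, TC K A → (∀ a ∈ A, Sand a) →
    (∃ a ∈ A, a ≠ 0) → (∀ x : L, ∀ s ∈ Submodule.span K A, ⁅x, s⁆ ∈ Submodule.span K A) →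
    ∃ B : Set L, TC K B ∧ (∃ b ∈ B, b ≠ 0) ∧ (∀ b ∈ B, b ∈ Submodule.span K A) ∧
      ∀ b ∈ B, ∀ l l' : List L, (∀ x ∈ l, x ∈ Submodule.span K A) →
        (∀ x ∈ l', x ∈ Submodule.span K A) → ⁅lad l b, lad l' b⁆ = 0

/-- Abelian ideals of an ideal give an abelian ideal. -/
def HerStmt : Prop := ∀ n : ℕ, (n + 1).Prime →
  ∀ (K : Type) [Field K] [Infinite K] (L : Type u) [LieRing L] [LieAlgebra K L],
    (∀ x : L, (n + 1) • x = 0) → EngelLin n L → ∀ S : Submodule K L, (∀ x : L, ∀ s ∈ S, ⁅x, s⁆ ∈ S) →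
    ∀ B : Set L, TC K B → (∃ b ∈ B, b ≠ 0) → (∀ b ∈ B, b ∈ S) →
    (∀ b ∈ B, ∀ l l' : List L, (∀ x ∈ l, x ∈ S) → (∀ x ∈ l', x ∈ S) → ⁅lad l b, lad l' b⁆ = 0) →
    ∃ c : L, c ≠ 0 ∧ AbI c

/-- A Lie ring spanned by sandwiches without thick sandwiches. -/
structure SW (M : Type*) [LieRing M] : Prop where
  two : No2 M
  span : Submodule.span ℤ {s : M | Sand s} = ⊤
  tf : ∀ m : M, Dg 4 m m → m = 0

end Pool.Agent.MP38b55a

end

section

set_option autoImplicit false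

namespace Pool.Agent.MP38b55a

variable {M : Type*} [LieRing M]

theorem Sand.rxyr {s x : M} (h2 : No2 M) (hs : Sand s) (hx : ⁅s, x⁆ = 0) (w y : M) :
    ⁅⁅⁅⁅w, s⁆, x⁆, y⁆, s⁆ = 0 := by rw [rcomm hx w, hs.ryr h2]

theorem Sand.ryxr {s x : M} (h2 : No2 M) (hs : Sand s) (hx : ⁅s, x⁆ = 0) (w y : M) :
    ⁅⁅⁅⁅w, s⁆, y⁆, x⁆, s⁆ = 0 := by rw [← rcomm hx, hs.ryr h2, zero_lie]

theorem lie_r {x w s : M} (h : ⁅x, s⁆ = 0) : ⁅x, ⁅w, s⁆⁆ = ⁅⁅x, w⁆, s⁆ := by
  rw [lr, h, zero_lie, sub_zero]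

/-- Two commuting sandwiches. -/
theorem cd_thick {c d : M} (h2 : No2 M) (hc : Sand c) (hd : Sand d) (h : ⁅c, d⁆ = 0) (w x y : M) :
    ⁅⁅⁅⁅⁅⁅w, c⁆, d⁆, x⁆, y⁆, c⁆, d⁆ = 0 := by
  have e : ∀ v : M, ⁅⁅⁅⁅v, d⁆, x⁆, y⁆, d⁆ = ⁅⁅v, ⁅⁅d, x⁆, y⁆⁆, d⁆ := fun v => by
    simp only [lr, sub_lie, hd.ryr h2, hd _, sub_zero]
  rw [rcomm h, e, hc.ryxr h2 h]

/-- A configuration of type `D₄`. -/
structure D4 (a b c d : M) : Prop where
  two : No2 M
  sa : Sand a
  sb : Sand b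
  sc : Sand c
  sd : Sand d
  bc : ⁅b, c⁆ = 0
  bd : ⁅b, d⁆ = 0
  cd : ⁅c, d⁆ = 0

/-- Top elements. -/
def tp (a b c d y : M) : M := ⁅⁅⁅⁅⁅⁅y, b⁆, a⁆, c⁆, d⁆, a⁆, b⁆
/-- Multiplication elements. -/
def rho (a c d z : M) : M := ⁅⁅⁅z, c⁆, a⁆, d⁆
/-- Products of low elements. -/
def pr (a b c y z : M) : M := ⁅⁅y, b⁆, ⁅⁅z, c⁆, a⁆⁆

namespace D4
variable {a b c d : M} (h : D4 a b c d)
include h

theorem s12 : D4 a c b d := ⟨h.two, h.sa, h.sc, h.sb, h.sd, lie_zero_symm h.bc, h.cd, h.bd⟩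
theorem s23 : D4 a b d c := ⟨h.two, h.sa, h.sb, h.sd, h.sc, h.bd, h.bc, lie_zero_symm h.cd⟩

theorem tp_sym (y : M) : tp a b c d y = tp a b d c y := by rw [tp, tp, rcomm h.cd]
theorem tp_a (y : M) : ⁅tp a b c d y, a⁆ = 0 := h.sa.ryr h.two _ _
theorem tp_b (y : M) : ⁅tp a b c d y, b⁆ = 0 := h.sb _
theorem tp_d (y : M) : ⁅tp a b c d y, d⁆ = 0 := h.sd.ryxr h.two (lie_zero_symm h.bd) _ _
theorem tp_c (y : M) : ⁅tp a b c d y, c⁆ = 0 := by rw [h.tp_sym]; exact h.s23.tp_d y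
theorem tp_yb (y w : M) : ⁅tp a b c d y, ⁅w, b⁆⁆ = 0 := h.sb.rr h.two _ _

theorem bcdab (w : M) : ⁅⁅⁅⁅⁅w, b⁆, c⁆, d⁆, a⁆, b⁆ = 0 := by
  rw [rcomm h.bc, h.sb.rxyr h.two h.bd]

theorem rho_sand {z : M} (hz : Sand z) : Sand (rho a b c z) :=
  ((hz.lie h.two h.sb).lie h.two h.sa).lie h.two h.sc
theorem pr_sand {y z : M} (hy : Sand y) (hz : Sand z) : Sand (pr a b c y z) :=
  (hy.lie h.two h.sb).lie h.two ((hz.lie h.two h.sc).lie h.two h.sa)

theorem f0 (y z : M) : ⁅tp a b c d y, rho a c d z⁆ =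
    ⁅⁅rho a b c y, d⁆, ⁅⁅rho a c d z, b⁆, a⁆⁆ := by
  have h0 : ⁅⁅rho a b c y, d⁆, rho a c d z⁆ = 0 := h.sd.rr h.two _ _
  have h1 : ⁅⁅rho a b c y, d⁆, b⁆ = 0 := by
    rw [← rcomm h.bd, rho, h.sb.ryxr h.two h.bc, zero_lie]
  have h2 : ⁅rho a c d z, a⁆ = 0 := h.sa.ryr h.two _ _
  have h3 := congrArg (fun x => ⁅⁅x, b⁆, a⁆) h0
  have h4 := congrArg (fun x => ⁅⁅x, a⁆, b⁆) h0
  simp only [zero_lie] at h3 h4
  rw [rl _ _ b, h1, zero_lie, zero_add, rl _ _ a] at h3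
  rw [rl _ _ a, h2, lie_zero, add_zero, rl _ _ b] at h4
  rw [eq_neg_of_add_eq_zero_right h3]
  exact eq_neg_of_add_eq_zero_left h4

theorem f1 (y z : M) : tp a d b c (pr a b c y z) = ⁅tp a b c d y, rho a c d z⁆ := by
  have t := h.two
  have u1 : ⁅⁅⁅⁅y, b⁆, d⁆, a⁆, b⁆ = 0 := h.sb.rxyr t h.bd _ _
  have u2 : ⁅⁅⁅y, b⁆, a⁆, b⁆ = 0 := h.sb.ryr t _ _
  have w1 : ⁅⁅⁅z, c⁆, a⁆, a⁆ = 0 := h.sa _
  have w2 : ⁅⁅⁅⁅z, c⁆, a⁆, b⁆, c⁆ = 0 := h.sc.ryxr t (lie_zero_symm h.bc) _ _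
  have w3 : ⁅⁅⁅⁅⁅z, c⁆, a⁆, d⁆, b⁆, c⁆ = 0 := by
    rw [rcomm h.bc, h.sc.ryxr t h.cd, zero_lie]
  have w4 : ∀ x, ⁅⁅⁅⁅z, c⁆, a⁆, x⁆, a⁆ = 0 := h.sa.ryr t _
  rw [h.f0, tp, pr, rho, rho]
  generalize ⁅y, b⁆ = u at *
  generalize ⁅⁅z, c⁆, a⁆ = w at *
  rw [rl u w d, add_lie, rl ⁅u, d⁆ w a, rl u ⁅w, d⁆ a, w1, w4, lie_zero, lie_zero, add_zero,
    add_zero, add_lie, rl ⁅⁅u, d⁆, a⁆ w b, rl ⁅u, a⁆ ⁅w, d⁆ b, u1, u2, zero_lie, zero_lie, zero_add,
    zero_add, add_lie, rl ⁅⁅u, d⁆, a⁆ ⁅w, b⁆ c, rl ⁅u, a⁆ ⁅⁅w, d⁆, b⁆ c, w2, w3, lie_zero, lie_zero,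
    add_zero, add_zero, add_lie, rl ⁅⁅⁅u, d⁆, a⁆, c⁆ ⁅w, b⁆ a, rl ⁅⁅u, a⁆, c⁆ ⁅⁅w, d⁆, b⁆ a,
    h.sa.ryr t, h.sa.ryr t, w4, zero_lie, zero_lie, lie_zero, zero_add, zero_add, zero_add,
    rl ⁅⁅u, a⁆, c⁆ ⁅⁅⁅w, d⁆, b⁆, a⁆ d, h.sd.rxyr t (lie_zero_symm h.bd), lie_zero, add_zero]

theorem f2 (y z : M) : ⁅tp a b c d y, rho a c d z⁆ = ⁅tp a c b d z, rho a b d y⁆ := by
  have e1 : ⁅rho a c d z, b⁆ = ⁅rho a c b z, d⁆ := (rcomm h.bd _).symm
  have e2 : ⁅rho a b d y, c⁆ = ⁅rho a b c y, d⁆ := (rcomm h.cd _).symm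
  have h0 : ⁅⁅rho a b c y, d⁆, ⁅rho a c b z, d⁆⁆ = 0 := h.sd.rr h.two _ _
  have h3 := congrArg (fun x => ⁅x, a⁆) h0
  simp only [zero_lie] at h3
  rw [rl _ _ a] at h3
  rw [h.f0, h.s12.f0, e1, e2, eq_neg_of_add_eq_zero_right h3, lie_skew]

/-- A product of a top element with a low element is a top element. -/
theorem mul_d (y z : M) : ⁅⁅tp a b c d y, rho a c d z⁆, b⁆ = 0 := by
  rw [← h.f1]; exact h.s23.s12.tp_c _

theorem i3 (g e f : M) : ⁅⁅tp a c b d g, rho a b d e⁆, rho a b c f⁆ =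
    -⁅⁅tp a c b d g, rho a b d f⁆, rho a b c e⁆ := by
  have t := h.two
  have k : ∀ e f : M, ⁅⁅tp a c b d g, rho a b d e⁆, rho a b c f⁆ =
      ⁅⁅⁅⁅tp a c b d g, ⁅⁅e, b⁆, a⁆⁆, d⁆, ⁅⁅f, b⁆, a⁆⁆, c⁆ := fun e f => by
    rw [rho.eq_1 a b c, lie_r (h.s12.mul_d g e), rho, lie_r (h.s12.tp_d g)]
  have k0 : ⁅⁅⁅e, b⁆, a⁆, ⁅⁅f, b⁆, a⁆⁆ = 0 := h.sa.rr t _ _
  have k1 : ⁅⁅tp a c b d g, ⁅⁅f, b⁆, a⁆⁆, ⁅⁅e, b⁆, a⁆⁆ = 0 := by
    rw [lie_r (h.s12.tp_a g), h.sa.rr t]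
  have k2 : ⁅⁅tp a c b d g, ⁅⁅d, ⁅⁅e, b⁆, a⁆⁆, ⁅⁅f, b⁆, a⁆⁆⁆, c⁆ = 0 := h.sc.ryr t _ _
  rw [k, k, eq_neg_iff_add_eq_zero, ← add_lie, ← neg_eq_zero, ← k2, ← neg_lie]
  congr 1
  generalize ⁅⁅e, b⁆, a⁆ = E at *
  generalize ⁅⁅f, b⁆, a⁆ = F at *
  simp only [lr, sub_lie, h.s12.tp_d, k1, zero_lie]
  abel

end D4

/-- A sandwich centralising the configuration and killing the top elements of type `b`. -/
structure Der (a b c d n : M) : Prop where
  sand : Sand n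
  na : ⁅a, n⁆ = 0
  nb : ⁅b, n⁆ = 0
  nc : ⁅c, n⁆ = 0
  nd : ⁅d, n⁆ = 0
  top : ∀ y, ⁅tp a b c d y, n⁆ = 0

/-- Inner derivations. -/
def nn (a b c d e f : M) : M := ⁅rho a b c e, rho a b d f⁆

theorem tp_cen {a b c d n : M} (na : ⁅a, n⁆ = 0) (nb : ⁅b, n⁆ = 0) (nc : ⁅c, n⁆ = 0)
    (nd : ⁅d, n⁆ = 0) (y : M) : ⁅tp a b c d y, n⁆ = tp a b c d ⁅y, n⁆ := by
  simp only [tp, rcomm na, rcomm nb, rcomm nc, rcomm nd]

theorem rho_cen {a b c n : M} (na : ⁅a, n⁆ = 0) (nb : ⁅b, n⁆ = 0) (nc : ⁅c, n⁆ = 0) (y : M) :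
    ⁅rho a b c y, n⁆ = rho a b c ⁅y, n⁆ := by
  simp only [rho, rcomm na, rcomm nb, rcomm nc]

namespace D4
variable {a b c d : M} (h : D4 a b c d)
include h

theorem der_s {n : M} (hn : Der a b c d n) : Der a b d c n :=
  ⟨hn.sand, hn.na, hn.nb, hn.nd, hn.nc, fun y => by rw [← h.tp_sym]; exact hn.top y⟩

theorem tp_rho (y e : M) : ⁅tp a b c d y, rho a b c e⁆ = 0 := by
  rw [rho, lie_r (h.tp_c y), lie_r (h.tp_a y), h.tp_yb, zero_lie, zero_lie]

theorem nn_der {e f : M} (he : Sand e) (hf : Sand f) : Der a b c d (nn a b c d e f) := by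
  have t := h.two
  refine ⟨(h.rho_sand he).lie t (h.s23.rho_sand hf), lie_zero_symm ?_, lie_zero_symm ?_,
    lie_zero_symm ?_, lie_zero_symm ?_, fun y => ?_⟩
  · rw [nn, rl, rho, rho, h.sa.ryr t, h.sa.ryr t, zero_lie, lie_zero, add_zero]
  · rw [nn, rl, rho, rho, h.sb.ryxr t h.bc, h.sb.ryxr t h.bd, zero_lie, lie_zero, add_zero]
  · rw [nn, rl, rho, h.sc, h.sc.rr t, zero_lie, add_zero]
  · rw [nn, rl, rho.eq_1 a b d, h.sd, h.sd.rr t, lie_zero, add_zero]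
  · rw [nn, lr, h.tp_rho, h.tp_sym, h.s23.tp_rho, zero_lie, zero_lie, sub_zero]

theorem nn_d (g e f : M) : ⁅tp a d b c g, nn a b c d e f⁆ =
    ⁅⁅tp a d b c g, rho a b c e⁆, rho a b d f⁆ := by
  rw [nn, lr, rho.eq_1 a b d, h.s23.s12.tp_yb, zero_lie, sub_zero]

theorem der_mul {n : M} (hn : Der a b c d n) (g e : M) :
    ⁅⁅tp a c b d g, rho a b d e⁆, n⁆ = ⁅⁅tp a c b d g, n⁆, rho a b d e⁆ := by
  rw [rl, rho_cen hn.na hn.nb hn.nd, ← h.f2, ← tp_cen hn.na hn.nb hn.nc hn.nd, hn.top, zero_lie,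
    add_zero]

theorem der_mul' {n : M} (hn : Der a b c d n) (g k : M) :
    ⁅⁅tp a c b d g, n⁆, rho a d b k⁆ = -⁅tp a c b d g, rho a d b ⁅k, n⁆⁆ := by
  have := hn.top (pr a c d g k)
  rw [h.s12.s23.f1, ← h.s12.tp_sym, rl, rho_cen hn.na hn.nd hn.nb] at this
  exact eq_neg_of_add_eq_zero_left this

theorem kill (hM : SW M) {g n n' x w : M} (hn : Sand n) (hn' : Sand n')
    (e1 : ⁅⁅tp a b c d g, n⁆, n'⁆ = tp a b c d x) (e2 : ⁅⁅tp a b c d g, n⁆, n'⁆ = ⁅w, n⁆) :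
    ⁅⁅tp a b c d g, n⁆, n'⁆ = 0 := by
  have t := h.two
  apply hM.tf
  have hb : Dg 2 b (tp a b c d x) := (h.sb.dg2 t _).symm
  have ha : Dg 1 a (tp a b c d x) := (dg_one.2 (h.tp_a x)).symm
  have hc : Dg 1 c (tp a b c d x) := (dg_one.2 (h.tp_c x)).symm
  have hd : Dg 1 d (tp a b c d x) := (dg_one.2 (h.tp_d x)).symm
  have h1 : Dg 2 n ⁅w, n⁆ := (hn.dg2 t _).symm
  have h2 : Dg 2 n' ⁅⁅tp a b c d g, n⁆, n'⁆ := (hn'.dg2 t _).symm
  rw [← e1] at ha hb hc hd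
  rw [← e2] at h1
  exact (((((((((dg_zero g _).lie hb (c := 1) le_rfl).lie ha (c := 1) le_rfl).lie hc (c := 1)
    le_rfl).lie hd (c := 1) le_rfl).lie ha (c := 1) le_rfl).lie hb (c := 2) le_rfl).lie h1 (c := 3)
    le_rfl).lie h2 le_rfl)

theorem k2 (hM : SW M) {n e f : M} (hn : Der a b c d n) (he : Sand e) (hf : Sand f) (g : M) :
    ⁅⁅⁅tp a c b d g, n⁆, rho a b d e⁆, rho a b c f⁆ = 0 := by
  have hn' := h.s23.nn_der he hf
  have e0 : ⁅⁅⁅tp a c b d g, n⁆, rho a b d e⁆, rho a b c f⁆ =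
      ⁅⁅tp a c b d g, n⁆, nn a b d c e f⁆ := by
    rw [tp_cen hn.na hn.nc hn.nb hn.nd, h.s23.nn_d]
  rw [e0]
  refine h.s12.kill hM hn.sand hn'.sand (x := ⁅⁅g, n⁆, nn a b d c e f⁆)
    (w := ⁅⁅tp a c b d g, rho a b d e⁆, rho a b c f⁆) ?_ ?_
  · rw [tp_cen hn.na hn.nc hn.nb hn.nd, tp_cen hn'.na hn'.nd hn'.nb hn'.nc]
  · rw [← e0, ← h.der_mul hn, ← h.s12.f1, h.s23.s12.s23.tp_sym, h.s23.der_mul (h.der_s hn)]

theorem k1 (hM : SW M) {n k k' : M} (hn : Der a b c d n) (hk : Sand k) (hk' : Sand k') (g : M) :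
    ⁅⁅⁅tp a c b d g, n⁆, rho a d b k⁆, rho a d c k'⁆ = 0 := by
  have h' : D4 a d b c := h.s23.s12
  have hn' := h'.nn_der hk hk'
  have e0 : ⁅⁅⁅tp a c b d g, n⁆, rho a d b k⁆, rho a d c k'⁆ =
      ⁅⁅tp a c b d g, n⁆, nn a d b c k k'⁆ := by
    rw [tp_cen hn.na hn.nc hn.nb hn.nd, h.s12.tp_sym, h'.nn_d]
  rw [e0]
  refine h.s12.kill hM hn.sand hn'.sand (x := ⁅⁅g, n⁆, nn a d b c k k'⁆)
    (w := ⁅⁅tp a c b d g, rho a d b k'⁆, rho a d c k⁆) ?_ ?_
  · rw [tp_cen hn.na hn.nc hn.nb hn.nd, tp_cen hn'.na hn'.nd hn'.nc hn'.nb]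
  · rw [← e0, h.der_mul' hn, neg_lie, h.s12.tp_sym, h'.s23.i3, neg_neg, rl _ (rho a d c k),
      rho_cen hn.na hn.nd hn.nc, ← h.s12.s23.f1, hn.top, zero_lie, zero_add]

theorem query (hM : SW M) {y : M} (hy : Sand y)
    (h1 : ∀ z, Sand z → ⁅tp a b c d y, rho a c d z⁆ = 0)
    (h2 : ∀ z, Sand z → ⁅tp a b c d y, rho a d c z⁆ = 0) : tp a b c d y = 0 := by
  have t := h.two
  apply hM.tf
  have q0 : tp a b c d y = -⁅⁅⁅⁅y, ⁅a, b⁆⁆, c⁆, d⁆, ⁅a, b⁆⁆ := by
    simp only [tp, lr, sub_lie, h.sb.ryr t, h.bcdab, ← rcomm h.bd, ← rcomm h.bc, zero_lie]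
    abel
  have hq : Sand ⁅a, b⁆ := h.sa.lie t h.sb
  have q1 : tp a b c d y = ⁅⁅y, ⁅⁅a, b⁆, c⁆⁆, ⁅⁅a, b⁆, d⁆⁆ := by
    rw [q0]
    generalize ⁅a, b⁆ = q at hq
    simp only [lr, sub_lie, hq.ryr t, hq _, zero_lie]
    abel
  have q2 : tp a b c d y = ⁅⁅⁅y, b⁆, ⁅⁅a, c⁆, d⁆⁆, ⁅a, b⁆⁆ := by
    simp only [tp, lr, sub_lie, h.sa.ryr t, h.sa _, h.sb.rxyr t h.bc, h.sb.rxyr t h.bd,
      h.sb.ryxr t h.bc, ← rcomm h.bd, ← rcomm h.bc, zero_lie]
    abel
  have q3 : ∀ w : M, ⁅⁅⁅tp a b c d y, w⁆, c⁆, d⁆ = 0 := fun w => by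
    rw [q0, neg_lie, neg_lie, neg_lie, cd_thick t h.sc h.sd h.cd, neg_zero]
  have q4 : ∀ w : M, ⁅tp a b c d y, ⁅⁅w, c⁆, d⁆⁆ = 0 := fun w => by
    rw [lie_r (h.tp_d y), lie_r (h.tp_c y), q3]
  have q5 : ⁅tp a b c d y, ⁅⁅a, c⁆, d⁆⁆ = 0 := q4 a
  have d1 : Dg 2 (tp a b c d y) ⁅⁅a, c⁆, d⁆ := dg_span hM.span q5 fun z hz => dg_one.2 (by
    have : ⁅z, ⁅⁅a, c⁆, d⁆⁆ = ⁅⁅⁅z, a⁆, c⁆, d⁆ - rho a c d z - rho a d c z + ⁅⁅⁅z, c⁆, d⁆, a⁆ := by
      simp only [rho, lr, sub_lie, rcomm h.cd]; abel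
    rw [← lie_r q5, this, lie_add, lie_sub, lie_sub, h1 z hz, h2 z hz, q4, lie_r (h.tp_a y), q4,
      zero_lie]
    simp)
  have d2 : Dg 1 (tp a b c d y) y := by
    rw [q1]; exact ((hy.dg3 t).lie (dg_zero _ _) (c := 2) le_rfl).lie (dg_zero _ _) le_rfl
  have d3 : Dg 2 (tp a b c d y) b := h.sb.dg2 t _
  have d4 : Dg 2 (tp a b c d y) ⁅a, b⁆ := by rw [q2]; exact hq.dg2 t _
  have := ((d2.symm.lie d3.symm (c := 2) le_rfl).lie d1.symm (c := 3) le_rfl).lie d4.symm (c := 4)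
    le_rfl
  rwa [← q2] at this

theorem phi_symm {n : M} (hn : Der a b c d n) (e g g' : M) :
    ⁅⁅⁅tp a c b d g, n⁆, rho a b d e⁆, rho a c b g'⁆ =
      ⁅⁅⁅tp a c b d g', n⁆, rho a b d e⁆, rho a c b g⁆ := by
  rw [← h.der_mul hn, ← h.s12.f1, h.s23.s12.s23.tp_sym, h.s23.der_mul' (h.der_s hn),
    h.s23.s12.tp_sym, h.s12.f1, ← h.f2, h.s12.i3, neg_neg, h.f2, tp_cen hn.na hn.nc hn.nb hn.nd]

theorem claimA (hM : SW M) {g n : M} (hg : Sand g) (hn : Der a b c d n) :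
    ⁅tp a c b d g, n⁆ = 0 := by
  have t := h.two
  have hs := hn.sand
  have c1 := tp_cen hn.na hn.nc hn.nb hn.nd
  have h132 := h.s23
  have h213 := h.s12
  have h231 := h.s12.s23
  have h312 := h.s23.s12
  have h321 := h.s23.s12.s23
  have hg1 := hg.lie t hs
  rw [c1]
  refine h213.query hM hg1 (fun e he => ?_) (fun k hk => ?_)
  · rw [← h213.f1]
    have hx := h213.pr_sand hg1 he
    refine h321.query hM hx (fun g' hg' => ?_) (fun f hf => ?_)
    · rw [← h321.f1]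
      refine h132.query hM (h321.pr_sand hx hg') (fun k hk => ?_) (fun g'' hg'' => ?_)
      · rw [h321.f1, h321.f2, h321.i3, ← h231.f1, h.tp_sym, h132.f2,
          h312.tp_sym, h213.f1, ← c1, h.k2 hM hn he (h231.pr_sand hg' hk), neg_zero]
      · have A : ∀ x y z, ⁅⁅⁅⁅tp a c b d x, n⁆, rho a b d e⁆, rho a c b y⁆, rho a c d z⁆ =
            -⁅⁅⁅⁅tp a c b d x, n⁆, rho a b d e⁆, rho a c b z⁆, rho a c d y⁆ := fun x y z => by
          rw [c1, ← h213.f1, h231.i3]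
        have B : ∀ x y z, ⁅⁅⁅⁅tp a c b d x, n⁆, rho a b d e⁆, rho a c b y⁆, rho a c d z⁆ =
            ⁅⁅⁅⁅tp a c b d y, n⁆, rho a b d e⁆, rho a c b x⁆, rho a c d z⁆ := fun x y z => by
          rw [h.phi_symm hn]
        rw [h321.f1, h213.f1, ← c1]
        apply t
        rw [add_eq_zero_iff_eq_neg]
        conv_lhs => rw [B, A, B, A, neg_neg, B, A]
    · rw [h213.f1, ← c1, h.k2 hM hn he hf]
  · rw [h213.tp_sym, ← h231.f1]
    refine h.query hM (h231.pr_sand hg1 hk) (fun g' hg' => ?_) (fun k' hk' => ?_)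
    · rw [h231.f1, ← h213.tp_sym, ← c1, h.der_mul' hn, h213.tp_sym, h231.f2, ← h312.tp_sym,
        ← tp_cen hn.na hn.nd hn.nb hn.nc, neg_lie, h132.k1 hM (h.der_s hn) hg hg', neg_zero]
    · rw [h231.f1, ← h213.tp_sym, ← c1, h.k1 hM hn hk hk']

theorem claimA' (hM : SW M) {g e f : M} (hg : Sand g) (he : Sand e) (hf : Sand f) :
    ⁅⁅tp a c b d g, rho a b d e⁆, rho a b c f⁆ = 0 := by
  rw [← h.s23.nn_d]
  exact h.claimA hM hg (h.s23.der_s (h.s23.nn_der he hf))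

theorem claimB (hM : SW M) {g e : M} (hg : Sand g) (he : Sand e) :
    ⁅tp a c b d g, rho a b d e⁆ = 0 := by
  rw [← h.s12.f1]
  refine h.s23.s12.s23.query hM (h.s12.pr_sand hg he) (fun g' hg' => ?_) (fun f hf => ?_)
  · rw [h.s12.f1, ← h.f2, h.s12.claimA' hM he hg hg']
  · rw [h.s12.f1, h.claimA' hM hg he hf]

theorem claimC (hM : SW M) {y : M} (hy : Sand y) : tp a b c d y = 0 :=
  h.query hM hy (fun _ hz => h.s12.claimB hM hy hz) fun _ hz => by
    rw [h.tp_sym]; exact h.s23.s12.claimB hM hy hz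

/-- There is no configuration of type `D₄`. -/
theorem phase3 (hM : SW M) : ⁅⁅⁅⁅b, a⁆, c⁆, d⁆, a⁆ = 0 := by
  have t := h.two
  apply hM.tf
  have e0 : ⁅⁅⁅⁅⁅b, a⁆, c⁆, d⁆, a⁆, b⁆ = 0 := dg_one.1
    (((((h.sb.dg3 t).lie (dg_zero a b) (c := 2) le_rfl).lie (dg_one.2 (lie_zero_symm h.bc))
      (c := 2) le_rfl).lie (dg_one.2 (lie_zero_symm h.bd)) (c := 2) le_rfl).lie (dg_zero a b) le_rfl)
  have db : Dg 2 ⁅⁅⁅⁅b, a⁆, c⁆, d⁆, a⁆ b := dg_span hM.span e0 fun y hy => dg_one.2 (by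
    have e : ⁅⁅y, ⁅⁅⁅⁅b, a⁆, c⁆, d⁆, a⁆⁆, b⁆ = tp a b c d y := by
      simp only [tp, lr, sub_lie, h.sa.ryr t, h.sa _, h.sb _, h.sb.rxyr t h.bc,
        h.sb.rxyr t h.bd, h.bcdab, h.s23.bcdab, ← rcomm h.bd, ← rcomm h.bc, zero_lie]
      abel
    rw [← lie_skew, ← lie_skew _ y, lie_neg, neg_neg, ← lie_skew, e, h.claimC hM hy, neg_zero])
  have da : Dg 2 ⁅⁅⁅⁅b, a⁆, c⁆, d⁆, a⁆ a := h.sa.dg2 t _
  have dc : Dg 1 ⁅⁅⁅⁅b, a⁆, c⁆, d⁆, a⁆ c := dg_one.2 (h.sc.rxyr t h.cd _ _)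
  have dd : Dg 1 ⁅⁅⁅⁅b, a⁆, c⁆, d⁆, a⁆ d := dg_one.2 (h.sd.ryr t _ _)
  exact (((db.symm.lie da.symm (c := 3) le_rfl).lie dc.symm (c := 3) le_rfl).lie dd.symm (c := 3)
    le_rfl).lie da.symm le_rfl

end D4

end Pool.Agent.MP38b55a

end

section

set_option autoImplicit false

namespace Pool.Agent.MP38b55a

universe u

section
variable {K : Type} [Field K] {L : Type u} [LieRing L] [LieAlgebra K L]

/-- Iterated brackets of members of `B`. -/
def T_KHer (B : Set L) : ℕ → Set L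
  | 0 => B
  | k + 1 => {c | ∃ a ∈ B, ∃ b ∈ T_KHer B k, c = ⁅a, b⁆}

theorem tc_KHer {B : Set L} (hB : TC K B) : ∀ k, TC K (T_KHer B k)
  | 0 => hB
  | k + 1 => hB.lie (tc_KHer hB k)

theorem list_KHer {B : Set L} : ∀ {k : ℕ} {c : L}, c ∈ T_KHer B k →
    ∃ (l : List L) (b : L), (∀ a ∈ l, a ∈ B) ∧ b ∈ B ∧ l.length = k ∧ c = lad l b
  | 0, c, h => ⟨[], c, by simp, h, rfl, rfl⟩
  | k + 1, _, ⟨a, ha, t, ht, rfl⟩ => by
    obtain ⟨l, b, h1, h2, h3, rfl⟩ := list_KHer ht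
    exact ⟨a :: l, b, List.forall_mem_cons.2 ⟨ha, h1⟩, h2, by rw [List.length_cons, h3], rfl⟩

theorem lad_mem_KHer {S : Submodule K L} (hS : ∀ x : L, ∀ s ∈ S, ⁅x, s⁆ ∈ S) {c : L} (hc : c ∈ S)
    (l : List L) : lad l c ∈ S := by
  induction l with
  | nil => exact hc
  | cons x l ih => exact hS x _ ih

theorem one_KHer [Infinite K] {B : Set L} (hB : TC K B) {k : ℕ}
    (h0 : ∀ c ∈ T_KHer B (k + 1), c = 0) {c : L} (hc : c ∈ T_KHer B k) : AbI c := by
  obtain ⟨l, b, -, hb, -, e⟩ := list_KHer hc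
  have hU : c ∈ Submodule.span K B :=
    e ▸ lad_mem_KHer (fun x _ => hB.ideal x) (Submodule.subset_span hb) l
  have key : ∀ u ∈ Submodule.span K B, ∀ w ∈ Submodule.span K (T_KHer B k), ⁅u, w⁆ = 0 := by
    intro u hu w hw
    induction hu using Submodule.span_induction with
    | mem a ha =>
      induction hw using Submodule.span_induction with
      | mem t ht => exact h0 _ ⟨a, ha, t, ht, rfl⟩
      | zero => exact lie_zero _
      | add x y _ _ hx hy => rw [lie_add, hx, hy, add_zero]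
      | smul r x _ hx => rw [lie_smul, hx, smul_zero]
    | zero => exact zero_lie _
    | add x y _ _ hx hy => rw [add_lie, hx, hy, add_zero]
    | smul r x _ hx => rw [smul_lie, hx, smul_zero]
  exact fun l l' => key _ (lad_mem_KHer (fun x _ => hB.ideal x) hU l) _
    (lad_mem_KHer (fun x _ => (tc_KHer hB k).ideal x) (Submodule.subset_span hc) l')

theorem snoc_KHer {S : Submodule K L} {l : List L} (hl : ∀ x ∈ l, x ∈ S) {s : L} (hs : s ∈ S) :
    ∀ x ∈ l ++ [s], x ∈ S := by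
  intro x hx
  rcases List.mem_append.1 hx with h | h
  · exact hl x h
  · rwa [List.mem_singleton.1 h]

/-- The centraliser of the ideal of `S` generated by `a`. -/
def Z_KHer (S : Submodule K L) (a x : L) : Prop :=
  ∀ l l' : List L, (∀ y ∈ l, y ∈ S) → (∀ y ∈ l', y ∈ S) → ⁅lad l a, lad l' x⁆ = 0

theorem Z_lie_KHer {S : Submodule K L} {a x s : L} (h : Z_KHer S a x) (hs : s ∈ S) :
    Z_KHer S a ⁅s, x⁆ := fun l l' hl hl' => by
  have := h l (l' ++ [s]) hl (snoc_KHer hl' hs)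
  rwa [lad_append] at this

theorem Z_lad_KHer {S : Submodule K L} (hS : ∀ x : L, ∀ s ∈ S, ⁅x, s⁆ ∈ S) {b : L} (hb : b ∈ S)
    (hb' : Z_KHer S b b) (l : List L) (hl : ∀ a ∈ l, a ∈ S ∧ Z_KHer S a a) :
    Z_KHer S b (lad l b) ∧ ∀ a ∈ l, Z_KHer S a (lad l b) := by
  induction l with
  | nil => exact ⟨hb', by simp⟩
  | cons x l ih =>
    obtain ⟨hx, hl⟩ := List.forall_mem_cons.1 hl
    obtain ⟨h1, h2⟩ := ih hl
    refine ⟨Z_lie_KHer h1 hx.1, List.forall_mem_cons.2 ⟨fun l₁ l₂ h₁ h₂ => ?_,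
      fun a ha => Z_lie_KHer (h2 a ha) hx.1⟩⟩
    change ⁅_, lad l₂ ⁅x, lad l b⁆⁆ = 0
    rw [← lie_skew x, lad_neg, lie_neg, Z_lie_KHer hx.2 (lad_mem_KHer hS hb l) l₁ l₂ h₁ h₂,
      neg_zero]

/-- Members of `S` whose ideal centralises `c`. -/
def J_KHer (S : Submodule K L) (c x : L) : Prop :=
  x ∈ S ∧ ∀ l : List L, (∀ y ∈ l, y ∈ S) → ⁅lad l x, c⁆ = 0

/-- The descending filtration. -/
def G_KHer (S : Submodule K L) (c : L) : ℕ → L → Prop
  | 0, x => x ∈ S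
  | j + 1, x => J_KHer S c x ∧ ∀ y : L, G_KHer S c j ⁅y, x⁆

variable {S : Submodule K L} {c : L}

theorem J_lie_KHer (hS : ∀ x : L, ∀ s ∈ S, ⁅x, s⁆ ∈ S) {s x : L} (hs : s ∈ S)
    (h : J_KHer S c x) : J_KHer S c ⁅s, x⁆ :=
  ⟨hS _ _ h.1, fun l hl => by
    have := h.2 (l ++ [s]) (snoc_KHer hl hs)
    rwa [lad_append] at this⟩

theorem G_mem_KHer : ∀ {j : ℕ} {x : L}, G_KHer S c j x → x ∈ S
  | 0, _, h => h
  | _ + 1, _, h => h.1.1

theorem G_add_KHer : ∀ {j : ℕ} {x y : L}, G_KHer S c j x → G_KHer S c j y → G_KHer S c j (x + y)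
  | 0, _, _, hx, hy => S.add_mem hx hy
  | _ + 1, _, _, hx, hy =>
    ⟨⟨S.add_mem hx.1.1 hy.1.1, fun l hl => by
      have h1 := hx.1.2 l hl
      have h2 := hy.1.2 l hl
      rw [lad_eq'] at h1 h2 ⊢
      rw [map_add, add_lie, h1, h2, add_zero]⟩, fun z => by
      rw [lie_add]
      exact G_add_KHer (hx.2 z) (hy.2 z)⟩

theorem G_lie_KHer (hS : ∀ x : L, ∀ s ∈ S, ⁅x, s⁆ ∈ S) {s : L} (hs : s ∈ S) :
    ∀ {j : ℕ} {x : L}, G_KHer S c j x → G_KHer S c j ⁅s, x⁆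
  | 0, _, h => hS _ _ h
  | _ + 1, _, h => ⟨J_lie_KHer hS hs h.1, fun y => by
      rw [leibniz_lie]
      exact G_add_KHer (h.2 _) (G_lie_KHer hS hs (h.2 y))⟩

theorem G_up_KHer (hS : ∀ x : L, ∀ s ∈ S, ⁅x, s⁆ ∈ S) {a : L} (ha : J_KHer S c a) {j : ℕ} :
    ∀ {x : L}, G_KHer S c j x → G_KHer S c (j + 1) ⁅a, x⁆ := by
  have hJ : ∀ x ∈ S, J_KHer S c ⁅a, x⁆ := fun x hx =>
    ⟨hS _ _ hx, fun l hl => by
      rw [← lie_skew a, lad_neg, neg_lie, (J_lie_KHer hS hx ha).2 l hl, neg_zero]⟩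
  induction j with
  | zero => exact fun h => ⟨hJ _ h, fun y => hS _ _ (hS _ _ h)⟩
  | succ j ih =>
    intro x h
    refine ⟨hJ _ h.1.1, fun y => ?_⟩
    rw [leibniz_lie]
    exact G_add_KHer (G_lie_KHer hS (hS _ _ ha.1) h) (ih (h.2 y))

theorem G_lad_KHer (hS : ∀ x : L, ∀ s ∈ S, ⁅x, s⁆ ∈ S) {b : L} (hb : J_KHer S c b) (l : List L)
    (hl : ∀ a ∈ l, J_KHer S c a) : G_KHer S c (l.length + 1) (lad l b) := by
  induction l with
  | nil => exact ⟨hb, fun y => hS _ _ hb.1⟩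
  | cons x l ih =>
    obtain ⟨hx, hl⟩ := List.forall_mem_cons.1 hl
    exact G_up_KHer hS hx (ih hl)

theorem G_down_KHer {x : L} (w : List L) :
    ∀ j : ℕ, G_KHer S c (j + w.length) x → G_KHer S c j (lad w x) := by
  induction w with
  | nil => exact fun _ h => h
  | cons y w ih =>
    intro j h
    rw [List.length_cons, ← add_assoc, add_right_comm] at h
    exact (ih _ h).2 y

end

theorem her_stmt : HerStmt.{u} := by
  intro n hp K _ _ L _ _ ht hE S hS B hB hne hBS hab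
  have key : ∀ k, (∃ c : L, c ≠ 0 ∧ AbI c) ∨ ∃ c ∈ T_KHer B k, c ≠ 0 := by
    intro k
    induction k with
    | zero => exact Or.inr hne
    | succ k ih =>
      rcases ih with h | ⟨c, hc, hc0⟩
      · exact Or.inl h
      by_cases h : ∃ c ∈ T_KHer B (k + 1), c ≠ 0
      · exact Or.inr h
      · push Not at h
        exact Or.inl ⟨c, hc0, one_KHer hB h hc⟩
  rcases key n with h | ⟨c, hc, hc0⟩
  · exact h
  obtain ⟨l, b, hl, hb, hlen, e⟩ := list_KHer hc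
  obtain ⟨h1, h2⟩ := Z_lad_KHer hS (hBS b hb) (hab b hb) l
    fun a ha => ⟨hBS a (hl a ha), hab a (hl a ha)⟩
  rw [← e] at h1 h2
  have hG : G_KHer S c (l.length + 1) (lad l b) :=
    G_lad_KHer hS ⟨hBS b hb, fun w hw => h1 w [] hw (by simp)⟩ l
      fun a ha => ⟨hBS a (hl a ha), fun w hw => h2 a ha w [] hw (by simp)⟩
  rw [← e, hlen] at hG
  refine ⟨c, hc0, abelian_of_sand (sand_all hp ht hE fun w hw => ?_)⟩
  ext x
  have h3 : G_KHer S c (n - (w.length + 1) + 1) (lad (w ++ [x]) c) := by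
    refine G_down_KHer _ _ ?_
    rwa [List.length_append, List.length_singleton,
      show n - (w.length + 1) + 1 + (w.length + 1) = n + 1 by omega]
  have h4 : ⁅lad (w ++ [x]) c, c⁆ = 0 := h3.1.2 [] (by simp)
  have h5 := lie_lad_concat c x w
  rw [lie_zero_symm h4] at h5
  exact neg_eq_zero.1 h5.symm

end Pool.Agent.MP38b55a

end

section

set_option autoImplicit false

namespace Pool.Agent.MP38b55a

universe u

open scoped TensorProduct

theorem coeff_low_KDesc {F : Type} [Field F] {k k' : HahnSeries ℤ F} {m : ℤ}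
    (h : ∀ j < m, k.coeff j = 0) (h' : ∀ j < m, k'.coeff j = 0) :
    (k * k').coeff (m + m) = k.coeff m * k'.coeff m := by
  rw [HahnSeries.coeff_mul, Finset.sum_eq_single (m, m)]
  · rintro ⟨a, b⟩ hab hne
    have e : a + b = m + m := (Finset.mem_antidiagonal.1 hab).2.2
    by_cases ha : a < m
    · rw [h a ha, zero_mul]
    · have hb : b < m := by
        by_contra hb
        exact hne (Prod.ext (by simp only; omega) (by simp only; omega))
      rw [h' b hb, mul_zero]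
  · intro hn
    by_contra h0
    exact hn (Finset.mem_antidiagonal.2
      ⟨left_ne_zero_of_mul h0, right_ne_zero_of_mul h0, rfl⟩)

section
variable {F K : Type} [Field F] [Field K] [Algebra F K] {L : Type u} [LieRing L] [LieAlgebra F L]

theorem lad_tmul_KDesc {ι : Type} [Fintype ι] (k : ι → K) (x : ι → L) (l : List ι) (k₀ : K)
    (y : L) : lad (l.map fun i => k i ⊗ₜ[F] x i) (k₀ ⊗ₜ[F] y) =
      ((l.map k).prod * k₀) ⊗ₜ[F] lad (l.map x) y := by
  induction l with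
  | nil => simp [lad]
  | cons i l ih =>
    have e : lad ((i :: l).map fun i => k i ⊗ₜ[F] x i) (k₀ ⊗ₜ[F] y) =
      ⁅k i ⊗ₜ[F] x i, lad (l.map fun i => k i ⊗ₜ[F] x i) (k₀ ⊗ₜ[F] y)⁆ := rfl
    rw [e, ih, LieAlgebra.ExtendScalars.bracket_tmul, List.map_cons, List.prod_cons, mul_assoc]
    rfl

theorem engel_KDesc {n : ℕ} (hE : EngelLin n L) : EngelLin n (K ⊗[F] L) := by
  refine engel_of_gen {t | ∃ (k : K) (x : L), k ⊗ₜ[F] x = t} ?_ fun t ht y hy => ?_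
  · rw [eq_top_iff]
    rintro c -
    induction c using TensorProduct.induction_on with
    | zero => exact zero_mem _
    | tmul k x => exact Submodule.subset_span ⟨k, x, rfl⟩
    | add a b ha hb => exact add_mem ha hb
  · choose k x hkx using ht
    obtain ⟨k₀, y, rfl⟩ := hy
    have e : ∀ σ : Equiv.Perm (Fin n), lad (List.ofFn fun i => t (σ i)) (k₀ ⊗ₜ[F] y) =
        ((∏ i, k i) * k₀) ⊗ₜ[F] lad (List.ofFn fun i => x (σ i)) y := fun σ => by
      have h := lad_tmul_KDesc (F := F) k x (List.ofFn σ) k₀ y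
      simp only [List.map_ofFn, Function.comp_def, hkx, List.prod_ofFn] at h
      rw [h, Equiv.prod_comp σ k]
    rw [Finset.sum_congr rfl fun σ _ => e σ, ← TensorProduct.tmul_sum, hE, TensorProduct.tmul_zero]

theorem lad_sum_KDesc {ι : Type u} (s : Finset ι) (k : ι → K) (y : ι → L) (l : List L) :
    lad (l.map fun x => (1 : K) ⊗ₜ[F] x) (∑ i ∈ s, k i ⊗ₜ[F] y i) =
      ∑ i ∈ s, k i ⊗ₜ[F] lad l (y i) := by
  induction l with
  | nil => rfl
  | cons x l ih =>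
    have e : lad ((x :: l).map fun x => (1 : K) ⊗ₜ[F] x) (∑ i ∈ s, k i ⊗ₜ[F] y i) =
      ⁅(1 : K) ⊗ₜ[F] x, lad (l.map fun x => (1 : K) ⊗ₜ[F] x) (∑ i ∈ s, k i ⊗ₜ[F] y i)⁆ := rfl
    rw [e, ih, lie_sum]
    refine Finset.sum_congr rfl fun i _ => ?_
    rw [LieAlgebra.ExtendScalars.bracket_tmul, one_mul]
    rfl

theorem lad_smul_KDesc {ι : Type u} (s : Finset ι) (a : ι → F) (y : ι → L) (l : List L) :
    lad l (∑ i ∈ s, a i • y i) = ∑ i ∈ s, a i • lad l (y i) := by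
  induction l with
  | nil => rfl
  | cons x l ih =>
    have e : lad (x :: l) (∑ i ∈ s, a i • y i) = ⁅x, lad l (∑ i ∈ s, a i • y i)⁆ := rfl
    rw [e, ih, lie_sum]
    refine Finset.sum_congr rfl fun i _ => ?_
    rw [lie_smul]
    rfl

end

theorem desc_gen_KDesc {n : ℕ} (h : AIK.{u} n) (F K : Type) [Field F] [Field K] [Infinite K]
    [Algebra F K] (cf : ℤ → K →ₗ[F] F) (od : K → ℤ) (h1 : cf 0 1 = 1)
    (h2 : ∀ k j, j < od k → cf j k = 0) (h3 : ∀ k, k ≠ 0 → cf (od k) k ≠ 0)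
    (h4 : ∀ k k' m, (∀ j < m, cf j k = 0) → (∀ j < m, cf j k' = 0) →
      cf (m + m) (k * k') = cf m k * cf m k') (L : Type u) [LieRing L]
    [LieAlgebra F L] (ht : ∀ x : L, (n + 1) • x = 0) (hE : EngelLin n L) (a : L) (ha : a ≠ 0) :
    ∃ c : L, c ≠ 0 ∧ AbI c := by
  classical
  let φ : ℤ → K ⊗[F] L →ₗ[F] L := fun m => TensorProduct.lift ((LinearMap.lsmul F L).comp (cf m))
  have hφ : ∀ m k x, φ m (k ⊗ₜ[F] x) = cf m k • x := fun m k x => rfl
  have ht' : ∀ x : K ⊗[F] L, (n + 1) • x = 0 := fun x => by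
    induction x using TensorProduct.induction_on with
    | zero => exact smul_zero _
    | tmul k x => rw [← TensorProduct.tmul_smul, ht, TensorProduct.tmul_zero]
    | add a b ha hb => rw [smul_add, ha, hb, add_zero]
  have ha' : (1 : K) ⊗ₜ[F] a ≠ 0 := fun e => by
    have e' := congrArg (φ 0) e
    rw [hφ, map_zero, h1, one_smul] at e'
    exact ha e'
  obtain ⟨c, hc, hab⟩ := h K (K ⊗[F] L) ht' (engel_KDesc hE) _ ha'
  let b := Module.Basis.ofVectorSpace F L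
  let B := Algebra.TensorProduct.basis K b
  obtain ⟨k, hk⟩ : ∃ k, k = B.repr c := ⟨_, rfl⟩
  have hk0 : k ≠ 0 := fun e => hc (B.repr.injective (by rw [← hk, e, map_zero]))
  have hck : c = ∑ i ∈ k.support, k i ⊗ₜ[F] b i := by
    conv_lhs => rw [← B.linearCombination_repr c, ← hk, Finsupp.linearCombination_apply,
      Finsupp.sum]
    exact Finset.sum_congr rfl fun i _ => Algebra.TensorProduct.basis_repr_symm_apply' b _ i
  obtain ⟨i₀, hi₀, hmin⟩ := k.support.exists_min_image (fun i => od (k i))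
    (Finsupp.support_nonempty_iff.2 hk0)
  have hlow : ∀ i ∈ k.support, ∀ j < od (k i₀), cf j (k i) = 0 := fun i hi j hj =>
    h2 _ _ (hj.trans_le (hmin i hi))
  refine ⟨∑ i ∈ k.support, cf (od (k i₀)) (k i) • b i, fun e => ?_, fun l l' => ?_⟩
  · exact h3 _ (Finsupp.mem_support_iff.1 hi₀)
      (linearIndependent_iff'.1 b.linearIndependent _ _ e i₀ hi₀)
  · have e := congrArg (φ (od (k i₀) + od (k i₀)))
      (hab (l.map fun x => (1 : K) ⊗ₜ[F] x) (l'.map fun x => 1 ⊗ₜ[F] x))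
    rw [hck, lad_sum_KDesc, lad_sum_KDesc, map_zero, sum_lie, map_sum] at e
    rw [lad_smul_KDesc, lad_smul_KDesc, sum_lie, ← e]
    refine Finset.sum_congr rfl fun i hi => ?_
    rw [lie_sum, lie_sum, map_sum]
    refine Finset.sum_congr rfl fun j hj => ?_
    rw [LieAlgebra.ExtendScalars.bracket_tmul, hφ, h4 _ _ _ (hlow i hi) (hlow j hj),
      smul_lie, lie_smul, mul_smul]

theorem desc_field_KDesc {n : ℕ} (h : AIK.{u} n) (F : Type) [Field F] (L : Type u) [LieRing L]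
    [LieAlgebra F L] (ht : ∀ x : L, (n + 1) • x = 0) (hE : EngelLin n L) (a : L) (ha : a ≠ 0) :
    ∃ c : L, c ≠ 0 ∧ AbI c := by
  have hinf : Infinite (HahnSeries ℤ F) :=
    Infinite.of_injective (fun j : ℤ => HahnSeries.single j (1 : F)) fun i j e => by
      by_contra hne
      have e' := congrArg (fun s : HahnSeries ℤ F => s.coeff i) e
      simp only [HahnSeries.coeff_single_same, HahnSeries.coeff_single_of_ne hne] at e'
      exact one_ne_zero e'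
  exact @desc_gen_KDesc n h F (HahnSeries ℤ F) _ _ hinf HahnSeries.instAlgebra
    (fun m => HahnSeries.coeff.linearMap m) HahnSeries.order
    (HahnSeries.coeff_single_same 0 (1 : F)) (fun _ _ hj => HahnSeries.coeff_eq_zero_of_lt_order hj)
    (fun _ hk => HahnSeries.coeff_order_eq_zero.not.2 hk)
    (fun _ _ _ hk hk' => coeff_low_KDesc hk hk') L _ _ ht hE a ha

theorem desc_stmt : DescStmt.{u} := by
  intro n hp h L _ ht hE a ha
  have : Fact (n + 1).Prime := ⟨hp⟩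
  let _ : Module (ZMod (n + 1)) L := AddCommGroup.zmodModule ht
  let _ : LieAlgebra (ZMod (n + 1)) L :=
    { lie_smul := fun t x y => by
        obtain ⟨k, rfl⟩ := ZMod.natCast_zmod_surjective t
        rw [Nat.cast_smul_eq_nsmul, Nat.cast_smul_eq_nsmul, lie_nsmul] }
  exact desc_field_KDesc h (ZMod (n + 1)) L ht hE a ha

end Pool.Agent.MP38b55a

end
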